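import Pool.Agent.K1H11.NS.SmallData
import Pool.Agent.K1H11.NS.Wien2

/-!
# Approximate solutions and exact solutions, without weights
-/

open MeasureTheory Set Filter Topology
open scoped ENNReal NNReal

namespace Pool.Agent.K1H11.NS

/-- Rapidly decreasing sequences of real numbers. -/
def RR (b : K → ℝ) : Prop := ∀ m : ℕ, Summable fun k => pw k ^ m * b k

/-- The infinite triangle inequality in `L²`. -/
lemma LN_tsum {φ : K → ℝ → ℝ≥0∞} (h : ∀ k, Measurable (φ k)) :
    LN (fun t => ∑' k, φ k t) ≤ ∑' k, LN (φ k) := by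
  have e : ∀ f g : K → ℝ≥0∞, (∑' k, f k) * (∑' l, g l) = ∑' k, ∑' l, f k * g l := by
    intro f g
    rw [← ENNReal.tsum_mul_right]
    exact tsum_congr fun k => ENNReal.tsum_mul_left.symm
  have h1 : ∫⁻ t in Ioi 0, (∑' k, φ k t) ^ (2 : ℝ) ≤ (∑' k, LN (φ k)) ^ (2 : ℝ) := by
    rw [ENNReal.rpow_two (x := ∑' k, LN (φ k)), pow_two, e]
    calc ∫⁻ t in Ioi 0, (∑' k, φ k t) ^ (2 : ℝ)
        = ∫⁻ t in Ioi 0, ∑' k, ∑' l, φ k t * φ l t := by
          refine lintegral_congr fun t => ?_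
          rw [ENNReal.rpow_two, pow_two, e]
      _ = ∑' k, ∑' l, ∫⁻ t in Ioi 0, φ k t * φ l t := by
          rw [lintegral_tsum]
          · refine tsum_congr fun k => ?_
            rw [lintegral_tsum]
            intro l
            exact ((h k).mul (h l)).aemeasurable
          · intro k
            exact (Measurable.tsum fun l => (h k).mul (h l)).aemeasurable
      _ ≤ _ := ENNReal.tsum_le_tsum fun k => ENNReal.tsum_le_tsum fun l => LN_cs (h k) (h l)
  unfold LN at h1 ⊢
  refine (ENNReal.rpow_le_rpow h1 (by norm_num : (0 : ℝ) ≤ 1 / 2)).trans (le_of_eq ?_)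
  rw [← ENNReal.rpow_mul]
  norm_num

lemma RR.add {b b' : K → ℝ} (h : RR b) (h' : RR b') : RR fun k => b k + b' k := fun m =>
  ((h m).add (h' m)).congr fun k => by ring

lemma RR.mul {b : K → ℝ} (h : RR b) (c : ℝ) : RR fun k => c * b k := fun m =>
  ((h m).mul_left c).congr fun k => by ring

lemma RR.mono {b b' : K → ℝ} (h : RR b) (h0 : ∀ k, 0 ≤ b' k) (hle : ∀ k, b' k ≤ b k) : RR b' := fun m =>
  (h m).of_nonneg_of_le (fun k => mul_nonneg (pow_pos (pw_pos k) m).le (h0 k))
    fun k => mul_le_mul_of_nonneg_left (hle k) (pow_pos (pw_pos k) m).le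

lemma RR.summ {b : K → ℝ} (h : RR b) : Summable b := (h 0).congr fun k => by simp

lemma RR.pw {b : K → ℝ} (h : RR b) (n : ℕ) : RR fun k => pw k ^ n * b k := fun m =>
  (h (m + n)).congr fun k => by ring

/-- Solutions decrease rapidly. -/
lemma Sol.rap {c : ℝ} {a : Wt} (ha : Sup a) {V : K → C3} {u : Fam} (h : Sol c a V u) :
    ∃ b : K → ℝ, (∀ k, 0 ≤ b k) ∧ RR b ∧ (∀ k t, ‖u k t‖ ≤ b k) ∧
      ∀ k, LN (fun t => ‖u k t‖ₑ) ≤ ENNReal.ofReal (b k) := by
  obtain ⟨b1, hb1, hb1'⟩ := h.dom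
  have hb0 : ∀ k, 0 ≤ b1 k := fun k => (norm_nonneg _).trans (hb1' k 0)
  set L := LN (fun t => NW (Wa a) (at' u t)) with hL
  have hLt : L ≠ ⊤ := h.l2
  have r1 : RR b1 := by
    intro m
    obtain ⟨C, hC, hC'⟩ := ha.sup m
    refine (hb1.mul_left C).of_nonneg_of_le (fun k => mul_nonneg (pow_pos (pw_pos k) m).le (hb0 k)) fun k => ?_
    rw [← mul_assoc]
    exact mul_le_mul_of_nonneg_right (hC' k) (hb0 k)
  have r2 : RR fun k => L.toReal * (1 / om a k) := by
    apply RR.mul
    intro m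
    obtain ⟨C, hC, hC'⟩ := ha.sup (m + 6)
    refine (summ_pw.mul_left C).of_nonneg_of_le (fun k => ?_) fun k => ?_
    · have := om_pos a k
      have := pw_pos k
      positivity
    · have h1 := om_pos a k
      have h2 := pw_pos k
      rw [mul_one_div, mul_one_div, div_le_div_iff₀ h1 (by positivity), ← pow_add]
      exact hC' k
  refine ⟨fun k => b1 k + L.toReal * (1 / om a k), fun k => ?_, r1.add r2, fun k t => ?_, fun k => ?_⟩
  · have := om_pos a k
    have := hb0 k
    positivity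
  · have := om_pos a k
    have h3 : 0 ≤ L.toReal * (1 / om a k) := by positivity
    linarith [hb1' k t]
  · have h1 := om_pos a k
    have h2 : ENNReal.ofReal (om a k) * LN (fun t => ‖u k t‖ₑ) ≤ L := by
      rw [← LN_const_mul _ (h.cf k).enorm.measurable]
      exact LN_mono fun t _ => ENNReal.le_tsum (f := fun k => Wa a k * ‖at' u t k‖ₑ) k
    have h3 : LN (fun t => ‖u k t‖ₑ) ≤ ENNReal.ofReal (L.toReal * (1 / om a k)) := by
      rw [ENNReal.ofReal_mul ENNReal.toReal_nonneg, ENNReal.ofReal_toReal hLt, one_div,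
        ENNReal.ofReal_inv_of_pos h1]
      rw [← div_eq_mul_inv, ENNReal.le_div_iff_mul_le (Or.inl (by simpa using h1))
        (Or.inl ENNReal.ofReal_ne_top), mul_comm]
      exact h2
    refine h3.trans (ENNReal.ofReal_le_ofReal ?_)
    have := hb0 k
    linarith

/-- the norm of `L²((0,∞); ℓ¹)` -/
noncomputable def XN (u : Fam) : ℝ≥0∞ := LN (fun t => NW (Wa Wt.one) (at' u t))

lemma Wa_one (k : K) : Wa Wt.one k = 1 := by
  unfold Wa om
  simp [Wt.one]

/-- The weighted norm and the norm without weight. -/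
lemma LN_weight {a : Wt} {U : Fam} (hU : CF U) {b : K → ℝ} (hb : ∀ k, 0 ≤ b k)
    (hL : ∀ k, LN (fun t => ‖U k t‖ₑ) ≤ ENNReal.ofReal (b k))
    (hs : Summable fun k => (om a k - 1) * b k) :
    LN (fun t => NW (Wa a) (at' U t)) ≤ XN U + ENNReal.ofReal (∑' k, (om a k - 1) * b k) := by
  have h1 : ∀ t, NW (Wa a) (at' U t) = NW (Wa Wt.one) (at' U t) +
      ∑' k, ENNReal.ofReal (om a k - 1) * ‖U k t‖ₑ := by
    intro t
    unfold NW
    rw [← ENNReal.tsum_add]
    refine tsum_congr fun k => ?_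
    show Wa a k * ‖U k t‖ₑ = Wa Wt.one k * ‖U k t‖ₑ + ENNReal.ofReal (om a k - 1) * ‖U k t‖ₑ
    rw [Wa_one, ← add_mul]
    congr 1
    unfold Wa
    have := a.one_le k
    have h2 : om a k = 1 + (om a k - 1) := by ring
    have h3 : 0 ≤ om a k - 1 := by
      have : 1 ≤ om a k := this
      linarith
    conv_lhs => rw [h2]
    rw [ENNReal.ofReal_add zero_le_one h3, ENNReal.ofReal_one]
  simp_rw [h1]
  have m1 : ∀ k, Measurable fun t => ENNReal.ofReal (om a k - 1) * ‖U k t‖ₑ := fun k =>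
    ((hU k).enorm.measurable).const_mul _
  refine (LN_add_le (NW_meas _ hU) (Measurable.tsum m1)).trans (add_le_add le_rfl ?_)
  refine (LN_tsum m1).trans ?_
  have hom : ∀ k, 0 ≤ om a k - 1 := fun k => sub_nonneg.2 (a.one_le k)
  rw [ENNReal.ofReal_tsum_of_nonneg (fun k => mul_nonneg (hom k) (hb k)) hs]
  refine ENNReal.tsum_le_tsum fun k => ?_
  rw [LN_const_mul _ (hU k).enorm.measurable, ENNReal.ofReal_mul (hom k)]
  exact mul_le_mul' le_rfl (hL k)

/-- Approximate solutions with small residual are close to exact solutions. -/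
theorem approx {c D τ : ℝ} (hc : 0 < c) (hD : 0 < D) (hτ : 0 < τ) : ∃ η : ℝ, 0 < η ∧
    ∀ (V : K → C3) (U FE : Fam) (b e : K → ℝ), CF U → SymF U → (∀ t, U 0 t = 0) →
      (∀ k, 0 ≤ b k) → RR b → (∀ k t, ‖U k t‖ ≤ b k) →
      (∀ k, LN (fun t => ‖U k t‖ₑ) ≤ ENNReal.ofReal (b k)) → XN U ≤ ENNReal.ofReal D →
      CF FE → SymF FE → (∀ t, FE 0 t = 0) → (∀ k, 0 ≤ e k) → RR e →
      (∀ k, ∫⁻ t in Ioi 0, ‖FE k t‖ₑ ≤ ENNReal.ofReal (e k)) → ∑' k, e k / nk k ≤ η →
      (∀ k t, U k t = Real.exp (-(c * sq k * max t 0)) • V k + Duh c (Bt U - FE) k t) →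
      ∃ a : Wt, Sup a ∧ ∃ u : Fam, Sol c a V u ∧ XN (u - U) ≤ ENNReal.ofReal τ := by
  have hD1 : 0 < D + 1 := by linarith
  obtain ⟨Lam, ρ0, hp0⟩ := exists_par hc hD1
  have hρ0 := hp0.hρ
  set ρ := min ρ0 (Real.exp (-(Lam * (D + 1) ^ 2)) * τ)
  have hρ : 0 < ρ := lt_min hρ0 (by positivity)
  have hp : Par c (D + 1) Lam ρ := hp0.mono hρ (min_le_left _ _)
  have hρτ : Real.exp (Lam * (D + 1) ^ 2) * ρ ≤ τ := by
    have h1 : ρ ≤ Real.exp (-(Lam * (D + 1) ^ 2)) * τ := min_le_right _ _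
    calc Real.exp (Lam * (D + 1) ^ 2) * ρ
        ≤ Real.exp (Lam * (D + 1) ^ 2) * (Real.exp (-(Lam * (D + 1) ^ 2)) * τ) :=
          mul_le_mul_of_nonneg_left h1 (Real.exp_pos _).le
      _ = _ := by rw [← mul_assoc, ← Real.exp_add]; simp
  set sc := Real.sqrt c
  have hsc : 0 < sc := Real.sqrt_pos.2 hc
  have hsc2 : sc ^ 2 = c := Real.sq_sqrt hc.le
  set η := sc * (ρ / 2) / 2 with hη
  have hη0 : 0 < η := by positivity
  have hη2 : (2 * η) ^ 2 ≤ c * (ρ / 2) ^ 2 := by
    apply le_of_eq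
    rw [← hsc2, hη]; ring
  refine ⟨η, hη0, fun V U FE b e hU hUs hU0 hb0 hb hUb hUL hUX hF hFs hF0 he0 he hFe hesum heq => ?_⟩
  -- the weight
  set f : K → ℝ := fun k => b k + e k
  have hf0 : ∀ k, 0 ≤ f k := fun k => add_nonneg (hb0 k) (he0 k)
  have hfr : RR f := hb.add he
  obtain ⟨a, ha, -, hs2, hsum⟩ := exists_weight hf0 hfr (lt_min one_pos hη0)
  have hfs : Summable f := hfr.summ
  have hom : ∀ k, 1 ≤ om a k := fun k => a.one_le k
  have hsub : Summable fun k => (om a k - 1) * f k := (hs2.sub hfs).congr fun k => by ring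
  have hsub' : ∑' k, (om a k - 1) * f k ≤ min 1 η := by
    have : ∑' k, (om a k - 1) * f k = ∑' k, om a k * f k - ∑' k, f k := by
      rw [← hs2.tsum_sub hfs]
      exact tsum_congr fun k => by ring
    rw [this]; linarith
  have hb1 : Summable fun k => (om a k - 1) * b k := hsub.of_nonneg_of_le
    (fun k => mul_nonneg (by linarith [hom k]) (hb0 k))
    fun k => mul_le_mul_of_nonneg_left (by simp only [f]; linarith [he0 k]) (by linarith [hom k])
  have hb2 : ∑' k, (om a k - 1) * b k ≤ 1 := (hb1.tsum_le_tsum (fun k =>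
    mul_le_mul_of_nonneg_left (by simp only [f]; linarith [he0 k]) (by linarith [hom k])) hsub).trans
      (hsub'.trans (min_le_left _ _))
  have hob : Summable fun k => om a k * b k := hs2.of_nonneg_of_le
    (fun k => mul_nonneg (om_pos a k).le (hb0 k))
    fun k => mul_le_mul_of_nonneg_left (by simp only [f]; linarith [he0 k]) (om_pos a k).le
  -- the function A
  set A : ℝ → ℝ := fun t => ∑' k, om a k * ‖U k t‖
  have hAs : ∀ t, Summable fun k => om a k * ‖U k t‖ := fun t =>
    hob.of_nonneg_of_le (fun k => mul_nonneg (om_pos a k).le (norm_nonneg _))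
      fun k => mul_le_mul_of_nonneg_left (hUb k t) (om_pos a k).le
  have hAc : Continuous A := by
    refine continuous_tsum (fun k => continuous_const.mul (hU k).norm) hob fun k t => ?_
    rw [Real.norm_of_nonneg (mul_nonneg (om_pos a k).le (norm_nonneg _))]
    exact mul_le_mul_of_nonneg_left (hUb k t) (om_pos a k).le
  have hA0 : ∀ t, 0 ≤ A t := fun t => tsum_nonneg fun k => mul_nonneg (om_pos a k).le (norm_nonneg _)
  have hNA : ∀ t, NW (Wa a) (at' U t) = ENNReal.ofReal (A t) := by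
    intro t
    simp only [A]
    rw [ENNReal.ofReal_tsum_of_nonneg (fun k => mul_nonneg (om_pos a k).le (norm_nonneg _)) (hAs t)]
    unfold NW Wa
    refine tsum_congr fun k => ?_
    rw [← ofReal_norm, ← ENNReal.ofReal_mul (om_pos a k).le]
    rfl
  have hAi : LN (fun t => ENNReal.ofReal (A t)) ≤ ENNReal.ofReal (D + 1) := by
    simp_rw [← hNA]
    refine (LN_weight hU hb0 hUL hb1).trans ?_
    rw [ENNReal.ofReal_add hD.le zero_le_one]
    exact add_le_add hUX (ENNReal.ofReal_le_ofReal hb2)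
  have hUd : Dom U := ⟨b, hb.summ, hUb⟩
  -- the residual
  have hen : ∀ k, e k / nk k ≤ e k := by
    intro k
    by_cases hk : k = 0
    · subst hk; simp [nk_zero, he0]
    · exact div_le_self (he0 k) (one_le_nk hk)
  have hes : Summable fun k => e k / nk k :=
    he.summ.of_nonneg_of_le (fun k => div_nonneg (he0 k) (nk_nonneg k)) hen
  have he1 : Summable fun k => (om a k - 1) * (e k / nk k) := hsub.of_nonneg_of_le
    (fun k => mul_nonneg (by linarith [hom k]) (div_nonneg (he0 k) (nk_nonneg k)))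
    fun k => mul_le_mul_of_nonneg_left ((hen k).trans (by simp only [f]; linarith [hb0 k]))
      (by linarith [hom k])
  have he2 : ∑' k, (om a k - 1) * (e k / nk k) ≤ η := (he1.tsum_le_tsum (fun k =>
    mul_le_mul_of_nonneg_left ((hen k).trans (by simp only [f]; linarith [hb0 k]))
      (by linarith [hom k])) hsub).trans (hsub'.trans (min_le_right _ _))
  have hFi : ∫⁻ s in Ioi 0, NW (Wm a) (at' FE s) ≤ ENNReal.ofReal (2 * η) := by
    unfold NW
    have m0 : ∀ k, AEMeasurable (fun s => Wm a k * ‖at' FE s k‖ₑ) (volume.restrict (Ioi 0)) := fun k =>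
      (((hF k).enorm.measurable).const_mul (Wm a k)).aemeasurable
    rw [lintegral_tsum m0]
    calc ∑' k, ∫⁻ s in Ioi 0, Wm a k * ‖at' FE s k‖ₑ
        ≤ ∑' k, ENNReal.ofReal (om a k * (e k / nk k)) := by
          refine ENNReal.tsum_le_tsum fun k => ?_
          have m1 : Measurable fun s => ‖at' FE s k‖ₑ := (hF k).enorm.measurable
          rw [lintegral_const_mul _ m1]
          have h1 : om a k * (e k / nk k) = (om a k / nk k) * e k := by ring
          rw [h1, ENNReal.ofReal_mul (div_nonneg (om_pos a k).le (nk_nonneg k))]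
          exact mul_le_mul' le_rfl (hFe k)
      _ = ENNReal.ofReal (∑' k, om a k * (e k / nk k)) := by
          rw [ENNReal.ofReal_tsum_of_nonneg (fun k => mul_nonneg (om_pos a k).le
            (div_nonneg (he0 k) (nk_nonneg k)))]
          exact (he1.add hes).congr fun k => by ring
      _ ≤ _ := by
          apply ENNReal.ofReal_le_ofReal
          have h1 : ∑' k, om a k * (e k / nk k) = ∑' k, (om a k - 1) * (e k / nk k) + ∑' k, e k / nk k := by
            rw [← he1.tsum_add hes]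
            exact tsum_congr fun k => by ring
          rw [h1]; linarith
  obtain ⟨r, M, hM, hrc, hr0, hrM, hrL, hrfix, hrs⟩ := exist hp ha hAc hA0 hAi hU hUd hUs
    (fun t _ => (hNA t).le) hF hFs hF0 (by positivity) hη2 hFi
  have hrb : ∀ k t, ‖r k t‖ ≤ M * (nk k / om a k) := fun k t => norm_le_of_NWm hM (hr0 t) (hrM t) k
  set a' := a.sqrt
  have ha' : Sup a' := ha.sqrt
  have hb1 : Summable fun k => om a' k * b k :=
    hob.of_nonneg_of_le (fun k => mul_nonneg (om_pos a' k).le (hb0 k))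
      fun k => mul_le_mul_of_nonneg_right (a.sqrt_le k) (hb0 k)
  have hb2 : Summable fun k => om a' k * (M * (nk k / om a k)) := by
    refine ((summ_nk ha').mul_left M).congr fun k => ?_
    rw [← a.sqrt_sq k]
    have := om_pos a' k
    show M * (nk k / om a' k) = om a' k * (M * (nk k / (om a' k * om a' k)))
    field_simp
  have hrd : Dom r := ⟨_, (summ_nk ha).mul_left M, hrb⟩
  have hUrc : CF (U + r) := fun k => (hU k).add (hrc k)
  have hBU : CF (Bt U) := Bt_cont hU hUd
  have hBUr : CF (Bt (U + r)) := Bt_cont hUrc (hUd.add hrd)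
  have hone : ∀ k, om Wt.one k ≤ om a k := fun k => a.one_le k
  refine ⟨a', ha', U + r, ⟨hUrc, ?_, fun t => (hUs t).add (hrs t), ?_, ?_, ?_⟩, ?_⟩
  · intro t
    show U 0 t + r 0 t = 0
    rw [hr0, hU0, add_zero]
  · refine ⟨fun k => b k + M * (nk k / om a k), ?_, fun k t => ?_⟩
    · refine (hb1.add hb2).congr fun k => ?_
      ring
    · exact (norm_add_le _ _).trans (add_le_add (hUb k t) (hrb k t))
  · have m1 : Measurable fun t => NW (Wa a') (at' U t) := NW_meas _ hU
    have m2 : Measurable fun t => NW (Wa a') (at' r t) := NW_meas _ hrc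
    have g1 : LN (fun t => NW (Wa a') (at' U t)) ≠ ⊤ := by
      refine ne_top_of_le_ne_top ENNReal.ofReal_ne_top ((LN_mono fun t ht => ?_).trans hAi)
      rw [← hNA]
      exact NW_mono (fun k => Wa_mono a.sqrt_le k) _
    have g2 : LN (fun t => NW (Wa a') (at' r t)) ≠ ⊤ :=
      ne_top_of_le_ne_top (ENNReal.mul_ne_top ENNReal.ofReal_ne_top
        (ne_top_of_le_ne_top ENNReal.ofReal_ne_top hrL))
        (LN_le_LF hp.hL.le hD1.le hAc hA0 hAi a.sqrt_le hrc)
    refine ne_top_of_le_ne_top (ENNReal.add_ne_top.2 ⟨g1, g2⟩) ((LN_mono fun t _ => ?_).trans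
      (LN_add_le m1 m2))
    exact NW_add_le _ _ _
  · intro k t
    have h1 : CF (Bt U - FE) := fun k => (hBU k).sub (hF k)
    have h2 : CF (FE + (Bt (U + r) - Bt U)) := fun k => (hF k).add ((hBUr k).sub (hBU k))
    have h3 : Duh c (Bt (U + r)) = Duh c (Bt U - FE) + Duh c (FE + (Bt (U + r) - Bt U)) := by
      rw [← Duh_add h1 h2]
      congr 1
      abel
    rw [h3, ← hrfix]
    show U k t + r k t = _ + (Duh c (Bt U - FE) k t + r k t)
    rw [heq k t, add_assoc]
  · have h1 : U + r - U = r := by abel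
    rw [h1]
    unfold XN
    refine (LN_le_LF hp.hL.le hD1.le hAc hA0 hAi hone hrc).trans ((mul_le_mul' le_rfl hrL).trans ?_)
    rw [← ENNReal.ofReal_mul (Real.exp_pos _).le]
    exact ENNReal.ofReal_le_ofReal hρτ

end Pool.Agent.K1H11.NS
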