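import Pool.Agent.K1H11.NS2.Prof
import Pool.Agent.K1H11.NS.Lus

/-!
# Cut-off functions supported near walls
-/

open MeasureTheory Set Filter Topology
open scoped ENNReal NNReal ContDiff

namespace Pool.Agent.K1H11.NS

open H459R3.NS (ee fc fr cube S SP Per pd D Rap)

/-- A smooth periodic function supported near the integers. -/
structure Cut (η : ℝ) (g : ℝ → ℝ) : Prop where
  smooth : ContDiff ℝ ∞ g
  per : ∀ y, g (y + 1) = g y
  nonneg : ∀ y, 0 ≤ g y
  supp : ∀ y : ℝ, (∀ m : ℤ, η < |y - m|) → g y = 0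
  int : ∫ y in (0 : ℝ)..1, g y ^ 2 = 1

theorem exists_cut {η : ℝ} (h0 : 0 < η) (h1 : η ≤ 1 / 4) : ∃ g : ℝ → ℝ, Cut η g := by
  have hs : ContDiff ℝ ∞ (phi η) := phi_contDiff h0 h1
  have hd : ContDiff ℝ ∞ (deriv (phi η)) := by
    have := hs.iterate_deriv 1
    simpa using this
  have hc : Continuous (deriv (phi η)) := hd.continuous
  have hper : ∀ y, deriv (phi η) (y + 1) = deriv (phi η) y := by
    intro y
    have e : (fun y => phi η (y + 1)) = fun y => phi η y + 1 := funext fun y => phi_add_one η y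
    have h2 : deriv (fun y => phi η (y + 1)) y = deriv (phi η) y := by
      rw [e, deriv_add_const]
    rw [deriv_comp_add_const] at h2
    exact h2
  have hnn : ∀ y, 0 ≤ deriv (phi η) y := by
    intro y
    rw [phi_deriv h0 h1]
    exact mul_nonneg Real.smoothTransition.monotone.deriv_nonneg (by positivity)
  have hint : ∫ y in (0 : ℝ)..1, deriv (phi η) y = 1 := by
    rw [intervalIntegral.integral_deriv_eq_sub' (phi η) rfl (fun y _ => hs.differentiable (by simp) y)
      hc.continuousOn]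
    have := phi_add_one η 0
    rw [zero_add] at this
    rw [this]; ring
  set I := ∫ y in (0 : ℝ)..1, deriv (phi η) y ^ 2 with hI
  have hI1 : 1 ≤ I := by
    have h2 : 0 ≤ ∫ y in (0 : ℝ)..1, (deriv (phi η) y - 1) ^ 2 :=
      intervalIntegral.integral_nonneg zero_le_one fun y _ => sq_nonneg _
    have h3 : ∫ y in (0 : ℝ)..1, (deriv (phi η) y - 1) ^ 2 = I - 2 * 1 + 1 := by
      have e : ∀ y, (deriv (phi η) y - 1) ^ 2 = deriv (phi η) y ^ 2 - 2 * deriv (phi η) y + 1 := fun y => by ring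
      simp_rw [e]
      rw [intervalIntegral.integral_add, intervalIntegral.integral_sub, intervalIntegral.integral_const_mul, hint]
      · simp [hI]
      · exact (hc.pow 2).intervalIntegrable _ _
      · exact (hc.const_mul 2).intervalIntegrable _ _
      · exact ((hc.pow 2).sub (hc.const_mul 2)).intervalIntegrable _ _
      · exact continuous_const.intervalIntegrable _ _
    rw [h3] at h2
    linarith
  have hI0 : 0 < Real.sqrt I := Real.sqrt_pos.2 (by linarith)
  refine ⟨fun y => deriv (phi η) y / Real.sqrt I, hd.div_const _, fun y => by simp only [hper],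
    fun y => div_nonneg (hnn y) hI0.le, fun y hy => by simp only [phi_deriv_zero h0 h1 hy, zero_div], ?_⟩
  simp_rw [div_pow]
  rw [intervalIntegral.integral_div, Real.sq_sqrt (by linarith)]
  exact div_self (by linarith)

lemma Cut.deriv_zero {η : ℝ} {g : ℝ → ℝ} (hg : Cut η g) {y : ℝ} (hy : g y = 0) : deriv g y = 0 := by
  apply IsLocalMin.deriv_eq_zero
  exact Eventually.of_forall fun z => by rw [hy]; exact hg.nonneg z

/-- the cut-off function on the torus -/
def gM (g : ℝ → ℝ) (cc : Fin 3) (M : ℕ) (x : E3) : ℝ := g (M * x cc)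

lemma per_nat {g : ℝ → ℝ} (hp : ∀ y, g (y + 1) = g y) (M : ℕ) (y : ℝ) : g (y + M) = g y := by
  have h : Function.Periodic g 1 := hp
  simpa using h.nat_mul M y

lemma gM_SP {g : ℝ → ℝ} (hs : ContDiff ℝ ∞ g) (hp : ∀ y, g (y + 1) = g y) (cc : Fin 3) (M : ℕ) :
    SP (gM g cc M) where
  smooth := by
    unfold gM
    exact hs.comp (contDiff_const.mul (contDiff_apply ℝ ℝ cc))
  per := fun i x => by
    unfold gM
    by_cases hi : cc = i
    · subst hi
      simp only [Pi.add_apply, Pi.single_eq_same, mul_add, mul_one]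
      exact per_nat hp M _
    · simp [Pi.single_eq_of_ne hi]

lemma cd2 {g : ℝ → ℝ} (hs : ContDiff ℝ ∞ g) : ContDiff ℝ 2 (fun t => ((g t : ℝ) : ℂ)) :=
  (Complex.ofRealCLM.contDiff.comp hs).of_le two_le_inf

/-- Norm of the coefficients. -/
lemma gM_norm {g : ℝ → ℝ} (hs : ContDiff ℝ ∞ g) (hp : ∀ y, g (y + 1) = g y) : ∃ A : ℝ, 0 ≤ A ∧
    ∀ (cc : Fin 3) (M : ℕ), ∑' k, ‖fr (gM g cc M) k‖ ≤ A := by
  obtain ⟨A, hA0, hA⟩ := per_bounded hs.continuous hp
  have h2 : Continuous (iteratedDeriv 2 (fun t => ((g t : ℝ) : ℂ))) := (cd2 hs).continuous_iteratedDeriv' 2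
  have hper2 : ∀ y, iteratedDeriv 2 (fun t => ((g t : ℝ) : ℂ)) (y + 1) = iteratedDeriv 2 (fun t => ((g t : ℝ) : ℂ)) y := by
    intro y
    have e : (fun t => ((g t : ℝ) : ℂ)) = fun t => ((g (t + 1) : ℝ) : ℂ) := by
      funext t; rw [hp]
    conv_rhs => rw [e]
    rw [iteratedDeriv_comp_add_const 2 (fun t => ((g t : ℝ) : ℂ)) 1]
  obtain ⟨B, hB0, hB⟩ := per_bounded (h2.norm) fun y => by rw [hper2]
  refine ⟨A + ZZ * B, by have := ZZ_nonneg; positivity, fun cc M => ?_⟩
  have h := WB_one (h := fun t => ((g t : ℝ) : ℂ)) cc (M : ℤ) (cd2 hs) (fun t => by simp only [hp])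
    (A := A) (fun t => by rw [Complex.norm_real]; exact hA t) (B := B)
    (fun t => by simpa using hB t)
  push_cast at h
  exact h.fc_le'.2

/-- The frequencies of the cut-off function. -/
lemma gM_supp {g : ℝ → ℝ} (hs : ContDiff ℝ ∞ g) (hp : ∀ y, g (y + 1) = g y)
    (h0 : ∫ y in (0 : ℝ)..1, g y = 0) (cc : Fin 3) {M : ℕ} (hM : 1 ≤ M) (k : K)
    (hk : fr (gM g cc M) k ≠ 0) : ∃ m : ℤ, (M : ℝ) ≤ |(m : ℝ)| ∧ k = nn cc m := by
  obtain ⟨hsm, hser⟩ := Helper420.PB.fc_series one_pos (cd2 hs) (fun t => by simp only [hp])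
  have e1 : fr (gM g cc M) k = ∑' n : ℤ, Helper420.PB.fc 1 (fun t => ((g t : ℝ) : ℂ)) n *
      (if (Pi.single cc (n * M) : K) = k then 1 else 0) := by
    rw [← WB.fc_hasSum (c := fun n => Helper420.PB.fc 1 (fun t => ((g t : ℝ) : ℂ)) n)
      (κ := fun n => Pi.single cc (n * M)) hsm k]
    unfold fr
    congr 1
    funext x
    have h1 := (hser (M * x cc)).tsum_eq
    show ((g (M * x cc) : ℝ) : ℂ) = _
    rw [← h1]
    refine tsum_congr fun n => ?_
    rw [ee_single']
    congr 2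
    push_cast
    ring
  have hex : ∃ n : ℤ, Helper420.PB.fc 1 (fun t => ((g t : ℝ) : ℂ)) n ≠ 0 ∧ (Pi.single cc (n * M) : K) = k := by
    by_contra hcon
    push Not at hcon
    apply hk
    rw [e1]
    have : ∀ n : ℤ, Helper420.PB.fc 1 (fun t => ((g t : ℝ) : ℂ)) n *
      (if (Pi.single cc (n * M) : K) = k then 1 else 0) = 0 := by
      intro n
      by_cases hn : Helper420.PB.fc 1 (fun t => ((g t : ℝ) : ℂ)) n = 0
      · rw [hn, zero_mul]
      · rw [if_neg (hcon n hn), mul_zero]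
    simp [this]
  obtain ⟨n, hn, hnk⟩ := hex
  have hn0 : n ≠ 0 := by
    rintro rfl
    apply hn
    unfold Helper420.PB.fc
    have : ∫ t in (0 : ℝ)..1, Complex.exp (-(2 * Real.pi * Complex.I * (0 : ℤ) * t / (1 : ℝ))) * ((g t : ℝ) : ℂ) = 0 := by
      simp only [Int.cast_zero, mul_zero, zero_mul, zero_div, neg_zero, Complex.exp_zero, one_mul]
      rw [intervalIntegral.integral_ofReal, h0]; simp
    rw [this, mul_zero]
  refine ⟨n * M, ?_, hnk.symm⟩
  push_cast
  rw [abs_mul, Nat.abs_cast]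
  have : (1 : ℝ) ≤ |(n : ℝ)| := by
    have : (1 : ℤ) ≤ |n| := Int.one_le_abs hn0
    exact_mod_cast this
  have hM' : (0 : ℝ) ≤ M := Nat.cast_nonneg M
  nlinarith

/-- Fourier coefficients of products. -/
lemma fr_mul {f g : E3 → ℝ} (hf : SP f) (hg : SP g) (k : K) :
    fr (fun x => f x * g x) k = ∑' l, fr f l * fr g (k - l) := by
  have hcont : Continuous fun x : E3 => ee (-k) x * (g x : ℂ) := (H459R3.NS.ee_continuous _).mul
    (Complex.continuous_ofReal.comp hg.smooth.continuous)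
  have h := H459R3.NS.integral_S_mul (H459R3.NS.rap_fr hf).summable hcont
  have e1 : ∀ l, ∫ x in cube, ee l x * (ee (-k) x * (g x : ℂ)) = fr g (k - l) := by
    intro l
    unfold fr fc
    congr 1
    funext x
    rw [← mul_assoc, ← H459R3.NS.ee_add_left]
    congr 2
    abel
  simp_rw [e1] at h
  rw [h.tsum_eq]
  have e2 : ∀ x, S (fr f) x * (ee (-k) x * (g x : ℂ)) = ee (-k) x * ((f x * g x : ℝ) : ℂ) := by
    intro x
    rw [H459R3.NS.S_fr hf]
    push_cast
    ring
  simp_rw [e2]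
  rfl

lemma rr_fr {f : E3 → ℝ} (hf : SP f) : RR fun k => ‖fr f k‖ := rap_pw (H459R3.NS.rap_fr hf)

/-- Wiener norm -/
noncomputable def wn (f : E3 → ℝ) : ℝ := ∑' k, ‖fr f k‖

lemma wn_nonneg (f : E3 → ℝ) : 0 ≤ wn f := tsum_nonneg fun _ => norm_nonneg _

lemma wn_mul {f g : E3 → ℝ} (hf : SP f) (hg : SP g) : wn (fun x => f x * g x) ≤ wn f * wn g := by
  obtain ⟨s1, e1⟩ := summable_conv (fun k => norm_nonneg (fr f k)) (fun k => norm_nonneg (fr g k))
    (rr_fr hf).summ (rr_fr hg).summ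
  unfold wn
  rw [← e1]
  refine Summable.tsum_le_tsum (fun k => ?_) (rr_fr (hf.mul hg)).summ s1
  rw [fr_mul hf hg]
  have s2 : Summable fun l => ‖fr f l * fr g (k - l)‖ := by
    have := summable_conv_term (fun k => norm_nonneg (fr f k)) (fun k => norm_nonneg (fr g k))
      (rr_fr hf).summ (rr_fr hg).summ k
    exact this.congr fun l => (norm_mul _ _).symm
  refine (norm_tsum_le_tsum_norm s2).trans (le_of_eq ?_)
  exact tsum_congr fun l => norm_mul _ _

lemma fr_add {f g : E3 → ℝ} (hf : SP f) (hg : SP g) (k : K) :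
    fr (fun x => f x + g x) k = fr f k + fr g k := by
  unfold fr fc
  rw [← integral_add]
  · congr 1
    funext x
    push_cast; ring
  · exact H459R3.NS.integrableOn_cube ((H459R3.NS.ee_continuous _).mul
      (Complex.continuous_ofReal.comp hf.smooth.continuous))
  · exact H459R3.NS.integrableOn_cube ((H459R3.NS.ee_continuous _).mul
      (Complex.continuous_ofReal.comp hg.smooth.continuous))

lemma fr_cmul (c : ℝ) (f : E3 → ℝ) (k : K) : fr (fun x => c * f x) k = c * fr f k := by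
  unfold fr fc
  rw [← integral_const_mul]
  congr 1
  funext x
  push_cast; ring

lemma SP.cmul {f : E3 → ℝ} (hf : SP f) (c : ℝ) : SP (fun x => c * f x) where
  smooth := contDiff_const.mul hf.smooth
  per := fun i x => by simp only [hf.per i x]

lemma wn_add {f g : E3 → ℝ} (hf : SP f) (hg : SP g) : wn (fun x => f x + g x) ≤ wn f + wn g := by
  unfold wn
  rw [← Summable.tsum_add (rr_fr hf).summ (rr_fr hg).summ]
  refine Summable.tsum_le_tsum (fun k => ?_) (rr_fr (hf.add hg)).summ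
    (Summable.add (rr_fr hf).summ (rr_fr hg).summ)
  rw [fr_add hf hg]
  exact norm_add_le _ _

lemma wn_cmul {f : E3 → ℝ} (c : ℝ) : wn (fun x => c * f x) = |c| * wn f := by
  unfold wn
  rw [← tsum_mul_left]
  refine tsum_congr fun k => ?_
  rw [fr_cmul, norm_mul, Complex.norm_real, Real.norm_eq_abs]

lemma wn_const (c : ℝ) : wn (fun _ => c) = |c| := by
  unfold wn
  rw [tsum_eq_single 0]
  · rw [fr_const, if_pos rfl, Complex.norm_real, Real.norm_eq_abs]
  · intro k hk
    rw [fr_const, if_neg hk, norm_zero]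

end Pool.Agent.K1H11.NS
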