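import Pool.Agent.K1H11.NS.Late

/-!
# Differences of solutions on short time intervals
-/

open MeasureTheory Set Filter Topology
open scoped ENNReal NNReal

namespace Pool.Agent.K1H11.NS

/-- The Duhamel formula between two times, up to the time `T`. -/
def DS (c T : ℝ) (u : Fam) : Prop := ∀ (k : K) (t0 t : ℝ), 0 ≤ t0 → t0 ≤ t → t ≤ T →
  u k t = Real.exp (-(c * sq k * (t - t0))) • u k t0 +
    ∫ s in t0..t, Real.exp (-(c * sq k * (t - s))) • Bt u k s

lemma Sol.DS {c : ℝ} {a : Wt} (ha : Sup a) {V : K → C3} {u : Fam} (h : Sol c a V u) (T : ℝ) : DS c T u :=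
  fun k _ _ h0 ht _ => sol_shift (Bt_cont h.cf (h.dom' ha)) h k h0 ht

/-- The integral of the kernel. -/
noncomputable def KI (c h : ℝ) : ℝ≥0∞ := ∫⁻ τ in Ioc 0 h, ENNReal.ofReal (kap c τ)

lemma KI_mono (c : ℝ) {h h' : ℝ} (hh : h ≤ h') : KI c h ≤ KI c h' :=
  lintegral_mono_set (Ioc_subset_Ioc le_rfl hh)

lemma KI_small {c : ℝ} (hc : 0 < c) {η : ℝ≥0∞} (hη : 0 < η) {b : ℝ} (hb : 0 < b) :
    ∃ h, 0 < h ∧ h ≤ b ∧ KI c h < η := by
  have h1 : ∫⁻ τ, ENNReal.ofReal (kap c τ) ∂(volume.restrict (Ioi 0)) ≠ ⊤ := by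
    have h2 := (kap_int hc).2
    rw [hasFiniteIntegral_iff_norm] at h2
    refine ne_top_of_le_ne_top h2.ne (lintegral_mono fun τ => ?_)
    exact ENNReal.ofReal_le_ofReal (le_abs_self _)
  have h2 : Tendsto (fun h : ℝ => (volume.restrict (Ioi (0 : ℝ))) (Ioc 0 h)) (𝓝[>] 0) (𝓝 0) := by
    have e : ∀ h : ℝ, (volume.restrict (Ioi (0 : ℝ))) (Ioc 0 h) = ENNReal.ofReal h := by
      intro h
      rw [Measure.restrict_apply measurableSet_Ioc, inter_eq_self_of_subset_left (fun x hx => hx.1),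
        Real.volume_Ioc, sub_zero]
    simp_rw [e]
    have : Tendsto (fun h : ℝ => ENNReal.ofReal h) (𝓝 0) (𝓝 (ENNReal.ofReal 0)) :=
      (ENNReal.continuous_ofReal.tendsto _)
    rw [ENNReal.ofReal_zero] at this
    exact this.mono_left nhdsWithin_le_nhds
  have h3 := tendsto_setLIntegral_zero h1 h2
  have h4 : ∀ h : ℝ, ∫⁻ τ in Ioc 0 h, ENNReal.ofReal (kap c τ) ∂(volume.restrict (Ioi 0)) = KI c h := by
    intro h
    unfold KI
    rw [Measure.restrict_restrict measurableSet_Ioc, inter_eq_self_of_subset_left (fun x hx => hx.1)]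
  simp_rw [h4] at h3
  have h5 := (h3.eventually (gt_mem_nhds hη)).and (Ioc_mem_nhdsGT hb)
  obtain ⟨h, hh1, hh2⟩ := h5.exists
  exact ⟨h, hh2.1, hh2.2, hh1⟩

lemma tsum_conv_eq' (f g : K → ℝ≥0∞) : ∑' k, ∑' l, f l * g (k - l) = (∑' k, f k) * ∑' k, g k := by
  rw [ENNReal.tsum_comm]
  simp_rw [ENNReal.tsum_mul_left]
  have : ∀ l, ∑' k, g (k - l) = ∑' k, g k := fun l => (Equiv.subRight l).tsum_eq g
  simp_rw [this, ENNReal.tsum_mul_right]

lemma Dom.sub {u v : Fam} (hu : Dom u) (hv : Dom v) : Dom (u - v) := by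
  obtain ⟨b, hb, h⟩ := hu
  obtain ⟨b', hb', h'⟩ := hv
  exact ⟨fun k => b k + b' k, hb.add hb', fun k t => (norm_sub_le _ _).trans (add_le_add (h k t) (h' k t))⟩

lemma An_sub_le {u w : Fam} (hu : Dom u) (hw : Dom w) (t : ℝ) : An u t ≤ An w t + An (u - w) t := by
  unfold An
  have s1 : Summable fun k => ‖u k t‖ := hu.sn t
  have s2 : Summable fun k => ‖w k t‖ := hw.sn t
  have s3 : Summable fun k => ‖(u - w) k t‖ := (hu.sub hw).sn t
  rw [← s2.tsum_add s3]
  refine s1.tsum_le_tsum (fun k => ?_) (s2.add s3)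
  have : u k t = w k t + (u - w) k t := by simp
  rw [this]
  exact norm_add_le _ _

section
variable {c T : ℝ} {u w : Fam}

lemma diff_le (hc : 0 < c) (hu : CF u) (hud : Dom u) (hw : CF w) (hwd : Dom w) (h : DS c T u) (h' : DS c T w)
    {t0 t : ℝ} (h0 : 0 ≤ t0) (ht : t0 ≤ t) (hT : t ≤ T) {M β : ℝ} (hM0 : 0 ≤ M) (hβ0 : 0 ≤ β)
    (hM : ∀ s ∈ Ioo t0 t, An u s + An w s ≤ M)
    (hβ : ∀ s ∈ Ioo t0 t, An (u - w) s ≤ β) :
    ENNReal.ofReal (An (u - w) t) ≤ ENNReal.ofReal (An (u - w) t0) + ENNReal.ofReal (C0 * (M * β)) * KI c (t - t0) := by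
  have hBu := Bt_cont hu hud
  have hBw := Bt_cont hw hwd
  have hdd : Dom (u - w) := hud.sub hwd
  have hC := C0_pos
  rw [← An_eq hdd t]
  have h1 : ∀ k, ‖(u - w) k t‖ₑ ≤ ‖(u - w) k t0‖ₑ + ∫⁻ s in Ioc t0 t,
      ENNReal.ofReal (Real.exp (-(c * sq k * (t - s)))) * ‖Bt u k s - Bt w k s‖ₑ := by
    intro k
    have e : (u - w) k t = Real.exp (-(c * sq k * (t - t0))) • (u - w) k t0 +
        ∫ s in t0..t, Real.exp (-(c * sq k * (t - s))) • (Bt u k s - Bt w k s) := by
      show u k t - w k t = Real.exp (-(c * sq k * (t - t0))) • (u k t0 - w k t0) + _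
      have i1 : IntervalIntegrable (fun s => Real.exp (-(c * sq k * (t - s))) • Bt u k s) volume t0 t := by
        apply Continuous.intervalIntegrable
        have := hBu k
        fun_prop
      have i2 : IntervalIntegrable (fun s => Real.exp (-(c * sq k * (t - s))) • Bt w k s) volume t0 t := by
        apply Continuous.intervalIntegrable
        have := hBw k
        fun_prop
      simp_rw [smul_sub]
      rw [intervalIntegral.integral_sub i1 i2, h k t0 t h0 ht hT, h' k t0 t h0 ht hT]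
      abel
    rw [e]
    refine (enorm_add_le _ _).trans (add_le_add ?_ ?_)
    · rw [enorm_smul]
      calc _ ≤ 1 * ‖(u - w) k t0‖ₑ := by
            apply mul_le_mul' _ le_rfl
            rw [← ofReal_norm, Real.norm_of_nonneg (Real.exp_pos _).le, ENNReal.ofReal_le_one,
              Real.exp_le_one_iff]
            have : 0 ≤ c * sq k * (t - t0) := mul_nonneg (mul_nonneg hc.le (sq_nonneg' k)) (by linarith)
            linarith
        _ = _ := one_mul _
    · rw [intervalIntegral.integral_of_le ht]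
      refine (enorm_integral_le_lintegral_enorm _).trans (le_of_eq ?_)
      refine lintegral_congr fun s => ?_
      rw [enorm_smul, ← ofReal_norm (Real.exp _), Real.norm_of_nonneg (Real.exp_pos _).le]
  have hm : ∀ k, Measurable fun s => ENNReal.ofReal (Real.exp (-(c * sq k * (t - s)))) * ‖Bt u k s - Bt w k s‖ₑ := by
    intro k
    exact (by fun_prop : Measurable fun s => ENNReal.ofReal (Real.exp (-(c * sq k * (t - s))))).mul
      ((hBu k).sub (hBw k)).enorm.measurable
  calc ∑' k, ‖(u - w) k t‖ₑ ≤ ∑' k, (‖(u - w) k t0‖ₑ + ∫⁻ s in Ioc t0 t,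
        ENNReal.ofReal (Real.exp (-(c * sq k * (t - s)))) * ‖Bt u k s - Bt w k s‖ₑ) := ENNReal.tsum_le_tsum h1
    _ = ENNReal.ofReal (An (u - w) t0) + ∫⁻ s in Ioc t0 t,
        ∑' k, ENNReal.ofReal (Real.exp (-(c * sq k * (t - s)))) * ‖Bt u k s - Bt w k s‖ₑ := by
        rw [ENNReal.tsum_add, An_eq hdd, lintegral_tsum fun k => (hm k).aemeasurable]
    _ ≤ ENNReal.ofReal (An (u - w) t0) +
        ∫⁻ s in Ioo t0 t, ENNReal.ofReal (C0 * (M * β)) * ENNReal.ofReal (kap c (t - s)) := by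
        apply add_le_add le_rfl
        rw [setLIntegral_congr Ioo_ae_eq_Ioc.symm]
        refine setLIntegral_mono' measurableSet_Ioo fun s hs => ?_
        have hts : 0 < t - s := by linarith [hs.2]
        have hk0 := kap_nonneg hc hts.le
        have h2 : ∀ k, ENNReal.ofReal (Real.exp (-(c * sq k * (t - s)))) * ‖Bt u k s - Bt w k s‖ₑ
            ≤ ENNReal.ofReal (C0 * kap c (t - s)) * (∑' l, ‖(u - w) l s‖ₑ * ‖u (k - l) s‖ₑ +
              ∑' l, ‖w l s‖ₑ * ‖(u - w) (k - l) s‖ₑ) := by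
          intro k
          have h3 : ‖Bt u k s - Bt w k s‖ₑ ≤ ENNReal.ofReal (C0 * nk k) * (∑' l, ‖(u - w) l s‖ₑ * ‖u (k - l) s‖ₑ +
              ∑' l, ‖w l s‖ₑ * ‖(u - w) (k - l) s‖ₑ) := by
            have e := congrFun (Bf_diff (hud.sn s) (hwd.sn s)) k
            have e2 : Bt u k s - Bt w k s = Bf (at' (u - w) s) (at' u s) k + Bf (at' w s) (at' (u - w) s) k := e
            rw [e2, mul_add]
            exact (enorm_add_le _ _).trans (add_le_add (enorm_Bf_le _ _ k) (enorm_Bf_le _ _ k))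
          calc _ ≤ ENNReal.ofReal (Real.exp (-(c * sq k * (t - s)))) *
                (ENNReal.ofReal (C0 * nk k) * (∑' l, ‖(u - w) l s‖ₑ * ‖u (k - l) s‖ₑ +
              ∑' l, ‖w l s‖ₑ * ‖(u - w) (k - l) s‖ₑ)) := mul_le_mul' le_rfl h3
            _ = ENNReal.ofReal (Real.exp (-(c * sq k * (t - s))) * (C0 * nk k)) *
                (∑' l, ‖(u - w) l s‖ₑ * ‖u (k - l) s‖ₑ + ∑' l, ‖w l s‖ₑ * ‖(u - w) (k - l) s‖ₑ) := by
                rw [← mul_assoc, ← ENNReal.ofReal_mul (Real.exp_pos _).le]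
            _ ≤ _ := by
                apply mul_le_mul' _ le_rfl
                apply ENNReal.ofReal_le_ofReal
                by_cases hk : k = 0
                · subst hk
                  rw [nk_zero]
                  simp only [mul_zero]; positivity
                · have := nk_exp_le hc hk hts
                  nlinarith
        calc ∑' k, ENNReal.ofReal (Real.exp (-(c * sq k * (t - s)))) * ‖Bt u k s - Bt w k s‖ₑ
            ≤ ∑' k, ENNReal.ofReal (C0 * kap c (t - s)) * (∑' l, ‖(u - w) l s‖ₑ * ‖u (k - l) s‖ₑ +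
              ∑' l, ‖w l s‖ₑ * ‖(u - w) (k - l) s‖ₑ) := ENNReal.tsum_le_tsum h2
          _ = ENNReal.ofReal (C0 * kap c (t - s)) * (ENNReal.ofReal (An (u - w) s) * ENNReal.ofReal (An u s) +
              ENNReal.ofReal (An w s) * ENNReal.ofReal (An (u - w) s)) := by
              rw [ENNReal.tsum_mul_left, ENNReal.tsum_add,
                tsum_conv_eq' (fun k => ‖(u - w) k s‖ₑ) (fun k => ‖u k s‖ₑ),
                tsum_conv_eq' (fun k => ‖w k s‖ₑ) (fun k => ‖(u - w) k s‖ₑ), An_eq hdd, An_eq hud, An_eq hwd]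
          _ = ENNReal.ofReal (C0 * kap c (t - s)) * ENNReal.ofReal ((An u s + An w s) * An (u - w) s) := by
              rw [← ENNReal.ofReal_mul (An_nonneg _ _), ← ENNReal.ofReal_mul (An_nonneg _ _),
                ← ENNReal.ofReal_add (mul_nonneg (An_nonneg _ _) (An_nonneg _ _))
                  (mul_nonneg (An_nonneg _ _) (An_nonneg _ _))]
              congr 2; ring
          _ ≤ ENNReal.ofReal (C0 * kap c (t - s)) * ENNReal.ofReal (M * β) := by
              apply mul_le_mul' le_rfl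
              apply ENNReal.ofReal_le_ofReal
              exact mul_le_mul (hM s hs) (hβ s hs) (An_nonneg _ _) hM0
          _ = _ := by
              rw [← ENNReal.ofReal_mul (by positivity), ← ENNReal.ofReal_mul (by positivity)]
              congr 1; ring
    _ ≤ ENNReal.ofReal (An (u - w) t0) + ENNReal.ofReal (C0 * (M * β)) * KI c (t - t0) := by
        apply add_le_add le_rfl
        have hmk : Measurable fun s => ENNReal.ofReal (kap c (t - s)) := by
          unfold kap; fun_prop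
        rw [lintegral_const_mul _ hmk]
        apply mul_le_mul' le_rfl
        have hsub : ∫⁻ s in Ioo t0 t, ENNReal.ofReal (kap c (t - s))
            = ∫⁻ s, (Ioo (0 : ℝ) (t - t0)).indicator (fun τ => ENNReal.ofReal (kap c τ)) (t - s) := by
          rw [← lintegral_indicator measurableSet_Ioo]
          refine lintegral_congr fun s => ?_
          by_cases hs : s ∈ Ioo t0 t
          · rw [indicator_of_mem hs, indicator_of_mem (show t - s ∈ Ioo (0 : ℝ) (t - t0) from
              ⟨by linarith [hs.2], by linarith [hs.1]⟩)]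
          · rw [indicator_of_notMem hs, indicator_of_notMem]
            intro h4
            exact hs ⟨by linarith [h4.2], by linarith [h4.1]⟩
        rw [hsub, lintegral_sub_left_eq_self (fun τ => (Ioo (0 : ℝ) (t - t0)).indicator
          (fun τ => ENNReal.ofReal (kap c τ)) τ) t, lintegral_indicator measurableSet_Ioo]
        exact lintegral_mono_set Ioo_subset_Ioc_self

/-- Differences which are small at one time stay small for a short time. -/
lemma short (hc : 0 < c) (hu : CF u) (hud : Dom u) (hw : CF w) (hwd : Dom w) (h : DS c T u) (h' : DS c T w)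
    {Mw : ℝ} (hMw : ∀ s, 0 ≤ s → s ≤ T → An w s ≤ Mw) {hh : ℝ}
    (hK : ENNReal.ofReal (C0 * (2 * Mw + 2)) * KI c hh < ENNReal.ofReal (1 / 2)) {α : ℝ} (hα : 0 < α)
    (hα1 : α ≤ 1) {t0 : ℝ} (h0 : 0 ≤ t0) (hA : An (u - w) t0 ≤ α) {t : ℝ} (ht : t0 ≤ t) (ht1 : t ≤ t0 + hh)
    (hT : t ≤ T) : An (u - w) t ≤ 2 * α := by
  by_contra hcon
  push Not at hcon
  have hdc : CF (u - w) := fun k => (hu k).sub (hw k)
  have hcont := An_cont hdc (hud.sub hwd)
  have hcomp : IsCompact (Icc t0 t ∩ An (u - w) ⁻¹' Ici (2 * α)) :=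
    isCompact_Icc.inter_right (isClosed_Ici.preimage hcont)
  obtain ⟨τ, hτ, hmin⟩ := hcomp.exists_isLeast ⟨t, ⟨ht, le_rfl⟩, hcon.le⟩
  have hβ : ∀ s ∈ Ioo t0 τ, An (u - w) s ≤ 2 * α := by
    intro s hs'
    by_contra h2
    push Not at h2
    have := hmin ⟨⟨hs'.1.le, hs'.2.le.trans hτ.1.2⟩, h2.le⟩
    linarith [hs'.2]
  have hMw0 : 0 ≤ Mw := (An_nonneg w 0).trans (hMw 0 le_rfl (h0.trans (ht.trans hT)))
  have hC := C0_pos
  have h1 := diff_le hc hu hud hw hwd h h' h0 hτ.1.1 (hτ.1.2.trans hT) (M := 2 * Mw + 2) (β := 2 * α)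
    (by positivity) (by positivity) (fun s hs => by
      have e1 := An_sub_le hud hwd s
      have e2 := hβ s hs
      have e3 := hMw s (h0.trans hs.1.le) (hs.2.le.trans (hτ.1.2.trans hT))
      linarith) hβ
  have h2 : 2 * α ≤ An (u - w) τ := hτ.2
  have h3 : ENNReal.ofReal (C0 * ((2 * Mw + 2) * (2 * α))) * KI c (τ - t0) < ENNReal.ofReal α := by
    have e1 : ENNReal.ofReal (C0 * ((2 * Mw + 2) * (2 * α))) = ENNReal.ofReal (2 * α) *
        ENNReal.ofReal (C0 * (2 * Mw + 2)) := by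
      rw [← ENNReal.ofReal_mul (by positivity)]; congr 1; ring
    rw [e1, mul_assoc]
    calc _ ≤ ENNReal.ofReal (2 * α) * (ENNReal.ofReal (C0 * (2 * Mw + 2)) * KI c hh) := by
          apply mul_le_mul' le_rfl
          apply mul_le_mul' le_rfl
          apply KI_mono
          linarith [hτ.1.2]
      _ < ENNReal.ofReal (2 * α) * ENNReal.ofReal (1 / 2) := by
          apply ENNReal.mul_lt_mul_right _ ENNReal.ofReal_ne_top hK
          simpa using hα
      _ = _ := by rw [← ENNReal.ofReal_mul (by positivity)]; congr 1; ring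
  have h4 : ENNReal.ofReal (2 * α) < ENNReal.ofReal (2 * α) := by
    calc ENNReal.ofReal (2 * α) ≤ ENNReal.ofReal (An (u - w) τ) := ENNReal.ofReal_le_ofReal h2
      _ ≤ _ := h1
      _ < ENNReal.ofReal (An (u - w) t0) + ENNReal.ofReal α :=
          ENNReal.add_lt_add_left ENNReal.ofReal_ne_top h3
      _ ≤ ENNReal.ofReal α + ENNReal.ofReal α := add_le_add (ENNReal.ofReal_le_ofReal hA) le_rfl
      _ = _ := by rw [← ENNReal.ofReal_add hα.le hα.le]; congr 1; ring
  exact lt_irrefl _ h4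

lemma exists_short (hc : 0 < c) {Mw b : ℝ} (hMw : 0 ≤ Mw) (hb : 0 < b) :
    ∃ hh, 0 < hh ∧ hh ≤ b ∧ ENNReal.ofReal (C0 * (2 * Mw + 2)) * KI c hh < ENNReal.ofReal (1 / 2) := by
  have hC := C0_pos
  have h1 : (0 : ℝ≥0∞) < ENNReal.ofReal (1 / 2) / ENNReal.ofReal (C0 * (2 * Mw + 2)) :=
    ENNReal.div_pos (by simp) ENNReal.ofReal_ne_top
  obtain ⟨hh, a1, a2, a3⟩ := KI_small hc h1 hb
  refine ⟨hh, a1, a2, ?_⟩
  rw [mul_comm]
  exact (ENNReal.lt_div_iff_mul_lt (Or.inl (by
    simp only [ne_eq, ENNReal.ofReal_eq_zero, not_le]; positivity)) (Or.inl ENNReal.ofReal_ne_top)).1 a3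

/-- Solutions with the same values at the time zero are equal. -/
lemma DS_unique (hc : 0 < c) (hu : CF u) (hud : Dom u) (hw : CF w) (hwd : Dom w) (h : DS c T u) (h' : DS c T w)
    (h0 : ∀ k, u k 0 = w k 0) {t : ℝ} (ht : 0 ≤ t) (hT : t ≤ T) (k : K) : u k t = w k t := by
  obtain ⟨b, hb, hb'⟩ := hwd
  have hMw : ∀ s, An w s ≤ ∑' k, b k := fun s =>
    Summable.tsum_le_tsum (fun k => hb' k s) (hb.of_nonneg_of_le (fun _ => norm_nonneg _) fun k => hb' k s) hb
  have hwd : Dom w := ⟨b, hb, hb'⟩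
  obtain ⟨hh, a1, -, a3⟩ := exists_short hc (Mw := ∑' k, b k) (b := 1) ((An_nonneg w 0).trans (hMw 0)) one_pos
  have key : ∀ n : ℕ, ∀ t, 0 ≤ t → t ≤ T → t ≤ n * hh → An (u - w) t = 0 := by
    intro n
    induction n with
    | zero =>
      intro t t0 _ tn
      have : t = 0 := le_antisymm (by simpa using tn) t0
      subst this
      unfold An
      have : ∀ k, ‖(u - w) k 0‖ = 0 := fun k => by
        show ‖u k 0 - w k 0‖ = 0
        rw [h0, sub_self, norm_zero]
      simp only [this, tsum_zero]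
    | succ n ih =>
      intro t t0 tT tn
      by_cases hn : t ≤ n * hh
      · exact ih t t0 tT hn
      · push Not at hn
        have hnn : 0 ≤ (n : ℝ) * hh := by positivity
        have e0 := ih (n * hh) hnn (hn.le.trans tT) le_rfl
        apply le_antisymm _ (An_nonneg _ _)
        apply le_of_forall_pos_le_add
        intro ε hε
        have e1 := short hc hu hud hw hwd h h' (fun s _ _ => hMw s) a3 (α := min 1 (ε / 2)) (by positivity)
          (min_le_left _ _) hnn (by rw [e0]; positivity) hn.le (by push_cast at tn; linarith) tT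
        have e2 : min 1 (ε / 2) ≤ ε / 2 := min_le_right _ _
        linarith
  obtain ⟨n, hn⟩ := exists_nat_ge (t / hh)
  rw [div_le_iff₀ a1] at hn
  have e := key n t ht hT hn
  have hs : Summable fun k => ‖(u - w) k t‖ := (hud.sub hwd).sn t
  have e2 : ‖(u - w) k t‖ ≤ An (u - w) t := hs.le_tsum k fun _ _ => norm_nonneg _
  rw [e] at e2
  have e3 := norm_le_zero_iff.1 e2
  exact sub_eq_zero.1 e3

end

/-- Differences which are small in `L²((dl, ∞); ℓ¹)` are small for `t ≥ 2 dl`. -/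
lemma late2 {c : ℝ} (hc : 0 < c) {dl : ℝ} (hdl : 0 < dl) {ε : ℝ} (hε : 0 < ε) {a : Wt} (ha : Sup a)
    {V : K → C3} {w : Fam} (hw : Sol c a V w) :
    ∃ ε' : ℝ, 0 < ε' ∧ ∀ (a : Wt), Sup a → ∀ (V : K → C3) (u : Fam), Sol c a V u →
      LNd dl (u - w) ≤ ENNReal.ofReal ε' → ∀ t, 2 * dl ≤ t → An (u - w) t ≤ ε := by
  have hwd := hw.dom' ha
  obtain ⟨b, hb, hb'⟩ := hwd
  have hMw : ∀ s, An w s ≤ ∑' k, b k := fun s =>
    Summable.tsum_le_tsum (fun k => hb' k s) (hb.of_nonneg_of_le (fun _ => norm_nonneg _) fun k => hb' k s) hb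
  have hwd : Dom w := ⟨b, hb, hb'⟩
  obtain ⟨hh, a1, a2, a3⟩ := exists_short hc (Mw := ∑' k, b k) (b := dl) ((An_nonneg w 0).trans (hMw 0)) hdl
  set α := min (ε / 2) 1
  have hα : 0 < α := lt_min (by positivity) one_pos
  have hα1 : α ≤ 1 := min_le_right _ _
  have hα2 : α ≤ ε / 2 := min_le_left _ _
  have hsd : 0 < Real.sqrt hh := Real.sqrt_pos.2 a1
  refine ⟨α * Real.sqrt hh / 2, by positivity, fun a ha V u hu hL t ht => ?_⟩
  have hd : Dom u := hu.dom' ha
  have hdd := hd.sub hwd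
  obtain ⟨t0, ht0, hA⟩ : ∃ t0 ∈ Ioo (t - hh) t, An (u - w) t0 ≤ α := by
    by_contra hcon
    push Not at hcon
    have h1 : ENNReal.ofReal (α * Real.sqrt hh) ≤ LNd dl (u - w) := by
      unfold LNd LN
      have h2 : ENNReal.ofReal (α ^ 2 * hh) ≤
          ∫⁻ t in Ioi 0, ((Ioi dl).indicator (fun t => NW (Wa Wt.one) (at' (u - w) t)) t) ^ (2 : ℝ) := by
        calc ENNReal.ofReal (α ^ 2 * hh) = ∫⁻ t in Ioo (t - hh) t, ENNReal.ofReal (α ^ 2) := by
              rw [setLIntegral_const, Real.volume_Ioo, ← ENNReal.ofReal_mul (by positivity)]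
              congr 1; ring
          _ ≤ ∫⁻ t in Ioo (t - hh) t,
              ((Ioi dl).indicator (fun t => NW (Wa Wt.one) (at' (u - w) t)) t) ^ (2 : ℝ) := by
              refine setLIntegral_mono' measurableSet_Ioo fun s hs => ?_
              rw [indicator_of_mem (show s ∈ Ioi dl from by
                have := hs.1; simp only [mem_Ioi]; linarith), NW_Wa_zero]
              show _ ≤ (∑' k, ‖(u - w) k s‖ₑ) ^ (2 : ℝ)
              rw [An_eq hdd, ENNReal.rpow_two, ← ENNReal.ofReal_pow (An_nonneg _ s)]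
              apply ENNReal.ofReal_le_ofReal
              exact pow_le_pow_left₀ hα.le (hcon s hs).le 2
          _ ≤ _ := lintegral_mono_set fun s hs => by
              have := hs.1
              simp only [mem_Ioi]; linarith
      calc ENNReal.ofReal (α * Real.sqrt hh) = (ENNReal.ofReal (α ^ 2 * hh)) ^ (1 / 2 : ℝ) := by
            rw [ENNReal.ofReal_rpow_of_nonneg (by positivity) (by norm_num), ← Real.sqrt_eq_rpow,
              Real.sqrt_mul (by positivity), Real.sqrt_sq hα.le]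
        _ ≤ _ := ENNReal.rpow_le_rpow h2 (by norm_num)
    have h3 := h1.trans hL
    rw [ENNReal.ofReal_le_ofReal_iff (by positivity)] at h3
    have : 0 < α * Real.sqrt hh := by positivity
    linarith
  have := short hc hu.cf hd hw.cf hwd (hu.DS ha t) (hw.DS ‹Sup _› t) (fun s _ _ => hMw s) a3 hα hα1
    (by linarith [ht0.1] : 0 ≤ t0) hA ht0.2.le (by linarith [ht0.1]) le_rfl
  linarith

end Pool.Agent.K1H11.NS
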