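import Pool.Agent.K1H11.NS2.Evol1
import Pool.Agent.K1H11.NS2.Cut
import Pool.Agent.K1H11.NS2.Late2

/-!
# The Fourier coefficients of a smooth periodic solution
-/

open MeasureTheory Set Filter Topology
open scoped ENNReal NNReal ContDiff

namespace Pool.Agent.K1H11.NS

open H459R3.NS (ee fr cube S SP Per D Rap IsSol)

/-- The Fourier coefficients of the velocity. -/
noncomputable def WH (w : ℝ → E3 → E3) (t : ℝ) : K → C3 := fun k i => fr (fun x => w t x i) k

lemma fr_sum {ι : Type*} {s : Finset ι} {f : ι → E3 → ℝ} (hf : ∀ i ∈ s, SP (f i)) (k : K) :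
    fr (fun x => ∑ i ∈ s, f i x) k = ∑ i ∈ s, fr (f i) k := by
  unfold fr H459R3.NS.fc
  rw [← integral_finsetSum]
  · congr 1
    funext x
    push_cast
    rw [Finset.mul_sum]
  · intro i hi
    exact H459R3.NS.integrableOn_cube ((H459R3.NS.ee_continuous _).mul
      (Complex.continuous_ofReal.comp (hf i hi).smooth.continuous))

lemma fr_lap {f : E3 → ℝ} (hf : SP f) (k : K) :
    fr (H459R3.NS.lap f) k = -((4 * Real.pi ^ 2 * sq k : ℝ) : ℂ) * fr f k := by
  unfold H459R3.NS.lap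
  rw [fr_sum fun j _ => (hf.pd j).pd j]
  have e : ∀ j, fr (H459R3.NS.pd j (H459R3.NS.pd j f)) k = -((4 * Real.pi ^ 2 * (k j : ℝ) ^ 2 : ℝ) : ℂ) * fr f k := by
    intro j
    rw [H459R3.NS.fr_pd (hf.pd j)]
    unfold D
    rw [H459R3.NS.fr_pd hf]
    unfold D
    push_cast
    have : Complex.I * Complex.I = -1 := Complex.I_mul_I
    linear_combination (4 * (Real.pi : ℂ) ^ 2 * (k j : ℂ) ^ 2 * fr f k) * this
  simp_rw [e]
  rw [← Finset.sum_mul]
  congr 1
  unfold sq
  push_cast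
  rw [Finset.sum_neg_distrib, Finset.mul_sum]

section
variable {ν T : ℝ} {w : ℝ → E3 → E3} {q : ℝ → E3 → ℝ}

/-- The transport term. -/
lemma fr_conv {v : Fin 3 → E3 → ℝ} (hv : ∀ i, SP (v i)) (hdiv : ∀ x, ∑ i, H459R3.NS.pd i (v i) x = 0)
    (i : Fin 3) (k : K) : fr (H459R3.NS.conv v i) k
      = ∑ j, (2 * Real.pi * Complex.I * (k j : ℂ)) * cv (fun l i => fr (v i) l) (fun l i => fr (v i) l) k j i := by
  have e1 : H459R3.NS.conv v i = fun x => ∑ j, H459R3.NS.pd j (fun y => v j y * v i y) x := by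
    funext x
    unfold H459R3.NS.conv
    simp_rw [H459R3.NS.pd_mul (hv _) (hv i)]
    rw [Finset.sum_add_distrib, ← Finset.sum_mul, hdiv x, zero_mul, add_zero]
  rw [e1, fr_sum fun j _ => ((hv j).mul (hv i)).pd j]
  refine Finset.sum_congr rfl fun j _ => ?_
  rw [H459R3.NS.fr_pd ((hv j).mul (hv i))]
  unfold D
  rw [fr_mul (hv j) (hv i)]
  rfl

lemma WH_div (h : IsSol ν T w q) {t : ℝ} (ht : t ∈ Ico 0 T) (k : K) : dt k (WH w t k) = 0 :=
  fr_div (fun i => h.sp ht i) (h.divfree t ht) k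

/-- The equation for the Fourier coefficients. -/
lemma WH_hasDeriv (h : IsSol ν T w q) {t : ℝ} (ht : t ∈ Ioo 0 T) (k : K) (i : Fin 3) :
    HasDerivAt (fun s => WH w s k i)
      (-((4 * Real.pi ^ 2 * ν * sq k : ℝ) : ℂ) * WH w t k i + Bf (WH w t) (WH w t) k i) t := by
  have hI : t ∈ Ico 0 T := ⟨ht.1.le, ht.2⟩
  have hsp : ∀ i, SP fun x => w t x i := fun i => h.sp hI i
  have hdiv : ∀ x, ∑ i, H459R3.NS.pd i (fun y => w t y i) x = 0 := h.divfree t hI
  have hq := h.sp_p hI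
  have hSF : ∀ i, Ev.SF T fun s y => w s y i := fun i =>
    ⟨h.smooth_c i, fun s hs j x => by simp only [h.per_u s hs j x]⟩
  -- the derivative
  set d : Fin 3 → ℂ := fun i => -((4 * Real.pi ^ 2 * ν * sq k : ℝ) : ℂ) * WH w t k i
    - (∑ j, (2 * Real.pi * Complex.I * (k j : ℂ)) * cv (WH w t) (WH w t) k j i)
    - (2 * Real.pi * Complex.I * (k i : ℂ)) * fr (q t) k with hd
  have h1 : ∀ i, HasDerivAt (fun s => WH w s k i) (d i) t := by
    intro i
    refine ((hSF i).hasDerivAt_fr ht k).congr_deriv ?_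
    have e1 : H459R3.NS.dt (fun s y => w s y i) t = fun x => (ν * H459R3.NS.lap (fun y => w t y i) x
        - H459R3.NS.conv (fun i y => w t y i) i x) - H459R3.NS.pd i (q t) x := funext fun x => h.dt_eq ht i x
    have s1 : SP fun x => ν * H459R3.NS.lap (fun y => w t y i) x := SP.cmul (hsp i).lap ν
    have s2 : SP fun x => H459R3.NS.conv (fun i y => w t y i) i x := H459R3.NS.sp_conv hsp i
    rw [e1, fr_sub (SP.sub s1 s2) (hq.pd i), fr_sub s1 s2, fr_cmul, fr_lap (hsp i), H459R3.NS.fr_pd hq]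
    have e2 := fr_conv hsp hdiv i k
    rw [e2, hd]
    unfold D
    show (ν : ℂ) * (-((4 * Real.pi ^ 2 * sq k : ℝ) : ℂ) * WH w t k i) - _ - _ = _
    push_cast
    unfold WH
    ring
  have h2 : ∑ i, (k i : ℂ) * d i = 0 := by
    have h3 : HasDerivAt (fun s => ∑ i, (k i : ℂ) * WH w s k i) (∑ i, (k i : ℂ) * d i) t :=
      HasDerivAt.fun_sum fun i _ => (h1 i).const_mul _
    have h4 : (fun s => ∑ i, (k i : ℂ) * WH w s k i) =ᶠ[𝓝 t] fun _ => 0 := by
      filter_upwards [Ioo_mem_nhds ht.1 ht.2] with s hs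
      exact WH_div h ⟨hs.1.le, hs.2⟩ k
    have h5 := h4.hasDerivAt_iff.1 h3
    exact h5.unique (hasDerivAt_const t (0 : ℂ))
  refine (h1 i).congr_deriv ?_
  by_cases hk : k = 0
  · subst hk
    rw [hd]
    simp only [sq_zero, Pi.zero_apply, Int.cast_zero, mul_zero, zero_mul, Finset.sum_const_zero, sub_zero,
      Bf_zero, add_zero]
  have hs : ((sq k : ℝ) : ℂ) ≠ 0 := by exact_mod_cast (sq_pos hk).ne'
  have hpi : (2 * Real.pi * Complex.I : ℂ) ≠ 0 := by
    have : (Real.pi : ℂ) ≠ 0 := by exact_mod_cast Real.pi_ne_zero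
    simp [this, Complex.I_ne_zero]
  have hsq : ∑ i, (k i : ℂ) * (k i : ℂ) = ((sq k : ℝ) : ℂ) := by
    unfold sq
    push_cast
    exact Finset.sum_congr rfl fun i _ => by ring
  set X : ℂ := ∑ m, ∑ j, (k m : ℂ) * ((k j : ℂ) * cv (WH w t) (WH w t) k j m) with hX
  have h3 : (2 * Real.pi * Complex.I) * (X + ((sq k : ℝ) : ℂ) * fr (q t) k) = 0 := by
    have e1 : ∑ i, (k i : ℂ) * d i = -((4 * Real.pi ^ 2 * ν * sq k : ℝ) : ℂ) * (∑ i, (k i : ℂ) * WH w t k i)
        - (2 * Real.pi * Complex.I) * (X + (∑ i, (k i : ℂ) * (k i : ℂ)) * fr (q t) k) := by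
      rw [hd, hX]
      simp only [mul_sub, Finset.sum_sub_distrib, mul_add, Finset.mul_sum, Finset.sum_mul]
      rw [← sub_sub]
      congr 1
      · congr 1
        · exact Finset.sum_congr rfl fun i _ => by ring
        · exact Finset.sum_congr rfl fun i _ => Finset.sum_congr rfl fun j _ => by ring
      · exact Finset.sum_congr rfl fun i _ => by ring
    have e2 : ∑ i, (k i : ℂ) * WH w t k i = 0 := WH_div h hI k
    rw [h2, e2, hsq] at e1
    linear_combination e1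
  have h4 : fr (q t) k = -X / ((sq k : ℝ) : ℂ) := by
    have := (mul_eq_zero.1 h3).resolve_left hpi
    field_simp
    linear_combination this
  rw [hd]
  show _ - _ - _ = _
  rw [h4, sub_sub, sub_eq_add_neg]
  congr 1
  unfold Bf coef
  have e5 : ∀ j, ∑ m, -(2 * Real.pi * Complex.I) * (k j : ℂ) *
      ((if m = i then 1 else 0) - (k i : ℂ) * (k m : ℂ) / ((sq k : ℝ) : ℂ)) * cv (WH w t) (WH w t) k j m
      = -(2 * Real.pi * Complex.I * (k j : ℂ) * cv (WH w t) (WH w t) k j i) +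
        (2 * Real.pi * Complex.I) * (k i : ℂ) / ((sq k : ℝ) : ℂ) *
          ∑ m, (k m : ℂ) * ((k j : ℂ) * cv (WH w t) (WH w t) k j m) := by
    intro j
    have e6 : ∀ m, -(2 * Real.pi * Complex.I) * (k j : ℂ) *
      ((if m = i then 1 else 0) - (k i : ℂ) * (k m : ℂ) / ((sq k : ℝ) : ℂ)) * cv (WH w t) (WH w t) k j m
        = -(if m = i then (2 * Real.pi * Complex.I * (k j : ℂ)) * cv (WH w t) (WH w t) k j m else 0)
          + (2 * Real.pi * Complex.I) * (k i : ℂ) / ((sq k : ℝ) : ℂ) *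
            ((k m : ℂ) * ((k j : ℂ) * cv (WH w t) (WH w t) k j m)) := by
      intro m
      split_ifs <;> ring
    simp_rw [e6]
    rw [Finset.sum_add_distrib, Finset.sum_neg_distrib, Finset.sum_ite_eq' Finset.univ i, if_pos (Finset.mem_univ i),
      ← Finset.mul_sum]
  simp_rw [e5]
  rw [Finset.sum_add_distrib, Finset.sum_neg_distrib, ← Finset.mul_sum]
  have e7 : ∑ j, ∑ m, (k m : ℂ) * ((k j : ℂ) * cv (WH w t) (WH w t) k j m) = X := by
    rw [hX, Finset.sum_comm]
  rw [e7]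
  field_simp
  ring

end

end Pool.Agent.K1H11.NS
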