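import Pool.Agent.K1H11.NS2.Conv1

/-!
# The moving frame
-/

open MeasureTheory Set Filter Topology
open scoped ENNReal NNReal ContDiff

namespace Pool.Agent.K1H11.NS

open H459R3.NS (ee fr cube S SP Per D Rap IsSol)

/-- the mean free part -/
noncomputable def mfp (x : K → C3) (k : K) : C3 := if k = 0 then 0 else x k

/-- the mean -/
noncomputable def mnp (x : K → C3) (k : K) : C3 := if k = 0 then x 0 else 0

lemma mfp_add_mnp (x : K → C3) : mfp x + mnp x = x := by
  funext k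
  show mfp x k + mnp x k = x k
  unfold mfp mnp
  by_cases hk : k = 0
  · subst hk; simp
  · simp [hk]

lemma norm_mfp_le (x : K → C3) (k : K) : ‖mfp x k‖ ≤ ‖x k‖ := by
  unfold mfp
  split_ifs
  · rw [norm_zero]; exact norm_nonneg _
  · exact le_rfl

lemma SN_mfp {x : K → C3} (hx : SN x) : SN (mfp x) :=
  Summable.of_nonneg_of_le (fun _ => norm_nonneg _) (norm_mfp_le x) hx

lemma SN_mnp (x : K → C3) : SN (mnp x) := by
  unfold SN
  refine summable_of_ne_finset_zero (s := {0}) fun k hk => ?_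
  have : k ≠ 0 := by simpa using hk
  simp [mnp, this]

lemma cv_mnp_left (x y : K → C3) (k : K) (i j : Fin 3) : cv (mnp x) y k i j = x 0 i * y k j := by
  unfold cv
  rw [tsum_eq_single 0]
  · simp [mnp]
  · intro l hl; simp [mnp, hl]

lemma cv_mnp_right (x y : K → C3) (k : K) (i j : Fin 3) : cv x (mnp y) k i j = x k i * y 0 j := by
  unfold cv
  rw [tsum_eq_single k]
  · simp [mnp]
  · intro l hl
    have : k - l ≠ 0 := sub_ne_zero.2 (Ne.symm hl)
    simp [mnp, this]

lemma cv_mean {x : K → C3} (hx : SN x) {k : K} (hk : k ≠ 0) (i j : Fin 3) :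
    cv x x k i j = cv (mfp x) (mfp x) k i j + x 0 i * x k j + x k i * x 0 j := by
  have h1 := SN_mfp hx
  have h2 := SN_mnp x
  conv_lhs => rw [← mfp_add_mnp x]
  rw [cv_add_left h1 h2 (h1.add h2), cv_add_right h1 h1 h2, mfp_add_mnp, cv_mnp_left, cv_mnp_right]
  have e : mfp x k i = x k i := by unfold mfp; rw [if_neg hk]
  rw [e]; ring

lemma Bf_mean {x : K → C3} (hx : SN x) {k : K} (hdiv : dt k (x k) = 0) (hk : k ≠ 0) (i : Fin 3) :
    Bf x x k i = Bf (mfp x) (mfp x) k i - 2 * Real.pi * Complex.I * (∑ j, (k j : ℂ) * x 0 j) * x k i := by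
  have hs : ((sq k : ℝ) : ℂ) ≠ 0 := by exact_mod_cast (sq_pos hk).ne'
  unfold dt at hdiv
  unfold Bf
  have e1 : ∀ j m, coef k i j m * cv x x k j m = coef k i j m * cv (mfp x) (mfp x) k j m +
      (coef k i j m * (x 0 j * x k m) + coef k i j m * (x k j * x 0 m)) := by
    intro j m
    rw [cv_mean hx hk]; ring
  simp_rw [e1, Finset.sum_add_distrib]
  rw [sub_eq_add_neg]
  congr 1
  have e2 : ∑ j, ∑ m, coef k i j m * (x 0 j * x k m)
      = -(2 * Real.pi * Complex.I) * (∑ j, (k j : ℂ) * x 0 j) * x k i := by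
    have h1 : ∀ j, ∑ m, coef k i j m * (x 0 j * x k m)
        = -(2 * Real.pi * Complex.I) * (k j : ℂ) * x 0 j * (∑ m, (if m = i then 1 else 0) * x k m
          - (k i : ℂ) / ((sq k : ℝ) : ℂ) * ∑ m, (k m : ℂ) * x k m) := by
      intro j
      rw [Finset.mul_sum, ← Finset.sum_sub_distrib, Finset.mul_sum]
      refine Finset.sum_congr rfl fun m _ => ?_
      unfold coef
      ring
    simp_rw [h1, hdiv]
    simp only [ite_mul, one_mul, zero_mul, Finset.sum_ite_eq', Finset.mem_univ, if_true, mul_zero, sub_zero]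
    rw [← Finset.sum_mul]
    congr 1
    rw [Finset.mul_sum]
    exact Finset.sum_congr rfl fun j _ => by ring
  have e3 : ∑ j, ∑ m, coef k i j m * (x k j * x 0 m) = 0 := by
    have h1 : ∑ j, ∑ m, coef k i j m * (x k j * x 0 m)
        = (∑ j, (k j : ℂ) * x k j) * ∑ m, -(2 * Real.pi * Complex.I) * ((if m = i then 1 else 0)
          - (k i : ℂ) * (k m : ℂ) / ((sq k : ℝ) : ℂ)) * x 0 m := by
      rw [Finset.sum_mul]
      refine Finset.sum_congr rfl fun j _ => ?_
      rw [Finset.mul_sum]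
      refine Finset.sum_congr rfl fun m _ => ?_
      unfold coef
      ring
    rw [h1, hdiv, zero_mul]
  rw [e2, e3]; ring

/-- The coefficients in the frame moving with velocity `m`. -/
noncomputable def YY (m : E3) (x : ℝ → K → C3) (t : ℝ) (k : K) : C3 := if k = 0 then 0 else ex k (t • m) • x t k

lemma YY_eq (m : E3) (x : ℝ → K → C3) (t : ℝ) : YY m x t = fun k => ex k (t • m) • mfp (x t) k := by
  funext k
  unfold YY mfp
  split_ifs <;> simp

lemma cv_phase (y : E3) (x : K → C3) (k : K) (i j : Fin 3) :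
    cv (fun k => ex k y • x k) (fun k => ex k y • x k) k i j = ex k y * cv x x k i j := by
  unfold cv
  rw [← tsum_mul_left]
  refine tsum_congr fun l => ?_
  simp only [Pi.smul_apply, smul_eq_mul]
  have : ex k y = ex l y * ex (k - l) y := by rw [← ex_add, add_sub_cancel]
  rw [this]; ring

lemma Bf_phase (y : E3) (x : K → C3) (k : K) (i : Fin 3) :
    Bf (fun k => ex k y • x k) (fun k => ex k y • x k) k i = ex k y * Bf x x k i := by
  unfold Bf
  simp_rw [cv_phase, Finset.mul_sum]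
  refine Finset.sum_congr rfl fun j _ => Finset.sum_congr rfl fun m _ => ?_
  ring

lemma norm_YY_le (m : E3) (x : ℝ → K → C3) (t : ℝ) (k : K) : ‖YY m x t k‖ ≤ ‖x t k‖ := by
  unfold YY
  split_ifs
  · rw [norm_zero]; exact norm_nonneg _
  · rw [norm_smul, norm_ex, one_mul]

lemma ex_hasDeriv (k : K) (m : E3) (t : ℝ) :
    HasDerivAt (fun s : ℝ => ex k (s • m)) (2 * Real.pi * Complex.I * (∑ j, (k j : ℂ) * (m j : ℂ)) * ex k (t • m)) t := by
  have e : (fun s : ℝ => ex k (s • m)) = fun s : ℝ =>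
      Complex.exp ((2 * Real.pi * Complex.I * ∑ j, (k j : ℂ) * (m j : ℂ)) * (s : ℂ)) := by
    funext s
    unfold ex
    congr 1
    simp only [Pi.smul_apply, smul_eq_mul, Complex.ofReal_mul]
    rw [mul_assoc _ (∑ j, (k j : ℂ) * (m j : ℂ)), Finset.sum_mul]
    congr 1
    exact Finset.sum_congr rfl fun j _ => by ring
  have e2 : ex k (t • m) = Complex.exp ((2 * Real.pi * Complex.I * ∑ j, (k j : ℂ) * (m j : ℂ)) * (t : ℂ)) :=
    congrFun e t
  rw [e, e2]
  have h1 : HasDerivAt (fun s : ℝ => (2 * Real.pi * Complex.I * ∑ j, (k j : ℂ) * (m j : ℂ)) * (s : ℂ))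
      (2 * Real.pi * Complex.I * ∑ j, (k j : ℂ) * (m j : ℂ)) t := by
    have := (hasDerivAt_id' t).ofReal_comp.const_mul (2 * Real.pi * Complex.I * ∑ j, (k j : ℂ) * (m j : ℂ))
    simpa using this
  refine h1.cexp.congr_deriv ?_
  ring

section
variable {ν T : ℝ} {w : ℝ → E3 → E3} {q : ℝ → E3 → ℝ}

lemma IsSol.SF (h : IsSol ν T w q) (i : Fin 3) : Ev.SF T fun s y => w s y i :=
  ⟨h.smooth_c i, fun s hs j x => by simp only [h.per_u s hs j x]⟩

lemma WH_cont (h : IsSol ν T w q) (k : K) (i : Fin 3) : ContinuousOn (fun s => WH w s k i) (Ico 0 T) :=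
  (IsSol.SF h i).continuousOn_fr k

/-- The coefficients decrease rapidly. -/
lemma WH_decay (h : IsSol ν T w q) {b : ℝ} (hb : b < T) :
    ∃ β : K → ℝ, (∀ k, 0 ≤ β k) ∧ RR β ∧ ∀ t ∈ Icc 0 b, ∀ k, ‖WH w t k‖ ≤ β k := by
  have h1 : ∀ m : ℕ, ∃ C, 0 ≤ C ∧ ∀ i, ∀ t ∈ Icc 0 b, ∀ k : K, (1 + (H459R3.NS.N k : ℝ)) ^ m * ‖WH w t k i‖ ≤ C * Ev.wg k := by
    intro m
    choose C hC hC' using fun i => (IsSol.SF h i).decay hb m
    refine ⟨∑ i, C i, Finset.sum_nonneg fun i _ => hC i, fun i t ht k => (hC' i t ht k).trans ?_⟩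
    exact mul_le_mul_of_nonneg_right (Finset.single_le_sum (fun i _ => hC i) (Finset.mem_univ i)) (Ev.wg_nonneg k)
  choose C hC hC' using h1
  have hne : ∀ k, BddAbove (range fun t : Icc (0 : ℝ) b => ‖WH w t k‖) := by
    intro k
    refine ⟨C 0 * Ev.wg k, ?_⟩
    rintro _ ⟨t, rfl⟩
    rw [pi_norm_le_iff_of_nonneg (mul_nonneg (hC 0) (Ev.wg_nonneg k))]
    intro i
    have := hC' 0 i t t.2 k
    simpa using this
  refine ⟨fun k => ⨆ t : Icc (0 : ℝ) b, ‖WH w t k‖, fun k => Real.iSup_nonneg fun t => norm_nonneg _, ?_,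
    fun t ht k => le_ciSup (hne k) ⟨t, ht⟩⟩
  intro m
  have hpw : ∀ k : K, pw k ^ m ≤ 4 ^ m * (1 + (H459R3.NS.N k : ℝ)) ^ m := by
    intro k
    rw [← mul_pow]
    apply pow_le_pow_left₀ (pw_pos k).le
    have := l1_le_N k
    have hN : (0 : ℝ) ≤ H459R3.NS.N k := Nat.cast_nonneg _
    unfold pw; linarith
  refine Summable.of_nonneg_of_le (fun k => mul_nonneg (pow_pos (pw_pos k) m).le
    (Real.iSup_nonneg fun t => norm_nonneg _)) (fun k => ?_) ((H459R3.NS.summable_K3).mul_left (4 ^ m * C m))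
  have hN : (0 : ℝ) < (1 + (H459R3.NS.N k : ℝ)) ^ m := by positivity
  have hsup : (⨆ t : Icc (0 : ℝ) b, ‖WH w t k‖) ≤ C m * Ev.wg k / (1 + (H459R3.NS.N k : ℝ)) ^ m := by
    apply Real.iSup_le _ (div_nonneg (mul_nonneg (hC m) (Ev.wg_nonneg k)) hN.le)
    intro t
    rw [pi_norm_le_iff_of_nonneg (div_nonneg (mul_nonneg (hC m) (Ev.wg_nonneg k)) hN.le)]
    intro i
    rw [le_div_iff₀ hN, mul_comm]
    exact hC' m i t t.2 k
  calc pw k ^ m * (⨆ t : Icc (0 : ℝ) b, ‖WH w t k‖)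
      ≤ (4 ^ m * (1 + (H459R3.NS.N k : ℝ)) ^ m) * (C m * Ev.wg k / (1 + (H459R3.NS.N k : ℝ)) ^ m) :=
        mul_le_mul (hpw k) hsup (Real.iSup_nonneg fun t => norm_nonneg _) (by positivity)
    _ = 4 ^ m * C m * Ev.wg k := by field_simp

/-- The mean is conserved. -/
lemma WH_mean (h : IsSol ν T w q) {t : ℝ} (ht : t ∈ Ico 0 T) (i : Fin 3) : WH w t 0 i = WH w 0 0 i := by
  have hc : ContinuousOn (fun s => WH w s 0 i) (Icc 0 t) :=
    (WH_cont h 0 i).mono fun s hs => ⟨hs.1, hs.2.trans_lt ht.2⟩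
  have hd : ∀ s ∈ Ioo 0 t, HasDerivAt (fun s => WH w s 0 i) 0 s := by
    intro s hs
    refine (WH_hasDeriv h ⟨hs.1, hs.2.trans ht.2⟩ 0 i).congr_deriv ?_
    rw [sq_zero, Bf_zero]
    simp
  have := intervalIntegral.integral_eq_sub_of_hasDerivAt_of_le ht.1 hc hd (by simp)
  rw [intervalIntegral.integral_zero] at this
  exact (sub_eq_zero.1 this.symm)

/-- The equation in the moving frame. -/
lemma YY_hasDeriv (h : IsSol ν T w q) {m : E3} (hm : ∀ i, WH w 0 0 i = (m i : ℂ)) {t : ℝ} (ht : t ∈ Ioo 0 T) (k : K) :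
    HasDerivAt (fun s => YY m (WH w) s k)
      (-(4 * Real.pi ^ 2 * ν * sq k) • YY m (WH w) t k + Bf (YY m (WH w) t) (YY m (WH w) t) k) t := by
  have hI : t ∈ Ico 0 T := ⟨ht.1.le, ht.2⟩
  by_cases hk : k = 0
  · subst hk
    have e : (fun s => YY m (WH w) s 0) = fun _ => 0 := by funext s; simp [YY]
    rw [e, sq_zero, Bf_zero]
    simpa using hasDerivAt_const t (0 : C3)
  rw [hasDerivAt_pi]
  intro i
  have hsn : SN (WH w t) := by
    obtain ⟨b, hb1, hb2⟩ := exists_between ht.2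
    obtain ⟨β, h0, h1, h2⟩ := WH_decay h hb2
    exact h1.summ.of_nonneg_of_le (fun _ => norm_nonneg _) fun k => h2 t ⟨ht.1.le, hb1.le⟩ k
  have e : (fun s => YY m (WH w) s k i) = fun s => ex k (s • m) * WH w s k i := by
    funext s; unfold YY; rw [if_neg hk]; rfl
  rw [e]
  have h1 := (ex_hasDeriv k m t).mul (WH_hasDeriv h ht k i)
  refine h1.congr_deriv ?_
  rw [Bf_mean hsn (WH_div h hI k) hk i]
  have hmt : ∑ j, (k j : ℂ) * WH w t 0 j = ∑ j, (k j : ℂ) * (m j : ℂ) :=
    Finset.sum_congr rfl fun j _ => by rw [WH_mean h hI, hm]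
  rw [hmt]
  show _ = (-(4 * Real.pi ^ 2 * ν * sq k) • YY m (WH w) t k) i + Bf (YY m (WH w) t) (YY m (WH w) t) k i
  rw [YY_eq, Bf_phase, Pi.smul_apply, Complex.real_smul]
  have e2 : (ex k (t • m) • mfp (WH w t) k) i = ex k (t • m) * WH w t k i := by
    unfold mfp; rw [if_neg hk]; rfl
  show _ = _ * (ex k (t • m) • mfp (WH w t) k) i + _
  rw [e2]
  push_cast
  ring

/-- the truncated family -/
noncomputable def YT (m : E3) (w : ℝ → E3 → E3) (b : ℝ) : Fam := fun k t => YY m (WH w) (min (max t 0) b) k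

lemma clamp_mem {b : ℝ} (hb : 0 ≤ b) (t : ℝ) : min (max t 0) b ∈ Icc 0 b :=
  ⟨le_min (le_max_right _ _) hb, min_le_right _ _⟩

lemma clamp_eq {b t : ℝ} (h0 : 0 ≤ t) (hb : t ≤ b) : min (max t 0) b = t := by
  rw [max_eq_left h0, min_eq_left hb]

lemma YY_contOn (h : IsSol ν T w q) (m : E3) (k : K) : ContinuousOn (fun s => YY m (WH w) s k) (Ico 0 T) := by
  rw [continuousOn_pi]
  intro i
  unfold YY
  by_cases hk : k = 0
  · simp only [hk, if_true]
    exact continuousOn_const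
  · simp only [hk, if_false]
    exact (((ex_cont k).comp (continuous_id.smul continuous_const)).continuousOn).mul (WH_cont h k i)

lemma YT_cf (h : IsSol ν T w q) (m : E3) {b : ℝ} (hb0 : 0 ≤ b) (hb : b < T) : CF (YT m w b) := by
  intro k
  have h1 : ContinuousOn (fun s => YY m (WH w) s k) (Icc 0 b) :=
    (YY_contOn h m k).mono fun s hs => ⟨hs.1, hs.2.trans_lt hb⟩
  exact h1.comp_continuous (by fun_prop) fun t => clamp_mem hb0 t

lemma YT_dom (h : IsSol ν T w q) (m : E3) {b : ℝ} (hb0 : 0 ≤ b) (hb : b < T) : Dom (YT m w b) := by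
  obtain ⟨β, h0, h1, h2⟩ := WH_decay h hb
  exact ⟨β, h1.summ, fun k t => (norm_YY_le _ _ _ _).trans (h2 _ (clamp_mem hb0 t) k)⟩

/-- The Duhamel formula. -/
lemma YT_DS (h : IsSol ν T w q) {m : E3} (hm : ∀ i, WH w 0 0 i = (m i : ℂ)) {b : ℝ} (hb0 : 0 ≤ b) (hb : b < T) :
    DS (4 * Real.pi ^ 2 * ν) b (YT m w b) := by
  intro k t0 t h0 ht htb
  set c := 4 * Real.pi ^ 2 * ν
  have hcf := YT_cf h m hb0 hb
  have hdom := YT_dom h m hb0 hb
  have hB := Bt_cont hcf hdom
  have hcont : ContinuousOn (fun s => Real.exp (c * sq k * s) • YT m w b k s) (Icc t0 t) := by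
    have := hcf k
    fun_prop
  have hint : Continuous fun s => Real.exp (c * sq k * s) • Bt (YT m w b) k s := by
    have := hB k
    fun_prop
  have hd : ∀ s ∈ Ioo t0 t, HasDerivAt (fun s => Real.exp (c * sq k * s) • YT m w b k s)
      (Real.exp (c * sq k * s) • Bt (YT m w b) k s) s := by
    intro s hs
    have hs0 : 0 < s := h0.trans_lt hs.1
    have hsb : s < b := hs.2.trans_le htb
    have e1 : YT m w b k =ᶠ[𝓝 s] fun s => YY m (WH w) s k := by
      filter_upwards [Ioo_mem_nhds hs0 hsb] with r hr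
      unfold YT
      rw [clamp_eq hr.1.le hr.2.le]
    have h1 : HasDerivAt (YT m w b k) (-(c * sq k) • YY m (WH w) s k + Bf (YY m (WH w) s) (YY m (WH w) s) k) s :=
      (YY_hasDeriv h hm ⟨hs0, hsb.trans hb⟩ k).congr_of_eventuallyEq e1
    have h2 : HasDerivAt (fun s => Real.exp (c * sq k * s)) (Real.exp (c * sq k * s) * (c * sq k)) s := by
      have : HasDerivAt (fun s : ℝ => c * sq k * s) (c * sq k) s := by
        simpa using (hasDerivAt_id' s).const_mul (c * sq k)
      exact this.exp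
    have h3 := h2.fun_smul h1
    refine h3.congr_deriv ?_
    have e2 : YT m w b k s = YY m (WH w) s k := by unfold YT; rw [clamp_eq hs0.le hsb.le]
    have e3 : Bt (YT m w b) k s = Bf (YY m (WH w) s) (YY m (WH w) s) k := by
      unfold Bt
      have : at' (YT m w b) s = YY m (WH w) s := by
        funext l; show YT m w b l s = _; unfold YT; rw [clamp_eq hs0.le hsb.le]
      rw [this]
    rw [e2, e3, smul_add, smul_smul]
    rw [add_right_comm, ← add_smul]
    have e4 : Real.exp (c * sq k * s) * -(c * sq k) + Real.exp (c * sq k * s) * (c * sq k) = 0 := by ring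
    rw [e4, zero_smul, zero_add]
  have hF := intervalIntegral.integral_eq_sub_of_hasDerivAt_of_le ht hcont hd (hint.intervalIntegrable _ _)
  have e5 : ∫ s in t0..t, Real.exp (-(c * sq k * (t - s))) • Bt (YT m w b) k s
      = Real.exp (-(c * sq k * t)) • ∫ s in t0..t, Real.exp (c * sq k * s) • Bt (YT m w b) k s := by
    rw [← intervalIntegral.integral_smul]
    refine intervalIntegral.integral_congr fun s _ => ?_
    simp only [smul_smul, ← Real.exp_add]
    congr 2
    ring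
  rw [e5, hF, smul_sub, smul_smul, smul_smul, ← Real.exp_add, ← Real.exp_add]
  have e6 : -(c * sq k * t) + c * sq k * t = 0 := by ring
  have e7 : -(c * sq k * t) + c * sq k * t0 = -(c * sq k * (t - t0)) := by ring
  rw [e6, e7, Real.exp_zero, one_smul]
  abel

end

end Pool.Agent.K1H11.NS
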