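import Pool.Agent.K1H11.NS2.Conv2
import Pool.Agent.K1H11.NS.SmallData
import Pool.Agent.K1H11.NS2.Abs

/-!
# Decay of a global smooth periodic solution
-/

open MeasureTheory Set Filter Topology
open scoped ENNReal NNReal ContDiff

namespace Pool.Agent.K1H11.NS

open H459R3.NS (ee fr cube S SP Per D Rap IsSol enstrophy energy)

lemma summ_int43 : Summable fun n : ℤ => (1 + |(n : ℝ)|) ^ (-(4 / 3) : ℝ) := by
  have h1 : Summable fun n : ℕ => (1 + (n : ℝ)) ^ (-(4 / 3) : ℝ) := by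
    have h2 : Summable fun n : ℕ => (n : ℝ) ^ (-(4 / 3) : ℝ) := Real.summable_nat_rpow.2 (by norm_num)
    have h3 := (summable_nat_add_iff 1).2 h2
    refine h3.congr fun n => ?_
    push_cast
    rw [add_comm]
  apply Summable.of_nat_of_neg
  · simpa using h1
  · simpa using h1

lemma summ_sq2 : Summable fun k : K => 1 / sq k ^ 2 := by
  have h := summ_int43
  have hn : (0 : ℤ → ℝ) ≤ fun n : ℤ => (1 + |(n : ℝ)|) ^ (-(4 / 3) : ℝ) := fun n => by
    simp only [Pi.zero_apply]; positivity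
  have h2 := h.mul_of_nonneg h hn hn
  have h3 := h.mul_of_nonneg h2 hn (fun p => by
    simp only [Pi.zero_apply]; positivity)
  rw [← eqv.symm.summable_iff]
  refine (h3.mul_left 16).of_nonneg_of_le (fun p => ?_) fun p => ?_
  · simp only [Function.comp_apply]
    positivity
  rw [Function.comp_apply]
  set k := eqv.symm p with hk
  have e0 : p.1 = k 0 := by rw [hk]; rfl
  have e1 : p.2.1 = k 1 := by rw [hk]; rfl
  have e2 : p.2.2 = k 2 := by rw [hk]; rfl
  rw [e0, e1, e2]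
  by_cases hk0 : k = 0
  · rw [hk0, sq_zero]; norm_num
  have hn1 := one_le_nk hk0
  have hb : ∀ i, (1 + |(k i : ℝ)|) ≤ 2 * nk k := fun i => by
    have := abs_le_nk k i
    linarith
  have hp : ∀ i, (2 * nk k) ^ (-(4 / 3) : ℝ) ≤ (1 + |(k i : ℝ)|) ^ (-(4 / 3) : ℝ) := fun i =>
    Real.rpow_le_rpow_of_nonpos (by positivity) (hb i) (by norm_num)
  have hq : 0 < 2 * nk k := by linarith
  have h5 : (2 * nk k) ^ (-(4 / 3) : ℝ) * ((2 * nk k) ^ (-(4 / 3) : ℝ) * (2 * nk k) ^ (-(4 / 3) : ℝ))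
      = 1 / (16 * sq k ^ 2) := by
    rw [← Real.rpow_add hq, ← Real.rpow_add hq]
    have : (-(4 / 3) + (-(4 / 3) + -(4 / 3)) : ℝ) = -((4 : ℕ) : ℝ) := by norm_num
    rw [this, Real.rpow_neg hq.le, Real.rpow_natCast, ← nk_sq]
    rw [one_div]; congr 1; ring
  calc 1 / sq k ^ 2 = 16 * (1 / (16 * sq k ^ 2)) := by
        have := sq_pos hk0
        field_simp
    _ = 16 * ((2 * nk k) ^ (-(4 / 3) : ℝ) * ((2 * nk k) ^ (-(4 / 3) : ℝ) * (2 * nk k) ^ (-(4 / 3) : ℝ))) := by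
        rw [h5]
    _ ≤ _ := by
        have h6 := Real.rpow_nonneg hq.le (-(4 / 3) : ℝ)
        have h7 : ∀ i, 0 ≤ (1 + |(k i : ℝ)|) ^ (-(4 / 3) : ℝ) := fun i => h6.trans (hp i)
        exact mul_le_mul_of_nonneg_left (mul_le_mul (hp 0) (mul_le_mul (hp 1) (hp 2) h6 (h7 1))
          (mul_nonneg h6 h6) (h7 0)) (by norm_num)

/-- Small `H¹` norm implies small Lei-Lin norm. -/
lemma leilin_of_H1 {θ : ℝ} (hθ : 0 < θ) : ∃ δ : ℝ, 0 < δ ∧ ∀ X : K → C3, X 0 = 0 →
    Summable (fun k => sq k * ‖X k‖ ^ 2) → ∑' k, sq k * ‖X k‖ ^ 2 ≤ δ → ∑' k, ‖X k‖ / nk k ≤ θ := by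
  set Z := ∑' k : K, 1 / sq k ^ 2 with hZ
  have hZ0 : 0 ≤ Z := tsum_nonneg fun k => by positivity
  set lam := θ / (Z + 1) with hlam
  have hl : 0 < lam := by positivity
  refine ⟨lam * θ, by positivity, fun X h0 hs hle => ?_⟩
  have hb : ∀ k, ‖X k‖ / nk k ≤ 1 / (2 * lam) * (sq k * ‖X k‖ ^ 2) + lam / 2 * (1 / sq k ^ 2) := by
    intro k
    by_cases hk : k = 0
    · subst hk; rw [h0, sq_zero]; simp
    have hn := nk_pos hk
    have e : ‖X k‖ / nk k = (nk k * ‖X k‖) * (1 / sq k) := by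
      rw [← nk_mul_self]; field_simp
    have e2 : sq k * ‖X k‖ ^ 2 = (nk k * ‖X k‖) ^ 2 := by rw [← nk_sq]; ring
    have e3 : 1 / sq k ^ 2 = (1 / sq k) ^ 2 := by rw [div_pow, one_pow]
    rw [e, e2, e3]
    set a := nk k * ‖X k‖
    set b := 1 / sq k
    have h1 : 0 ≤ (a - lam * b) ^ 2 / (2 * lam) := by positivity
    have h2 : (a - lam * b) ^ 2 / (2 * lam) = 1 / (2 * lam) * a ^ 2 + lam / 2 * b ^ 2 - a * b := by
      field_simp
      ring
    linarith
  have hs1 := (hs.mul_left (1 / (2 * lam))).add (summ_sq2.mul_left (lam / 2))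
  have hs0 : Summable fun k => ‖X k‖ / nk k :=
    hs1.of_nonneg_of_le (fun k => div_nonneg (norm_nonneg _) (nk_nonneg k)) hb
  calc ∑' k, ‖X k‖ / nk k ≤ ∑' k, (1 / (2 * lam) * (sq k * ‖X k‖ ^ 2) + lam / 2 * (1 / sq k ^ 2)) :=
        hs0.tsum_le_tsum hb hs1
    _ = 1 / (2 * lam) * (∑' k, sq k * ‖X k‖ ^ 2) + lam / 2 * Z := by
        rw [(hs.mul_left _).tsum_add (summ_sq2.mul_left _), tsum_mul_left, tsum_mul_left]
    _ ≤ 1 / (2 * lam) * (lam * θ) + lam / 2 * Z := by gcongr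
    _ ≤ θ := by
        have e1 : 1 / (2 * lam) * (lam * θ) = θ / 2 := by field_simp
        have e2 : lam / 2 * Z ≤ θ / 2 := by
          rw [hlam]
          have : θ / (Z + 1) / 2 * Z = θ / 2 * (Z / (Z + 1)) := by ring
          rw [this]
          have h3 : Z / (Z + 1) ≤ 1 := by rw [div_le_one (by positivity)]; linarith
          nlinarith
        linarith

/-- The enstrophy on the Fourier side. -/
lemma enstrophy_fourier {v : E3 → E3} (hv : ∀ i, SP fun x => v x i) :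
    Summable (fun k => sq k * ‖(fun i => fr (fun x => v x i) k : C3)‖ ^ 2) ∧
    ∑' k, sq k * ‖(fun i => fr (fun x => v x i) k : C3)‖ ^ 2 ≤ enstrophy v := by
  have h1 : ∀ i j, ∫ x in cube, H459R3.NS.pd j (fun y => v y i) x ^ 2
      = ∑' k, ‖D j (fr fun x => v x i) k‖ ^ 2 := by
    intro i j
    have hr : Rap (fr (H459R3.NS.pd j fun y => v y i)) := H459R3.NS.rap_fr ((hv i).pd j)
    have h2 := H459R3.NS.integral_norm_sq hr.summable
    rw [H459R3.NS.n2_sq, H459R3.NS.fr_pd (hv i)] at h2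
    rw [← h2]
    congr 1
    funext x
    rw [← H459R3.NS.fr_pd (hv i), H459R3.NS.S_fr ((hv i).pd j), Complex.norm_real, Real.norm_eq_abs, sq_abs]
  have hs : ∀ i j, Summable fun k => ‖D j (fr fun x => v x i) k‖ ^ 2 := by
    intro i j
    have hr : Rap (fr (H459R3.NS.pd j fun y => v y i)) := H459R3.NS.rap_fr ((hv i).pd j)
    have := H459R3.NS.summable_sq hr.summable
    rwa [H459R3.NS.fr_pd (hv i)] at this
  have hsum : Summable fun k => ∑ i, ∑ j, ‖D j (fr fun x => v x i) k‖ ^ 2 :=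
    summable_sum fun i _ => summable_sum fun j _ => hs i j
  have hle : ∀ k, sq k * ‖(fun i => fr (fun x => v x i) k : C3)‖ ^ 2 ≤ ∑ i, ∑ j, ‖D j (fr fun x => v x i) k‖ ^ 2 := by
    intro k
    have e1 : ∀ i, ∑ j, ‖D j (fr fun x => v x i) k‖ ^ 2 = 4 * Real.pi ^ 2 * sq k * ‖fr (fun x => v x i) k‖ ^ 2 := by
      intro i
      have : ∀ j, ‖D j (fr fun x => v x i) k‖ ^ 2 = 4 * Real.pi ^ 2 * (k j : ℝ) ^ 2 * ‖fr (fun x => v x i) k‖ ^ 2 := by
        intro j
        unfold D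
        rw [norm_mul, norm_mul, norm_mul, norm_mul, Complex.norm_I, Complex.norm_real, Complex.norm_intCast,
          Complex.norm_ofNat, Real.norm_eq_abs, abs_of_pos Real.pi_pos, mul_pow, mul_pow, mul_pow, mul_pow, sq_abs]
        ring
      simp_rw [this]
      rw [← Finset.sum_mul, ← Finset.mul_sum]
      rfl
    simp_rw [e1]
    rw [← Finset.mul_sum]
    have h3 : ‖(fun i => fr (fun x => v x i) k : C3)‖ ^ 2 ≤ ∑ i, ‖fr (fun x => v x i) k‖ ^ 2 := by
      obtain ⟨i, hi⟩ : ∃ i, ‖(fun i => fr (fun x => v x i) k : C3)‖ = ‖fr (fun x => v x i) k‖ := by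
        obtain ⟨i, -, hi⟩ := Finset.exists_mem_eq_sup' (Finset.univ_nonempty (α := Fin 3))
          (fun i => ‖fr (fun x => v x i) k‖₊)
        refine ⟨i, ?_⟩
        rw [← coe_nnnorm, ← coe_nnnorm, Pi.nnnorm_def, ← Finset.sup'_eq_sup Finset.univ_nonempty, hi]
      rw [hi]
      exact Finset.single_le_sum (f := fun i => ‖fr (fun x => v x i) k‖ ^ 2) (fun i _ => sq_nonneg _)
        (Finset.mem_univ i)
    have h4 : 1 ≤ 4 * Real.pi ^ 2 := by nlinarith [Real.pi_gt_three]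
    have h5 := sq_nonneg' k
    have h6 : 0 ≤ ∑ i, ‖fr (fun x => v x i) k‖ ^ 2 := Finset.sum_nonneg fun i _ => sq_nonneg _
    calc _ ≤ sq k * ∑ i, ‖fr (fun x => v x i) k‖ ^ 2 := mul_le_mul_of_nonneg_left h3 h5
      _ ≤ 4 * Real.pi ^ 2 * (sq k * ∑ i, ‖fr (fun x => v x i) k‖ ^ 2) :=
          le_mul_of_one_le_left (mul_nonneg h5 h6) h4
      _ = _ := by ring
  have hs0 := hsum.of_nonneg_of_le (fun k => mul_nonneg (sq_nonneg' k) (sq_nonneg _)) hle
  refine ⟨hs0, (hs0.tsum_le_tsum hle hsum).trans (le_of_eq ?_)⟩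
  unfold enstrophy
  simp_rw [h1]
  rw [Summable.tsum_finsetSum fun i _ => summable_sum fun j _ => hs i j]
  exact Finset.sum_congr rfl fun i _ => Summable.tsum_finsetSum fun j _ => hs i j

lemma energy_nonneg (v : E3 → E3) : 0 ≤ energy v :=
  Finset.sum_nonneg fun i _ => integral_nonneg fun x => sq_nonneg _

/-- The enstrophy is small at some time. -/
lemma exists_small_enstrophy {ν : ℝ} (hν : 0 < ν) {w : ℝ → E3 → E3} {q : ℝ → E3 → ℝ}
    (h : ∀ T, IsSol ν T w q) {δ : ℝ} (hδ : 0 < δ) : ∃ t, 0 < t ∧ enstrophy (w t) ≤ δ := by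
  by_contra hcon
  push Not at hcon
  set t1 := (energy (w 0) + 1) / (2 * ν * δ) with ht1
  have hE0 := energy_nonneg (w 0)
  have ht1p : 0 < t1 := by positivity
  have hI := h (t1 + 1)
  have hder : ∀ t ∈ Ioo 0 t1, HasDerivAt (fun s => energy (w s)) (-(2 * ν * enstrophy (w t))) t := fun t ht =>
    hI.energy_hasDerivAt ⟨ht.1, by linarith [ht.2]⟩
  have key := Convex.image_sub_le_mul_sub_of_deriv_le (convex_Icc (0 : ℝ) t1)
    (f := fun s => energy (w s)) (hI.energy_continuousOn.mono fun s hs => ⟨hs.1, by linarith [hs.2]⟩)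
    (by
      rw [interior_Icc]
      intro t ht
      exact (hder t ht).differentiableAt.differentiableWithinAt) (C := -(2 * ν * δ))
    (by
      rw [interior_Icc]
      intro t ht
      rw [(hder t ht).deriv]
      have := hcon t ht.1
      have h2 : 2 * ν * δ ≤ 2 * ν * enstrophy (w t) := mul_le_mul_of_nonneg_left this.le (by positivity)
      linarith) 0 ⟨le_rfl, ht1p.le⟩ t1 ⟨ht1p.le, le_rfl⟩ ht1p.le
  have h3 := energy_nonneg (w t1)
  have h4 : 2 * ν * δ * t1 = energy (w 0) + 1 := by rw [ht1]; field_simp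
  simp only [sub_zero] at key
  nlinarith

end Pool.Agent.K1H11.NS
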