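import Pool.Agent.K1H11.NS2.Desc
import Pool.Agent.K1H11.NS2.Late2
import Pool.Agent.K1H11.NS2.Open
import Pool.Agent.K1H11.NS.Lus2
import Pool.Agent.H356R3.NS.Defs2

/-!
# The physical form of the descent
-/

open MeasureTheory Set Filter Topology
open scoped ENNReal NNReal ContDiff

namespace Pool.Agent.K1H11.NS

open H459R3.NS (ee fr cube S SP Per D Rap)
open Pool.Agent.H356R3.NS (AdmissiblePeriodic R3 shellSum critNorm leiLin)

lemma fc_eq_fr (v : E3 → E3) (k : K) (i : Fin 3) :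
    Pool.Agent.H356R3.NS.fc v k i = fr (fun x => v x i) k := by
  unfold Pool.Agent.H356R3.NS.fc fr H459R3.NS.fc
  show ∫ x in cube, _ = ∫ x in cube, _
  congr 1
  funext x
  rw [mul_comm]
  congr 1
  unfold ee H459R3.NS.ph
  congr 1
  push_cast
  simp only [Pi.neg_apply, Int.cast_neg, neg_mul, Finset.sum_neg_distrib, mul_neg]

/-- The Fourier coefficients of the mean free part. -/
noncomputable def FV (u : E3 → E3) : K → C3 := fun k i => fr (fun x => u x i - ∫ y in cube, u y i) k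

lemma FV_eq {u : E3 → E3} (hu : ∀ i, SP fun x => u x i) {k : K} (hk : k ≠ 0) (i : Fin 3) :
    FV u k i = fr (fun x => u x i) k := by
  unfold FV
  rw [fr_sub (hu i) (SP.const _), fr_const, if_neg hk, sub_zero]

lemma FV_eq_fc {u : E3 → E3} (hu : ∀ i, SP fun x => u x i) {k : K} (hk : k ≠ 0) :
    FV u k = Pool.Agent.H356R3.NS.fc u k := by
  funext i
  rw [FV_eq hu hk, fc_eq_fr]

lemma FV_zero {u : E3 → E3} (hu : ∀ i, SP fun x => u x i) (i : Fin 3) : FV u 0 i = 0 := by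
  unfold FV
  rw [fr_sub (hu i) (SP.const _), fr_const, if_pos rfl, fr_zero, sub_self]

lemma FV_sym (u : E3 → E3) : Sym (FV u) := fun _ _ => fr_neg _ _

lemma FV_rr {u : E3 → E3} (hu : ∀ i, SP fun x => u x i) : RR fun k => ‖FV u k‖ := by
  have h : ∀ i, RR fun k => ‖FV u k i‖ := fun i => rr_fr (SP.sub (hu i) (SP.const _))
  refine (((h 0).add (h 1)).add (h 2)).mono (fun _ => norm_nonneg _) fun k => ?_
  have a0 := norm_nonneg (FV u k 0)
  have a1 := norm_nonneg (FV u k 1)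
  have a2 := norm_nonneg (FV u k 2)
  rw [pi_norm_le_iff_of_nonneg (by positivity)]
  intro i
  fin_cases i
  · show ‖FV u k 0‖ ≤ _
    linarith
  · show ‖FV u k 1‖ ≤ _
    linarith
  · show ‖FV u k 2‖ ≤ _
    linarith

lemma FV_dt {u : E3 → E3} (hu : ∀ i, SP fun x => u x i)
    (hdiv : ∀ x, ∑ i, H459R3.NS.pd i (fun y => u y i) x = 0) (k : K) : dt k (FV u k) = 0 := by
  unfold dt
  by_cases hk : k = 0
  · subst hk; simp
  · rw [← fr_div hu hdiv k]
    exact Finset.sum_congr rfl fun i _ => by rw [FV_eq hu hk]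

lemma FV_series {u : E3 → E3} (hu : ∀ i, SP fun x => u x i) {m : E3} (hm : ∀ i, m i = ∫ y in cube, u y i) :
    (fun (x : E3) i => m i + (∑' k, FV u k i * ex k x).re) = u := by
  funext x i
  have h2 : SP fun x => u x i - ∫ y in cube, u y i := SP.sub (hu i) (SP.const _)
  have h := H459R3.NS.S_fr h2 x
  unfold S at h
  have e : ∑' k, FV u k i * ex k x = ∑' k, fr (fun x => u x i - ∫ y in cube, u y i) k * ee k x :=
    tsum_congr fun k => by rw [ex_eq_ee]; rfl
  rw [e, h, Complex.ofReal_re, hm]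
  ring

lemma leiLin_eq {x : K → C3} (hs : SN x) : leiLin x = ENNReal.ofReal (∑' k, ‖x k‖ / nk k) := by
  rw [ENNReal.ofReal_tsum_of_nonneg (fun k => div_nonneg (norm_nonneg _) (nk_nonneg k)) (summ_div_nk hs)]
  unfold leiLin
  refine tsum_congr fun k => ?_
  by_cases hk : k = 0
  · subst hk; rw [if_pos rfl, nk_zero, div_zero, ENNReal.ofReal_zero]
  · rw [if_neg hk, ENNReal.ofReal_div_of_pos (nk_pos hk), ofReal_norm]
    rfl

lemma leiLin_congr {x y : K → C3} (h : ∀ k, k ≠ 0 → x k = y k) : leiLin x = leiLin y := by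
  unfold leiLin
  refine tsum_congr fun k => ?_
  by_cases hk : k = 0
  · rw [if_pos hk, if_pos hk]
  · rw [if_neg hk, if_neg hk, h k hk]

lemma sn_cF {B : Fin 3 → E3 → ℝ} (hB : ∀ i, SP (B i)) : SN (cF fun i => fr (B i)) := by
  have := rap_cF hB 0
  unfold SN
  simpa using this

/-- Fourier solutions give admissible solutions. -/
lemma adm_of_sol {ν : ℝ} {z₀ : E3 → E3} (hz : ∀ i, SP fun x => z₀ x i)
    (hdiv : ∀ x, ∑ i, H459R3.NS.pd i (fun y => z₀ y i) x = 0) {m : E3} (hm : ∀ i, m i = ∫ y in cube, z₀ y i)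
    {a : Wt} (ha : Sup a) {u : Fam} (hu : Sol (4 * Real.pi ^ 2 * ν) a (FV z₀) u) :
    ∃ p, AdmissiblePeriodic ν z₀ (fun t x i => m i + (GS m (cf' u i) t x).re) p := by
  have h := sol_physical ha (FV_dt hz hdiv) hu m
  rw [FV_series hz hm] at h
  exact ⟨_, h⟩

/-- The difference of two physical solutions. -/
lemma GS_diff {U W : Fam} (hU : Dom U) (hW : Dom W) (m : E3) (i : Fin 3) (t : ℝ) (x : E3) :
    |m i + (GS m (cf' U i) t x).re - (m i + (GS m (cf' W i) t x).re)| ≤ An (U - W) t := by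
  have e1 : m i + (GS m (cf' U i) t x).re - (m i + (GS m (cf' W i) t x).re)
      = (GS m (cf' (U - W) i) t x).re := by
    rw [add_sub_add_left_eq_sub, ← Complex.sub_re]
    congr 1
    unfold GS SF
    have s1 : Summable fun k => cf' U i k t * ex k (x - t • m) := by
      refine Summable.of_norm_bounded (hU.sn t) fun k => ?_
      rw [norm_mul, norm_ex, mul_one]; exact norm_le_pi_norm _ i
    have s2 : Summable fun k => cf' W i k t * ex k (x - t • m) := by
      refine Summable.of_norm_bounded (hW.sn t) fun k => ?_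
      rw [norm_mul, norm_ex, mul_one]; exact norm_le_pi_norm _ i
    rw [← s1.tsum_sub s2]
    refine tsum_congr fun k => ?_
    show cf' U i k t * ex k (x - t • m) - cf' W i k t * ex k (x - t • m)
      = (U k t - W k t) i * ex k (x - t • m)
    rw [Pi.sub_apply]
    unfold cf'
    ring
  rw [e1]
  exact GS_le (hU.sub hW) _ _ _ _

theorem phys {ν : ℝ} (hν : 0 < ν) {u₀ w₀ : E3 → E3} (hu : ∀ i, SP fun x => u₀ x i)
    (hdiv : ∀ x, ∑ i, H459R3.NS.pd i (fun y => u₀ y i) x = 0) (hw : ∀ i, SP fun x => w₀ x i)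
    (hdivw : ∀ x, ∑ i, H459R3.NS.pd i (fun y => w₀ y i) x = 0)
    (hm : ∀ i, ∫ x in cube, w₀ x i = ∫ x in cube, u₀ x i) {a : Wt} (ha : Sup a) {W : Fam}
    (hW : Sol (4 * Real.pi ^ 2 * ν) a (FV w₀) W) {η : ℝ} (h0 : 0 < η) (h1 : η ≤ 1 / 4) {g : ℝ → ℝ}
    (hg : Cut η g) {A Q : ℝ} (hA : ∀ cc M, wn (gM g cc M) ≤ A)
    (hQ : ∀ cc M, wn (gM (fun y => g y ^ 2 - 1) cc M) ≤ Q) {J : ℕ} (hJ : 1 ≤ J) {ε : ℝ} (hε : 0 < ε)
    {R ρ : ℝ} (hρ : 0 < ρ) :
    ∃ (v₀ : E3 → E3) (δ : ℝ), 0 < δ ∧ (∀ i, SP fun x => v₀ x i) ∧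
      (∀ x, ∑ i, H459R3.NS.pd i (fun y => v₀ y i) x = 0) ∧
      (∀ i, ∫ x in cube, v₀ x i = ∫ x in cube, u₀ x i) ∧
      volume {x | x ∈ Icc (0 : E3) 1 ∧ v₀ x ≠ u₀ x} ≤ ENNReal.ofReal (12 * η) ∧
      leiLin (fun k => Pool.Agent.H356R3.NS.fc v₀ k - Pool.Agent.H356R3.NS.fc u₀ k) ≤
        ENNReal.ofReal (2 * PP A ^ 2 * (4 * Real.pi ^ 2 * ν) * Real.sqrt J) ∧
      (∀ r : ℝ, 1 ≤ r → critNorm r (fun k => Pool.Agent.H356R3.NS.fc v₀ k - Pool.Agent.H356R3.NS.fc u₀ k) ≤
        ENNReal.ofReal (8 * PP A ^ 2 * (4 * Real.pi ^ 2 * ν) * (J : ℝ) ^ (1 / r - 1 / 2))) ∧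
      (∀ k, nk k ≤ R → ‖Pool.Agent.H356R3.NS.fc v₀ k - Pool.Agent.H356R3.NS.fc u₀ k‖ ≤ ρ) ∧
      ∀ z₀ : E3 → E3, (∀ i, SP fun x => z₀ x i) → (∀ x, ∑ i, H459R3.NS.pd i (fun y => z₀ y i) x = 0) →
        (∀ i, ∫ x in cube, z₀ x i = ∫ x in cube, u₀ x i) →
        leiLin (fun k => Pool.Agent.H356R3.NS.fc z₀ k - Pool.Agent.H356R3.NS.fc v₀ k) ≤ ENNReal.ofReal δ →
        ∃ (u : ℝ → E3 → E3) (p : ℝ → E3 → ℝ), AdmissiblePeriodic ν z₀ u p ∧
          ∀ t, ε ≤ t → ∀ x i, |u t x i - ((∫ x in cube, u₀ x i) +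
            (GS (fun i => ∫ x in cube, u₀ x i) (cf' W i) t x).re)| ≤ ε := by
  set c := 4 * Real.pi ^ 2 * ν with hcdef
  have hpi := Real.pi_pos
  have hc : 0 < c := by positivity
  set m : E3 := fun i => ∫ x in cube, u₀ x i with hmdef
  obtain ⟨τ, hτ, hlate⟩ := late2 hc (dl := ε / 2) (by positivity) hε ha hW
  have hGS : ∀ i, SP fun x => w₀ x i - u₀ x i := fun i => SP.sub (hw i) (hu i)
  have hGf : ∀ i k, fr (fun x => w₀ x i - u₀ x i) k = fr (fun x => w₀ x i) k - fr (fun x => u₀ x i) k :=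
    fun i k => fr_sub (hw i) (hu i) k
  have hV : FV w₀ = FV u₀ + fun k i => fr (fun x => w₀ x i - u₀ x i) k := by
    funext k i
    show FV w₀ k i = FV u₀ k i + fr (fun x => w₀ x i - u₀ x i) k
    rw [hGf]
    by_cases hk : k = 0
    · subst hk
      rw [FV_zero hw, FV_zero hu, fr_zero, fr_zero, hm]; ring
    · rw [FV_eq hw hk, FV_eq hu hk]; ring
  rw [hV] at hW
  obtain ⟨M, B, hM, hB, hBz, hBl, hBn, hBc, a', ha', U, hU, hUL⟩ := reach hc hg hA hQ (half_pos hτ)
    (show (0 : ℝ) < ε / 2 by positivity) hGS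
    (fun k => by
      have e1 := fr_div hw hdivw k
      have e2 := fr_div hu hdiv k
      simp_rw [hGf, mul_sub]
      rw [Finset.sum_sub_distrib, e1, e2, sub_zero])
    (fun i => by rw [hGf, fr_zero, fr_zero, hm, sub_self]) ha hW hJ (R := R) hρ
  set v₀ : E3 → E3 := fun x i => u₀ x i + cu B i x with hv₀
  have hvSP : ∀ i, SP fun x => v₀ x i := fun i => (hu i).add (cu_SP hB i)
  have hfv : ∀ i k, fr (fun x => v₀ x i) k = fr (fun x => u₀ x i) k + cF (fun i => fr (B i)) k i := by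
    intro i k
    have := fr_add (hu i) (cu_SP hB i) k
    rw [fr_cu hB] at this
    exact this
  have hmv : ∀ i, ∫ x in cube, v₀ x i = ∫ x in cube, u₀ x i := by
    intro i
    have h1 : ∫ x in cube, cu B i x = 0 := by
      have h2 := fr_cu hB i 0
      rw [cF_zero, fr_zero, Pi.zero_apply] at h2
      exact_mod_cast h2
    show ∫ x in cube, (u₀ x i + cu B i x) = _
    rw [integral_add, h1, add_zero]
    · exact H459R3.NS.integrableOn_cube (hu i).smooth.continuous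
    · exact H459R3.NS.integrableOn_cube (cu_SP hB i).smooth.continuous
  have hVv : FV u₀ + (cF fun i => fr (B i)) = FV v₀ := by
    funext k i
    show FV u₀ k i + cF (fun i => fr (B i)) k i = FV v₀ k i
    by_cases hk : k = 0
    · subst hk; rw [FV_zero hu, FV_zero hvSP, cF_zero]; simp
    · rw [FV_eq hu hk, FV_eq hvSP hk, hfv]
  have hd : (fun k => Pool.Agent.H356R3.NS.fc v₀ k - Pool.Agent.H356R3.NS.fc u₀ k) = cF fun i => fr (B i) := by
    funext k i
    show Pool.Agent.H356R3.NS.fc v₀ k i - Pool.Agent.H356R3.NS.fc u₀ k i = _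
    rw [fc_eq_fr, fc_eq_fr, hfv]; ring
  have hvdt : ∀ k, dt k (FV v₀ k) = 0 := by
    intro k
    have e1 := FV_dt hu hdiv k
    have e2 := cF_div (fun i => fr (B i)) k
    rw [← hVv]
    unfold dt at e1 e2 ⊢
    simp only [Pi.add_apply, mul_add, Finset.sum_add_distrib]
    rw [e1, e2, add_zero]
  rw [hVv] at hU
  have hvdiv : ∀ x, ∑ i, H459R3.NS.pd i (fun y => v₀ y i) x = 0 := by
    have h := sol_physical ha' hvdt hU m
    rw [FV_series hvSP (fun i => (hmv i).symm)] at h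
    intro x
    have h2 := h.divFree 0 le_rfl x
    have h3 : ∀ i, (fun y => m i + (GS m (cf' U i) 0 y).re) = fun y => v₀ y i := fun i =>
      funext fun y => congrFun (congrFun h.initial y) i
    simp only [h3] at h2
    exact h2
  obtain ⟨δ, hδ, hopen⟩ := open_sol hc ha' hU (half_pos hτ)
  refine ⟨v₀, δ, hδ, hvSP, hvdiv, hmv, ?_, ?_, ?_, ?_, ?_⟩
  · have hsub : {x | x ∈ Icc (0 : E3) 1 ∧ v₀ x ≠ u₀ x}
        ⊆ ⋃ j ∈ (Finset.univ : Finset (Fin 3)), {x : E3 | x ∈ cube ∧ x j ∈ Tb η M} := by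
      rintro x ⟨hx, hne⟩
      by_contra hcon
      simp only [Finset.mem_univ, iUnion_true, mem_iUnion, mem_setOf_eq, not_exists, not_and] at hcon
      apply hne
      have hz : ∀ j, g (M * x j) = 0 := by
        intro j
        apply hg.supp
        intro n
        by_contra hn
        push Not at hn
        exact hcon j hx (mem_Tb h1 hM (hx.1 j) (hx.2 j) hn)
      funext i
      show u₀ x i + cu B i x = u₀ x i
      rw [hBz x hz i, add_zero]
    refine (measure_mono hsub).trans ((measure_biUnion_finset_le _ _).trans ?_)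
    calc ∑ j : Fin 3, volume {x : E3 | x ∈ cube ∧ x j ∈ Tb η M} ≤ ∑ _j : Fin 3, ENNReal.ofReal (4 * η) :=
          Finset.sum_le_sum fun j _ => vol_bad h0 hM j
      _ = ENNReal.ofReal (12 * η) := by
          rw [Finset.sum_const, Finset.card_univ, Fintype.card_fin, nsmul_eq_mul,
            show ((3 : ℕ) : ℝ≥0∞) = ENNReal.ofReal (3 : ℝ) by norm_num, ← ENNReal.ofReal_mul (by norm_num)]
          congr 1; ring
  · rw [hd, leiLin_eq (sn_cF hB)]
    exact ENNReal.ofReal_le_ofReal hBn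
  · intro r hr
    rw [hd]
    exact hBc r hr
  · intro k hk
    have := congrFun hd k
    rw [this]
    exact hBl k hk
  · intro z₀ hz hdz hmz hle
    set h : K → C3 := FV z₀ - FV v₀ with hh
    have hrr : RR fun k => ‖h k‖ := ((FV_rr hz).add (FV_rr hvSP)).mono (fun _ => norm_nonneg _)
      fun k => norm_sub_le _ _
    have hle2 : ∑' k, ‖h k‖ / nk k ≤ δ := by
      have e1 : leiLin (fun k => Pool.Agent.H356R3.NS.fc z₀ k - Pool.Agent.H356R3.NS.fc v₀ k) = leiLin h := by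
        refine leiLin_congr fun k hk => ?_
        show _ = FV z₀ k - FV v₀ k
        rw [FV_eq_fc hz hk, FV_eq_fc hvSP hk]
      rw [e1, leiLin_eq hrr.summ] at hle
      exact (ENNReal.ofReal_le_ofReal_iff hδ.le).1 hle
    obtain ⟨a2, ha2, U2, hU2, hX2⟩ := hopen h ((FV_sym z₀).sub (FV_sym v₀)) (by
      funext i
      show FV z₀ 0 i - FV v₀ 0 i = 0
      rw [FV_zero hz, FV_zero hvSP, sub_zero]) hrr hle2
    have e2 : FV v₀ + h = FV z₀ := by rw [hh]; abel
    rw [e2] at hU2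
    obtain ⟨p, hp⟩ := adm_of_sol hz hdz (m := m) (fun i => (hmz i).symm) ha2 hU2
    refine ⟨_, p, hp, fun t ht x i => ?_⟩
    refine (GS_diff (hU2.dom' ha2) (hW.dom' ha) m i t x).trans ?_
    refine hlate a2 ha2 _ U2 hU2 ?_ t (by linarith)
    have e3 : U2 - W = (U2 - U) + (U - W) := by abel
    rw [e3]
    have c1 : CF (U2 - U) := fun k => (hU2.cf k).sub (hU.cf k)
    have c2 : CF (U - W) := fun k => (hU.cf k).sub (hW.cf k)
    refine (LNd_add _ c1 c2).trans ((add_le_add ((LNd_le_XN _ _).trans hX2) hUL).trans (le_of_eq ?_))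
    rw [← ENNReal.ofReal_add (by positivity) (by positivity)]
    congr 1; ring

end Pool.Agent.K1H11.NS
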