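import Pool.Agent.K1H11.NS2.Conv3
import Pool.Agent.K1H11.NS2.Phys

/-!
# Every admissible periodic solution comes from a Fourier solution
-/

open MeasureTheory Set Filter Topology
open scoped ENNReal NNReal ContDiff

namespace Pool.Agent.K1H11.NS

open H459R3.NS (ee fr cube S SP Per D Rap IsSol enstrophy energy)
open Pool.Agent.H356R3.NS (AdmissiblePeriodic R3)

lemma adm_isSol {ν : ℝ} {w₀ : E3 → E3} {w : ℝ → E3 → E3} {q : ℝ → E3 → ℝ}
    (h : AdmissiblePeriodic ν w₀ w q) (T : ℝ) : IsSol ν T w q where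
  smooth_u := h.smooth_u.mono (prod_mono (fun s hs => hs.1) subset_rfl)
  smooth_p := h.smooth_p.mono (prod_mono (fun s hs => hs.1) subset_rfl)
  per_u := fun t ht i x => h.periodic_u t ht.1 x i
  per_p := fun t ht i x => h.periodic_p t ht.1 x i
  divfree := fun t ht x => h.divFree t ht.1 x
  momentum := fun t ht x i => by
    have := h.momentum t ht.1.le x i
    rw [derivWithin_of_mem_nhds (Ici_mem_nhds ht.1)] at this
    exact this

lemma LN_split {f : ℝ → ℝ≥0∞} {T A B : ℝ} (hT : 0 ≤ T) (hA : 0 ≤ A) (hB : 0 ≤ B)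
    (h1 : ∀ t ∈ Ioc 0 T, f t ≤ ENNReal.ofReal A)
    (h2 : LN (fun t => f (T + t)) ≤ ENNReal.ofReal B) :
    LN f ≤ ENNReal.ofReal (A * Real.sqrt T + B) := by
  have h3 : ∫⁻ t in Ioi 0, f t ^ (2 : ℝ) ≤ ENNReal.ofReal ((A * Real.sqrt T + B) ^ 2) := by
    rw [← Ioc_union_Ioi_eq_Ioi hT, lintegral_union measurableSet_Ioi (by
      rw [Set.disjoint_left]; intro x hx hx2; exact absurd hx.2 (not_le.2 hx2))]
    have e1 : ∫⁻ t in Ioc 0 T, f t ^ (2 : ℝ) ≤ ENNReal.ofReal (A ^ 2 * T) := by
      calc ∫⁻ t in Ioc 0 T, f t ^ (2 : ℝ) ≤ ∫⁻ t in Ioc 0 T, ENNReal.ofReal (A ^ 2) := by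
            refine setLIntegral_mono' measurableSet_Ioc fun t ht => ?_
            rw [ENNReal.ofReal_pow hA, ENNReal.rpow_two]
            exact pow_le_pow_left' (h1 t ht) 2
        _ = _ := by
            rw [setLIntegral_const, Real.volume_Ioc, sub_zero, ← ENNReal.ofReal_mul (by positivity)]
    have e2 : ∫⁻ t in Ioi T, f t ^ (2 : ℝ) ≤ ENNReal.ofReal (B ^ 2) := by
      have e3 : ∫⁻ t in Ioi T, f t ^ (2 : ℝ) = ∫⁻ t in Ioi 0, f (T + t) ^ (2 : ℝ) := by
        rw [← lintegral_indicator measurableSet_Ioi, ← lintegral_indicator measurableSet_Ioi,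
          ← lintegral_add_left_eq_self _ T]
        refine lintegral_congr fun t => ?_
        by_cases ht : t ∈ Ioi 0
        · rw [indicator_of_mem ht, indicator_of_mem (by simp only [mem_Ioi] at ht ⊢; linarith)]
        · rw [indicator_of_notMem ht, indicator_of_notMem (by simp only [mem_Ioi, not_lt] at ht ⊢; linarith)]
      rw [e3]
      unfold LN at h2
      have := ENNReal.rpow_le_rpow h2 (by norm_num : (0 : ℝ) ≤ 2)
      rw [← ENNReal.rpow_mul, ENNReal.rpow_two, ← ENNReal.ofReal_pow hB] at this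
      norm_num at this
      simpa using this
    refine (add_le_add e1 e2).trans ?_
    rw [← ENNReal.ofReal_add (by positivity) (by positivity)]
    apply ENNReal.ofReal_le_ofReal
    have : Real.sqrt T ^ 2 = T := Real.sq_sqrt hT
    have h4 : 0 ≤ A * Real.sqrt T * B := by positivity
    nlinarith
  unfold LN
  have h4 : 0 ≤ A * Real.sqrt T + B := by positivity
  calc _ ≤ (ENNReal.ofReal ((A * Real.sqrt T + B) ^ 2)) ^ (1 / 2 : ℝ) := ENNReal.rpow_le_rpow h3 (by norm_num)
    _ = _ := by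
        rw [ENNReal.ofReal_rpow_of_nonneg (by positivity) (by norm_num), ← Real.sqrt_eq_rpow, Real.sqrt_sq h4]

/-- A family with rapidly decreasing bounds which satisfies the Duhamel formula is a solution. -/
lemma sol_of_DS {c : ℝ} {W : Fam} (hcf : CF W) (hz : ∀ t, W 0 t = 0) (hsym : SymF W) {b : K → ℝ}
    (hb0 : ∀ k, 0 ≤ b k) (hb : RR b) (hWb : ∀ k t, ‖W k t‖ ≤ b k)
    (hL : ∀ k, LN (fun t => ‖W k t‖ₑ) ≤ ENNReal.ofReal (b k)) (hDS : ∀ T, DS c T W)
    (hneg : ∀ k t, W k t = W k (max t 0)) : ∃ a : Wt, Sup a ∧ Sol c a (fun k => W k 0) W := by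
  obtain ⟨a, ha, -, hs, -⟩ := exists_weight hb0 hb one_pos
  refine ⟨a, ha, hcf, hz, hsym, ⟨b, hs, hWb⟩, ?_, ?_⟩
  · have h1 : LN (fun t => NW (Wa a) (at' W t)) ≤ ∑' k, ENNReal.ofReal (om a k * b k) := by
      unfold NW
      refine (LN_tsum fun k => ((hcf k).enorm.measurable).const_mul (Wa a k)).trans ?_
      refine ENNReal.tsum_le_tsum fun k => ?_
      rw [LN_const_mul _ (hcf k).enorm.measurable, ENNReal.ofReal_mul (om_pos a k).le]
      exact mul_le_mul' le_rfl (hL k)
    refine ne_top_of_le_ne_top ?_ h1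
    rw [← ENNReal.ofReal_tsum_of_nonneg (fun k => mul_nonneg (om_pos a k).le (hb0 k)) hs]
    exact ENNReal.ofReal_ne_top
  · intro k t
    rw [hneg k t]
    have := hDS (max t 0) k 0 (max t 0) le_rfl (le_max_right _ _) le_rfl
    rw [sub_zero] at this
    rw [this]
    rfl

lemma YY_sym (m : E3) (w : ℝ → E3 → E3) (t : ℝ) : Sym (YY m (WH w) t) := by
  intro k i
  unfold YY
  by_cases hk : k = 0
  · subst hk; simp
  · rw [if_neg hk, if_neg (neg_ne_zero.2 hk)]
    simp only [Pi.smul_apply, smul_eq_mul, star_mul', ex_neg]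
    congr 1
    exact fr_neg _ k

theorem conv_sol {ν : ℝ} (hν : 0 < ν) {w₀ : E3 → E3} {w : ℝ → E3 → E3} {q : ℝ → E3 → ℝ}
    (h : AdmissiblePeriodic ν w₀ w q) : ∃ a : Wt, Sup a ∧ ∃ W : Fam, Sol (4 * Real.pi ^ 2 * ν) a (FV w₀) W ∧
      ∀ t, 0 ≤ t → ∀ x i, (∫ y in cube, w₀ y i) + (GS (fun i => ∫ y in cube, w₀ y i) (cf' W i) t x).re = w t x i := by
  have hpi := Real.pi_pos
  set c := 4 * Real.pi ^ 2 * ν with hcdef
  have hc : 0 < c := by positivity
  have hI : ∀ T, IsSol ν T w q := adm_isSol h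
  have hw0 : w 0 = w₀ := h.initial
  have hsp : ∀ t, 0 ≤ t → ∀ i, SP fun x => w t x i := fun t ht i => (hI (t + 1)).sp ⟨ht, by linarith⟩ i
  have hsp0 : ∀ i, SP fun x => w₀ x i := fun i => by have := hsp 0 le_rfl i; rwa [hw0] at this
  set m : E3 := fun i => ∫ y in cube, w₀ y i with hmdef
  have hm : ∀ i, WH w 0 0 i = (m i : ℂ) := by
    intro i
    unfold WH
    rw [hw0, fr_zero]
  set W : Fam := fun k t => YY m (WH w) (max t 0) k with hWdef
  have hWT : ∀ {b : ℝ}, 0 ≤ b → ∀ t, t ≤ b → ∀ k, W k t = YT m w b k t := by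
    intro b hb t ht k
    show YY m (WH w) (max t 0) k = YY m (WH w) (min (max t 0) b) k
    rw [min_eq_left (max_le ht hb)]
  have hcf : CF W := by
    intro k
    rw [continuous_iff_continuousAt]
    intro t
    have hb : 0 ≤ |t| + 1 := by positivity
    have h1 : W k =ᶠ[𝓝 t] YT m w (|t| + 1) k := by
      filter_upwards [Iio_mem_nhds (show t < |t| + 1 by have := le_abs_self t; linarith)] with s hs
      exact hWT hb s (le_of_lt hs) k
    exact ((YT_cf (hI (|t| + 2)) m hb (by linarith)) k).continuousAt.congr h1.symm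
  have hz : ∀ t, W 0 t = 0 := fun t => by simp [hWdef, YY]
  have hsym : SymF W := fun t => YY_sym m w _
  have hDS : ∀ T, DS c T W := by
    intro T k t0 t h0 ht hT
    have hT0 : 0 ≤ T := h0.trans (ht.trans hT)
    have h1 := YT_DS (hI (T + 1)) hm hT0 (by linarith) k t0 t h0 ht hT
    rw [hWT hT0 t hT k, hWT hT0 t0 (ht.trans hT) k, h1]
    congr 1
    refine intervalIntegral.integral_congr fun s hs => ?_
    rw [uIcc_of_le ht] at hs
    have e : Bt (YT m w T) k s = Bt W k s := by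
      unfold Bt
      have : at' (YT m w T) s = at' W s := funext fun l => (hWT hT0 s (hs.2.trans hT) l).symm
      rw [this]
    show Real.exp (-(c * sq k * (t - s))) • Bt (YT m w T) k s = _
    rw [e]
  -- a small time
  obtain ⟨θ, hθ, hsmall⟩ := small_data hc (dl := 1) (ε := 1) one_pos one_pos
  obtain ⟨δ, hδ, hlei⟩ := leilin_of_H1 hθ
  obtain ⟨T0, hT0, hens⟩ := exists_small_enstrophy hν hI hδ
  have hsT := hsp T0 hT0.le
  obtain ⟨e1, e2⟩ := enstrophy_fourier hsT
  have hle : ∀ k, sq k * ‖YY m (WH w) T0 k‖ ^ 2 ≤ sq k * ‖(fun i => fr (fun x => w T0 x i) k : C3)‖ ^ 2 := fun k =>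
    mul_le_mul_of_nonneg_left (pow_le_pow_left₀ (norm_nonneg _) (norm_YY_le _ _ _ _) 2) (sq_nonneg' k)
  have e3 : Summable fun k => sq k * ‖YY m (WH w) T0 k‖ ^ 2 :=
    e1.of_nonneg_of_le (fun k => mul_nonneg (sq_nonneg' k) (sq_nonneg _)) hle
  have hY0 : ∀ t, YY m (WH w) t 0 = 0 := fun t => by simp [YY]
  obtain ⟨β, hβ0, hβ, hβw⟩ := WH_decay (hI (T0 + 1)) (b := T0) (by linarith)
  have hβY : ∀ t ∈ Icc 0 T0, ∀ k, ‖YY m (WH w) t k‖ ≤ β k := fun t ht k =>
    (norm_YY_le _ _ _ _).trans (hβw t ht k)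
  have hrap : ∀ n : ℕ, Summable fun k => pw k ^ n * ‖YY m (WH w) T0 k‖ := fun n =>
    (hβ n).of_nonneg_of_le (fun k => mul_nonneg (pow_pos (pw_pos k) n).le (norm_nonneg _))
      fun k => mul_le_mul_of_nonneg_left (hβY T0 ⟨hT0.le, le_rfl⟩ k) (pow_pos (pw_pos k) n).le
  obtain ⟨a1, ha1, U, hU, -⟩ := hsmall (YY m (WH w) T0) (YY_sym m w T0) (hY0 T0) hrap
    (hlei _ (hY0 T0) e3 ((e3.tsum_le_tsum hle e1).trans (e2.trans hens)))
  -- uniqueness
  have huniq : ∀ t, 0 ≤ t → ∀ k, W k (T0 + t) = U k t := by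
    intro t ht k
    set b := T0 + t with hbdef
    have hb0 : 0 ≤ b := by positivity
    have hcfT := YT_cf (hI (b + 1)) m hb0 (by linarith)
    have hdomT := YT_dom (hI (b + 1)) m hb0 (by linarith)
    have hDST := YT_DS (hI (b + 1)) hm hb0 (by linarith)
    set u1 : Fam := fun k s => YT m w b k (T0 + s) with hu1
    have c1 : CF u1 := fun k => (hcfT k).comp (by fun_prop)
    have d1 : Dom u1 := by
      obtain ⟨b', hb', hb''⟩ := hdomT
      exact ⟨b', hb', fun k s => hb'' k _⟩
    have s1 : DS c t u1 := by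
      intro k t0 t' h0 ht' hT
      have h1 := hDST k (T0 + t0) (T0 + t') (by positivity) (by linarith) (by rw [hbdef]; linarith)
      show YT m w b k (T0 + t') = _
      rw [h1]
      have e4 : T0 + t' - (T0 + t0) = t' - t0 := by ring
      rw [e4]
      congr 1
      have e5 := intervalIntegral.integral_comp_add_left (a := t0) (b := t')
        (fun s => Real.exp (-(c * sq k * (T0 + t' - s))) • Bt (YT m w b) k s) T0
      rw [← e5]
      refine intervalIntegral.integral_congr fun s _ => ?_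
      show Real.exp (-(c * sq k * (T0 + t' - (T0 + s)))) • Bt (YT m w b) k (T0 + s) = Real.exp (-(c * sq k * (t' - s))) • Bt u1 k s
      have e6 : T0 + t' - (T0 + s) = t' - s := by ring
      rw [e6]
      rfl
    have h0 : ∀ k, u1 k 0 = U k 0 := by
      intro k
      have h1 := hU.eq k 0
      rw [Duh_at_zero] at h1
      simp only [max_self, mul_zero, neg_zero, Real.exp_zero, one_smul, add_zero] at h1
      rw [h1]
      show YT m w b k (T0 + 0) = _
      unfold YT
      rw [add_zero, clamp_eq hT0.le (by rw [hbdef]; linarith)]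
    have := DS_unique hc c1 d1 hU.cf (hU.dom' ha1) s1 (hU.DS ha1 t) h0 ht le_rfl k
    rw [← this]
    show W k (T0 + t) = YT m w b k (T0 + t)
    exact hWT hb0 _ le_rfl k
  obtain ⟨b1, hb10, hb1, hb1n, hb1L⟩ := hU.rap ha1
  set b : K → ℝ := fun k => (1 + Real.sqrt T0) * β k + b1 k with hbdef
  have hsq0 := Real.sqrt_nonneg T0
  have hb0 : ∀ k, 0 ≤ b k := fun k => add_nonneg (mul_nonneg (by positivity) (hβ0 k)) (hb10 k)
  have hb : RR b := (hβ.mul _).add hb1
  have hWb : ∀ k t, ‖W k t‖ ≤ b k := by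
    intro k t
    have h1 := hβ0 k
    have h2 := hb10 k
    have h3 : 0 ≤ Real.sqrt T0 * β k := mul_nonneg hsq0 h1
    rcases le_or_gt t T0 with ht | ht
    · have h4 : ‖W k t‖ ≤ β k := hβY _ ⟨le_max_right _ _, max_le ht hT0.le⟩ k
      simp only [hbdef]; linarith
    · have h4 := huniq (t - T0) (by linarith) k
      rw [add_sub_cancel] at h4
      rw [h4]
      have h5 := hb1n k (t - T0)
      simp only [hbdef]; linarith
  have hL : ∀ k, LN (fun t => ‖W k t‖ₑ) ≤ ENNReal.ofReal (b k) := by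
    intro k
    have h1 := LN_split (f := fun t => ‖W k t‖ₑ) (T := T0) (A := β k) (B := b1 k) hT0.le (hβ0 k) (hb10 k)
      (fun t ht => by
        rw [← ofReal_norm]
        apply ENNReal.ofReal_le_ofReal
        exact hβY _ ⟨le_max_right _ _, max_le ht.2 hT0.le⟩ k)
      (by
        refine le_trans (le_of_eq ?_) (hb1L k)
        unfold LN
        congr 1
        refine setLIntegral_congr_fun measurableSet_Ioi fun t ht => ?_
        show ‖W k (T0 + t)‖ₑ ^ (2 : ℝ) = ‖U k t‖ₑ ^ (2 : ℝ)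
        rw [huniq t (le_of_lt ht)])
    refine h1.trans (ENNReal.ofReal_le_ofReal ?_)
    have h2 := hβ0 k
    simp only [hbdef]; nlinarith
  have hneg : ∀ k t, W k t = W k (max t 0) := by
    intro k t
    simp only [hWdef, max_assoc, max_self]
  obtain ⟨a, ha, hsol⟩ := sol_of_DS hcf hz hsym hb0 hb hWb hL hDS hneg
  have hV : (fun k => W k 0) = FV w₀ := by
    funext k i
    show YY m (WH w) (max 0 0) k i = FV w₀ k i
    rw [max_self]
    unfold YY
    by_cases hk : k = 0
    · subst hk; rw [if_pos rfl, FV_zero hsp0]; rfl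
    · rw [if_neg hk, FV_eq hsp0 hk, zero_smul]
      have : ex k (0 : E3) = 1 := by simp [ex]
      rw [this, one_smul]
      unfold WH
      rw [hw0]
  rw [hV] at hsol
  refine ⟨a, ha, W, hsol, fun t ht x i => ?_⟩
  have hd := hI (t + 1)
  have htI : t ∈ Ico 0 (t + 1) := ⟨ht, by linarith⟩
  have hspt : SP fun x => w t x i - m i := SP.sub (hsp t ht i) (SP.const _)
  have h1 := H459R3.NS.S_fr hspt x
  have h2 : GS m (cf' W i) t x = S (fr fun x => w t x i - m i) x := by
    unfold GS SF S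
    refine tsum_congr fun k => ?_
    show W k t i * ex k (x - t • m) = _
    have h3 : W k t = YY m (WH w) t k := by simp only [hWdef]; rw [max_eq_left ht]
    rw [h3, fr_sub (hsp t ht i) (SP.const _), fr_const]
    by_cases hk : k = 0
    · subst hk
      rw [hY0, if_pos rfl]
      have h4 : fr (fun x => w t x i) 0 = (m i : ℂ) := by
        have := WH_mean hd htI i
        rw [hm] at this
        exact this
      rw [h4]
      simp
    · rw [if_neg hk, sub_zero]
      unfold YY
      rw [if_neg hk]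
      show ex k (t • m) * WH w t k i * ex k (x - t • m) = _
      have h4 : ex k x = ex k (t • m) * ex k (x - t • m) := by
        unfold ex
        rw [← Complex.exp_add, ← mul_add, ← Finset.sum_add_distrib]
        congr 2
        refine Finset.sum_congr rfl fun j _ => ?_
        simp only [Pi.sub_apply, Pi.smul_apply, smul_eq_mul]
        push_cast
        ring
      rw [← ex_eq_ee, h4]
      unfold WH
      ring
  rw [h2, h1, Complex.ofReal_re]
  ring

end Pool.Agent.K1H11.NS
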