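import Pool.Agent.K1H11.NS2.Dec
import Pool.Agent.H356R3.NS.Defs2

/-!
# Critical norms of sums of waves with separated frequencies
-/

open MeasureTheory Set Filter Topology
open scoped ENNReal NNReal

namespace Pool.Agent.K1H11.NS

open Pool.Agent.H356R3.NS (shellSum critNorm leiLin)

/-- the dyadic shell -/
def shell (j : ℕ) (k : K) : Prop := (4 : ℤ) ^ j ≤ ∑ i, k i ^ 2 ∧ ∑ i, k i ^ 2 < (4 : ℤ) ^ (j + 1)

instance (j : ℕ) (k : K) : Decidable (shell j k) := inferInstanceAs (Decidable (_ ∧ _))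

lemma shellSum_eq (a : K → C3) (j : ℕ) : shellSum a j = ∑' k, if shell j k then ‖a k‖ₑ else 0 := rfl

lemma sq_cast (k : K) : sq k = ((∑ i, k i ^ 2 : ℤ) : ℝ) := by
  unfold sq; push_cast; rfl

lemma shell_le {j : ℕ} {k : K} (h : shell j k) : (2 : ℝ) ^ j ≤ nk k := by
  unfold nk
  apply Real.le_sqrt_of_sq_le
  rw [← pow_mul, mul_comm, pow_mul, sq_cast]
  norm_num
  exact_mod_cast h.1

lemma shell_lt {j : ℕ} {k : K} (h : shell j k) : nk k < (2 : ℝ) ^ (j + 1) := by
  unfold nk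
  rw [Real.sqrt_lt' (by positivity), ← pow_mul, mul_comm, pow_mul, sq_cast]
  norm_num
  exact_mod_cast h.2

lemma shell_unique {j j' : ℕ} {k : K} (h : shell j k) (h' : shell j' k) : j = j' := by
  have a1 := (shell_le h).trans_lt (shell_lt h')
  have a2 := (shell_le h').trans_lt (shell_lt h)
  have b1 : j < j' + 1 := (pow_lt_pow_iff_right₀ (by norm_num : (1 : ℝ) < 2)).1 a1
  have b2 : j' < j + 1 := (pow_lt_pow_iff_right₀ (by norm_num : (1 : ℝ) < 2)).1 a2
  omega

lemma shell_term (w : K → C3) {j : ℕ} {k : K} (h : shell j k) :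
    ‖w k‖ₑ / 2 ^ j ≤ 2 * ENNReal.ofReal (‖w k‖ / nk k) := by
  have h1 := shell_le h
  have h2 := shell_lt h
  have h3 : 0 < nk k := lt_of_lt_of_le (by positivity) h1
  have e1 : (2 : ℝ≥0∞) ^ j = ENNReal.ofReal ((2 : ℝ) ^ j) := by
    rw [ENNReal.ofReal_pow (by norm_num)]; simp
  have e2 : (2 : ℝ≥0∞) = ENNReal.ofReal 2 := by simp
  rw [e1, ← ofReal_norm, ← ENNReal.ofReal_div_of_pos (by positivity)]
  conv_rhs => rw [e2]
  rw [← ENNReal.ofReal_mul (by norm_num)]
  apply ENNReal.ofReal_le_ofReal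
  rw [← mul_div_assoc, div_le_div_iff₀ (by positivity) h3]
  have h4 : nk k ≤ 2 * 2 ^ j := by rw [pow_succ] at h2; linarith
  calc ‖w k‖ * nk k ≤ ‖w k‖ * (2 * 2 ^ j) := mul_le_mul_of_nonneg_left h4 (norm_nonneg _)
    _ = _ := by ring

lemma shells_le (w : K → C3) (P : K → Prop) [DecidablePred P] (S : Set ℕ) [DecidablePred (· ∈ S)]
    (h : ∀ j, j ∉ S → ∀ k, shell j k → P k) :
    ∑' j, (if j ∈ S then 0 else shellSum w j / 2 ^ j) ≤
      2 * ∑' k, (if P k then ENNReal.ofReal (‖w k‖ / nk k) else 0) := by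
  have e1 : ∀ j, (if j ∈ S then 0 else shellSum w j / 2 ^ j) ≤
      ∑' k, (if shell j k ∧ P k then 2 * ENNReal.ofReal (‖w k‖ / nk k) else 0) := by
    intro j
    split_ifs with hj
    · exact zero_le
    · rw [shellSum_eq, div_eq_mul_inv, ← ENNReal.tsum_mul_right]
      refine ENNReal.tsum_le_tsum fun k => ?_
      by_cases hk : shell j k
      · rw [if_pos hk, if_pos ⟨hk, h j hj k hk⟩, ← div_eq_mul_inv]
        exact shell_term w hk
      · rw [if_neg hk, zero_mul]; exact zero_le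
  refine (ENNReal.tsum_le_tsum e1).trans ?_
  rw [ENNReal.tsum_comm, ← ENNReal.tsum_mul_left]
  refine ENNReal.tsum_le_tsum fun k => ?_
  by_cases hk : ∃ j, shell j k
  · obtain ⟨j, hj⟩ := hk
    rw [tsum_eq_single j]
    · by_cases hP : P k
      · rw [if_pos ⟨hj, hP⟩, if_pos hP]
      · rw [if_neg fun h => hP h.2]; exact zero_le
    · intro j' hj'
      rw [if_neg fun h => hj' (shell_unique h.1 hj)]
  · have : ∀ j, (if shell j k ∧ P k then 2 * ENNReal.ofReal (‖w k‖ / nk k) else 0) = 0 := fun j =>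
      if_neg fun h => hk ⟨j, h.1⟩
    simp [this]

lemma shellSum_sum (n : ℕ) (w : ℕ → K → C3) (j : ℕ) :
    shellSum (∑ i ∈ Finset.range n, w i) j ≤ ∑ i ∈ Finset.range n, shellSum (w i) j := by
  simp_rw [shellSum_eq]
  rw [← Summable.tsum_finsetSum fun i _ => ENNReal.summable]
  refine ENNReal.tsum_le_tsum fun k => ?_
  split_ifs
  · rw [Finset.sum_apply]
    exact enorm_sum_le _ _
  · exact zero_le

lemma tsum_rpow_le {ι : Type*} (y : ι → ℝ≥0∞) {r : ℝ} (hr : 1 ≤ r) : ∑' j, y j ^ r ≤ (∑' j, y j) ^ r := by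
  have e : ∀ x : ℝ≥0∞, x ^ r = x * x ^ (r - 1) := by
    intro x
    have := ENNReal.rpow_add_of_nonneg (x := x) 1 (r - 1) zero_le_one (by linarith)
    rw [add_sub_cancel, ENNReal.rpow_one] at this
    exact this
  rw [e (∑' j, y j), ← ENNReal.tsum_mul_right]
  refine ENNReal.tsum_le_tsum fun j => ?_
  rw [e]
  exact mul_le_mul' le_rfl (ENNReal.rpow_le_rpow (ENNReal.le_tsum j) (by linarith))

/-- Waves in separated shells. -/
theorem crit_bound {n : ℕ} {r : ℝ} (hr : 1 ≤ r) (w : ℕ → K → C3) {A1 τ : ℝ≥0∞} (S : ℕ → Set ℕ)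
    [∀ i, DecidablePred (· ∈ S i)]
    (hb : ∀ i < n, ∑' j, shellSum (w i) j / 2 ^ j ≤ A1)
    (hf : ∀ i < n, ∑' j, (if j ∈ S i then 0 else shellSum (w i) j / 2 ^ j) ≤ τ)
    (hd : ∀ i i' j, i < n → i' < n → j ∈ S i → j ∈ S i' → i = i') :
    critNorm r (∑ i ∈ Finset.range n, w i) ≤ 2 * ((n : ℝ≥0∞) ^ (1 / r) * A1 + n * τ) := by
  have hr0 : 0 < r := by linarith
  set y : ℕ → ℕ → ℝ≥0∞ := fun i j => shellSum (w i) j / 2 ^ j
  set near : ℕ → ℝ≥0∞ := fun j => ∑ i ∈ Finset.range n, if j ∈ S i then y i j else 0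
  set far : ℕ → ℝ≥0∞ := fun j => ∑ i ∈ Finset.range n, if j ∈ S i then 0 else y i j
  have h1 : ∀ j, shellSum (∑ i ∈ Finset.range n, w i) j / 2 ^ j ≤ near j + far j := by
    intro j
    rw [← Finset.sum_add_distrib]
    calc shellSum (∑ i ∈ Finset.range n, w i) j / 2 ^ j
        ≤ (∑ i ∈ Finset.range n, shellSum (w i) j) / 2 ^ j := by
          rw [div_eq_mul_inv, div_eq_mul_inv]
          exact mul_le_mul' (shellSum_sum n w j) le_rfl
      _ = ∑ i ∈ Finset.range n, y i j := by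
          rw [div_eq_mul_inv, Finset.sum_mul]
          exact Finset.sum_congr rfl fun i _ => (div_eq_mul_inv _ _).symm
      _ = _ := by
          refine Finset.sum_congr rfl fun i _ => ?_
          split_ifs <;> simp
  have h2 : ∀ j, near j ^ r ≤ ∑ i ∈ Finset.range n, y i j ^ r := by
    intro j
    by_cases hj : ∃ i ∈ Finset.range n, j ∈ S i
    · obtain ⟨i, hi, hji⟩ := hj
      have : near j = y i j := by
        simp only [near]
        rw [Finset.sum_eq_single i]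
        · rw [if_pos hji]
        · intro i' hi' hne
          rw [if_neg]
          intro h
          exact hne (hd i' i j (Finset.mem_range.1 hi') (Finset.mem_range.1 hi) h hji)
        · intro h; exact absurd hi h
      rw [this]
      exact Finset.single_le_sum (f := fun i => y i j ^ r) (fun _ _ => zero_le) hi
    · have : near j = 0 := by
        simp only [near]
        refine Finset.sum_eq_zero fun i hi => if_neg fun h => hj ⟨i, hi, h⟩
      rw [this, ENNReal.zero_rpow_of_pos hr0]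
      exact zero_le
  have h3 : ∑' j, near j ^ r ≤ n * A1 ^ r := by
    calc ∑' j, near j ^ r ≤ ∑' j, ∑ i ∈ Finset.range n, y i j ^ r := ENNReal.tsum_le_tsum h2
      _ = ∑ i ∈ Finset.range n, ∑' j, y i j ^ r := Summable.tsum_finsetSum fun i _ => ENNReal.summable
      _ ≤ ∑ _i ∈ Finset.range n, A1 ^ r := by
          refine Finset.sum_le_sum fun i hi => (tsum_rpow_le _ hr).trans ?_
          exact ENNReal.rpow_le_rpow (hb i (Finset.mem_range.1 hi)) hr0.le
      _ = _ := by simp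
  have h4 : ∑' j, far j ^ r ≤ (n * τ) ^ r := by
    refine (tsum_rpow_le _ hr).trans (ENNReal.rpow_le_rpow ?_ hr0.le)
    calc ∑' j, far j = ∑ i ∈ Finset.range n, ∑' j, (if j ∈ S i then 0 else y i j) :=
          Summable.tsum_finsetSum fun i _ => ENNReal.summable
      _ ≤ ∑ _i ∈ Finset.range n, τ := Finset.sum_le_sum fun i hi => hf i (Finset.mem_range.1 hi)
      _ = _ := by simp
  have h5 : ∑' j, (shellSum (∑ i ∈ Finset.range n, w i) j / 2 ^ j) ^ r ≤
      2 ^ r * (((n : ℝ≥0∞) ^ (1 / r) * A1) ^ r + (n * τ) ^ r) := by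
    have e1 : ((n : ℝ≥0∞) ^ (1 / r) * A1) ^ r = n * A1 ^ r := by
      rw [ENNReal.mul_rpow_of_nonneg _ _ hr0.le, ← ENNReal.rpow_mul, one_div_mul_cancel hr0.ne',
        ENNReal.rpow_one]
    rw [e1]
    calc _ ≤ ∑' j, 2 ^ (r - 1) * (near j ^ r + far j ^ r) :=
          ENNReal.tsum_le_tsum fun j => (ENNReal.rpow_le_rpow (h1 j) hr0.le).trans
            (ENNReal.rpow_add_le_mul_rpow_add_rpow _ _ hr)
      _ = 2 ^ (r - 1) * (∑' j, near j ^ r + ∑' j, far j ^ r) := by
          rw [ENNReal.tsum_mul_left, ENNReal.tsum_add]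
      _ ≤ 2 ^ r * (n * A1 ^ r + (n * τ) ^ r) := by
          apply mul_le_mul' _ (add_le_add h3 h4)
          exact ENNReal.rpow_le_rpow_of_exponent_le (by norm_num) (by linarith)
  unfold critNorm
  calc _ ≤ (2 ^ r * (((n : ℝ≥0∞) ^ (1 / r) * A1) ^ r + (n * τ) ^ r)) ^ (1 / r) :=
        ENNReal.rpow_le_rpow h5 (by positivity)
    _ = 2 * (((n : ℝ≥0∞) ^ (1 / r) * A1) ^ r + (n * τ) ^ r) ^ (1 / r) := by
        rw [ENNReal.mul_rpow_of_nonneg _ _ (by positivity), ← ENNReal.rpow_mul,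
          mul_one_div_cancel hr0.ne', ENNReal.rpow_one]
    _ ≤ _ := by
        apply mul_le_mul' le_rfl
        exact ENNReal.rpow_add_rpow_le_add _ _ hr

end Pool.Agent.K1H11.NS
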