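import Pool.Agent.K1H11.NS2.Cut

/-!
# Cut-off functions with the optimal norm
-/

open MeasureTheory Set Filter Topology
open scoped ENNReal NNReal ContDiff

namespace Pool.Agent.K1H11.NS

open H459R3.NS (ee fc fr cube S SP Per pd D Rap)

lemma sum_inv_nat {θ : ℝ} (hθ : 0 < θ) (N : ℕ) :
    ∑ i ∈ Finset.range (N + 1), 1 / (1 + θ * i) ^ 2 ≤ 1 + 1 / θ - 1 / (θ * (1 + θ * N)) := by
  induction N with
  | zero => simp
  | succ N ih =>
    rw [Finset.sum_range_succ]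
    have h1 : 1 / (1 + θ * ((N + 1 : ℕ) : ℝ)) ^ 2 ≤ 1 / (θ * (1 + θ * N)) - 1 / (θ * (1 + θ * ((N + 1 : ℕ) : ℝ))) := by
      push_cast
      have e : 1 / (θ * (1 + θ * N)) - 1 / (θ * (1 + θ * ((N : ℝ) + 1)))
          = 1 / ((1 + θ * N) * (1 + θ * ((N : ℝ) + 1))) := by
        field_simp
        ring
      rw [e]
      apply one_div_le_one_div_of_le (by positivity)
      rw [pow_two]
      apply mul_le_mul_of_nonneg_right _ (by positivity)
      nlinarith
    linarith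

lemma sum_inv_nat' {θ : ℝ} (hθ : 0 < θ) : Summable (fun n : ℕ => 1 / (1 + (θ * n) ^ 2)) ∧
    ∑' n : ℕ, 1 / (1 + (θ * n) ^ 2) ≤ 2 * (1 + 1 / θ) := by
  have h0 : ∀ n : ℕ, 0 ≤ 1 / (1 + (θ * (n : ℝ)) ^ 2) := fun n => by positivity
  have hle : ∀ n : ℕ, 1 / (1 + (θ * (n : ℝ)) ^ 2) ≤ 2 * (1 / (1 + θ * n) ^ 2) := by
    intro n
    have : (0 : ℝ) ≤ n := Nat.cast_nonneg n
    rw [mul_one_div, div_le_div_iff₀ (by positivity) (by positivity)]
    nlinarith [sq_nonneg (1 - θ * n)]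
  have hs : ∀ N : ℕ, ∑ i ∈ Finset.range N, 1 / (1 + (θ * (i : ℝ)) ^ 2) ≤ 2 * (1 + 1 / θ) := by
    intro N
    calc _ ≤ ∑ i ∈ Finset.range (N + 1), 1 / (1 + (θ * (i : ℝ)) ^ 2) := by
          rw [Finset.sum_range_succ]; linarith [h0 N]
      _ ≤ ∑ i ∈ Finset.range (N + 1), 2 * (1 / (1 + θ * i) ^ 2) := Finset.sum_le_sum fun i _ => hle i
      _ = 2 * ∑ i ∈ Finset.range (N + 1), 1 / (1 + θ * i) ^ 2 := (Finset.mul_sum _ _ _).symm
      _ ≤ _ := by
          have := sum_inv_nat hθ N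
          have h2 : 0 ≤ 1 / (θ * (1 + θ * N)) := by positivity
          linarith
  exact ⟨summable_of_sum_range_le h0 hs, Real.tsum_le_of_sum_range_le h0 hs⟩

lemma sum_inv_int {θ : ℝ} (hθ : 0 < θ) : Summable (fun n : ℤ => 1 / (1 + (θ * n) ^ 2)) ∧
    ∑' n : ℤ, 1 / (1 + (θ * n) ^ 2) ≤ 4 * (1 + 1 / θ) := by
  obtain ⟨s1, b1⟩ := sum_inv_nat' hθ
  have s2 : Summable (fun n : ℕ => 1 / (1 + (θ * ((n + 1 : ℕ) : ℝ)) ^ 2)) := (summable_nat_add_iff 1).2 s1
  have e2 : ∀ n : ℕ, 1 / (1 + (θ * ((-((n : ℤ) + 1) : ℤ) : ℝ)) ^ 2) = 1 / (1 + (θ * ((n + 1 : ℕ) : ℝ)) ^ 2) := by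
    intro n
    push_cast
    congr 2
    ring
  have s3 : Summable (fun n : ℕ => 1 / (1 + (θ * ((-((n : ℤ) + 1) : ℤ) : ℝ)) ^ 2)) := by
    simp_rw [e2]; exact s2
  have s1' : Summable (fun n : ℕ => 1 / (1 + (θ * (((n : ℤ)) : ℝ)) ^ 2)) := by
    simpa using s1
  refine ⟨Summable.of_nat_of_neg_add_one (f := fun n : ℤ => 1 / (1 + (θ * (n : ℝ)) ^ 2)) s1' s3, ?_⟩
  rw [tsum_of_nat_of_neg_add_one (f := fun n : ℤ => 1 / (1 + (θ * (n : ℝ)) ^ 2)) s1' s3]
  have b2 : ∑' n : ℕ, 1 / (1 + (θ * ((-((n : ℤ) + 1) : ℤ) : ℝ)) ^ 2) ≤ 2 * (1 + 1 / θ) := by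
    simp_rw [e2]
    have h3 := s1.tsum_eq_zero_add
    have h4 : (0 : ℝ) ≤ 1 / (1 + (θ * ((0 : ℕ) : ℝ)) ^ 2) := by positivity
    linarith
  have b3 : ∑' n : ℕ, 1 / (1 + (θ * ((n : ℤ) : ℝ)) ^ 2) ≤ 2 * (1 + 1 / θ) := by
    simpa using b1
  linarith

lemma fc1_le_int {f : ℝ → ℂ} (n : ℤ) : ‖Helper420.PB.fc 1 f n‖ ≤ ∫ t in (0 : ℝ)..1, ‖f t‖ := by
  unfold Helper420.PB.fc
  have h1 : ‖∫ t in (0 : ℝ)..1, Complex.exp (-(2 * Real.pi * Complex.I * n * t / (1 : ℝ))) * f t‖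
      ≤ ∫ t in (0 : ℝ)..1, ‖Complex.exp (-(2 * Real.pi * Complex.I * n * t / (1 : ℝ))) * f t‖ :=
    intervalIntegral.norm_integral_le_integral_norm zero_le_one
  have e1 : ∀ t : ℝ, ‖Complex.exp (-(2 * Real.pi * Complex.I * n * t / (1 : ℝ)))‖ = 1 := by
    intro t
    have : (-(2 * Real.pi * Complex.I * n * t / (1 : ℝ)) : ℂ) =
      ((-(2 * Real.pi * n * t) : ℝ) : ℂ) * Complex.I := by push_cast; ring
    rw [this, Complex.norm_exp_ofReal_mul_I]
  simp_rw [norm_mul _ (f _), e1, one_mul] at h1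
  simpa using h1

lemma WB_one' (j : Fin 3) (N : ℤ) {h : ℝ → ℂ} (hh : ContDiff ℝ 2 h) (hp : ∀ t, h (t + 1) = h t) {a θ : ℝ}
    (hθ : 0 < θ) (ha : ∀ n, ‖Helper420.PB.fc 1 h n‖ ≤ a)
    (hb : ∀ n : ℤ, (θ * n) ^ 2 * ‖Helper420.PB.fc 1 h n‖ ≤ a) :
    WB (fun x => h (N * x j)) (8 * a * (1 + 1 / θ)) := by
  obtain ⟨hs, hser⟩ := Helper420.PB.fc_series one_pos hh hp
  have ha0 : 0 ≤ a := (norm_nonneg _).trans (ha 0)
  obtain ⟨s1, b1⟩ := sum_inv_int hθ
  refine ⟨ℤ, inferInstance, fun n => Helper420.PB.fc 1 h n, fun n => Pi.single j (n * N), hs, ?_, ?_⟩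
  · have hb : ∀ n : ℤ, ‖Helper420.PB.fc 1 h n‖ ≤ 2 * a * (1 / (1 + (θ * n) ^ 2)) := by
      intro n
      rw [mul_one_div, le_div_iff₀ (by positivity)]
      have := ha n
      have := hb n
      nlinarith
    calc ∑' n, ‖Helper420.PB.fc 1 h n‖ ≤ ∑' n : ℤ, 2 * a * (1 / (1 + (θ * n) ^ 2)) :=
          Summable.tsum_le_tsum hb hs (s1.mul_left _)
      _ = 2 * a * ∑' n : ℤ, 1 / (1 + (θ * n) ^ 2) := tsum_mul_left
      _ ≤ 2 * a * (4 * (1 + 1 / θ)) := mul_le_mul_of_nonneg_left b1 (by positivity)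
      _ = _ := by ring
  · intro x
    have h1 := (hser (N * x j)).tsum_eq
    show h (N * x j) = ∑' n : ℤ, Helper420.PB.fc 1 h n * ee (Pi.single j (n * N)) x
    rw [← h1]
    refine tsum_congr fun n => ?_
    rw [ee_single']
    congr 2
    push_cast
    ring

/-- Integrals of periodic functions supported near the integers. -/
lemma per_int {F : ℝ → ℝ} (hF : Continuous F) (hp : ∀ y, F (y + 1) = F y) {η : ℝ} (h0 : 0 < η)
    (h1 : η ≤ 1 / 4) (hz : ∀ y : ℝ, (∀ m : ℤ, η < |y - m|) → F y = 0) :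
    ∫ y in (0 : ℝ)..1, F y = ∫ y in (-η)..η, F y := by
  have hper : Function.Periodic F 1 := hp
  have e1 := hper.intervalIntegral_add_eq 0 (-η)
  rw [zero_add] at e1
  rw [e1]
  have i : ∀ a b : ℝ, IntervalIntegrable F volume a b := fun a b => hF.intervalIntegrable a b
  rw [← intervalIntegral.integral_add_adjacent_intervals (i (-η) η) (i η (-η + 1))]
  have e2 : ∫ y in η..(-η + 1), F y = 0 := by
    have : ∫ y in η..(-η + 1), F y = ∫ y in η..(-η + 1), (0 : ℝ) := by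
      refine intervalIntegral.integral_congr_ae ?_
      have hne : ∀ᵐ y : ℝ, y ≠ -η + 1 := by
        simp [ae_iff]
      filter_upwards [hne] with y hy1 hy
      rw [uIoc_of_le (by linarith)] at hy
      have hy2 : y < -η + 1 := lt_of_le_of_ne hy.2 hy1
      apply hz
      intro m
      rcases le_or_gt m 0 with hm | hm
      · have : (m : ℝ) ≤ 0 := by exact_mod_cast hm
        rw [lt_abs]; left; linarith [hy.1]
      · have : (1 : ℝ) ≤ m := by exact_mod_cast hm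
        rw [lt_abs]; right; linarith
    rw [this]; simp
  rw [e2, add_zero]

lemma comp2 {F : ℝ → ℝ} (hF : ContDiff ℝ ∞ F) (κ b s y : ℝ) :
    iteratedDeriv 2 (fun t : ℝ => ((F (κ * t + b) * s : ℝ) : ℂ)) y
      = ((deriv (deriv F) (κ * y + b) * κ ^ 2 * s : ℝ) : ℂ) := by
  have hF1 : ContDiff ℝ ∞ (deriv F) := by
    have := hF; rw [contDiff_infty_iff_deriv] at this; exact this.2
  have h1 : ∀ (G : ℝ → ℝ) (_ : ContDiff ℝ ∞ G) (s t : ℝ),
      HasDerivAt (fun t : ℝ => ((G (κ * t + b) * s : ℝ) : ℂ)) ((deriv G (κ * t + b) * κ * s : ℝ) : ℂ) t := by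
    intro G hG s t
    have h2 : HasDerivAt (fun t : ℝ => κ * t + b) κ t := by
      simpa using ((hasDerivAt_id' t).const_mul κ).add_const b
    have h3 : HasDerivAt G (deriv G (κ * t + b)) (κ * t + b) := (hG.differentiable (by simp) _).hasDerivAt
    exact (((h3.comp t h2).mul_const s).ofReal_comp)
  rw [iteratedDeriv_succ, iteratedDeriv_one]
  have e : deriv (fun t : ℝ => ((F (κ * t + b) * s : ℝ) : ℂ)) = fun t => ((deriv F (κ * t + b) * (κ * s) : ℝ) : ℂ) := by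
    funext t
    rw [(h1 F hF s t).deriv]; congr 1; ring
  rw [e, (h1 (deriv F) hF1 (κ * s) y).deriv]
  congr 1; ring

lemma exists_sT3_bound : ∃ C : ℝ, 0 < C ∧ ∀ t, |deriv (deriv (deriv Real.smoothTransition)) t| ≤ C := by
  have h0 : ContDiff ℝ ∞ Real.smoothTransition := Real.smoothTransition.contDiff
  have h1 : ContDiff ℝ ∞ (deriv Real.smoothTransition) := by
    have := h0; rw [contDiff_infty_iff_deriv] at this; exact this.2
  have h2 : ContDiff ℝ ∞ (deriv (deriv Real.smoothTransition)) := by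
    have := h1; rw [contDiff_infty_iff_deriv] at this; exact this.2
  have h3 : ContDiff ℝ ∞ (deriv (deriv (deriv Real.smoothTransition))) := by
    have := h2; rw [contDiff_infty_iff_deriv] at this; exact this.2
  obtain ⟨C, hC⟩ := (isCompact_Icc (a := (0 : ℝ)) (b := 1)).exists_bound_of_continuousOn h3.continuous.continuousOn
  refine ⟨|C| + 1, by positivity, fun t => ?_⟩
  by_cases ht : t < 0 ∨ 1 < t
  · have hz : deriv Real.smoothTransition =ᶠ[𝓝 t] fun _ => (0 : ℝ) := by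
      rcases ht with h | h
      · filter_upwards [Iio_mem_nhds h] with z hz
        exact sT_deriv_zero (Or.inl hz)
      · filter_upwards [Ioi_mem_nhds h] with z hz
        exact sT_deriv_zero (Or.inr hz)
    have hz1 := hz.deriv
    have hz2 := hz1.deriv
    rw [hz2.eq_of_nhds]
    simp
    positivity
  · push Not at ht
    exact ((hC t ht).trans (le_abs_self C)).trans (by linarith)

theorem exists_cut2 : ∃ C : ℝ, 0 < C ∧ ∀ η, 0 < η → η ≤ 1 / 4 →
    ∃ g : ℝ → ℝ, Cut η g ∧ ∀ cc (M : ℕ), wn (gM g cc M) ≤ C / Real.sqrt η := by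
  obtain ⟨S3, hS0, hS3⟩ := exists_sT3_bound
  refine ⟨32 * (1 + S3), by positivity, fun η h0 h1 => ?_⟩
  have hs : ContDiff ℝ ∞ (phi η) := phi_contDiff h0 h1
  have hd : ContDiff ℝ ∞ (deriv (phi η)) := by
    have := hs; rw [contDiff_infty_iff_deriv] at this; exact this.2
  have hc : Continuous (deriv (phi η)) := hd.continuous
  have hper : ∀ y, deriv (phi η) (y + 1) = deriv (phi η) y := by
    intro y
    have e : (fun y => phi η (y + 1)) = fun y => phi η y + 1 := funext fun y => phi_add_one η y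
    have h2 : deriv (fun y => phi η (y + 1)) y = deriv (phi η) y := by
      rw [e, deriv_add_const]
    rw [deriv_comp_add_const] at h2
    exact h2
  have hnn : ∀ y, 0 ≤ deriv (phi η) y := by
    intro y
    rw [phi_deriv h0 h1]
    exact mul_nonneg Real.smoothTransition.monotone.deriv_nonneg (by positivity)
  have hint : ∫ y in (0 : ℝ)..1, deriv (phi η) y = 1 := by
    rw [intervalIntegral.integral_deriv_eq_sub' (phi η) rfl (fun y _ => hs.differentiable (by simp) y)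
      hc.continuousOn]
    have := phi_add_one η 0
    rw [zero_add] at this
    rw [this]; ring
  have hint' : ∫ y in (-η)..η, deriv (phi η) y = 1 := by
    rw [← per_int hc hper h0 h1 fun y hy => phi_deriv_zero h0 h1 hy]; exact hint
  set I := ∫ y in (0 : ℝ)..1, deriv (phi η) y ^ 2 with hI
  have hI' : I = ∫ y in (-η)..η, deriv (phi η) y ^ 2 :=
    per_int (F := fun y => deriv (phi η) y ^ 2) (hc.pow 2) (fun y => by simp only [hper]) h0 h1
      fun y hy => by simp only [phi_deriv_zero h0 h1 hy]; norm_num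
  set κ := 1 / (2 * η) with hκ
  have hκ0 : 0 < κ := by positivity
  have hκη : 2 * η * κ = 1 := by rw [hκ]; field_simp
  have hIκ : κ ≤ I := by
    have h2 : 0 ≤ ∫ y in (-η)..η, (deriv (phi η) y - κ) ^ 2 :=
      intervalIntegral.integral_nonneg (by linarith) fun y _ => sq_nonneg _
    have h3 : ∫ y in (-η)..η, (deriv (phi η) y - κ) ^ 2 = I - 2 * κ * 1 + κ ^ 2 * (2 * η) := by
      have e : ∀ y, (deriv (phi η) y - κ) ^ 2 = deriv (phi η) y ^ 2 - 2 * κ * deriv (phi η) y + κ ^ 2 := fun y => by ring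
      simp_rw [e]
      rw [intervalIntegral.integral_add, intervalIntegral.integral_sub, intervalIntegral.integral_const_mul, hint',
        intervalIntegral.integral_const, ← hI', smul_eq_mul]
      · ring
      · exact (hc.pow 2).intervalIntegrable _ _
      · exact (hc.const_mul _).intervalIntegrable _ _
      · exact ((hc.pow 2).sub (hc.const_mul _)).intervalIntegrable _ _
      · exact continuous_const.intervalIntegrable _ _
    rw [h3] at h2
    nlinarith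
  have hIpos : 0 < I := hκ0.trans_le hIκ
  have hI0 : 0 < Real.sqrt I := Real.sqrt_pos.2 hIpos
  have hsη : 0 < Real.sqrt η := Real.sqrt_pos.2 h0
  have hsη2 : Real.sqrt η * Real.sqrt η = η := Real.mul_self_sqrt h0.le
  -- `1 / √I ≤ 2 √η`
  have hI2 : 1 / Real.sqrt I ≤ 2 * Real.sqrt η := by
    have h2 : 1 ≤ 2 * η * I := by
      calc (1 : ℝ) = 2 * η * κ := hκη.symm
        _ ≤ _ := by gcongr
    have h3 : (1 : ℝ) ≤ (2 * Real.sqrt η * Real.sqrt I) := by
      have h4 : (1 : ℝ) ≤ (2 * Real.sqrt η * Real.sqrt I) ^ 2 := by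
        rw [mul_pow, mul_pow, Real.sq_sqrt h0.le, Real.sq_sqrt hIpos.le]
        nlinarith
      by_contra hcon
      push Not at hcon
      have h5 : 0 ≤ 2 * Real.sqrt η * Real.sqrt I := by positivity
      nlinarith
    rw [div_le_iff₀ hI0]; exact h3
  set g : ℝ → ℝ := fun y => deriv (phi η) y / Real.sqrt I with hg
  have hgs : ContDiff ℝ ∞ g := hd.div_const _
  have hgp : ∀ y, g (y + 1) = g y := fun y => by simp only [hg, hper]
  have hgc : Cut η g := by
    refine ⟨hgs, hgp, fun y => div_nonneg (hnn y) hI0.le,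
      fun y hy => by simp only [hg, phi_deriv_zero h0 h1 hy, zero_div], ?_⟩
    simp_rw [hg, div_pow]
    rw [intervalIntegral.integral_div, Real.sq_sqrt hIpos.le]
    exact div_self hIpos.ne'
  refine ⟨g, hgc, fun cc M => ?_⟩
  set h : ℝ → ℂ := fun t => ((g t : ℝ) : ℂ) with hh
  have hh2 : ContDiff ℝ 2 h := cd2 hgs
  have hhp : ∀ t, h (t + 1) = h t := fun t => by simp only [hh, hgp]
  have ha1 : ∀ n, ‖Helper420.PB.fc 1 h n‖ ≤ 2 * Real.sqrt η := by
    intro n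
    refine (fc1_le_int n).trans ?_
    have e : ∀ t, ‖h t‖ = deriv (phi η) t / Real.sqrt I := by
      intro t
      rw [hh, Complex.norm_real, Real.norm_of_nonneg (hgc.nonneg t)]
    simp_rw [e]
    rw [intervalIntegral.integral_div, hint]
    exact hI2
  -- the second derivative
  have hform : ∀ y, iteratedDeriv 2 h y = ((deriv (deriv (deriv Real.smoothTransition))
      (κ * y + (κ * (η - ⌊y + 1 / 2⌋))) * κ ^ 2 * (κ / Real.sqrt I) : ℝ) : ℂ) := by
    intro y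
    have hsT1 : ContDiff ℝ ∞ (deriv Real.smoothTransition) := by
      have : ContDiff ℝ ∞ Real.smoothTransition := Real.smoothTransition.contDiff
      rw [contDiff_infty_iff_deriv] at this; exact this.2
    rw [← comp2 hsT1 κ (κ * (η - ⌊y + 1 / 2⌋)) (κ / Real.sqrt I) y]
    apply Filter.EventuallyEq.iteratedDeriv_eq
    have hm1 : (⌊y + 1 / 2⌋ : ℝ) ≤ y + 1 / 2 := Int.floor_le _
    have hm2 : y + 1 / 2 < ⌊y + 1 / 2⌋ + 1 := Int.lt_floor_add_one _
    have hev : phi η =ᶠ[𝓝 y] psi η ⌊y + 1 / 2⌋ := phi_nhds h0 h1 y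
    filter_upwards [hev.deriv] with z hz
    show ((deriv (phi η) z / Real.sqrt I : ℝ) : ℂ) = _
    congr 1
    rw [hz]
    have hd1 : HasDerivAt (fun z : ℝ => (z - ⌊y + 1 / 2⌋ + η) / (2 * η)) (1 / (2 * η)) z :=
      (((hasDerivAt_id' z).sub_const _).add_const _).div_const _
    have hs1 : HasDerivAt Real.smoothTransition (deriv Real.smoothTransition ((z - ⌊y + 1 / 2⌋ + η) / (2 * η)))
        ((z - ⌊y + 1 / 2⌋ + η) / (2 * η)) :=
      ((Real.smoothTransition.contDiff (n := 1)).differentiable (by norm_num) _).hasDerivAt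
    have hd2 : deriv (psi η ⌊y + 1 / 2⌋) z = deriv Real.smoothTransition ((z - ⌊y + 1 / 2⌋ + η) / (2 * η)) * (1 / (2 * η)) :=
      ((hs1.comp z hd1).const_add _).deriv
    rw [hd2, ← hκ]
    have e3 : (z - ⌊y + 1 / 2⌋ + η) / (2 * η) = κ * z + κ * (η - ⌊y + 1 / 2⌋) := by
      rw [hκ]; ring
    rw [e3]; ring
  have hbd : ∀ y, ‖iteratedDeriv 2 h y‖ ≤ S3 * κ ^ 3 / Real.sqrt I := by
    intro y
    rw [hform, Complex.norm_real, Real.norm_eq_abs, abs_mul, abs_mul, abs_of_pos (by positivity : 0 < κ ^ 2),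
      abs_of_pos (by positivity : 0 < κ / Real.sqrt I)]
    calc _ ≤ S3 * κ ^ 2 * (κ / Real.sqrt I) := by gcongr; exact hS3 _
      _ = _ := by ring
  have hc2 : Continuous fun y => ‖iteratedDeriv 2 h y‖ := (hh2.continuous_iteratedDeriv 2 le_rfl).norm
  have hp2 : ∀ y, ‖iteratedDeriv 2 h (y + 1)‖ = ‖iteratedDeriv 2 h y‖ := by
    intro y
    rw [hform, hform]
    have e : ⌊y + 1 + 1 / 2⌋ = ⌊y + 1 / 2⌋ + 1 := by
      rw [show y + 1 + 1 / 2 = (y + 1 / 2) + 1 by ring, Int.floor_add_one]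
    rw [e]
    push_cast
    rw [show κ * (y + 1) + κ * (η - ((⌊y + 1 / 2⌋ : ℝ) + 1)) = κ * y + κ * (η - ⌊y + 1 / 2⌋) by ring]
  have hz2 : ∀ y : ℝ, (∀ m : ℤ, η < |y - m|) → ‖iteratedDeriv 2 h y‖ = 0 := by
    intro y hy
    have hev : h =ᶠ[𝓝 y] fun _ => (0 : ℂ) := by
      have ho : ∀ᶠ z : ℝ in 𝓝 y, ∀ m : ℤ, η < |z - m| := by
        have hm1 : (⌊y⌋ : ℝ) ≤ y := Int.floor_le _
        have hm2 : y < ⌊y⌋ + 1 := Int.lt_floor_add_one _
        have a1 := hy ⌊y⌋
        have a2 := hy (⌊y⌋ + 1)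
        rw [abs_of_nonneg (by linarith)] at a1
        push_cast at a2
        rw [abs_of_neg (by linarith)] at a2
        have : Ioo ((⌊y⌋ : ℝ) + η) (⌊y⌋ + 1 - η) ∈ 𝓝 y := Ioo_mem_nhds (by linarith) (by linarith)
        filter_upwards [this] with z hz m
        rcases le_or_gt m ⌊y⌋ with hm | hm
        · have : (m : ℝ) ≤ ⌊y⌋ := by exact_mod_cast hm
          rw [lt_abs]; left; linarith [hz.1]
        · have : (⌊y⌋ : ℝ) + 1 ≤ m := by exact_mod_cast hm
          rw [lt_abs]; right; linarith [hz.2]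
      filter_upwards [ho] with z hz
      show ((g z : ℝ) : ℂ) = 0
      rw [hgc.supp z hz]; simp
    rw [hev.iteratedDeriv_eq 2]
    simp [iteratedDeriv_succ]
  have hb1 : ∀ n : ℤ, (η * n) ^ 2 * ‖Helper420.PB.fc 1 h n‖ ≤ 2 * S3 * Real.sqrt η := by
    intro n
    have h2 : ‖Helper420.PB.fc 1 (iteratedDeriv 2 h) n‖ ≤ S3 * κ ^ 2 * (2 * Real.sqrt η) := by
      refine (fc1_le_int n).trans ?_
      rw [per_int hc2 hp2 h0 h1 hz2]
      calc ∫ y in (-η)..η, ‖iteratedDeriv 2 h y‖ ≤ ∫ y in (-η)..η, S3 * κ ^ 3 / Real.sqrt I :=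
            intervalIntegral.integral_mono_on (by linarith) (hc2.intervalIntegrable _ _)
              (continuous_const.intervalIntegrable _ _) fun y _ => hbd y
        _ = S3 * κ ^ 2 * (2 * η * κ) * (1 / Real.sqrt I) := by
            rw [intervalIntegral.integral_const, smul_eq_mul]; ring
        _ ≤ _ := by rw [hκη, mul_one]; gcongr
    rw [Helper420.PB.fc_deriv2 one_pos hh2 hhp, norm_mul, norm_neg, norm_pow, Complex.norm_real,
      Real.norm_eq_abs, sq_abs] at h2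
    have h3 : (η * n) ^ 2 * ‖Helper420.PB.fc 1 h n‖ ≤ η ^ 2 * ((2 * Real.pi * n / 1) ^ 2 * ‖Helper420.PB.fc 1 h n‖) := by
      have : (2 * Real.pi * n / 1) ^ 2 = (4 * Real.pi ^ 2) * (n : ℝ) ^ 2 := by ring
      rw [this, mul_pow]
      have h4 : 1 ≤ 4 * Real.pi ^ 2 := by nlinarith [Real.pi_gt_three]
      have h5 : 0 ≤ η ^ 2 * (n : ℝ) ^ 2 * ‖Helper420.PB.fc 1 h n‖ := by positivity
      nlinarith
    refine h3.trans ((mul_le_mul_of_nonneg_left h2 (by positivity)).trans ?_)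
    have e : η ^ 2 * (S3 * κ ^ 2 * (2 * Real.sqrt η)) = (2 * η * κ) ^ 2 * (S3 * Real.sqrt η / 2) := by ring
    rw [e, hκη]
    have : 0 ≤ S3 * Real.sqrt η := by positivity
    nlinarith
  have hW := WB_one' cc (M : ℤ) hh2 hhp (a := 2 * (1 + S3) * Real.sqrt η) h0
    (fun n => (ha1 n).trans (by nlinarith [mul_pos hS0 hsη])) (fun n => (hb1 n).trans (by nlinarith))
  push_cast at hW
  refine (hW.fc_le'.2).trans ?_
  rw [le_div_iff₀ hsη]
  calc 8 * (2 * (1 + S3) * Real.sqrt η) * (1 + 1 / η) * Real.sqrt η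
      = 16 * (1 + S3) * (Real.sqrt η * Real.sqrt η) * (1 + 1 / η) := by ring
    _ = 16 * (1 + S3) * (η + 1) := by rw [hsη2]; field_simp
    _ ≤ _ := by nlinarith

end Pool.Agent.K1H11.NS
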