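import Pool.Agent.K1H11.NS2.Profile

/-!
# The decomposition of the stress
-/

open MeasureTheory Set Filter Topology
open scoped ENNReal NNReal ContDiff

namespace Pool.Agent.K1H11.NS

open H459R3.NS (ee fc fr cube S SP Per pd D Rap)

/-- coefficients of the stress -/
noncomputable def rc (b : Fin 3 → K → ℂ) (i j : Fin 3) (k : K) : ℂ :=
  -Complex.I * ((k j : ℂ) * b i k + (k i : ℂ) * b j k) / (2 * Real.pi * (sq k : ℂ))

lemma rc_comm (b : Fin 3 → K → ℂ) (i j : Fin 3) : rc b i j = rc b j i := by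
  funext k
  unfold rc
  rw [add_comm]

lemma rc_sym {b : Fin 3 → K → ℂ} (hb : ∀ i k, b i (-k) = star (b i k)) (i j : Fin 3) (k : K) :
    rc b i j (-k) = star (rc b i j k) := by
  unfold rc
  simp only [hb, star_div₀, star_mul', star_add, star_neg, Pi.neg_apply, Complex.star_def, Complex.conj_I,
    Complex.conj_ofReal, map_ofNat, map_intCast, sq_neg]
  push_cast
  ring

lemma norm_rc_le (b : Fin 3 → K → ℂ) (i j : Fin 3) (k : K) :
    ‖rc b i j k‖ ≤ ‖(fun i => b i k : C3)‖ / nk k := by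
  by_cases hk : k = 0
  · subst hk
    simp [rc, nk_zero]
  · have hn := nk_pos hk
    have hs := sq_pos hk
    have h1 : ∀ i, ‖b i k‖ ≤ ‖(fun i => b i k : C3)‖ := fun i => norm_le_pi_norm (fun i => b i k : C3) i
    set B := ‖(fun i => b i k : C3)‖
    have hB : 0 ≤ B := norm_nonneg _
    have hpi : 1 ≤ Real.pi := by linarith [Real.pi_gt_three]
    unfold rc
    rw [norm_div, norm_mul, norm_neg, Complex.norm_I, one_mul, norm_mul, norm_mul, Complex.norm_real,
      Complex.norm_real, Complex.norm_ofNat, Real.norm_of_nonneg Real.pi_pos.le, Real.norm_of_nonneg hs.le,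
      div_le_div_iff₀ (by positivity) hn]
    have h2 : ‖(k j : ℂ) * b i k + (k i : ℂ) * b j k‖ ≤ 2 * (nk k * B) := by
      refine (norm_add_le _ _).trans ?_
      rw [norm_mul, norm_mul, Complex.norm_intCast, Complex.norm_intCast]
      have := mul_le_mul (abs_le_nk k j) (h1 i) (norm_nonneg _) hn.le
      have := mul_le_mul (abs_le_nk k i) (h1 j) (norm_nonneg _) hn.le
      linarith
    calc _ ≤ 2 * (nk k * B) * nk k := mul_le_mul_of_nonneg_right h2 hn.le
      _ = B * (2 * 1 * sq k) := by rw [← nk_sq]; ring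
      _ ≤ _ := by gcongr

lemma rap_rc {b : Fin 3 → K → ℂ} (hb : ∀ i, Rap (b i)) (i j : Fin 3) : Rap (rc b i j) := by
  intro n
  have hs : Summable fun k => ∑ i, ((H459R3.NS.N k : ℝ) ^ n * ‖b i k‖) := summable_sum fun i _ => hb i n
  refine Summable.of_nonneg_of_le (fun k => by positivity) (fun k => ?_) hs
  rw [← Finset.mul_sum]
  apply mul_le_mul_of_nonneg_left _ (by positivity)
  have h0 : 0 ≤ ∑ i, ‖b i k‖ := Finset.sum_nonneg fun _ _ => norm_nonneg _
  refine (norm_rc_le b i j k).trans ?_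
  have h1 : ‖(fun i => b i k : C3)‖ ≤ ∑ i, ‖b i k‖ := by
    rw [pi_norm_le_iff_of_nonneg h0]
    intro i
    exact Finset.single_le_sum (f := fun i => ‖b i k‖) (fun _ _ => norm_nonneg _) (Finset.mem_univ i)
  by_cases hk : k = 0
  · subst hk; rw [nk_zero, div_zero]; exact h0
  · exact (div_le_self (norm_nonneg _) (one_le_nk hk)).trans h1

/-- `P div` of the stress is the field. -/
lemma coef_rc {b : Fin 3 → K → ℂ} {k : K} (hk : k ≠ 0) (hdiv : ∑ j, (k j : ℂ) * b j k = 0) (i : Fin 3) :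
    ∑ j, ∑ m, coef k i j m * rc b j m k = -b i k := by
  have hs : ((sq k : ℝ) : ℂ) ≠ 0 := by exact_mod_cast (sq_pos hk).ne'
  have hpi : (Real.pi : ℂ) ≠ 0 := by exact_mod_cast Real.pi_ne_zero
  have hsq : ∑ m, (k m : ℂ) * (k m : ℂ) = ((sq k : ℝ) : ℂ) := by
    unfold sq
    push_cast
    exact Finset.sum_congr rfl fun i _ => by ring
  have h1 : ∀ j, ∑ m, ((if m = i then 1 else 0) - (k i : ℂ) * (k m : ℂ) / ((sq k : ℝ) : ℂ)) *
      ((k m : ℂ) * b j k + (k j : ℂ) * b m k) = (k j : ℂ) * b i k := by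
    intro j
    have e1 : ∀ m, ((if m = i then 1 else 0) - (k i : ℂ) * (k m : ℂ) / ((sq k : ℝ) : ℂ)) *
      ((k m : ℂ) * b j k + (k j : ℂ) * b m k) =
      (if m = i then ((k m : ℂ) * b j k + (k j : ℂ) * b m k) else 0) -
      ((k i : ℂ) / ((sq k : ℝ) : ℂ) * b j k * ((k m : ℂ) * (k m : ℂ)) +
        (k i : ℂ) / ((sq k : ℝ) : ℂ) * (k j : ℂ) * ((k m : ℂ) * b m k)) := by
      intro m
      by_cases hm : m = i
      · rw [if_pos hm, if_pos hm]; ring
      · rw [if_neg hm, if_neg hm]; ring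
    simp_rw [e1]
    rw [Finset.sum_sub_distrib, Finset.sum_add_distrib, ← Finset.mul_sum, ← Finset.mul_sum, hsq, hdiv]
    simp only [Finset.sum_ite_eq', Finset.mem_univ, if_true, mul_zero, add_zero]
    field_simp
    ring
  have h2 : ∀ j m, coef k i j m * rc b j m k = -((k j : ℂ) / ((sq k : ℝ) : ℂ)) *
      (((if m = i then 1 else 0) - (k i : ℂ) * (k m : ℂ) / ((sq k : ℝ) : ℂ)) *
      ((k m : ℂ) * b j k + (k j : ℂ) * b m k)) := by
    intro j m
    unfold coef rc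
    have hI : Complex.I * Complex.I = -1 := Complex.I_mul_I
    have : -(2 * (Real.pi : ℂ) * Complex.I) * (k j : ℂ) *
        ((if m = i then 1 else 0) - (k i : ℂ) * (k m : ℂ) / ((sq k : ℝ) : ℂ)) *
        (-Complex.I * ((k m : ℂ) * b j k + (k j : ℂ) * b m k) / (2 * Real.pi * (sq k : ℂ))) =
        (Complex.I * Complex.I) * ((k j : ℂ) / ((sq k : ℝ) : ℂ)) *
      (((if m = i then 1 else 0) - (k i : ℂ) * (k m : ℂ) / ((sq k : ℝ) : ℂ)) *
      ((k m : ℂ) * b j k + (k j : ℂ) * b m k)) := by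
      field_simp
    rw [this, hI]
    ring
  simp_rw [h2, ← Finset.mul_sum, h1]
  have h3 : ∀ j, -((k j : ℂ) / ((sq k : ℝ) : ℂ)) * ((k j : ℂ) * b i k) =
      -(b i k / ((sq k : ℝ) : ℂ)) * ((k j : ℂ) * (k j : ℂ)) := fun j => by ring
  simp_rw [h3]
  rw [← Finset.mul_sum, hsq]
  field_simp

lemma coef_id {k : K} (hk : k ≠ 0) (i : Fin 3) : ∑ j, coef k i j j = 0 := by
  have hs : ((sq k : ℝ) : ℂ) ≠ 0 := by exact_mod_cast (sq_pos hk).ne'
  have hsq : ∑ m, (k m : ℂ) * (k m : ℂ) = ((sq k : ℝ) : ℂ) := by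
    unfold sq
    push_cast
    exact Finset.sum_congr rfl fun i _ => by ring
  have h1 : ∀ j, coef k i j j = -(2 * Real.pi * Complex.I) * ((if j = i then (k j : ℂ) else 0) -
      (k i : ℂ) / ((sq k : ℝ) : ℂ) * ((k j : ℂ) * (k j : ℂ))) := by
    intro j
    unfold coef
    by_cases hj : j = i
    · rw [if_pos hj, if_pos hj]; ring
    · rw [if_neg hj, if_neg hj]; ring
  simp_rw [h1]
  rw [← Finset.mul_sum, Finset.sum_sub_distrib, ← Finset.mul_sum, hsq]
  simp only [Finset.sum_ite_eq', Finset.mem_univ, if_true]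
  field_simp
  ring

/-- the directions -/
def eP (c : Fin 3) (a : Fin 5) (i : Fin 3) : ℝ :=
  if i = c then 0 else if a = 0 then 1 else if a = 1 then (if i = c + 1 then 1 else -1)
    else (if i = c + 1 then 1 else 0)

/-- the amplitudes -/
noncomputable def GP (κ : ℝ) (s : Fin 3 → Fin 3 → E3 → ℝ) (X : Fin 3 → E3 → ℝ) (c : Fin 3) (a : Fin 5) (x : E3) : ℝ :=
  if a = 0 then κ * (1 + s (c + 1) (c + 2) x) else if a = 1 then κ * (1 + (-1) * s (c + 1) (c + 2) x)
    else if a = 2 then κ * (1 + X (c + 1) x) else if a = 3 then κ * (1 + (-1) * X (c + 2) x)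
      else κ * (1 + (-1) * X c x)

lemma eP_le (c : Fin 3) (a : Fin 5) (i : Fin 3) : |eP c a i| ≤ 1 := by
  unfold eP
  split_ifs <;> simp

lemma eP_zero (c : Fin 3) (a : Fin 5) : eP c a c = 0 := by simp [eP]

/-- The decomposition. -/
lemma dec_id (κ : ℝ) (s : Fin 3 → Fin 3 → E3 → ℝ) (X : Fin 3 → E3 → ℝ) (R : Fin 3 → Fin 3 → E3 → ℝ)
    (hsc : ∀ i j, s i j = s j i) (hR : ∀ i j x, i ≠ j → R i j x = 4 * κ ^ 2 * s i j x)
    (hX : ∀ i x, R i i x = 4 * κ ^ 2 * X i x + 2 * κ ^ 2 * (s i (i + 1) x ^ 2 + s i (i + 2) x ^ 2))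
    (j m : Fin 3) (x : E3) :
    ∑ c, ∑ a, (eP c a j * eP c a m) * (GP κ s X c a x * GP κ s X c a x) =
      R j m x + (if j = m then κ ^ 2 * (4 + ∑ i, (1 - X i x) ^ 2) else 0) := by
  have t1 : (0 : Fin 3) + 1 = 1 := rfl
  have t2 : (0 : Fin 3) + 2 = 2 := rfl
  have t3 : (1 : Fin 3) + 1 = 2 := rfl
  have t4 : (1 : Fin 3) + 2 = 0 := rfl
  have t5 : (2 : Fin 3) + 1 = 0 := rfl
  have t6 : (2 : Fin 3) + 2 = 1 := rfl
  have s10 : s 1 0 x = s 0 1 x := by rw [hsc]
  have s20 : s 2 0 x = s 0 2 x := by rw [hsc]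
  have s21 : s 2 1 x = s 1 2 x := by rw [hsc]
  have r00 := hX 0 x
  have r11 := hX 1 x
  have r22 := hX 2 x
  have r01 := hR 0 1 x (by decide)
  have r02 := hR 0 2 x (by decide)
  have r12 := hR 1 2 x (by decide)
  have r10 := hR 1 0 x (by decide)
  have r20 := hR 2 0 x (by decide)
  have r21 := hR 2 1 x (by decide)
  simp only [t1, t2, t3, t4, t5, t6] at r00 r11 r22
  rw [Fin.sum_univ_three]
  simp only [Fin.sum_univ_five, Fin.sum_univ_three, GP, eP]
  fin_cases j <;> fin_cases m <;>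
    simp [t1, t2, t3, t4, t5, t6, r00, r11, r22, r01, r02, r12, r10, r20, r21, s10, s20, s21] <;> ring

end Pool.Agent.K1H11.NS
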