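import Pool.Agent.K1H11.NS2.Stage

/-!
# The descent: global data at a fixed distance
-/

open MeasureTheory Set Filter Topology
open scoped ENNReal NNReal ContDiff

namespace Pool.Agent.K1H11.NS

open H459R3.NS (ee fc fr cube S SP Per pd D Rap)
open Pool.Agent.H356R3.NS (shellSum critNorm leiLin)

section
variable {c : ℝ} {η : ℝ} {g : ℝ → ℝ} {A Q : ℝ}

/-- The constant of the descent. -/
noncomputable def PP (A : ℝ) : ℝ := 15 * (4 * A + 1)

lemma LNd_self_sub (dl : ℝ) (w : Fam) : LNd dl (w - w) = 0 := by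
  rw [sub_self]
  apply le_antisymm _ zero_le
  refine (LNd_le_XN _ _).trans (le_of_eq ?_)
  have h0 : ∀ t, NW (Wa Wt.one) (at' (0 : Fam) t) = 0 := fun t => NW_zero _
  simp [XN, LN, h0]

theorem descent (hc : 0 < c) (hg : Cut η g) (hA : ∀ cc M, wn (gM g cc M) ≤ A)
    (hQ : ∀ cc M, wn (gM (fun y => g y ^ 2 - 1) cc M) ≤ Q) {V0 : K → C3} {τ dl : ℝ} (hτ : 0 < τ)
    (hdl : 0 < dl) (m : ℕ) :
    ∀ (G : Fin 3 → E3 → ℝ), (∀ i, SP (G i)) → (∀ k, ∑ j, (k j : ℂ) * fr (G j) k = 0) →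
      (∀ i, fr (G i) 0 = 0) → ∀ (a : Wt), Sup a → ∀ (w : Fam), Sol c a (V0 + fun k i => fr (G i) k) w →
      ∑' k, ‖(fun i => fr (G i) k : C3)‖ / nk k ≤ PP A ^ 2 * c * 4 ^ (2 ^ m) →
      ∃ (G' : Fin 3 → E3 → ℝ), (∀ i, SP (G' i)) ∧ (∀ k, ∑ j, (k j : ℂ) * fr (G' j) k = 0) ∧
        (∀ i, fr (G' i) 0 = 0) ∧ ∃ a' : Wt, Sup a' ∧ ∃ u : Fam, Sol c a' (V0 + fun k i => fr (G' i) k) u ∧
        ∑' k, ‖(fun i => fr (G' i) k : C3)‖ / nk k ≤ PP A ^ 2 * c * 4 ∧
        LNd dl (u - w) ≤ ENNReal.ofReal (m * τ) := by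
  have hA0 : 0 ≤ A := (wn_nonneg _).trans (hA 0 0)
  have hP : 0 < PP A := by unfold PP; positivity
  induction m with
  | zero =>
    intro G hG hdiv h0 a ha w hw hd
    refine ⟨G, hG, hdiv, h0, a, ha, w, hw, by simpa using hd, ?_⟩
    rw [LNd_self_sub]; exact zero_le
  | succ m ih =>
    intro G hG hdiv h0 a ha w hw hd
    set K1 := PP A ^ 2 * c * 4 ^ (2 ^ (m + 1)) with hK1
    have hK10 : 0 < K1 := by positivity
    have hsK : Real.sqrt K1 = PP A * Real.sqrt c * 4 ^ (2 ^ m) := by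
      rw [hK1, show PP A ^ 2 * c * (4 : ℝ) ^ (2 ^ (m + 1)) = (PP A * Real.sqrt c * 4 ^ (2 ^ m)) ^ 2 by
        rw [mul_pow, mul_pow, Real.sq_sqrt hc.le, ← pow_mul, pow_succ 2 m]]
      exact Real.sqrt_sq (by positivity)
    set τ' := min τ (Real.sqrt c * Real.sqrt K1) with hτ'
    have hτ0 : 0 < τ' := lt_min hτ (mul_pos (Real.sqrt_pos.2 hc) (Real.sqrt_pos.2 hK10))
    obtain ⟨M, B, -, hB, -, -, hBn, -, a1, ha1, u, hu, huL⟩ :=
      stage hc hg hA hQ hG hdiv h0 ha hw hK10 hd le_rfl hτ0 hdl 0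
    have eG : (fun k i => fr (cu B i) k) = cF (fun i => fr (B i)) := by
      funext k i; exact fr_cu hB i k
    have eG' : ∀ k, (fun i => fr (cu B i) k : C3) = cF (fun i => fr (B i)) k := fun k => congrFun eG k
    have hn : ∑' k, ‖(fun i => fr (cu B i) k : C3)‖ / nk k ≤ PP A ^ 2 * c * 4 ^ (2 ^ m) := by
      simp_rw [eG']
      refine hBn.trans ?_
      have h1 : τ' ≤ Real.sqrt c * Real.sqrt K1 := min_le_right _ _
      have h2 : Real.sqrt c * Real.sqrt c = c := Real.mul_self_sqrt hc.le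
      simp only [mul_one, Nat.cast_one, div_one]
      push_cast
      calc (15 : ℝ) * (4 * Real.sqrt c * Real.sqrt K1 * A + τ')
          ≤ 15 * (4 * Real.sqrt c * Real.sqrt K1 * A + Real.sqrt c * Real.sqrt K1) := by gcongr
        _ = PP A * (Real.sqrt c * Real.sqrt K1) := by unfold PP; ring
        _ = PP A * PP A * (Real.sqrt c * Real.sqrt c) * 4 ^ (2 ^ m) := by rw [hsK]; ring
        _ = _ := by rw [h2]; ring
    obtain ⟨G', g1, g2, g3, a2, ha2, v, hv, hvn, hvL⟩ := ih (cu B) (cu_SP hB)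
      (fun k => by
        have := cF_div (fun i => fr (B i)) k
        unfold dt at this
        rw [← this]
        exact Finset.sum_congr rfl fun j _ => by rw [fr_cu hB])
      (fun i => by rw [fr_cu hB, cF_zero]; rfl) a1 ha1 u (by rw [eG]; exact hu) hn
    refine ⟨G', g1, g2, g3, a2, ha2, v, hv, hvn, ?_⟩
    have e : v - w = (v - u) + (u - w) := by abel
    rw [e]
    have c1 : CF (v - u) := fun k => (hv.cf k).sub (hu.cf k)
    have c2 : CF (u - w) := fun k => (hu.cf k).sub (hw.cf k)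
    refine (LNd_add dl c1 c2).trans ((add_le_add hvL (huL.trans (ENNReal.ofReal_le_ofReal
      (min_le_left _ _)))).trans ?_)
    rw [← ENNReal.ofReal_add (by positivity) hτ.le]
    apply ENNReal.ofReal_le_ofReal
    push_cast
    apply le_of_eq; ring

lemma exists_pow (x : ℝ) : ∃ m : ℕ, x ≤ 4 ^ (2 ^ m) := by
  obtain ⟨n, hn⟩ := pow_unbounded_of_one_lt x (by norm_num : (1 : ℝ) < 4)
  refine ⟨n, hn.le.trans ?_⟩
  exact pow_le_pow_right₀ (by norm_num) (Nat.lt_two_pow_self).le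

/-- Every field is at a fixed distance from initial velocities whose solutions follow a given solution. -/
theorem reach (hc : 0 < c) (hg : Cut η g) (hA : ∀ cc M, wn (gM g cc M) ≤ A)
    (hQ : ∀ cc M, wn (gM (fun y => g y ^ 2 - 1) cc M) ≤ Q) {V0 : K → C3} {τ dl : ℝ} (hτ : 0 < τ)
    (hdl : 0 < dl) {G : Fin 3 → E3 → ℝ} (hG : ∀ i, SP (G i)) (hdiv : ∀ k, ∑ j, (k j : ℂ) * fr (G j) k = 0)
    (h0 : ∀ i, fr (G i) 0 = 0) {a : Wt} (ha : Sup a) {w : Fam} (hw : Sol c a (V0 + fun k i => fr (G i) k) w)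
    {J : ℕ} (hJ : 1 ≤ J) {R ρ : ℝ} (hρ : 0 < ρ) :
    ∃ (M : ℕ) (B : Fin 3 → E3 → ℝ), 1 ≤ M ∧ (∀ i, SP (B i)) ∧
      (∀ x, (∀ cc, g (M * x cc) = 0) → ∀ i, cu B i x = 0) ∧
      (∀ k, nk k ≤ R → ‖cF (fun i => fr (B i)) k‖ ≤ ρ) ∧
      ∑' k, ‖cF (fun i => fr (B i)) k‖ / nk k ≤ 2 * PP A ^ 2 * c * Real.sqrt J ∧
      (∀ r : ℝ, 1 ≤ r → critNorm r (cF fun i => fr (B i)) ≤
        ENNReal.ofReal (8 * PP A ^ 2 * c * (J : ℝ) ^ (1 / r - 1 / 2))) ∧
      ∃ a' : Wt, Sup a' ∧ ∃ u : Fam, Sol c a' (V0 + cF fun i => fr (B i)) u ∧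
        LNd dl (u - w) ≤ ENNReal.ofReal τ := by
  have hA0 : 0 ≤ A := (wn_nonneg _).trans (hA 0 0)
  have hP : 0 < PP A := by unfold PP; positivity
  have hJ1 : (1 : ℝ) ≤ J := by exact_mod_cast hJ
  have hJ0 : (0 : ℝ) < J := by linarith
  obtain ⟨m, hm⟩ := exists_pow ((∑' k, ‖(fun i => fr (G i) k : C3)‖ / nk k) / (PP A ^ 2 * c))
  rw [div_le_iff₀ (by positivity)] at hm
  have hm1 : (0 : ℝ) < m + 1 := by positivity
  obtain ⟨G', g1, g2, g3, a2, ha2, v, hv, hvn, hvL⟩ := descent hc hg hA hQ (V0 := V0)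
    (τ := τ / (2 * (m + 1))) (dl := dl) (by positivity) hdl m G hG hdiv h0 a ha w hw (by linarith)
  set K1 := PP A ^ 2 * c * 4 with hK1
  have hK10 : 0 < K1 := by positivity
  have hsK : Real.sqrt K1 = 2 * PP A * Real.sqrt c := by
    rw [hK1, show PP A ^ 2 * c * (4 : ℝ) = (2 * PP A * Real.sqrt c) ^ 2 by
      rw [mul_pow, mul_pow, Real.sq_sqrt hc.le]; ring]
    exact Real.sqrt_sq (by positivity)
  have hsJ : 0 < Real.sqrt J := Real.sqrt_pos.2 hJ0
  have hsJ2 : Real.sqrt J * Real.sqrt J = J := Real.mul_self_sqrt hJ0.le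
  have hsc : 0 < Real.sqrt c := Real.sqrt_pos.2 hc
  have hsc2 : Real.sqrt c * Real.sqrt c = c := Real.mul_self_sqrt hc.le
  have hP1 : 1 ≤ PP A := by unfold PP; linarith
  have hR1 : 0 < |R| + 1 := by positivity
  set τ' := min (min (τ / 2) (c / (J * Real.sqrt J))) (ρ / (15 * J * (|R| + 1))) with hτ'
  have hτ0 : 0 < τ' := lt_min (lt_min (by positivity) (by positivity)) (by positivity)
  have hτ1 : τ' ≤ c / (J * Real.sqrt J) := (min_le_left _ _).trans (min_le_right _ _)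
  have hτ2 : τ' ≤ τ / 2 := (min_le_left _ _).trans (min_le_left _ _)
  have hτ3 : τ' ≤ ρ / (15 * J * (|R| + 1)) := min_le_right _ _
  have hτJ : J * τ' ≤ c / Real.sqrt J := by
    calc J * τ' ≤ J * (c / (J * Real.sqrt J)) := by gcongr
      _ = _ := by field_simp
  have hτJ' : τ' ≤ c / Real.sqrt J := by
    refine le_trans ?_ hτJ
    exact le_mul_of_one_le_left hτ0.le hJ1
  obtain ⟨M, B, hM, hB, hBz, hBl, hBn, hBc, a1, ha1, u, hu, huL⟩ :=
    stage hc hg hA hQ g1 g2 g3 ha2 hv hK10 hvn hJ hτ0 hdl R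
  have hval : 4 * Real.sqrt (c / J) * Real.sqrt K1 * A + τ' ≤ (8 * A + 1) * PP A * c / Real.sqrt J := by
    rw [hsK, Real.sqrt_div hc.le]
    calc 4 * (Real.sqrt c / Real.sqrt J) * (2 * PP A * Real.sqrt c) * A + τ'
        = 8 * A * PP A * (Real.sqrt c * Real.sqrt c) / Real.sqrt J + τ' := by ring
      _ ≤ 8 * A * PP A * c / Real.sqrt J + PP A * c / Real.sqrt J := by
          rw [hsc2]
          refine add_le_add le_rfl (hτJ'.trans ?_)
          apply div_le_div_of_nonneg_right _ hsJ.le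
          exact le_mul_of_one_le_left hc.le hP1
      _ = _ := by ring
  have h15 : 15 * ((8 * A + 1) * PP A) ≤ 2 * PP A ^ 2 := by
    unfold PP; nlinarith
  refine ⟨M, B, hM, hB, hBz, ?_, ?_, ?_, a1, ha1, u, hu, ?_⟩
  · intro k hk
    by_cases hk0 : k = 0
    · subst hk0; rw [cF_zero, norm_zero]; exact hρ.le
    have hn := nk_pos hk0
    have hsn : SN (cF fun i => fr (B i)) := by
      have := rap_cF hB 0
      unfold SN
      simpa using this
    have hsum : Summable fun k => (if nk k ≤ R then ‖cF (fun i => fr (B i)) k‖ / nk k else 0) := by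
      refine (summ_div_nk hsn).of_nonneg_of_le (fun k => ?_) fun k => ?_
      · split_ifs
        · exact div_nonneg (norm_nonneg _) (nk_nonneg k)
        · exact le_rfl
      · split_ifs
        · exact le_rfl
        · exact div_nonneg (norm_nonneg _) (nk_nonneg k)
    have h1 := (hsum.le_tsum k fun j _ => by
      split_ifs
      · exact div_nonneg (norm_nonneg _) (nk_nonneg j)
      · exact le_rfl).trans hBl
    rw [if_pos hk, div_le_iff₀ hn] at h1
    push_cast at h1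
    have h2 : 15 * (J : ℝ) * τ' ≤ ρ / (|R| + 1) := by
      calc 15 * (J : ℝ) * τ' ≤ 15 * J * (ρ / (15 * J * (|R| + 1))) := by gcongr
        _ = _ := by field_simp
    have h3 : nk k ≤ |R| + 1 := by have := le_abs_self R; linarith
    calc _ ≤ 15 * (J : ℝ) * τ' * nk k := h1
      _ ≤ ρ / (|R| + 1) * (|R| + 1) := mul_le_mul h2 h3 hn.le (by positivity)
      _ = ρ := by field_simp
  · refine hBn.trans ?_
    push_cast
    calc 15 * (J : ℝ) * (4 * Real.sqrt (c / J) * Real.sqrt K1 * A + τ')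
        ≤ 15 * J * ((8 * A + 1) * PP A * c / Real.sqrt J) := by gcongr
      _ = (15 * ((8 * A + 1) * PP A)) * c * (J / Real.sqrt J) := by ring
      _ ≤ (2 * PP A ^ 2) * c * (J / Real.sqrt J) := by gcongr
      _ = _ := by
          congr 1
          rw [div_eq_iff hsJ.ne']; exact hsJ2.symm
  · intro r hr
    refine (hBc r hr).trans ?_
    have hr0 : 0 < r := by linarith
    have hJr : (0 : ℝ) < (J : ℝ) ^ (1 / r) := Real.rpow_pos_of_pos hJ0 _
    have e1 : (((15 * J : ℕ) : ℝ≥0∞)) ^ (1 / r) ≤ ENNReal.ofReal (15 * (J : ℝ) ^ (1 / r)) := by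
      have : (((15 * J : ℕ) : ℝ≥0∞)) = ENNReal.ofReal (15 * J) := by
        rw [← ENNReal.ofReal_natCast]; push_cast; rfl
      rw [this, ENNReal.ofReal_rpow_of_nonneg (by positivity) (by positivity)]
      apply ENNReal.ofReal_le_ofReal
      rw [Real.mul_rpow (by norm_num) hJ0.le]
      apply mul_le_mul_of_nonneg_right _ hJr.le
      calc (15 : ℝ) ^ (1 / r) ≤ 15 ^ (1 : ℝ) := by
            apply Real.rpow_le_rpow_of_exponent_le (by norm_num)
            rw [div_le_one hr0]; exact hr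
        _ = 15 := Real.rpow_one _
    have e2 : (((15 * J : ℕ) : ℝ≥0∞)) = ENNReal.ofReal (15 * J) := by
      rw [← ENNReal.ofReal_natCast]; push_cast; rfl
    have e3 : (2 : ℝ≥0∞) = ENNReal.ofReal 2 := by simp
    have hval0 : 0 ≤ 4 * Real.sqrt (c / J) * Real.sqrt K1 * A + τ' := by positivity
    calc _ ≤ ENNReal.ofReal 2 * (ENNReal.ofReal (15 * (J : ℝ) ^ (1 / r)) *
          (ENNReal.ofReal 2 * ENNReal.ofReal (4 * Real.sqrt (c / J) * Real.sqrt K1 * A + τ')) +
          ENNReal.ofReal (15 * J) * (ENNReal.ofReal 2 * ENNReal.ofReal τ')) := by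
          rw [← e3]
          exact mul_le_mul' le_rfl (add_le_add (mul_le_mul' e1 le_rfl) (mul_le_mul' e2.le le_rfl))
      _ = ENNReal.ofReal (2 * ((15 * (J : ℝ) ^ (1 / r)) *
          (2 * (4 * Real.sqrt (c / J) * Real.sqrt K1 * A + τ')) + (15 * J) * (2 * τ'))) := by
          rw [← ENNReal.ofReal_mul (by norm_num), ← ENNReal.ofReal_mul (by positivity),
            ← ENNReal.ofReal_mul (by norm_num), ← ENNReal.ofReal_mul (by positivity),
            ← ENNReal.ofReal_add (by positivity) (by positivity), ← ENNReal.ofReal_mul (by norm_num)]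
      _ ≤ _ := by
          apply ENNReal.ofReal_le_ofReal
          have e4 : (J : ℝ) ^ (1 / r - 1 / 2) = (J : ℝ) ^ (1 / r) / Real.sqrt J := by
            rw [Real.rpow_sub hJ0, Real.sqrt_eq_rpow]
          have e5 : (1 : ℝ) ≤ (J : ℝ) ^ (1 / r) := Real.one_le_rpow hJ1 (by positivity)
          rw [e4]
          have e6 : J * τ' ≤ (J : ℝ) ^ (1 / r) * (PP A * c / Real.sqrt J) := by
            refine hτJ.trans ?_
            calc c / Real.sqrt J ≤ PP A * c / Real.sqrt J := by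
                  apply div_le_div_of_nonneg_right _ hsJ.le
                  exact le_mul_of_one_le_left hc.le hP1
              _ ≤ _ := le_mul_of_one_le_left (by positivity) e5
          calc 2 * ((15 * (J : ℝ) ^ (1 / r)) *
              (2 * (4 * Real.sqrt (c / J) * Real.sqrt K1 * A + τ')) + (15 * J) * (2 * τ'))
              = 60 * ((J : ℝ) ^ (1 / r) * (4 * Real.sqrt (c / J) * Real.sqrt K1 * A + τ')) + 60 * (J * τ') := by
                ring
            _ ≤ 60 * ((J : ℝ) ^ (1 / r) * ((8 * A + 1) * PP A * c / Real.sqrt J)) +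
                60 * ((J : ℝ) ^ (1 / r) * (PP A * c / Real.sqrt J)) := by gcongr
            _ = (60 * (8 * A + 2) * PP A) * c * ((J : ℝ) ^ (1 / r) / Real.sqrt J) := by ring
            _ ≤ (8 * PP A ^ 2) * c * ((J : ℝ) ^ (1 / r) / Real.sqrt J) := by
                have : 60 * (8 * A + 2) * PP A ≤ 8 * PP A ^ 2 := by
                  unfold PP; nlinarith
                gcongr
            _ = _ := by ring
  · have e : u - w = (u - v) + (v - w) := by abel
    rw [e]
    have c1 : CF (u - v) := fun k => (hu.cf k).sub (hv.cf k)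
    have c2 : CF (v - w) := fun k => (hv.cf k).sub (hw.cf k)
    refine (LNd_add dl c1 c2).trans ((add_le_add (huL.trans (ENNReal.ofReal_le_ofReal
      hτ2)) hvL).trans ?_)
    rw [← ENNReal.ofReal_add (by positivity) (by positivity)]
    apply ENNReal.ofReal_le_ofReal
    have : (m : ℝ) * (τ / (2 * (m + 1))) ≤ τ / 2 := by
      rw [mul_div_assoc', div_le_div_iff₀ (by positivity) (by norm_num)]
      nlinarith
    linarith

end

end Pool.Agent.K1H11.NS
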