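import Pool.Agent.H459R3.NS.Sol

/-!
# Fourier coefficients of functions which are smooth in space-time

Taken over from `Pool.Agent.K1H60.HS.Evol` (helper60), to keep the imports small.
-/

open MeasureTheory Set Filter Topology
open scoped ContDiff

namespace Pool.Agent.K1H11.NS.Ev

open H459R3.NS

variable {T : ℝ} {F G : ℝ → V → ℝ}

/-- smooth in space-time and periodic in space -/
structure SF (T : ℝ) (F : ℝ → V → ℝ) : Prop where
  smooth : ContDiffOn ℝ ∞ (fun z : ℝ × V => F z.1 z.2) (Ico 0 T ×ˢ univ)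
  per : ∀ t ∈ Ico 0 T, Per (F t)

theorem SF.sp (h : SF T F) {t : ℝ} (ht : t ∈ Ico 0 T) : SP (F t) :=
  ⟨contDiff_slice h.smooth ht, h.per t ht⟩

theorem SF.pd (h : SF T F) (j : Fin 3) : SF T (fun t => H459R3.NS.pd j (F t)) where
  smooth := contDiffOn_pd h.smooth j
  per := fun t ht => (h.per t ht).pd j

theorem SF.iter (h : SF T F) (j : Fin 3) (n : ℕ) : SF T (fun t => (H459R3.NS.pd j)^[n] (F t)) := by
  induction n with
  | zero => exact h
  | succ n ih =>
    have := ih.pd j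
    simp_rw [Function.iterate_succ_apply']
    exact this

theorem SF.bound (h : SF T F) {b : ℝ} (hb : b < T) :
    ∃ C, ∀ t ∈ Icc 0 b, ∀ x ∈ cube, |F t x| ≤ C := by
  have hK : IsCompact (Icc 0 b ×ˢ cube) := isCompact_Icc.prod isCompact_Icc
  have hsub : Icc 0 b ×ˢ cube ⊆ Ico 0 T ×ˢ (univ : Set V) :=
    prod_mono (fun s hs => ⟨hs.1, hs.2.trans_lt hb⟩) (subset_univ _)
  obtain ⟨C, hC⟩ := hK.exists_bound_of_continuousOn (h.smooth.continuousOn.mono hsub)
  exact ⟨C, fun t ht x hx => hC (t, x) ⟨ht, hx⟩⟩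

theorem norm_fr_le_of {f : V → ℝ} {C : ℝ} (h : ∀ x ∈ cube, |f x| ≤ C) (k : K3) :
    ‖fr f k‖ ≤ C := by
  unfold fr fc
  have := cube_finite
  have h1 := norm_setIntegral_le_of_norm_le_const (μ := volume) (s := cube)
    (f := fun x => ee (-k) x * (f x : ℂ)) (C := C) (by rw [volume_cube]; norm_num)
    (fun x hx => by
      rw [norm_mul, norm_ee, one_mul, Complex.norm_real, Real.norm_eq_abs]
      exact h x hx)
  have h2 : (volume : Measure V).real cube = 1 := by
    rw [Measure.real, volume_cube]; simp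
  rw [h2, mul_one] at h1
  exact h1

theorem SF.fr_bound (h : SF T F) {b : ℝ} (hb : b < T) (n : ℕ) :
    ∃ C, 0 ≤ C ∧ ∀ t ∈ Icc 0 b, ∀ k, (N k : ℝ) ^ n * ‖fr (F t) k‖ ≤ C := by
  choose C hC using fun j => (h.iter j n).bound hb
  refine ⟨∑ j, |C j|, Finset.sum_nonneg fun _ _ => abs_nonneg _, fun t ht k => ?_⟩
  have hT : t ∈ Ico 0 T := ⟨ht.1, ht.2.trans_lt hb⟩
  have h1 : ∀ j, |(k j : ℝ)| ^ n * ‖fr (F t) k‖ ≤ |C j| := by
    intro j
    have h2 := norm_fr_le_of (f := (H459R3.NS.pd j)^[n] (F t)) (hC j t ht) k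
    refine le_trans ?_ (h2.trans (le_abs_self _))
    rw [fr_iter (h.sp hT), norm_mul, norm_pow]
    gcongr
    rw [norm_mul, norm_mul, norm_mul, Complex.norm_I, mul_one, Complex.norm_real,
      Real.norm_eq_abs, abs_of_pos Real.pi_pos, Complex.norm_ofNat, Complex.norm_intCast]
    have h0 : 0 ≤ |(k j : ℝ)| := abs_nonneg _
    have := Real.pi_gt_three
    nlinarith
  calc (N k : ℝ) ^ n * ‖fr (F t) k‖ ≤ (∑ j, |(k j : ℝ)| ^ n) * ‖fr (F t) k‖ := by
        gcongr
        exact N_pow_le k n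
    _ = ∑ j, |(k j : ℝ)| ^ n * ‖fr (F t) k‖ := Finset.sum_mul _ _ _
    _ ≤ _ := Finset.sum_le_sum fun j _ => h1 j

/-- a summable weight -/
noncomputable def wg (k : K3) : ℝ :=
  (1 / (1 + (k 0 : ℝ) ^ 2)) * ((1 / (1 + (k 1 : ℝ) ^ 2)) * (1 / (1 + (k 2 : ℝ) ^ 2)))

theorem wg_nonneg (k : K3) : 0 ≤ wg k := by unfold wg; positivity

theorem one_le_wg (k : K3) : 1 ≤ (1 + (N k : ℝ)) ^ 6 * wg k := by
  have h0 := one_add_sq_le k 0
  have h1' := one_add_sq_le k 1
  have h2' := one_add_sq_le k 2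
  have hprod : (1 + (k 0 : ℝ) ^ 2) * ((1 + (k 1 : ℝ) ^ 2) * (1 + (k 2 : ℝ) ^ 2))
      ≤ (1 + (N k : ℝ)) ^ 6 := by
    calc (1 + (k 0 : ℝ) ^ 2) * ((1 + (k 1 : ℝ) ^ 2) * (1 + (k 2 : ℝ) ^ 2))
        ≤ (1 + (N k : ℝ)) ^ 2 * ((1 + (N k : ℝ)) ^ 2 * (1 + (N k : ℝ)) ^ 2) := by gcongr
      _ = _ := by ring
  have hP : (0 : ℝ) < (1 + (k 0 : ℝ) ^ 2) * ((1 + (k 1 : ℝ) ^ 2) * (1 + (k 2 : ℝ) ^ 2)) := by
    positivity
  have e : (1 + (N k : ℝ)) ^ 6 * wg k
      = (1 + (N k : ℝ)) ^ 6 / ((1 + (k 0 : ℝ) ^ 2) * ((1 + (k 1 : ℝ) ^ 2)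
        * (1 + (k 2 : ℝ) ^ 2))) := by
    unfold wg
    field_simp
  rw [e, le_div_iff₀ hP, one_mul]
  exact hprod

/-- uniform decay of the coefficients on compact time intervals -/
theorem SF.decay (h : SF T F) {b : ℝ} (hb : b < T) (m : ℕ) :
    ∃ C, 0 ≤ C ∧ ∀ t ∈ Icc 0 b, ∀ k, (1 + (N k : ℝ)) ^ m * ‖fr (F t) k‖ ≤ C * wg k := by
  obtain ⟨C0, hC0, h0⟩ := h.fr_bound hb 0
  obtain ⟨C1, hC1, h1⟩ := h.fr_bound hb (m + 6)
  refine ⟨2 ^ (m + 6) * (C0 + C1), by positivity, fun t ht k => ?_⟩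
  have hN : (0 : ℝ) ≤ N k := by positivity
  have h2 : (1 + (N k : ℝ)) ^ (m + 6) ≤ 2 ^ (m + 6) * (1 + (N k : ℝ) ^ (m + 6)) := by
    rcases le_total (N k : ℝ) 1 with h | h
    · have : (1 + (N k : ℝ)) ^ (m + 6) ≤ (1 + 1) ^ (m + 6) := by gcongr
      have e2 : (1 + 1 : ℝ) = 2 := by norm_num
      rw [e2] at this
      have h3 : (0 : ℝ) ≤ 2 ^ (m + 6) * (N k : ℝ) ^ (m + 6) := by positivity
      linarith
    · have : (1 + (N k : ℝ)) ^ (m + 6) ≤ ((N k : ℝ) + (N k : ℝ)) ^ (m + 6) := by gcongr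
      have e : ((N k : ℝ) + (N k : ℝ)) ^ (m + 6) = 2 ^ (m + 6) * (N k : ℝ) ^ (m + 6) := by
        rw [← two_mul, mul_pow]
      rw [e] at this
      have h3 : (0 : ℝ) ≤ 2 ^ (m + 6) := by positivity
      linarith
  have h3 : (1 + (N k : ℝ)) ^ (m + 6) * ‖fr (F t) k‖ ≤ 2 ^ (m + 6) * (C0 + C1) := by
    calc (1 + (N k : ℝ)) ^ (m + 6) * ‖fr (F t) k‖
        ≤ (2 ^ (m + 6) * (1 + (N k : ℝ) ^ (m + 6))) * ‖fr (F t) k‖ := by gcongr
      _ = 2 ^ (m + 6) * ((N k : ℝ) ^ 0 * ‖fr (F t) k‖ + (N k : ℝ) ^ (m + 6) * ‖fr (F t) k‖) := by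
        ring
      _ ≤ _ := by
        have a1 := h0 t ht k
        have a2 := h1 t ht k
        gcongr
  have h4 := one_le_wg k
  have h5 : 0 ≤ (1 + (N k : ℝ)) ^ m * ‖fr (F t) k‖ := by positivity
  calc (1 + (N k : ℝ)) ^ m * ‖fr (F t) k‖
      ≤ ((1 + (N k : ℝ)) ^ m * ‖fr (F t) k‖) * ((1 + (N k : ℝ)) ^ 6 * wg k) :=
        le_mul_of_one_le_right h5 h4
    _ = ((1 + (N k : ℝ)) ^ (m + 6) * ‖fr (F t) k‖) * wg k := by ring
    _ ≤ _ := mul_le_mul_of_nonneg_right h3 (wg_nonneg k)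

theorem wg_le_one (k : K3) : wg k ≤ 1 := by
  unfold wg
  have h : ∀ x : ℝ, 1 / (1 + x ^ 2) ≤ 1 := fun x => by
    rw [div_le_one (by positivity)]
    nlinarith [sq_nonneg x]
  have h' : ∀ x : ℝ, 0 ≤ 1 / (1 + x ^ 2) := fun x => by positivity
  calc _ ≤ (1 : ℝ) * (1 * 1) := by
        refine mul_le_mul (h _) (mul_le_mul (h _) (h _) (h' _) zero_le_one)
          (mul_nonneg (h' _) (h' _)) zero_le_one
    _ = 1 := by norm_num

/-- the coefficients are differentiable in time -/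
theorem SF.hasDerivAt_fr (h : SF T F) {t : ℝ} (ht : t ∈ Ioo 0 T) (k : K3) :
    HasDerivAt (fun s => fr (F s) k) (fr (dt F t) k) t := by
  have hsm := mono_Ioo (f := F) h.smooth (n := 1) (by norm_cast)
  have key : ∀ c : V → ℝ, ContDiff ℝ 1 c →
      HasDerivAt (fun s => ∫ x in cube, c x * F s x) (∫ x in cube, c x * dt F t x) t := by
    intro c hc
    have hF : ContDiffOn ℝ 1 (fun z : ℝ × V => c z.2 * F z.1 z.2) (Ioo 0 T ×ˢ univ) :=
      (hc.comp contDiff_snd).contDiffOn.mul hsm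
    have h1 := hasDerivAt_int (F := fun s x => c x * F s x) hF ht
    refine h1.congr_deriv ?_
    congr 1
    funext x
    have h2 : HasDerivAt (fun s => F s x) (dt F t x) t := by
      have := hasDerivAt_slice (F := F) hsm ht x
      rwa [← H459R3.NS.dt_eq (f := F) h.smooth ht x] at this
    exact (h2.const_mul (c x)).deriv
  have hre : ContDiff ℝ 1 (fun x => (ee (-k) x).re) :=
    Complex.reCLM.contDiff.comp (ee_contDiff (-k))
  have him : ContDiff ℝ 1 (fun x => (ee (-k) x).im) :=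
    Complex.imCLM.contDiff.comp (ee_contDiff (-k))
  have hfr : ∀ f : V → ℝ, Continuous f → fr f k
      = ((∫ x in cube, (ee (-k) x).re * f x : ℝ) : ℂ)
        + ((∫ x in cube, (ee (-k) x).im * f x : ℝ) : ℂ) * Complex.I := by
    intro f hf
    unfold fr fc
    rw [← integral_complex_ofReal, ← integral_complex_ofReal, ← integral_mul_const,
      ← integral_add]
    · congr 1
      funext x
      push_cast
      conv_lhs => rw [← Complex.re_add_im (ee (-k) x)]
      ring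
    · refine integrableOn_cube (Complex.continuous_ofReal.comp ?_)
      exact hre.continuous.mul hf
    · refine integrableOn_cube ((Complex.continuous_ofReal.comp ?_).mul continuous_const)
      exact him.continuous.mul hf
  have hI : ∀ s ∈ Ioo 0 T, Continuous (F s) := fun s hs => (h.sp ⟨hs.1.le, hs.2⟩).cont
  have hdc : Continuous (dt F t) := (contDiff_dt h.smooth ht).continuous
  rw [hfr _ hdc]
  have h3 := ((key _ hre).ofReal_comp).add (((key _ him).ofReal_comp).mul_const Complex.I)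
  refine h3.congr_of_eventuallyEq ?_
  filter_upwards [Ioo_mem_nhds ht.1 ht.2] with s hs
  exact hfr _ (hI s hs)

theorem SF.continuousOn_fr (h : SF T F) (k : K3) : ContinuousOn (fun s => fr (F s) k) (Ico 0 T) := by
  have hre : Continuous (fun x => (ee (-k) x).re) :=
    Complex.continuous_re.comp (ee_continuous (-k))
  have him : Continuous (fun x => (ee (-k) x).im) :=
    Complex.continuous_im.comp (ee_continuous (-k))
  have key : ∀ c : V → ℝ, Continuous c →
      ContinuousOn (fun s => ∫ x in cube, c x * F s x) (Ico 0 T) := by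
    intro c hc
    exact continuousOn_int (F := fun s x => c x * F s x)
      ((hc.comp continuous_snd).continuousOn.mul h.smooth.continuousOn)
  have h3 : ContinuousOn (fun s => ((∫ x in cube, (ee (-k) x).re * F s x : ℝ) : ℂ)
        + ((∫ x in cube, (ee (-k) x).im * F s x : ℝ) : ℂ) * Complex.I) (Ico 0 T) :=
    (Complex.continuous_ofReal.comp_continuousOn (key _ hre)).add
      ((Complex.continuous_ofReal.comp_continuousOn (key _ him)).mul continuousOn_const)
  refine h3.congr fun s hs => ?_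
  have hf := (h.sp hs).cont
  show fr (F s) k = _
  unfold fr fc
  simp only []
  rw [← integral_complex_ofReal, ← integral_complex_ofReal, ← integral_mul_const,
    ← integral_add]
  · congr 1
    funext x
    push_cast
    conv_lhs => rw [← Complex.re_add_im (ee (-k) x)]
    ring
  · refine integrableOn_cube (Complex.continuous_ofReal.comp ?_)
    exact hre.mul hf
  · refine integrableOn_cube ((Complex.continuous_ofReal.comp ?_).mul continuous_const)
    exact him.mul hf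

end Pool.Agent.K1H11.NS.Ev
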