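import Pool.Agent.K1H11.NS2.Abs

/-!
# Explicit families and convolutions
-/

open MeasureTheory Set Filter Topology
open scoped ENNReal NNReal

namespace Pool.Agent.K1H11.NS

/-- exponentially decreasing families -/
noncomputable def Ex (lam : ℝ) (X : K → C3) : Fam := fun k t => Real.exp (-(lam * max t 0)) • X k

lemma Ex_cf (lam : ℝ) (X : K → C3) : CF (Ex lam X) := fun k => by
  unfold Ex
  have : Continuous fun t : ℝ => Real.exp (-(lam * max t 0)) := by fun_prop
  exact this.smul continuous_const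

lemma exp_le_one' {lam : ℝ} (hl : 0 ≤ lam) (t : ℝ) : Real.exp (-(lam * max t 0)) ≤ 1 := by
  rw [Real.exp_le_one_iff]
  have h2 : 0 ≤ max t 0 := le_max_right _ _
  have : 0 ≤ lam * max t 0 := by positivity
  linarith

lemma Ex_norm {lam : ℝ} (hl : 0 ≤ lam) (X : K → C3) (k : K) (t : ℝ) : ‖Ex lam X k t‖ ≤ ‖X k‖ := by
  unfold Ex
  rw [norm_smul, Real.norm_of_nonneg (Real.exp_pos _).le]
  exact mul_le_of_le_one_left (norm_nonneg _) (exp_le_one' hl t)

lemma smul_sym {X : K → C3} (hX : Sym X) (r : ℝ) (k : K) (i : Fin 3) :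
    (r • X (-k)) i = star ((r • X k) i) := by
  simp only [Pi.smul_apply, hX k i]
  rw [Complex.real_smul, Complex.real_smul, star_mul']
  congr 1
  exact (Complex.conj_ofReal _).symm

lemma Ex_sym {lam : ℝ} {X : K → C3} (hX : Sym X) : SymF (Ex lam X) := fun _ k i => smul_sym hX _ k i

lemma lint_exp' {lam : ℝ} (hl : 0 < lam) :
    ∫⁻ t in Ioi 0, ENNReal.ofReal (Real.exp (-(lam * max t 0))) = ENNReal.ofReal (1 / lam) := by
  rw [← lint_exp hl 0, setLIntegral_congr Ioi_ae_eq_Ici.symm]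
  refine setLIntegral_congr_fun measurableSet_Ioi fun t ht => ?_
  show ENNReal.ofReal (Real.exp (-(lam * max t 0))) = _
  rw [max_eq_left (le_of_lt ht), sub_zero]

lemma LN_exp {lam : ℝ} (hl : 0 < lam) :
    LN (fun t => ENNReal.ofReal (Real.exp (-(lam * max t 0)))) = ENNReal.ofReal (Real.sqrt (1 / (2 * lam))) := by
  unfold LN
  have e : ∀ t : ℝ, ENNReal.ofReal (Real.exp (-(lam * max t 0))) ^ (2 : ℝ)
      = ENNReal.ofReal (Real.exp (-((2 * lam) * max t 0))) := by
    intro t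
    rw [ENNReal.rpow_two, ← ENNReal.ofReal_pow (Real.exp_pos _).le, ← Real.exp_nat_mul]
    congr 2
    push_cast; ring
  simp_rw [e]
  rw [lint_exp' (by positivity), ENNReal.ofReal_rpow_of_nonneg (by positivity) (by norm_num),
    ← Real.sqrt_eq_rpow]

lemma enorm_Ex (lam : ℝ) (X : K → C3) (k : K) (t : ℝ) :
    ‖Ex lam X k t‖ₑ = ‖X k‖ₑ * ENNReal.ofReal (Real.exp (-(lam * max t 0))) := by
  unfold Ex
  rw [enorm_smul, Real.enorm_of_nonneg (Real.exp_pos _).le, mul_comm]

lemma LN_Ex {lam : ℝ} (hl : 0 < lam) (X : K → C3) (k : K) :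
    LN (fun t => ‖Ex lam X k t‖ₑ) = ENNReal.ofReal (‖X k‖ * Real.sqrt (1 / (2 * lam))) := by
  simp_rw [enorm_Ex]
  rw [LN_const_mul _ (by fun_prop), LN_exp hl, ENNReal.ofReal_mul (norm_nonneg _), ofReal_norm]

lemma XN_Ex {lam : ℝ} (hl : 0 < lam) {X : K → C3} (hX : SN X) :
    XN (Ex lam X) ≤ ENNReal.ofReal ((∑' k, ‖X k‖) * Real.sqrt (1 / (2 * lam))) := by
  unfold XN
  have h1 : ∀ t, NW (Wa Wt.one) (at' (Ex lam X) t) = ∑' k, ‖Ex lam X k t‖ₑ := fun t => NW_Wa_zero _
  simp_rw [h1]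
  refine (LN_tsum fun k => (Ex_cf lam X k).enorm.measurable).trans (le_of_eq ?_)
  rw [← tsum_mul_right, ENNReal.ofReal_tsum_of_nonneg (fun k => by positivity) (hX.mul_right _)]
  exact tsum_congr fun k => LN_Ex hl X k

lemma XN_add {x y : Fam} (hx : CF x) (hy : CF y) : XN (x + y) ≤ XN x + XN y :=
  (LN_mono fun t _ => NW_add_le _ _ _).trans (LN_add_le (NW_meas _ hx) (NW_meas _ hy))

lemma LNd_add (dl : ℝ) {x y : Fam} (hx : CF x) (hy : CF y) : LNd dl (x + y) ≤ LNd dl x + LNd dl y := by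
  unfold LNd
  have mx : Measurable fun t => (Ioi dl).indicator (fun t => NW (Wa Wt.one) (at' x t)) t :=
    (NW_meas _ hx).indicator measurableSet_Ioi
  have my : Measurable fun t => (Ioi dl).indicator (fun t => NW (Wa Wt.one) (at' y t)) t :=
    (NW_meas _ hy).indicator measurableSet_Ioi
  refine (LN_mono fun t _ => ?_).trans (LN_add_le mx my)
  by_cases ht : t ∈ Ioi dl
  · simp only [indicator_of_mem ht]
    exact NW_add_le _ _ _
  · simp only [indicator_of_notMem ht, add_zero, le_refl]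

lemma LNd_le_XN (dl : ℝ) (x : Fam) : LNd dl x ≤ XN x := LNd_le_LN dl x

lemma LNd_Ex {lam dl : ℝ} (hl : 0 < lam) (hdl : 0 < dl) {X : K → C3} (hX : SN X) :
    LNd dl (Ex lam X) ≤
      ENNReal.ofReal (Real.exp (-(lam / 2 * dl)) * ((∑' k, ‖X k‖) * Real.sqrt (1 / (2 * (lam / 2))))) := by
  have h1 : LNd dl (Ex lam X) ≤ ENNReal.ofReal (Real.exp (-(lam / 2 * dl))) * XN (Ex (lam / 2) X) := by
    unfold XN
    rw [← LN_const_mul _ (NW_meas _ (Ex_cf _ _))]
    unfold LNd
    refine LN_mono fun t ht => ?_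
    by_cases htd : t ∈ Ioi dl
    · rw [indicator_of_mem htd, NW_Wa_zero, NW_Wa_zero, ← ENNReal.tsum_mul_left]
      refine ENNReal.tsum_le_tsum fun k => ?_
      show ‖Ex lam X k t‖ₑ ≤ _ * ‖Ex (lam / 2) X k t‖ₑ
      rw [enorm_Ex, enorm_Ex, mul_left_comm, ← ENNReal.ofReal_mul (Real.exp_pos _).le, ← Real.exp_add]
      apply mul_le_mul' le_rfl
      apply ENNReal.ofReal_le_ofReal
      apply Real.exp_le_exp.2
      rw [max_eq_left ht.le]
      have : dl < t := htd
      nlinarith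
    · rw [indicator_of_notMem htd]; exact zero_le
  refine h1.trans ((mul_le_mul' le_rfl (XN_Ex (half_pos hl) hX)).trans (le_of_eq ?_))
  rw [← ENNReal.ofReal_mul (Real.exp_pos _).le]

lemma Ex_duh (c lam : ℝ) (X : K → C3) (k : K) (t : ℝ) :
    Ex lam X k t = Real.exp (-(c * sq k * max t 0)) • X k +
      Duh c (fun k s => (c * sq k - lam) • Ex lam X k s) k t := by
  unfold Duh Ex
  set T := max t 0
  have hT : 0 ≤ T := le_max_right _ _
  set μ := c * sq k
  have e1 : ∫ s in (0 : ℝ)..T, Real.exp (-(μ * (T - s))) • (μ - lam) • Real.exp (-(lam * max s 0)) • X k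
      = (∫ s in (0 : ℝ)..T, (μ - lam) * Real.exp (-(μ * (T - s)) - lam * s)) • X k := by
    rw [← intervalIntegral.integral_smul_const]
    refine intervalIntegral.integral_congr fun s hs => ?_
    rw [uIcc_of_le hT] at hs
    simp only [smul_smul, max_eq_left hs.1]
    congr 1
    rw [sub_eq_add_neg (-(μ * (T - s))), Real.exp_add]; ring
  rw [e1]
  have hd : ∀ s ∈ uIcc 0 T, HasDerivAt (fun s => Real.exp (-(μ * (T - s)) - lam * s))
      ((μ - lam) * Real.exp (-(μ * (T - s)) - lam * s)) s := by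
    intro s _
    have h1 : HasDerivAt (fun s => -(μ * (T - s)) - lam * s) (μ - lam) s := by
      have := ((((hasDerivAt_id' s).const_sub T).const_mul μ).fun_neg).sub ((hasDerivAt_id' s).const_mul lam)
      refine this.congr_deriv ?_; ring
    refine h1.exp.congr_deriv ?_
    ring
  rw [intervalIntegral.integral_eq_sub_of_hasDerivAt hd (by
    apply Continuous.intervalIntegrable; fun_prop)]
  rw [← add_smul]
  congr 1
  simp only [sub_self, mul_zero, neg_zero, zero_sub, sub_zero]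
  ring

/-! ### Convolutions of real sequences -/

/-- the convolution -/
noncomputable def conv (x y : K → ℝ) (k : K) : ℝ := ∑' l, x l * y (k - l)

lemma conv_nonneg {x y : K → ℝ} (hx : ∀ k, 0 ≤ x k) (hy : ∀ k, 0 ≤ y k) (k : K) : 0 ≤ conv x y k :=
  tsum_nonneg fun l => mul_nonneg (hx l) (hy _)

lemma summable_conv_aux {x y : K → ℝ} (hx : ∀ k, 0 ≤ x k) (hy : ∀ k, 0 ≤ y k) (sx : Summable x)
    (sy : Summable y) : Summable fun p : K × K => x p.1 * y (p.2 - p.1) := by
  have h1 := sx.mul_of_nonneg sy hx hy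
  let e : K × K ≃ K × K :=
    { toFun := fun p => (p.1, p.2 - p.1)
      invFun := fun p => (p.1, p.2 + p.1)
      left_inv := fun p => by simp
      right_inv := fun p => by simp }
  exact (e.summable_iff (f := fun p : K × K => x p.1 * y p.2)).2 h1

lemma summable_conv_term {x y : K → ℝ} (hx : ∀ k, 0 ≤ x k) (hy : ∀ k, 0 ≤ y k) (sx : Summable x)
    (sy : Summable y) (k : K) : Summable fun l => x l * y (k - l) := by
  refine (sx.mul_right (∑' l, y l)).of_nonneg_of_le (fun l => mul_nonneg (hx l) (hy _)) fun l => ?_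
  exact mul_le_mul_of_nonneg_left (sy.le_tsum (k - l) fun _ _ => hy _) (hx l)

lemma summable_conv {x y : K → ℝ} (hx : ∀ k, 0 ≤ x k) (hy : ∀ k, 0 ≤ y k) (sx : Summable x)
    (sy : Summable y) : Summable (conv x y) ∧ ∑' k, conv x y k = (∑' k, x k) * ∑' k, y k := by
  have h1 := summable_conv_aux hx hy sx sy
  let sw : K × K ≃ K × K := Equiv.prodComm K K
  have h2 : Summable fun p : K × K => x p.2 * y (p.1 - p.2) := (sw.summable_iff
    (f := fun p : K × K => x p.1 * y (p.2 - p.1))).2 h1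
  refine ⟨(h2.prod), ?_⟩
  unfold conv
  rw [← Summable.tsum_prod' h2 (fun k => summable_conv_term hx hy sx sy k)]
  have h3 : ∑' p : K × K, x p.2 * y (p.1 - p.2) = ∑' p : K × K, x p.1 * y (p.2 - p.1) :=
    sw.tsum_eq (f := fun p : K × K => x p.1 * y (p.2 - p.1))
  rw [h3, Summable.tsum_prod' h1 (fun l => by
    have h4 : Summable fun k => y (k - l) := (Equiv.subRight l).summable_iff.2 sy
    exact h4.mul_left (x l))]
  rw [← tsum_mul_right]
  refine tsum_congr fun l => ?_
  show ∑' k, x l * y (k - l) = x l * ∑' k, y k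
  rw [tsum_mul_left]
  congr 1
  exact (Equiv.subRight l).tsum_eq y

lemma RR.conv {x y : K → ℝ} (hx : ∀ k, 0 ≤ x k) (hy : ∀ k, 0 ≤ y k) (rx : RR x) (ry : RR y) :
    RR (conv x y) := by
  intro m
  have hp : ∀ k, 0 ≤ Pool.Agent.K1H11.NS.pw k ^ m := fun k => (pow_pos (pw_pos k) m).le
  have h1 := summable_conv (x := fun k => Pool.Agent.K1H11.NS.pw k ^ m * x k)
    (y := fun k => Pool.Agent.K1H11.NS.pw k ^ m * y k)
    (fun k => mul_nonneg (hp k) (hx k)) (fun k => mul_nonneg (hp k) (hy k)) (rx m) (ry m)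
  refine h1.1.of_nonneg_of_le (fun k => mul_nonneg (hp k) (conv_nonneg hx hy k)) fun k => ?_
  unfold Pool.Agent.K1H11.NS.conv
  rw [← tsum_mul_left]
  refine Summable.tsum_le_tsum (fun l => ?_) ((summable_conv_term hx hy rx.summ ry.summ k).mul_left _)
    (summable_conv_term (fun k => mul_nonneg (hp k) (hx k)) (fun k => mul_nonneg (hp k) (hy k)) (rx m) (ry m) k)
  have h2 : Pool.Agent.K1H11.NS.pw k ^ m ≤
      Pool.Agent.K1H11.NS.pw l ^ m * Pool.Agent.K1H11.NS.pw (k - l) ^ m := by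
    rw [← mul_pow]
    exact pow_le_pow_left₀ (pw_pos k).le (pw_sub k l) m
  calc _ ≤ (Pool.Agent.K1H11.NS.pw l ^ m * Pool.Agent.K1H11.NS.pw (k - l) ^ m) * (x l * y (k - l)) :=
        mul_le_mul_of_nonneg_right h2 (mul_nonneg (hx l) (hy _))
    _ = _ := by ring

lemma conv_comm (x y : K → ℝ) (k : K) : conv x y k = conv y x k := by
  unfold conv
  rw [← (Equiv.subLeft k).tsum_eq]
  refine tsum_congr fun l => ?_
  simp only [Equiv.subLeft_apply, sub_sub_cancel]
  ring

lemma norm_Bf_conv {x y : K → C3} {a b : K → ℝ} (ha : Summable a) (hb : Summable b)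
    (hx : ∀ k, ‖x k‖ ≤ a k) (hy : ∀ k, ‖y k‖ ≤ b k) (k : K) :
    ‖Bf x y k‖ ≤ C0 * nk k * conv a b k := by
  have ha0 : ∀ k, 0 ≤ a k := fun k => (norm_nonneg _).trans (hx k)
  have hb0 : ∀ k, 0 ≤ b k := fun k => (norm_nonneg _).trans (hy k)
  have hC := C0_pos
  have hn := nk_nonneg k
  have h1 := enorm_Bf_le x y k
  have h2 : ∑' l, ‖x l‖ₑ * ‖y (k - l)‖ₑ ≤ ENNReal.ofReal (conv a b k) := by
    unfold conv
    rw [ENNReal.ofReal_tsum_of_nonneg (fun l => mul_nonneg (ha0 l) (hb0 _))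
      (summable_conv_term ha0 hb0 ha hb k)]
    refine ENNReal.tsum_le_tsum fun l => ?_
    rw [ENNReal.ofReal_mul (ha0 l), ← ofReal_norm, ← ofReal_norm]
    exact mul_le_mul' (ENNReal.ofReal_le_ofReal (hx l)) (ENNReal.ofReal_le_ofReal (hy _))
  have h3 : ‖Bf x y k‖ₑ ≤ ENNReal.ofReal (C0 * nk k * conv a b k) := by
    rw [ENNReal.ofReal_mul (by positivity)]
    exact h1.trans (mul_le_mul' le_rfl h2)
  rw [← ofReal_norm] at h3
  exact (ENNReal.ofReal_le_ofReal_iff (mul_nonneg (by positivity) (conv_nonneg ha0 hb0 k))).1 h3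

lemma cv_smul_left (r : ℝ) (x y : K → C3) (k : K) (i j : Fin 3) : cv (r • x) y k i j = r * cv x y k i j := by
  unfold cv
  rw [← tsum_mul_left]
  refine tsum_congr fun l => ?_
  simp only [Pi.smul_apply, Complex.real_smul]; ring

lemma cv_smul_right (r : ℝ) (x y : K → C3) (k : K) (i j : Fin 3) : cv x (r • y) k i j = r * cv x y k i j := by
  unfold cv
  rw [← tsum_mul_left]
  refine tsum_congr fun l => ?_
  simp only [Pi.smul_apply, Complex.real_smul]; ring

lemma Bf_smul_left (r : ℝ) (x y : K → C3) : Bf (r • x) y = r • Bf x y := by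
  funext k i
  simp only [Bf, Pi.smul_apply, cv_smul_left, Finset.smul_sum, Complex.real_smul]
  refine Finset.sum_congr rfl fun j _ => Finset.sum_congr rfl fun m _ => ?_
  ring

lemma Bf_smul_right (r : ℝ) (x y : K → C3) : Bf x (r • y) = r • Bf x y := by
  funext k i
  simp only [Bf, Pi.smul_apply, cv_smul_right, Finset.smul_sum, Complex.real_smul]
  refine Finset.sum_congr rfl fun j _ => Finset.sum_congr rfl fun m _ => ?_
  ring

lemma SN.smul {x : K → C3} (hx : SN x) (r : ℝ) : SN (r • x) := by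
  unfold SN at *
  refine (hx.mul_left |r|).congr fun k => ?_
  rw [Pi.smul_apply, norm_smul, Real.norm_eq_abs]

end Pool.Agent.K1H11.NS
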