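import Pool.Agent.K1H11.NS2.Conv4
import Pool.Agent.K1H11.NS2.Cut2

/-!
# The final form
-/

open MeasureTheory Set Filter Topology
open scoped ENNReal NNReal ContDiff

namespace Pool.Agent.K1H11.NS

open H459R3.NS (cube SP)
open Pool.Agent.H356R3.NS (AdmissiblePeriodic R3 critNorm leiLin)

lemma nk_le_box {k : K} {K0 : ℕ} (h : ∀ i, |k i| ≤ K0) : nk k ≤ 2 * K0 := by
  unfold nk
  rw [Real.sqrt_le_left (by positivity)]
  have h1 : ∀ i, (k i : ℝ) ^ 2 ≤ (K0 : ℝ) ^ 2 := by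
    intro i
    rw [← sq_abs]
    apply pow_le_pow_left₀ (abs_nonneg _)
    have := h i
    exact_mod_cast this
  unfold sq
  rw [Fin.sum_univ_three]
  have a0 := h1 0
  have a1 := h1 1
  have a2 := h1 2
  nlinarith [sq_nonneg (K0 : ℝ)]

theorem fin_main : ∃ C : ℝ, 0 < C ∧ ∀ (ν : ℝ), 0 < ν → ∀ (u₀ w₀ : E3 → E3) (w : ℝ → E3 → E3) (q : ℝ → E3 → ℝ),
    (∀ i, SP fun x => u₀ x i) → (∀ x, ∑ i, H459R3.NS.pd i (fun y => u₀ y i) x = 0) →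
    AdmissiblePeriodic ν w₀ w q → (∀ i, ∫ x in cube, w₀ x i = ∫ x in cube, u₀ x i) →
    ∀ (η ε : ℝ), 0 < η → η ≤ 1 → 0 < ε → ∀ (J K0 : ℕ), 1 ≤ J →
    ∃ (v₀ : E3 → E3),
      (∀ i, SP fun x => v₀ x i) ∧ (∀ x, ∑ i, H459R3.NS.pd i (fun y => v₀ y i) x = 0) ∧
      (∀ i, ∫ x in cube, v₀ x i = ∫ x in cube, u₀ x i) ∧
      volume {x | x ∈ Icc (0 : E3) 1 ∧ v₀ x ≠ u₀ x} ≤ ENNReal.ofReal η ∧
      leiLin (fun k => Pool.Agent.H356R3.NS.fc v₀ k - Pool.Agent.H356R3.NS.fc u₀ k) ≤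
        ENNReal.ofReal (C * ν * Real.sqrt J / η) ∧
      (∀ r : ℝ, 1 ≤ r → critNorm r (fun k => Pool.Agent.H356R3.NS.fc v₀ k - Pool.Agent.H356R3.NS.fc u₀ k) ≤
        ENNReal.ofReal (C * ν * (J : ℝ) ^ (1 / r - 1 / 2) / η)) ∧
      (∀ k : Fin 3 → ℤ, (∀ i, |k i| ≤ K0) →
        ‖Pool.Agent.H356R3.NS.fc v₀ k - Pool.Agent.H356R3.NS.fc u₀ k‖ ≤ ε) ∧
      ∃ δ : ℝ, 0 < δ ∧ ∀ z₀ : E3 → E3, (∀ i, SP fun x => z₀ x i) →
        (∀ x, ∑ i, H459R3.NS.pd i (fun y => z₀ y i) x = 0) →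
        (∀ i, ∫ x in cube, z₀ x i = ∫ x in cube, u₀ x i) →
        leiLin (fun k => Pool.Agent.H356R3.NS.fc z₀ k - Pool.Agent.H356R3.NS.fc v₀ k) ≤ ENNReal.ofReal δ →
        ∃ (u : ℝ → E3 → E3) (p : ℝ → E3 → ℝ), AdmissiblePeriodic ν z₀ u p ∧
          ∀ t, ε ≤ t → ∀ x i, |u t x i - w t x i| ≤ ε := by
  obtain ⟨Cg, hCg, hcut⟩ := exists_cut2
  refine ⟨8 * (225 * (4 * Cg + 1) ^ 2 * 12) * (4 * Real.pi ^ 2), by positivity,
    fun ν hν u₀ w₀ w q hu hdiv hw hmean η ε h0 h1 hε J K0 hJ => ?_⟩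
  have hη : 0 < η / 12 := by positivity
  have hη1 : η / 12 ≤ 1 / 4 := by linarith
  obtain ⟨g, hg, hA⟩ := hcut (η / 12) hη hη1
  have hg2 : ContDiff ℝ ∞ (fun y => g y ^ 2 - 1) := (hg.smooth.pow 2).sub contDiff_const
  obtain ⟨Q, -, hQ⟩ := gM_norm hg2 (fun y => by rw [hg.per])
  obtain ⟨a, ha, W, hW, hWphys⟩ := conv_sol hν hw
  have hsp0 : ∀ i, SP fun x => w₀ x i := by
    intro i
    have := (adm_isSol hw 1).sp (t := 0) ⟨le_rfl, one_pos⟩ i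
    rwa [hw.initial] at this
  have hdw : ∀ x, ∑ i, H459R3.NS.pd i (fun y => w₀ y i) x = 0 := by
    intro x
    have := (adm_isSol hw 1).divfree 0 ⟨le_rfl, one_pos⟩ x
    rwa [hw.initial] at this
  obtain ⟨v₀, δ, hδ, b1, b2, b3, b4, b5, b6, b7, b8⟩ :=
    phys hν hu hdiv hsp0 hdw hmean ha hW hη hη1 hg hA hQ hJ hε (R := 2 * K0) (ρ := ε) hε
  have hs : 0 < Real.sqrt (η / 12) := Real.sqrt_pos.2 hη
  have hs2 : Real.sqrt (η / 12) ^ 2 = η / 12 := Real.sq_sqrt hη.le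
  have hs1 : Real.sqrt (η / 12) ≤ 1 := by
    rw [Real.sqrt_le_left one_pos.le]; linarith
  have hP : PP (Cg / Real.sqrt (η / 12)) ^ 2 ≤ 225 * (4 * Cg + 1) ^ 2 * 12 / η := by
    have h2 : PP (Cg / Real.sqrt (η / 12)) ≤ 15 * (4 * Cg + 1) / Real.sqrt (η / 12) := by
      unfold PP
      rw [le_div_iff₀ hs]
      have : 15 * (4 * (Cg / Real.sqrt (η / 12)) + 1) * Real.sqrt (η / 12)
          = 15 * (4 * Cg + Real.sqrt (η / 12)) := by field_simp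
      rw [this]
      linarith
    have h3 : 0 ≤ PP (Cg / Real.sqrt (η / 12)) := by unfold PP; positivity
    calc _ ≤ (15 * (4 * Cg + 1) / Real.sqrt (η / 12)) ^ 2 := pow_le_pow_left₀ h3 h2 2
      _ = 225 * (4 * Cg + 1) ^ 2 * 12 / η := by
          rw [div_pow, hs2]; field_simp; ring
  refine ⟨v₀, b1, b2, b3, ?_, ?_, ?_, fun k hk => b7 k (nk_le_box hk), δ, hδ, ?_⟩
  · refine b4.trans (ENNReal.ofReal_le_ofReal (le_of_eq (by ring)))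
  · refine b5.trans (ENNReal.ofReal_le_ofReal ?_)
    have hJ0 := Real.sqrt_nonneg (J : ℝ)
    calc 2 * PP (Cg / Real.sqrt (η / 12)) ^ 2 * (4 * Real.pi ^ 2 * ν) * Real.sqrt J
        ≤ 8 * (225 * (4 * Cg + 1) ^ 2 * 12 / η) * (4 * Real.pi ^ 2 * ν) * Real.sqrt J := by
          gcongr; norm_num
      _ = _ := by ring
  · intro r hr
    refine (b6 r hr).trans (ENNReal.ofReal_le_ofReal ?_)
    calc 8 * PP (Cg / Real.sqrt (η / 12)) ^ 2 * (4 * Real.pi ^ 2 * ν) * (J : ℝ) ^ (1 / r - 1 / 2)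
        ≤ 8 * (225 * (4 * Cg + 1) ^ 2 * 12 / η) * (4 * Real.pi ^ 2 * ν) * (J : ℝ) ^ (1 / r - 1 / 2) := by
          gcongr
      _ = _ := by ring
  · intro z₀ hz hdz hmz hle
    obtain ⟨u, p, hup, hclose⟩ := b8 z₀ hz hdz hmz hle
    refine ⟨u, p, hup, fun t ht x i => ?_⟩
    have h2 := hclose t ht x i
    have e : (fun i => ∫ y in cube, w₀ y i) = fun i => ∫ x in cube, u₀ x i := funext hmean
    have h3 := hWphys t (by linarith) x i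
    rw [e, hmean i] at h3
    rwa [h3] at h2

end Pool.Agent.K1H11.NS
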