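import Pool.Agent.K1H11.NS2.Step

/-!
# Adding several fast waves to a solution
-/

open MeasureTheory Set Filter Topology
open scoped ENNReal NNReal

namespace Pool.Agent.K1H11.NS

theorem many {c D τ dl : ℝ} (hc : 0 < c) (hD : 0 < D) (hτ : 0 < τ) (hdl : 0 < dl) : ∃ δ0 : ℝ, 0 < δ0 ∧
    ∀ (a : Wt) (V : K → C3) (w : Fam), Sup a → Sol c a V w →
      ∀ (C1 C2 δ : ℝ) (n N0 : ℕ) (h : ℕ → K → C3) (W : ℕ → ℕ → K → C3),
        (∀ i < n, Prf c C1 C2 δ (h i) (W i)) → 0 ≤ C1 → C1 / Real.sqrt (2 * c) ≤ D → δ ≤ δ0 →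
        XN w + ENNReal.ofReal (n * (C1 / Real.sqrt (2 * c) + τ)) ≤ ENNReal.ofReal D →
        ∃ N : ℕ → ℕ, (∀ i < n, N0 ≤ N i) ∧ (∀ i j, i < j → j < n → 16 * N i ≤ N j) ∧
          ∃ a' : Wt, Sup a' ∧ ∃ u : Fam,
            Sol c a' (V + ∑ i ∈ Finset.range n, (h i + W i (N i))) u ∧
            LNd dl (u - w) ≤ ENNReal.ofReal (n * τ) := by
  obtain ⟨δ0, hδ0, hstep⟩ := step hc hD hτ hdl
  refine ⟨δ0, hδ0, fun a V w ha hw C1 C2 δ n N0 h W hP hC10 hC1 hδ hX => ?_⟩
  have sc2 : 0 < Real.sqrt (2 * c) := Real.sqrt_pos.2 (by positivity)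
  have key : ∀ m ≤ n, ∃ N : ℕ → ℕ, (∀ i < m, N0 ≤ N i) ∧ (∀ i j, i < j → j < m → 16 * N i ≤ N j) ∧
      ∃ a' : Wt, Sup a' ∧ ∃ u : Fam,
        Sol c a' (V + ∑ i ∈ Finset.range m, (h i + W i (N i))) u ∧
        XN u ≤ XN w + ENNReal.ofReal (m * (C1 / Real.sqrt (2 * c) + τ)) ∧
        LNd dl (u - w) ≤ ENNReal.ofReal (m * τ) := by
    intro m
    induction m with
    | zero =>
      intro _
      refine ⟨fun _ => 0, by simp, by simp, a, ha, w, by simpa using hw, by simp, ?_⟩
      rw [sub_self]
      refine (LNd_le_XN _ _).trans (le_of_eq ?_)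
      have h0 : ∀ t, NW (Wa Wt.one) (at' (0 : Fam) t) = 0 := fun t => NW_zero _
      simp [XN, LN, h0]
    | succ m ih =>
      intro hm
      obtain ⟨N, n1, n2, a1, ha1, u, hu, huX, huL⟩ := ih (by omega)
      have hXu : XN u ≤ ENNReal.ofReal D := by
        refine huX.trans (le_trans (add_le_add le_rfl (ENNReal.ofReal_le_ofReal ?_)) hX)
        apply mul_le_mul_of_nonneg_right _ (by positivity)
        exact_mod_cast (by omega : m ≤ n)
      have hev := hstep a1 _ u ha1 hu hXu C1 C2 δ (h m) (W m) (hP m (by omega)) hC1 hδ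
      obtain ⟨Nm, ⟨⟨a2, ha2, v, hv, hvX, hvL⟩, h1⟩, h2⟩ :=
        ((hev.and (eventually_ge_atTop N0)).and
          (eventually_ge_atTop (16 * ∑ i ∈ Finset.range m, N i))).exists
      have hup : ∀ i, i ≠ m → Function.update N m Nm i = N i := fun i hi => Function.update_of_ne hi _ _
      refine ⟨Function.update N m Nm, ?_, ?_, a2, ha2, v, ?_, ?_, ?_⟩
      · intro i hi
        by_cases him : i = m
        · subst him; simpa using h1
        · rw [hup i him]; exact n1 i (by omega)
      · intro i j hij hj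
        by_cases hjm : j = m
        · subst hjm
          rw [hup i (by omega), Function.update_self]
          have h3 : N i ≤ ∑ i ∈ Finset.range j, N i :=
            Finset.single_le_sum (f := N) (fun _ _ => Nat.zero_le _) (Finset.mem_range.2 hij)
          omega
        · rw [hup i (by omega), hup j hjm]
          exact n2 i j hij (by omega)
      · have e : V + ∑ i ∈ Finset.range (m + 1), (h i + W i (Function.update N m Nm i))
            = V + ∑ i ∈ Finset.range m, (h i + W i (N i)) + h m + W m Nm := by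
          rw [Finset.sum_range_succ, Function.update_self]
          have : ∑ i ∈ Finset.range m, (h i + W i (Function.update N m Nm i))
              = ∑ i ∈ Finset.range m, (h i + W i (N i)) := by
            refine Finset.sum_congr rfl fun i hi => ?_
            rw [hup i (by have := Finset.mem_range.1 hi; omega)]
          rw [this]
          abel
        rw [e]
        exact hv
      · refine hvX.trans ((add_le_add huX le_rfl).trans ?_)
        rw [add_assoc, ← ENNReal.ofReal_add (by positivity) (by positivity)]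
        apply add_le_add le_rfl
        apply ENNReal.ofReal_le_ofReal
        push_cast
        apply le_of_eq; ring
      · have e : v - w = (v - u) + (u - w) := by abel
        rw [e]
        have c1 : CF (v - u) := fun k => (hv.cf k).sub (hu.cf k)
        have c2 : CF (u - w) := fun k => (hu.cf k).sub (hw.cf k)
        refine (LNd_add dl c1 c2).trans ((add_le_add hvL huL).trans ?_)
        rw [← ENNReal.ofReal_add (by positivity) (by positivity)]
        apply ENNReal.ofReal_le_ofReal
        push_cast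
        apply le_of_eq; ring
  obtain ⟨N, n1, n2, a', ha', u, hu, -, huL⟩ := key n le_rfl
  exact ⟨N, n1, n2, a', ha', u, hu, huL⟩

end Pool.Agent.K1H11.NS
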