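import Pool.Agent.K1H11.NS2.Shift

/-!
# The estimates of a fast wave
-/

open MeasureTheory Set Filter Topology
open scoped ENNReal NNReal

namespace Pool.Agent.K1H11.NS

/-- Fourier coefficients of the fast wave -/
noncomputable def Wv (β : ℝ) (f : K → ℂ) (e : Fin 3 → ℝ) (cc : Fin 3) (N : ℕ) : K → C3 :=
  (N : ℝ) • (β • (Shv (nn cc N) (Ev f e) + Shv (nn cc (-N)) (Ev f e))) +
    β • (Shv (nn cc N) (Lv f e cc) - Shv (nn cc (-N)) (Lv f e cc))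

/-- The part of the velocity which is removed. -/
noncomputable def hv (c β : ℝ) (γ : K → ℂ) (e : Fin 3 → ℝ) : K → C3 := fun k =>
  (-(β ^ 2 / c)) • (γ k • bt k (ec e) (ec e))

section
variable {β : ℝ} {f γ q : K → ℂ} {e : Fin 3 → ℝ} {cc : Fin 3}

lemma Ev_rr (he : ∀ i, |e i| ≤ 1) (hf : RR fun k => ‖f k‖) : RR fun k => ‖Ev f e k‖ :=
  hf.mono (fun _ => norm_nonneg _) (Ev_norm he)

lemma Lv_rr (he : ∀ i, |e i| ≤ 1) (cc : Fin 3) (hf : RR fun k => ‖f k‖) : RR fun k => ‖Lv f e cc k‖ := by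
  refine ((hf.pw 1).mul 2).mono (fun _ => norm_nonneg _) fun k => ?_
  rw [pow_one]
  exact Lv_norm he cc k

lemma Wv_norm (hβ : 0 ≤ β) (N : ℕ) (k : K) : ‖Wv β f e cc N k‖ ≤
    β * ((N * ‖Ev f e (k - nn cc N)‖ + ‖Lv f e cc (k - nn cc N)‖) +
      (N * ‖Ev f e (k + nn cc N)‖ + ‖Lv f e cc (k + nn cc N)‖)) := by
  have e1 : Wv β f e cc N k = (N : ℝ) • (β • (Ev f e (k - nn cc N) + Ev f e (k + nn cc N))) +
      β • (Lv f e cc (k - nn cc N) - Lv f e cc (k + nn cc N)) := by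
    unfold Wv Shv
    simp only [Pi.add_apply, Pi.smul_apply, Pi.sub_apply, nn_neg, sub_neg_eq_add]
  rw [e1]
  have hN : (0 : ℝ) ≤ N := Nat.cast_nonneg N
  refine (norm_add_le _ _).trans ?_
  rw [norm_smul, norm_smul, norm_smul, Real.norm_of_nonneg hβ, Real.norm_of_nonneg hN]
  have h1 := norm_add_le (Ev f e (k - nn cc N)) (Ev f e (k + nn cc N))
  have h2 := norm_sub_le (Lv f e cc (k - nn cc N)) (Lv f e cc (k + nn cc N))
  calc _ ≤ N * (β * (‖Ev f e (k - nn cc N)‖ + ‖Ev f e (k + nn cc N)‖)) +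
      β * (‖Lv f e cc (k - nn cc N)‖ + ‖Lv f e cc (k + nn cc N)‖) := by gcongr
    _ = _ := by ring

lemma Wv_sum (hβ : 0 ≤ β) (he : ∀ i, |e i| ≤ 1) (hf : RR fun k => ‖f k‖) (N : ℕ) {ww : K → ℝ}
    (hww : ∀ k, 0 ≤ ww k) {A B : ℝ} (hA : 0 ≤ A) (hB : 0 ≤ B)
    (h : ∀ l, ∀ m : ℤ, |(m : ℝ)| = N → ww (l + nn cc m) ≤ A + B * pw l ^ 2) :
    Summable (fun k => ww k * ‖Wv β f e cc N k‖) ∧ ∑' k, ww k * ‖Wv β f e cc N k‖ ≤
      2 * β * (A * (N * (∑' l, ‖Ev f e l‖) + ∑' l, ‖Lv f e cc l‖) +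
        B * (N * (∑' l, pw l ^ 2 * ‖Ev f e l‖) + ∑' l, pw l ^ 2 * ‖Lv f e cc l‖)) := by
  have rE := Ev_rr he hf
  have rL := Lv_rr he cc hf
  have hN : (0 : ℝ) ≤ N := Nat.cast_nonneg N
  have s0E := rE.summ
  have s0L := rL.summ
  have s2E := rE 2
  have s2L := rL 2
  have S1 := ((s0E.mul_left (N : ℝ)).add s0L).mul_left A
  have S2 := ((s2E.mul_left (N : ℝ)).add s2L).mul_left B
  have hs : Summable fun l => (A + B * pw l ^ 2) * (N * ‖Ev f e l‖ + ‖Lv f e cc l‖) :=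
    (S1.add S2).congr fun l => by ring
  have := sum_two (W := Wv β f e cc N) (y := fun l => N * ‖Ev f e l‖ + ‖Lv f e cc l‖) (A := β)
    (κ := nn cc N) hβ (fun l => by positivity) (Wv_norm hβ N) (ww := ww)
    (Ω := fun l => A + B * pw l ^ 2) hww (fun l => h l N (by simp)) (fun l => by
      rw [sub_eq_add_neg, ← nn_neg]
      exact h l (-N) (by simp)) hs
  refine ⟨this.1, this.2.trans (le_of_eq ?_)⟩
  congr 1
  calc _ = ∑' l, (A * (N * ‖Ev f e l‖ + ‖Lv f e cc l‖) +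
      B * (N * (pw l ^ 2 * ‖Ev f e l‖) + pw l ^ 2 * ‖Lv f e cc l‖)) :=
        tsum_congr fun l => by ring
    _ = _ := by
      rw [S1.tsum_add S2, tsum_mul_left, tsum_mul_left, (s0E.mul_left (N : ℝ)).tsum_add s0L,
        (s2E.mul_left (N : ℝ)).tsum_add s2L, tsum_mul_left, tsum_mul_left]

lemma sum_Bf_le {x y : K → C3} (sx : SN x) (sy : SN y) :
    Summable (fun k => ‖Bf x y k‖ / nk k) ∧
      ∑' k, ‖Bf x y k‖ / nk k ≤ C0 * ((∑' k, ‖x k‖) * ∑' k, ‖y k‖) := by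
  have hC := C0_pos
  obtain ⟨s1, e1⟩ := summable_conv (fun k => norm_nonneg (x k)) (fun k => norm_nonneg (y k)) sx sy
  have hb : ∀ k, ‖Bf x y k‖ / nk k ≤ C0 * conv (fun k => ‖x k‖) (fun k => ‖y k‖) k := by
    intro k
    have h1 := norm_Bf_conv sx sy (fun k => le_rfl) (fun k => le_rfl) k
    have c1 := conv_nonneg (fun k => norm_nonneg (x k)) (fun k => norm_nonneg (y k)) k
    by_cases hk : k = 0
    · subst hk
      rw [nk_zero, div_zero]; positivity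
    · rw [div_le_iff₀ (nk_pos hk)]
      refine h1.trans (le_of_eq (by ring))
  have S := s1.mul_left C0
  have S0 : Summable (fun k => ‖Bf x y k‖ / nk k) :=
    S.of_nonneg_of_le (fun k => div_nonneg (norm_nonneg _) (nk_nonneg k)) hb
  refine ⟨S0, (Summable.tsum_le_tsum hb S0 S).trans (le_of_eq ?_)⟩
  rw [tsum_mul_left, e1]

lemma Shv_sn {x : K → C3} (hx : SN x) (κ : K) : SN (Shv κ x) ∧ ∑' k, ‖Shv κ x k‖ = ∑' k, ‖x k‖ :=
  ⟨(Equiv.subRight κ).summable_iff (f := fun l => ‖x l‖) |>.2 hx,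
    (Equiv.subRight κ).tsum_eq fun l => ‖x l‖⟩

lemma tsum_norm_add_le {x y : K → C3} (hx : SN x) (hy : SN y) :
    ∑' k, ‖(x + y) k‖ ≤ ∑' k, ‖x k‖ + ∑' k, ‖y k‖ := by
  rw [← Summable.tsum_add hx hy]
  exact Summable.tsum_le_tsum (fun k => norm_add_le _ _) (hx.add hy) (Summable.add hx hy)

lemma tsum_norm_sub_le {x y : K → C3} (hx : SN x) (hy : SN y) :
    ∑' k, ‖(x - y) k‖ ≤ ∑' k, ‖x k‖ + ∑' k, ‖y k‖ := by
  rw [← Summable.tsum_add hx hy]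
  exact Summable.tsum_le_tsum (fun k => norm_sub_le _ _) (hx.sub hy) (Summable.add hx hy)

lemma tsum_norm_smul (r : ℝ) (hr : 0 ≤ r) (x : K → C3) : ∑' k, ‖(r • x) k‖ = r * ∑' k, ‖x k‖ := by
  rw [← tsum_mul_left]
  refine tsum_congr fun k => ?_
  rw [Pi.smul_apply, norm_smul, Real.norm_of_nonneg hr]

/-- the error of the cut-off -/
lemma cut_small (he : ∀ i, |e i| ≤ 1) (hcc : e cc = 0) {M : ℝ} (hM : 0 < M) (hγ : RR fun k => ‖γ k‖)
    (hq : Summable fun κ => ‖q κ‖) (hqs : ∀ κ, q κ ≠ 0 → ∃ m : ℤ, M ≤ |(m : ℝ)| ∧ κ = nn cc m) :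
    Summable (fun k => ‖(∑' κ, q κ * γ (k - κ)) • bt k (ec e) (ec e)‖ / nk k) ∧
    ∑' k, ‖(∑' κ, q κ * γ (k - κ)) • bt k (ec e) (ec e)‖ / nk k ≤
      6 * Real.pi / M * (∑' κ, ‖q κ‖) * ∑' l, pw l ^ 2 * ‖γ l‖ := by
  have hpi := Real.pi_pos
  set G : K → K → ℝ := fun κ k => ‖q κ‖ * (‖γ (k - κ) • bt k (ec e) (ec e)‖ / nk k) with hG
  have hG0 : ∀ κ k, 0 ≤ G κ k := fun κ k =>
    mul_nonneg (norm_nonneg _) (div_nonneg (norm_nonneg _) (nk_nonneg k))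
  set T := ∑' l, pw l ^ 2 * ‖γ l‖
  have hT : 0 ≤ T := tsum_nonneg fun l => mul_nonneg (pow_pos (pw_pos l) 2).le (norm_nonneg _)
  have h1 : ∀ κ, Summable (G κ) ∧ ∑' k, G κ k ≤ ‖q κ‖ * (6 * Real.pi / M * T) := by
    intro κ
    by_cases hκ : q κ = 0
    · have : G κ = fun _ => 0 := by funext k; simp [G, hκ]
      rw [this]
      simp [hκ, summable_zero]
    · obtain ⟨m, hm, rfl⟩ := hqs κ hκ
      have h2 := shift_small he hcc (m := m) rfl (lt_of_lt_of_le hM hm) hγ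
      refine ⟨h2.1.mul_left _, ?_⟩
      simp only [G]
      rw [tsum_mul_left]
      apply mul_le_mul_of_nonneg_left _ (norm_nonneg _)
      refine h2.2.trans ?_
      gcongr
  have hG2 : Summable fun p : K × K => G p.1 p.2 := by
    rw [summable_prod_of_nonneg fun p => hG0 _ _]
    refine ⟨fun κ => (h1 κ).1, ?_⟩
    exact (hq.mul_right (6 * Real.pi / M * T)).of_nonneg_of_le (fun κ => tsum_nonneg fun k => hG0 _ _)
      fun κ => (h1 κ).2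
  have hb : ∀ k, ‖(∑' κ, q κ * γ (k - κ)) • bt k (ec e) (ec e)‖ / nk k ≤ ∑' κ, G κ k := by
    intro k
    have hγb : ∀ κ, ‖γ κ‖ ≤ ∑' l, ‖γ l‖ := fun κ => hγ.summ.le_tsum κ fun _ _ => norm_nonneg _
    have s1 : Summable fun κ => ‖q κ * γ (k - κ)‖ := by
      refine (hq.mul_right (∑' l, ‖γ l‖)).of_nonneg_of_le (fun _ => norm_nonneg _) fun κ => ?_
      rw [norm_mul]
      exact mul_le_mul_of_nonneg_left (hγb _) (norm_nonneg _)
    rw [norm_smul]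
    calc ‖∑' κ, q κ * γ (k - κ)‖ * ‖bt k (ec e) (ec e)‖ / nk k
        ≤ (∑' κ, ‖q κ * γ (k - κ)‖) * ‖bt k (ec e) (ec e)‖ / nk k := by
          apply div_le_div_of_nonneg_right _ (nk_nonneg k)
          exact mul_le_mul_of_nonneg_right (norm_tsum_le_tsum_norm s1) (norm_nonneg _)
      _ = ∑' κ, G κ k := by
          rw [mul_div_assoc, ← tsum_mul_right]
          refine tsum_congr fun κ => ?_
          simp only [G]
          rw [norm_mul, norm_smul]; ring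
  have S := hG2.prod_symm.prod
  have S' : Summable fun k => ∑' κ, G κ k := S
  have S0 := S'.of_nonneg_of_le (fun k => div_nonneg (norm_nonneg
    ((∑' κ, q κ * γ (k - κ)) • bt k (ec e) (ec e))) (nk_nonneg k)) hb
  refine ⟨S0, (Summable.tsum_le_tsum hb S0 S').trans ?_⟩
  have hcomm : ∑' k, ∑' κ, G κ k = ∑' κ, ∑' k, G κ k := by
    exact (Summable.tsum_comm (f := fun κ k => G κ k) hG2)
  rw [hcomm]
  have S3 : Summable fun κ => ∑' k, G κ k := hG2.prod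
  refine (Summable.tsum_le_tsum (fun κ => (h1 κ).2) S3 (hq.mul_right _)).trans (le_of_eq ?_)
  rw [tsum_mul_right]; ring

lemma Wv_self {c : ℝ} (hc : 0 < c) (hβ : 0 ≤ β) (he : ∀ i, |e i| ≤ 1) (hcc : e cc = 0) {M : ℝ} (hM : 0 < M)
    (hf : RR fun k => ‖f k‖) (hγ : RR fun k => ‖γ k‖)
    (hq : Summable fun κ => ‖q κ‖) (hqs : ∀ κ, q κ ≠ 0 → ∃ m : ℤ, M ≤ |(m : ℝ)| ∧ κ = nn cc m)
    (hrel : ∀ k, ff f k = γ k + ∑' κ, q κ * γ (k - κ)) (hff : RR fun k => ‖ff f k‖) {N : ℕ} (hN : 1 ≤ N) :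
    ∑' k, ‖Bf (Wv β f e cc N) (Wv β f e cc N) k + (2 * (c * N ^ 2)) • hv c β γ e k‖ / nk k ≤
      (12 * Real.pi / M * (∑' κ, ‖q κ‖) * ∑' l, pw l ^ 2 * ‖γ l‖) * β ^ 2 * N ^ 2 +
      (6 * Real.pi * β ^ 2 * (∑' l, pw l ^ 2 * ‖ff f l‖) +
        8 * β ^ 2 * C0 * (∑' l, ‖Ev f e l‖) * (∑' l, ‖Lv f e cc l‖) +
        4 * β ^ 2 * C0 * (∑' l, ‖Lv f e cc l‖) ^ 2) * N := by
  have hpi := Real.pi_pos
  have hC := C0_pos
  have hN1 : (1 : ℝ) ≤ N := by exact_mod_cast hN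
  have hN0 : (0 : ℝ) < N := by linarith
  have sE : SN (Ev f e) := (Ev_rr he hf).summ
  have sL : SN (Lv f e cc) := (Lv_rr he cc hf).summ
  obtain ⟨sE1, tE1⟩ := Shv_sn sE (nn cc N)
  obtain ⟨sE2, tE2⟩ := Shv_sn sE (nn cc (-N))
  obtain ⟨sL1, tL1⟩ := Shv_sn sL (nn cc N)
  obtain ⟨sL2, tL2⟩ := Shv_sn sL (nn cc (-N))
  set E1 := Shv (nn cc N) (Ev f e)
  set E2 := Shv (nn cc (-N)) (Ev f e)
  set L1 := Shv (nn cc N) (Lv f e cc)
  set L2 := Shv (nn cc (-N)) (Lv f e cc)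
  set A := β • (E1 + E2) with hA
  set F := β • (L1 - L2) with hF
  have sA : SN A := (sE1.add sE2).smul β
  have sF : SN F := (sL1.sub sL2).smul β
  set EE := ∑' l, ‖Ev f e l‖
  set LLn := ∑' l, ‖Lv f e cc l‖
  have hEE : 0 ≤ EE := tsum_nonneg fun _ => norm_nonneg _
  have hLL : 0 ≤ LLn := tsum_nonneg fun _ => norm_nonneg _
  have tA : ∑' k, ‖A k‖ ≤ 2 * β * EE := by
    rw [hA, tsum_norm_smul β hβ]
    have := tsum_norm_add_le sE1 sE2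
    rw [tE1, tE2] at this
    calc β * ∑' k, ‖(E1 + E2) k‖ ≤ β * (EE + EE) := mul_le_mul_of_nonneg_left this hβ
      _ = _ := by ring
  have tF : ∑' k, ‖F k‖ ≤ 2 * β * LLn := by
    rw [hF, tsum_norm_smul β hβ]
    have := tsum_norm_sub_le sL1 sL2
    rw [tL1, tL2] at this
    calc β * ∑' k, ‖(L1 - L2) k‖ ≤ β * (LLn + LLn) := mul_le_mul_of_nonneg_left this hβ
      _ = _ := by ring
  have hA0 : 0 ≤ ∑' k, ‖A k‖ := tsum_nonneg fun _ => norm_nonneg _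
  have hF0 : 0 ≤ ∑' k, ‖F k‖ := tsum_nonneg fun _ => norm_nonneg _
  have eW : Wv β f e cc N = (N : ℝ) • A + F := rfl
  have eB : Bf (Wv β f e cc N) (Wv β f e cc N) =
      (N : ℝ) ^ 2 • Bf A A + (N : ℝ) • (Bf A F + Bf F A) + Bf F F := by
    rw [eW]
    have s1 := sA.smul (N : ℝ)
    rw [Bf_add_left s1 sF (s1.add sF), Bf_add_right s1 s1 sF, Bf_add_right sF s1 sF]
    simp only [Bf_smul_left, Bf_smul_right, smul_smul, smul_add]
    rw [← pow_two]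
    abel
  have eA : ∀ k, Bf A A k = (β ^ 2) • ((ff f (k - nn cc (2 * N)) + ff f (k - nn cc (-(2 * N))) + 2 * ff f k) •
      bt k (ec e) (ec e)) := by
    intro k
    have h1 : Bf A A = (β ^ 2) • (Bf E1 E1 + Bf E1 E2 + (Bf E2 E1 + Bf E2 E2)) := by
      rw [hA, Bf_smul_left, Bf_smul_right, smul_smul, ← pow_two, Bf_add_left sE1 sE2 (sE1.add sE2),
        Bf_add_right sE1 sE1 sE2, Bf_add_right sE2 sE1 sE2]
    rw [h1]
    simp only [Pi.smul_apply, Pi.add_apply]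
    rw [Bf_Shv, Bf_Shv, Bf_Shv, Bf_Shv]
    have g1 : k - nn cc N - nn cc N = k - nn cc (2 * N) := by
      unfold nn; rw [two_mul, Pi.single_add]; abel
    have g2 : k - nn cc (-N) - nn cc (-N) = k - nn cc (-(2 * N)) := by
      rw [nn_neg, nn_neg]; unfold nn; rw [two_mul, Pi.single_add]; abel
    have g3 : k - nn cc N - nn cc (-N) = k := by rw [nn_neg]; abel
    have g4 : k - nn cc (-N) - nn cc N = k := by rw [nn_neg]; abel
    rw [g1, g2, g3, g4]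
    congr 1
    rw [← add_smul, ← add_smul, ← add_smul]
    congr 1
    ring
  set Q := fun k => ∑' κ, q κ * γ (k - κ)
  have eT : ∀ k, Bf (Wv β f e cc N) (Wv β f e cc N) k + (2 * (c * (N : ℝ) ^ 2)) • hv c β γ e k =
      ((N : ℝ) ^ 2 * β ^ 2) • (ff f (k - nn cc (2 * N)) • bt k (ec e) (ec e)) +
      ((N : ℝ) ^ 2 * β ^ 2) • (ff f (k - nn cc (-(2 * N))) • bt k (ec e) (ec e)) +
      ((N : ℝ) ^ 2 * β ^ 2 * 2) • (Q k • bt k (ec e) (ec e)) +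
      (N : ℝ) • Bf A F k + (N : ℝ) • Bf F A k + Bf F F k := by
    intro k
    rw [eB]
    simp only [Pi.smul_apply, Pi.add_apply]
    rw [eA, hrel k]
    unfold hv
    have h2 : (2 * (c * (N : ℝ) ^ 2)) • (-(β ^ 2 / c)) • γ k • bt k (ec e) (ec e)
        = -(((N : ℝ) ^ 2 * β ^ 2 * 2) • (γ k • bt k (ec e) (ec e))) := by
      rw [smul_smul, ← neg_smul]
      congr 1
      field_simp
    rw [h2]
    funext i
    simp only [Pi.add_apply, Pi.smul_apply, Pi.neg_apply, smul_eq_mul, Complex.real_smul]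
    push_cast
    ring
  have hm2 : |((2 * (N : ℤ) : ℤ) : ℝ)| = 2 * N := by
    push_cast; exact abs_of_pos (by positivity)
  have hm2' : |((-(2 * (N : ℤ)) : ℤ) : ℝ)| = 2 * N := by
    push_cast; rw [abs_neg]; exact abs_of_pos (by positivity)
  have a1 := shift_small he hcc (m := 2 * (N : ℤ)) hm2 (by positivity) hff
  have a2 := shift_small he hcc (m := -(2 * (N : ℤ))) hm2' (by positivity) hff
  have a3 := cut_small he hcc hM hγ hq hqs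
  have a4 := sum_Bf_le sA sF
  have a5 := sum_Bf_le sF sA
  have a6 := sum_Bf_le sF sF
  set T := ∑' l, pw l ^ 2 * ‖ff f l‖
  have hb : ∀ k, ‖Bf (Wv β f e cc N) (Wv β f e cc N) k + (2 * (c * (N : ℝ) ^ 2)) • hv c β γ e k‖ / nk k ≤
      ((N : ℝ) ^ 2 * β ^ 2) * (‖ff f (k - nn cc (2 * N)) • bt k (ec e) (ec e)‖ / nk k) +
      ((N : ℝ) ^ 2 * β ^ 2) * (‖ff f (k - nn cc (-(2 * N))) • bt k (ec e) (ec e)‖ / nk k) +
      ((N : ℝ) ^ 2 * β ^ 2 * 2) * (‖Q k • bt k (ec e) (ec e)‖ / nk k) +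
      (N : ℝ) * (‖Bf A F k‖ / nk k) + (N : ℝ) * (‖Bf F A k‖ / nk k) + ‖Bf F F k‖ / nk k := by
    intro k
    have hnk := nk_nonneg k
    rw [eT]
    have n1 : ∀ (r : ℝ) (x : C3), 0 ≤ r → ‖r • x‖ = r * ‖x‖ := fun r x hr => by
      rw [norm_smul, Real.norm_of_nonneg hr]
    have h3 : ‖((N : ℝ) ^ 2 * β ^ 2) • (ff f (k - nn cc (2 * N)) • bt k (ec e) (ec e)) +
      ((N : ℝ) ^ 2 * β ^ 2) • (ff f (k - nn cc (-(2 * N))) • bt k (ec e) (ec e)) +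
      ((N : ℝ) ^ 2 * β ^ 2 * 2) • (Q k • bt k (ec e) (ec e)) +
      (N : ℝ) • Bf A F k + (N : ℝ) • Bf F A k + Bf F F k‖ ≤
      ((N : ℝ) ^ 2 * β ^ 2) * ‖ff f (k - nn cc (2 * N)) • bt k (ec e) (ec e)‖ +
      ((N : ℝ) ^ 2 * β ^ 2) * ‖ff f (k - nn cc (-(2 * N))) • bt k (ec e) (ec e)‖ +
      ((N : ℝ) ^ 2 * β ^ 2 * 2) * ‖Q k • bt k (ec e) (ec e)‖ +
      (N : ℝ) * ‖Bf A F k‖ + (N : ℝ) * ‖Bf F A k‖ + ‖Bf F F k‖ := by
      rw [← n1 _ _ (by positivity), ← n1 _ _ (by positivity), ← n1 _ _ (by positivity),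
        ← n1 (N : ℝ) (Bf A F k) (by positivity), ← n1 (N : ℝ) (Bf F A k) (by positivity)]
      refine (norm_add_le _ _).trans (add_le_add ((norm_add_le _ _).trans (add_le_add
        ((norm_add_le _ _).trans (add_le_add ((norm_add_le _ _).trans (add_le_add
        (norm_add_le _ _) le_rfl)) le_rfl)) le_rfl)) le_rfl)
    refine (div_le_div_of_nonneg_right h3 hnk).trans (le_of_eq ?_)
    rw [add_div, add_div, add_div, add_div, add_div]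
    ring
  have S := (((((a1.1.mul_left ((N : ℝ) ^ 2 * β ^ 2)).add (a2.1.mul_left ((N : ℝ) ^ 2 * β ^ 2))).add
    (a3.1.mul_left ((N : ℝ) ^ 2 * β ^ 2 * 2))).add (a4.1.mul_left (N : ℝ))).add (a5.1.mul_left (N : ℝ))).add a6.1
  have S0 := S.of_nonneg_of_le (fun k => div_nonneg (norm_nonneg
    (Bf (Wv β f e cc N) (Wv β f e cc N) k + (2 * (c * (N : ℝ) ^ 2)) • hv c β γ e k)) (nk_nonneg k)) hb
  refine (Summable.tsum_le_tsum hb S0 S).trans ?_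
  rw [(((((a1.1.mul_left ((N : ℝ) ^ 2 * β ^ 2)).add (a2.1.mul_left ((N : ℝ) ^ 2 * β ^ 2))).add
    (a3.1.mul_left ((N : ℝ) ^ 2 * β ^ 2 * 2))).add (a4.1.mul_left (N : ℝ))).add
      (a5.1.mul_left (N : ℝ))).tsum_add a6.1,
    ((((a1.1.mul_left ((N : ℝ) ^ 2 * β ^ 2)).add (a2.1.mul_left ((N : ℝ) ^ 2 * β ^ 2))).add
    (a3.1.mul_left ((N : ℝ) ^ 2 * β ^ 2 * 2))).add (a4.1.mul_left (N : ℝ))).tsum_add (a5.1.mul_left (N : ℝ)),
    (((a1.1.mul_left ((N : ℝ) ^ 2 * β ^ 2)).add (a2.1.mul_left ((N : ℝ) ^ 2 * β ^ 2))).add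
    (a3.1.mul_left ((N : ℝ) ^ 2 * β ^ 2 * 2))).tsum_add (a4.1.mul_left (N : ℝ)),
    ((a1.1.mul_left ((N : ℝ) ^ 2 * β ^ 2)).add (a2.1.mul_left ((N : ℝ) ^ 2 * β ^ 2))).tsum_add
    (a3.1.mul_left ((N : ℝ) ^ 2 * β ^ 2 * 2)),
    (a1.1.mul_left ((N : ℝ) ^ 2 * β ^ 2)).tsum_add (a2.1.mul_left ((N : ℝ) ^ 2 * β ^ 2)),
    tsum_mul_left, tsum_mul_left, tsum_mul_left, tsum_mul_left, tsum_mul_left]
  have b4 : ∑' k, ‖Bf A F k‖ / nk k ≤ C0 * ((2 * β * EE) * (2 * β * LLn)) := a4.2.trans (by gcongr)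
  have b5 : ∑' k, ‖Bf F A k‖ / nk k ≤ C0 * ((2 * β * LLn) * (2 * β * EE)) := a5.2.trans (by gcongr)
  have b6 : ∑' k, ‖Bf F F k‖ / nk k ≤ C0 * ((2 * β * LLn) * (2 * β * LLn)) := a6.2.trans (by gcongr)
  have hq0 : 0 ≤ ∑' κ, ‖q κ‖ := tsum_nonneg fun _ => norm_nonneg _
  have hγ0 : 0 ≤ ∑' l, pw l ^ 2 * ‖γ l‖ := tsum_nonneg fun l => mul_nonneg (pow_pos (pw_pos l) 2).le (norm_nonneg _)
  have hT0 : 0 ≤ T := tsum_nonneg fun l => mul_nonneg (pow_pos (pw_pos l) 2).le (norm_nonneg _)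
  calc _ ≤ ((N : ℝ) ^ 2 * β ^ 2) * (6 * Real.pi / (2 * N) * T) + ((N : ℝ) ^ 2 * β ^ 2) * (6 * Real.pi / (2 * N) * T) +
      ((N : ℝ) ^ 2 * β ^ 2 * 2) * (6 * Real.pi / M * (∑' κ, ‖q κ‖) * ∑' l, pw l ^ 2 * ‖γ l‖) +
      (N : ℝ) * (C0 * ((2 * β * EE) * (2 * β * LLn))) + (N : ℝ) * (C0 * ((2 * β * LLn) * (2 * β * EE))) +
      C0 * ((2 * β * LLn) * (2 * β * LLn)) * N := by
        refine add_le_add (add_le_add (add_le_add (add_le_add (add_le_add ?_ ?_) ?_) ?_) ?_) ?_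
        · exact mul_le_mul_of_nonneg_left a1.2 (by positivity)
        · exact mul_le_mul_of_nonneg_left a2.2 (by positivity)
        · exact mul_le_mul_of_nonneg_left a3.2 (by positivity)
        · exact mul_le_mul_of_nonneg_left b4 hN0.le
        · exact mul_le_mul_of_nonneg_left b5 hN0.le
        · exact b6.trans (le_mul_of_one_le_right (by positivity) hN1)
    _ = _ := by
        field_simp
        ring

end

end Pool.Agent.K1H11.NS
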