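import Pool.Agent.K1H11.NS2.WaveP
import Pool.Agent.K1H11.NS.Lus2

/-!
# The family of fast waves with given amplitude
-/

open MeasureTheory Set Filter Topology
open scoped ENNReal NNReal ContDiff

namespace Pool.Agent.K1H11.NS

open H459R3.NS (ee fc fr cube S SP Per pd D Rap)

lemma bt_neg (e : Fin 3 → ℝ) (k : K) (i : Fin 3) : bt (-k) (ec e) (ec e) i = star (bt k (ec e) (ec e) i) := by
  unfold bt ec
  simp only [star_sum, star_mul', coef_neg]
  refine Finset.sum_congr rfl fun j _ => Finset.sum_congr rfl fun m _ => ?_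
  simp only [Complex.star_def, Complex.conj_ofReal]

lemma bt_norm_le0 {e : Fin 3 → ℝ} (he : ∀ i, |e i| ≤ 1) {cc : Fin 3} (hcc : e cc = 0) (k : K) :
    ‖bt k (ec e) (ec e)‖ ≤ 6 * Real.pi * pw k := by
  have h := bt_norm_le he hcc 0 k
  have e0 : nn cc 0 = 0 := by unfold nn; simp
  rwa [e0, add_zero] at h

lemma hv_sym {c β : ℝ} {γ : K → ℂ} (hγ : ∀ k, γ (-k) = star (γ k)) (e : Fin 3 → ℝ) : Sym (hv c β γ e) := by
  intro k i
  unfold hv
  simp only [Pi.smul_apply, smul_eq_mul, Complex.real_smul, star_mul', hγ, bt_neg]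
  congr 1
  exact (Complex.conj_ofReal _).symm

lemma hv_zero (c β : ℝ) (γ : K → ℂ) (e : Fin 3 → ℝ) : hv c β γ e 0 = 0 := by
  unfold hv
  rw [bt_freq_zero, smul_zero, smul_zero]

lemma hv_rr {c β : ℝ} (hc : 0 < c) {γ : K → ℂ} (hγ : RR fun k => ‖γ k‖) {e : Fin 3 → ℝ}
    (he : ∀ i, |e i| ≤ 1) {cc : Fin 3} (hcc : e cc = 0) : RR fun k => ‖hv c β γ e k‖ := by
  have hpi := Real.pi_pos
  refine ((hγ.pw 1).mul (β ^ 2 / c * (6 * Real.pi))).mono (fun _ => norm_nonneg _) fun k => ?_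
  unfold hv
  rw [norm_smul, norm_smul, Real.norm_eq_abs, abs_neg, abs_of_nonneg (by positivity), pow_one]
  have := bt_norm_le0 he hcc k
  calc β ^ 2 / c * (‖γ k‖ * ‖bt k (ec e) (ec e)‖) ≤ β ^ 2 / c * (‖γ k‖ * (6 * Real.pi * pw k)) := by gcongr
    _ = _ := by ring

theorem profile {c β : ℝ} (hc : 0 < c) (hβ : 0 ≤ β) {η : ℝ} {g : ℝ → ℝ} (hg : Cut η g) {A Q : ℝ}
    (hA : ∀ cc M, wn (gM g cc M) ≤ A) (hQ : ∀ cc M, wn (gM (fun y => g y ^ 2 - 1) cc M) ≤ Q)
    {G : E3 → ℝ} (hG : SP G) {e : Fin 3 → ℝ} (he : ∀ i, |e i| ≤ 1) {cc : Fin 3} (hcc : e cc = 0)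
    {M : ℕ} (hM : 1 ≤ M) : ∃ C2 : ℝ,
      Prf c (2 * β * (wn G * A)) C2 (12 * Real.pi / M * Q * (∑' l, pw l ^ 2 * ‖fr (fun x => G x * G x) l‖) * β ^ 2)
        (hv c β (fr fun x => G x * G x) e) (Wv β (fr fun x => G x * gM g cc M x) e cc) ∧
      (∀ N : ℕ, 1 ≤ N → ∑' k, ‖Wv β (fr fun x => G x * gM g cc M x) e cc N k‖ / nk k ≤
        2 * β * (wn G * A) + C2 / N) ∧
      (∀ N : ℕ, 1 ≤ N → ∑' k, (if nk k < (N : ℝ) / 2 ∨ 2 * (N : ℝ) ≤ nk k then
        ‖Wv β (fr fun x => G x * gM g cc M x) e cc N k‖ / nk k else 0) ≤ C2 / N) := by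
  have hpi := Real.pi_pos
  have hC := C0_pos
  have hM1 : (1 : ℝ) ≤ M := by exact_mod_cast hM
  have hgM := gM_SP hg.smooth hg.per cc M
  have hP : ContDiff ℝ ∞ fun y => g y ^ 2 - 1 := (hg.smooth.pow 2).sub contDiff_const
  have hPp : ∀ y, g (y + 1) ^ 2 - 1 = g y ^ 2 - 1 := fun y => by rw [hg.per]
  have hPi : ∫ y in (0 : ℝ)..1, (g y ^ 2 - 1) = 0 := by
    have i1 : IntervalIntegrable (fun y => g y ^ 2) volume 0 1 :=
      (hg.smooth.continuous.pow 2).intervalIntegrable _ _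
    have i2 : IntervalIntegrable (fun _ : ℝ => (1 : ℝ)) volume 0 1 := continuous_const.intervalIntegrable _ _
    rw [intervalIntegral.integral_sub i1 i2, hg.int]
    simp
  have hq := gM_SP hP hPp cc M
  have hF : SP fun x => G x * gM g cc M x := hG.mul hgM
  have hGG : SP fun x => G x * G x := hG.mul hG
  set f := fr fun x => G x * gM g cc M x
  set γ := fr fun x => G x * G x
  set q := fr (gM (fun y => g y ^ 2 - 1) cc M)
  have rf : RR fun k => ‖f k‖ := rr_fr hF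
  have rγ : RR fun k => ‖γ k‖ := rr_fr hGG
  have rq : Summable fun k => ‖q k‖ := (rr_fr hq).summ
  have hqs : ∀ κ, q κ ≠ 0 → ∃ m : ℤ, (M : ℝ) ≤ |(m : ℝ)| ∧ κ = nn cc m := fun κ hκ =>
    gM_supp hP hPp hPi cc hM κ hκ
  have e1 : ∀ k, ff f k = fr (fun x => (G x * gM g cc M x) * (G x * gM g cc M x)) k := fun k =>
    (fr_mul hF hF k).symm
  have hrel : ∀ k, ff f k = γ k + ∑' κ, q κ * γ (k - κ) := by
    intro k
    rw [e1, ← fr_mul hq hGG, ← fr_add hGG (hq.mul hGG)]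
    congr 1
    funext x
    unfold gM
    ring
  have hff : RR fun k => ‖ff f k‖ := by
    simp_rw [e1]
    exact rr_fr (hF.mul hF)
  have rE := Ev_rr he rf
  have rL := Lv_rr he cc rf
  set S0E := ∑' l, ‖Ev f e l‖
  set S0L := ∑' l, ‖Lv f e cc l‖
  set S2E := ∑' l, pw l ^ 2 * ‖Ev f e l‖
  set S2L := ∑' l, pw l ^ 2 * ‖Lv f e cc l‖
  set S2f := ∑' l, pw l ^ 2 * ‖ff f l‖
  have p0E : 0 ≤ S0E := tsum_nonneg fun _ => norm_nonneg _
  have p0L : 0 ≤ S0L := tsum_nonneg fun _ => norm_nonneg _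
  have p2E : 0 ≤ S2E := tsum_nonneg fun l => mul_nonneg (pow_pos (pw_pos l) 2).le (norm_nonneg _)
  have p2L : 0 ≤ S2L := tsum_nonneg fun l => mul_nonneg (pow_pos (pw_pos l) 2).le (norm_nonneg _)
  have p2f : 0 ≤ S2f := tsum_nonneg fun l => mul_nonneg (pow_pos (pw_pos l) 2).le (norm_nonneg _)
  have p2γ : 0 ≤ ∑' l, pw l ^ 2 * ‖γ l‖ := tsum_nonneg fun l => mul_nonneg (pow_pos (pw_pos l) 2).le (norm_nonneg _)
  have hA0 : 0 ≤ A := (wn_nonneg _).trans (hA 0 0)
  have hQ0 : 0 ≤ Q := (wn_nonneg _).trans (hQ 0 0)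
  have hwG := wn_nonneg G
  have hS0E : S0E ≤ wn G * A := by
    calc S0E ≤ ∑' l, ‖f l‖ := Summable.tsum_le_tsum (Ev_norm he) rE.summ rf.summ
      _ ≤ wn G * wn (gM g cc M) := wn_mul hG hgM
      _ ≤ _ := mul_le_mul_of_nonneg_left (hA cc M) hwG
  set C2 := 2 * β * S0L + 4 * β * (S2E + S2L) + 2 * β * (S0L + S2E + S2L) +
    (6 * Real.pi * β ^ 2 * S2f + 8 * β ^ 2 * C0 * S0E * S0L + 4 * β ^ 2 * C0 * S0L ^ 2) with hC2
  have hC20 : 0 ≤ C2 := by positivity
  have t1 : 0 ≤ 2 * β * S0L := by positivity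
  have t2 : 0 ≤ 4 * β * (S2E + S2L) := by positivity
  have t3 : 0 ≤ 2 * β * (S0L + S2E + S2L) := by positivity
  have t4 : 0 ≤ 6 * Real.pi * β ^ 2 * S2f + 8 * β ^ 2 * C0 * S0E * S0L + 4 * β ^ 2 * C0 * S0L ^ 2 := by positivity
  have hcF : ∀ N, cF (fun i => fr (wave β (fun x => G x * gM g cc M x) e cc N i)) = Wv β f e cc N := fun N =>
    cF_wave hF hcc N
  have hsn : ∀ N i, SP (wave β (fun x => G x * gM g cc M x) e cc N i) := fun N i => wave_SP hF e cc N i
  have hcc' : ∀ N : ℕ, ∀ m : ℤ, |(m : ℝ)| = N → |(m : ℝ)| = (N : ℝ) := fun N m h => h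
  refine ⟨C2, ⟨by positivity, hC20, by positivity, hv_sym (fun k => fr_neg _ k) e, hv_zero _ _ _ _,
    hv_rr hc rγ he hcc, ?_, ?_, ?_, ?_, ?_, ?_⟩, ?_, ?_⟩
  · intro N; rw [← hcF]; exact cF_sym _
  · intro N; rw [← hcF]; exact cF_zero _
  · intro N; rw [← hcF]; exact rap_cF (hsn N)
  · intro N hN
    have hN1 : (1 : ℝ) ≤ N := by exact_mod_cast hN
    have h := (Wv_sum hβ he rf N (ww := fun _ => 1) (cc := cc) (fun _ => zero_le_one) zero_le_one le_rfl
      (fun l m _ => by simp)).2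
    simp only [one_mul, zero_mul, add_zero] at h
    refine h.trans ?_
    calc 2 * β * (N * S0E + S0L) ≤ 2 * β * (N * (wn G * A) + S0L) := by gcongr
      _ = 2 * β * (wn G * A) * N + 2 * β * S0L := by ring
      _ ≤ _ := by linarith
  · intro N hN
    have hN1 : (1 : ℝ) ≤ N := by exact_mod_cast hN
    have h := (Wv_sum hβ he rf N (ww := fun k => |sq k - N ^ 2| / nk k) (cc := cc)
      (fun k => div_nonneg (abs_nonneg _) (nk_nonneg k)) le_rfl (by norm_num : (0 : ℝ) ≤ 2)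
      (fun l m hm => by rw [zero_add]; exact om2 cc hm l)).2
    refine le_trans (le_of_eq (tsum_congr fun k => by ring)) (h.trans ?_)
    calc 2 * β * (0 * (N * S0E + S0L) + 2 * (N * S2E + S2L)) ≤ 2 * β * (0 * (N * S0E + S0L) + 2 * (N * S2E + N * S2L)) := by
          gcongr
          exact le_mul_of_one_le_left p2L hN1
      _ = 4 * β * (S2E + S2L) * N := by ring
      _ ≤ _ := by
        apply mul_le_mul_of_nonneg_right _ (by linarith)
        linarith
  · intro N hN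
    have hN1 : (1 : ℝ) ≤ N := by exact_mod_cast hN
    have h := Wv_self hc hβ he hcc (M := (M : ℝ)) (by linarith) rf rγ rq hqs hrel hff hN
    refine h.trans (add_le_add ?_ ?_)
    · have : ∑' κ, ‖q κ‖ ≤ Q := hQ cc M
      gcongr
    · apply mul_le_mul_of_nonneg_right _ (by linarith)
      linarith
  · intro N hN
    have hN1 : (1 : ℝ) ≤ N := by exact_mod_cast hN
    have hN0 : (0 : ℝ) < N := by linarith
    have h := (Wv_sum hβ he rf N (ww := fun k => 1 / nk k) (cc := cc)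
      (fun k => div_nonneg zero_le_one (nk_nonneg k)) (A := 1 / N) (B := 1 / N ^ 2) (by positivity) (by positivity)
      (fun l m hm => (om4 cc hm hN1 l).trans (le_of_eq (by ring)))).2
    refine le_trans (le_of_eq (tsum_congr fun k => by ring)) (h.trans ?_)
    have e2 : 2 * β * (1 / N * (N * S0E + S0L) + 1 / N ^ 2 * (N * S2E + S2L)) =
        2 * β * S0E + 2 * β * (S0L + S2E + S2L / N) / N := by field_simp; ring
    rw [e2]
    have h3 : S2L / N ≤ S2L := div_le_self p2L hN1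
    refine add_le_add (by gcongr) (div_le_div_of_nonneg_right ?_ hN0.le)
    calc 2 * β * (S0L + S2E + S2L / N) ≤ 2 * β * (S0L + S2E + S2L) := by gcongr
      _ ≤ _ := by linarith
  · intro N hN
    have hN1 : (1 : ℝ) ≤ N := by exact_mod_cast hN
    have hN0 : (0 : ℝ) < N := by linarith
    have h := (Wv_sum hβ he rf N (ww := fun k => if nk k < (N : ℝ) / 2 ∨ 2 * (N : ℝ) ≤ nk k then 1 / nk k else 0)
      (cc := cc) (fun k => by
        split_ifs
        · exact div_nonneg zero_le_one (nk_nonneg k)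
        · exact le_rfl) (A := 0) (B := 2 / N ^ 2) le_rfl (by positivity)
      (fun l m hm => by
        rw [zero_add]
        exact (om5 cc hm hN1 l).trans (le_of_eq (by ring)))).2
    refine le_trans (le_of_eq (tsum_congr fun k => ?_)) (h.trans ?_)
    · split_ifs
      · ring
      · ring
    have e2 : 2 * β * (0 * (N * S0E + S0L) + 2 / N ^ 2 * (N * S2E + S2L)) =
        4 * β * (S2E + S2L / N) / N := by field_simp; ring
    rw [e2]
    have h3 : S2L / N ≤ S2L := div_le_self p2L hN1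
    refine div_le_div_of_nonneg_right ?_ hN0.le
    calc 4 * β * (S2E + S2L / N) ≤ 4 * β * (S2E + S2L) := by gcongr
      _ ≤ _ := by linarith

end Pool.Agent.K1H11.NS
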