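import Pool.Agent.K1H11.NS2.ExpF

/-!
# Adding a fast wave to a solution: the residual
-/

open MeasureTheory Set Filter Topology
open scoped ENNReal NNReal

namespace Pool.Agent.K1H11.NS

lemma Bf_expand {y W h : K → C3} (sy : SN y) (sW : SN W) (sh : SN h) (θ θ2 : ℝ) :
    Bf (y + (θ • W + θ2 • h)) (y + (θ • W + θ2 • h)) = Bf y y + (θ • Bf y W + θ2 • Bf y h) +
      (θ • Bf W y + θ2 • Bf h y) + (θ ^ 2 • Bf W W + (θ * θ2) • (Bf W h + Bf h W) + θ2 ^ 2 • Bf h h) := by
  have s1 := sW.smul θ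
  have s2 := sh.smul θ2
  have s3 := s1.add s2
  rw [Bf_add_left sy s3 (sy.add s3), Bf_add_right sy sy s3, Bf_add_right s3 sy s3,
    Bf_add_right sy s1 s2, Bf_add_left s1 s2 sy, Bf_add_left s1 s2 s3, Bf_add_right s1 s1 s2,
    Bf_add_right s2 s1 s2]
  simp only [Bf_smul_left, Bf_smul_right, smul_smul, smul_add]
  rw [← pow_two, ← pow_two, mul_comm θ2 θ]
  abel

/-- the background -/
noncomputable def UU (w : Fam) (L : ℝ) (W h : K → C3) : Fam := w + (Ex L W + Ex (2 * L) h)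

/-- the right hand side of the equation of the background -/
noncomputable def LL (c : ℝ) (w : Fam) (L : ℝ) (W h : K → C3) : Fam :=
  Bt w + ((fun k s => (c * sq k - L) • Ex L W k s) + (fun k s => (c * sq k - 2 * L) • Ex (2 * L) h k s))

/-- the bound for the residual -/
noncomputable def eB (c : ℝ) (bw : K → ℝ) (L : ℝ) (W h : K → C3) (k : K) : ℝ :=
  (1 / L) * (2 * (C0 * nk k * conv bw (fun k => ‖W k‖) k) + |c * sq k - L| * ‖W k‖) +
  (1 / (2 * L)) * (‖Bf W W k + (2 * L) • h k‖ + c * sq k * ‖h k‖ +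
    2 * (C0 * nk k * conv bw (fun k => ‖h k‖) k) +
    2 * (C0 * nk k * conv (fun k => ‖W k‖) (fun k => ‖h k‖) k) +
    C0 * nk k * conv (fun k => ‖h k‖) (fun k => ‖h k‖) k)

section
variable {c : ℝ} {a : Wt} {V : K → C3} {w : Fam} {bw : K → ℝ} {W h : K → C3} {L : ℝ}

lemma smul_cf {x : Fam} (hx : CF x) (g : K → ℝ) : CF (fun k s => g k • x k s) := fun k => by
  have h : Continuous (x k) := hx k
  exact h.const_smul (g k)

lemma UU_cf (hw : CF w) : CF (UU w L W h) := fun k => (hw k).add ((Ex_cf L W k).add (Ex_cf (2 * L) h k))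

lemma UU_sym (hw : SymF w) (hW : Sym W) (hh : Sym h) : SymF (UU w L W h) := fun t =>
  (hw t).add ((Ex_sym hW t).add (Ex_sym hh t))

lemma UU_zero (hw : ∀ t, w 0 t = 0) (hW : W 0 = 0) (hh : h 0 = 0) (t : ℝ) : UU w L W h 0 t = 0 := by
  show w 0 t + (Ex L W 0 t + Ex (2 * L) h 0 t) = 0
  simp [Ex, hw, hW, hh]

lemma UU_norm (hL : 0 ≤ L) (hbw : ∀ k t, ‖w k t‖ ≤ bw k) (k : K) (t : ℝ) :
    ‖UU w L W h k t‖ ≤ bw k + (‖W k‖ + ‖h k‖) :=
  (norm_add_le _ _).trans (add_le_add (hbw k t) ((norm_add_le _ _).trans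
    (add_le_add (Ex_norm hL W k t) (Ex_norm (by positivity) h k t))))

lemma LL_cf (hw : CF w) (hwd : Dom w) : CF (LL c w L W h) := fun k =>
  (Bt_cont hw hwd k).add ((smul_cf (Ex_cf L W) (fun k => c * sq k - L) k).add
    (smul_cf (Ex_cf (2 * L) h) (fun k => c * sq k - 2 * L) k))

lemma LL_sym (hw : SymF w) (hW : Sym W) (hh : Sym h) : SymF (LL c w L W h) := by
  intro t
  refine (Bt_sym hw t).add (Sym.add ?_ ?_)
  · intro k i
    show ((c * sq (-k) - L) • Ex L W (-k) t) i = star (((c * sq k - L) • Ex L W k t) i)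
    rw [sq_neg]
    exact smul_sym (Ex_sym hW t) _ k i
  · intro k i
    show ((c * sq (-k) - 2 * L) • Ex (2 * L) h (-k) t) i = star (((c * sq k - 2 * L) • Ex (2 * L) h k t) i)
    rw [sq_neg]
    exact smul_sym (Ex_sym hh t) _ k i

lemma LL_zero (hW : W 0 = 0) (hh : h 0 = 0) (t : ℝ) : LL c w L W h 0 t = 0 := by
  show Bt w 0 t + ((c * sq 0 - L) • Ex L W 0 t + (c * sq 0 - 2 * L) • Ex (2 * L) h 0 t) = 0
  simp [Ex, hW, hh, Bt, Bf_zero]

lemma UU_eq (hw : CF w) (hwd : Dom w)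
    (hweq : ∀ k t, w k t = Real.exp (-(c * sq k * max t 0)) • V k + Duh c (Bt w) k t) (k : K) (t : ℝ) :
    UU w L W h k t = Real.exp (-(c * sq k * max t 0)) • (V + h + W) k + Duh c (LL c w L W h) k t := by
  have hB : CF (Bt w) := Bt_cont hw hwd
  have h1 : CF (fun k s => (c * sq k - L) • Ex L W k s) := smul_cf (Ex_cf L W) _
  have h2 : CF (fun k s => (c * sq k - 2 * L) • Ex (2 * L) h k s) := smul_cf (Ex_cf (2 * L) h) _
  have h12 : CF ((fun k s => (c * sq k - L) • Ex L W k s) + (fun k s => (c * sq k - 2 * L) • Ex (2 * L) h k s)) :=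
    fun k => (h1 k).add (h2 k)
  unfold LL UU
  rw [Duh_add hB h12, Duh_add h1 h2]
  show w k t + (Ex L W k t + Ex (2 * L) h k t) = Real.exp (-(c * sq k * max t 0)) • (V k + h k + W k) +
    (Duh c (Bt w) k t + (Duh c (fun k s => (c * sq k - L) • Ex L W k s) k t +
      Duh c (fun k s => (c * sq k - 2 * L) • Ex (2 * L) h k s) k t))
  rw [hweq k t, Ex_duh c L W k t, Ex_duh c (2 * L) h k t, smul_add, smul_add]
  abel

lemma norm_FE_le (hc : 0 < c) (hL : 0 ≤ L) (bs : Summable bw) (hbw : ∀ k t, ‖w k t‖ ≤ bw k)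
    (sW : SN W) (sh : SN h) (k : K) (t : ℝ) :
    ‖(Bt (UU w L W h) - LL c w L W h) k t‖ ≤
      Real.exp (-(L * max t 0)) * (2 * (C0 * nk k * conv bw (fun k => ‖W k‖) k) + |c * sq k - L| * ‖W k‖) +
      Real.exp (-(2 * L * max t 0)) * (‖Bf W W k + (2 * L) • h k‖ + c * sq k * ‖h k‖ +
        2 * (C0 * nk k * conv bw (fun k => ‖h k‖) k) +
        2 * (C0 * nk k * conv (fun k => ‖W k‖) (fun k => ‖h k‖) k) +
        C0 * nk k * conv (fun k => ‖h k‖) (fun k => ‖h k‖) k) := by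
  set θ := Real.exp (-(L * max t 0)) with hθ
  set θ2 := Real.exp (-(2 * L * max t 0)) with hθ2
  have t0 : 0 < θ := Real.exp_pos _
  have t1 : θ ≤ 1 := exp_le_one' hL t
  have e2 : θ2 = θ ^ 2 := by
    rw [hθ, hθ2, ← Real.exp_nat_mul]; congr 1; push_cast; ring
  have t2 : 0 < θ2 := Real.exp_pos _
  have t3 : θ2 ≤ 1 := exp_le_one' (by positivity) t
  set y := at' w t
  have sy : SN y := bs.of_nonneg_of_le (fun _ => norm_nonneg _) fun k => hbw k t
  have hy : ∀ k, ‖y k‖ ≤ bw k := fun k => hbw k t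
  have eU : at' (UU w L W h) t = y + (θ • W + θ2 • h) := by
    funext k; rfl
  have e1 : (Bt (UU w L W h) - LL c w L W h) k t =
      (θ • Bf y W k + θ2 • Bf y h k) + (θ • Bf W y k + θ2 • Bf h y k) +
      (θ2 • (Bf W W k + (2 * L) • h k)) + (θ * θ2) • (Bf W h k + Bf h W k) + θ2 ^ 2 • Bf h h k
      - θ2 • (c * sq k) • h k - θ • (c * sq k - L) • W k := by
    show Bf (at' (UU w L W h) t) (at' (UU w L W h) t) k - (Bf (at' w t) (at' w t) k +
      ((c * sq k - L) • θ • W k + (c * sq k - 2 * L) • θ2 • h k)) = _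
    rw [eU, Bf_expand sy sW sh, ← e2]
    simp only [Pi.add_apply, Pi.smul_apply, smul_add, smul_smul]
    have e3 : (c * sq k - 2 * L) * θ2 = θ2 * (c * sq k) - θ2 * (2 * L) := by ring
    rw [e3, sub_smul, mul_comm (c * sq k - L) θ]
    abel
  rw [e1]
  have hC := C0_pos
  have hn := nk_nonneg k
  have hsq := sq_nonneg' k
  have b1 := norm_Bf_conv bs sW hy (fun k => le_rfl) k
  have b2 := norm_Bf_conv bs sh hy (fun k => le_rfl) k
  have b3 := norm_Bf_conv sW bs (fun k => le_rfl) hy k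
  have b4 := norm_Bf_conv sh bs (fun k => le_rfl) hy k
  have b5 := norm_Bf_conv sW sh (fun k => le_rfl) (fun k => le_rfl) k
  have b6 := norm_Bf_conv sh sW (fun k => le_rfl) (fun k => le_rfl) k
  have b7 := norm_Bf_conv sh sh (fun k => le_rfl) (fun k => le_rfl) k
  rw [conv_comm (fun k => ‖W k‖) bw k] at b3
  rw [conv_comm (fun k => ‖h k‖) bw k] at b4
  rw [conv_comm (fun k => ‖h k‖) (fun k => ‖W k‖) k] at b6
  set X1 := C0 * nk k * conv bw (fun k => ‖W k‖) k
  set X2 := C0 * nk k * conv bw (fun k => ‖h k‖) k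
  set X3 := C0 * nk k * conv (fun k => ‖W k‖) (fun k => ‖h k‖) k
  set X4 := C0 * nk k * conv (fun k => ‖h k‖) (fun k => ‖h k‖) k
  have n1 : ‖θ • Bf y W k + θ2 • Bf y h k‖ ≤ θ * X1 + θ2 * X2 := by
    refine (norm_add_le _ _).trans ?_
    rw [norm_smul, norm_smul, Real.norm_of_nonneg t0.le, Real.norm_of_nonneg t2.le]
    gcongr
  have n2 : ‖θ • Bf W y k + θ2 • Bf h y k‖ ≤ θ * X1 + θ2 * X2 := by
    refine (norm_add_le _ _).trans ?_
    rw [norm_smul, norm_smul, Real.norm_of_nonneg t0.le, Real.norm_of_nonneg t2.le]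
    gcongr
  have n3 : ‖θ2 • (Bf W W k + (2 * L) • h k)‖ = θ2 * ‖Bf W W k + (2 * L) • h k‖ := by
    rw [norm_smul, Real.norm_of_nonneg t2.le]
  have n4 : ‖(θ * θ2) • (Bf W h k + Bf h W k)‖ ≤ θ2 * (2 * X3) := by
    rw [norm_smul, Real.norm_of_nonneg (by positivity)]
    have h1 : ‖Bf W h k + Bf h W k‖ ≤ 2 * X3 := (norm_add_le _ _).trans (by linarith)
    have h2 : θ * θ2 ≤ θ2 := mul_le_of_le_one_left t2.le t1
    exact mul_le_mul h2 h1 (norm_nonneg _) t2.le
  have n5 : ‖θ2 ^ 2 • Bf h h k‖ ≤ θ2 * X4 := by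
    rw [norm_smul, Real.norm_of_nonneg (by positivity)]
    have h2 : θ2 ^ 2 ≤ θ2 := by rw [pow_two]; exact mul_le_of_le_one_left t2.le t3
    exact mul_le_mul h2 b7 (norm_nonneg _) t2.le
  have n6 : ‖θ2 • (c * sq k) • h k‖ = θ2 * (c * sq k * ‖h k‖) := by
    rw [norm_smul, norm_smul, Real.norm_of_nonneg t2.le, Real.norm_of_nonneg (by positivity)]
  have n7 : ‖θ • (c * sq k - L) • W k‖ = θ * (|c * sq k - L| * ‖W k‖) := by
    rw [norm_smul, norm_smul, Real.norm_of_nonneg t0.le, Real.norm_eq_abs]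
  refine (norm_sub_le _ _).trans ((add_le_add ((norm_sub_le _ _).trans (add_le_add
    ((norm_add_le _ _).trans (add_le_add ((norm_add_le _ _).trans (add_le_add
    ((norm_add_le _ _).trans (add_le_add ((norm_add_le _ _).trans (add_le_add n1 n2)) n3.le))
    n4)) n5)) n6.le)) n7.le).trans (le_of_eq ?_))
  ring

lemma lint_FE_le (hc : 0 < c) (hL : 0 < L) (bs : Summable bw) (bw0 : ∀ k, 0 ≤ bw k)
    (hbw : ∀ k t, ‖w k t‖ ≤ bw k) (sW : SN W) (sh : SN h) (k : K) :
    ∫⁻ t in Ioi 0, ‖(Bt (UU w L W h) - LL c w L W h) k t‖ₑ ≤ ENNReal.ofReal (eB c bw L W h k) := by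
  have hC := C0_pos
  have hn := nk_nonneg k
  have hsq := sq_nonneg' k
  have c1 := conv_nonneg bw0 (fun k => norm_nonneg (W k)) k
  have c2 := conv_nonneg bw0 (fun k => norm_nonneg (h k)) k
  have c3 := conv_nonneg (fun k => norm_nonneg (W k)) (fun k => norm_nonneg (h k)) k
  have c4 := conv_nonneg (fun k => norm_nonneg (h k)) (fun k => norm_nonneg (h k)) k
  set P := 2 * (C0 * nk k * conv bw (fun k => ‖W k‖) k) + |c * sq k - L| * ‖W k‖ with hP
  set Q := ‖Bf W W k + (2 * L) • h k‖ + c * sq k * ‖h k‖ +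
        2 * (C0 * nk k * conv bw (fun k => ‖h k‖) k) +
        2 * (C0 * nk k * conv (fun k => ‖W k‖) (fun k => ‖h k‖) k) +
        C0 * nk k * conv (fun k => ‖h k‖) (fun k => ‖h k‖) k with hQ
  have hP0 : 0 ≤ P := by positivity
  have hQ0 : 0 ≤ Q := by positivity
  have e : eB c bw L W h k = 1 / L * P + 1 / (2 * L) * Q := rfl
  rw [e]
  calc ∫⁻ t in Ioi 0, ‖(Bt (UU w L W h) - LL c w L W h) k t‖ₑ
      ≤ ∫⁻ t in Ioi 0, (ENNReal.ofReal (Real.exp (-(L * max t 0))) * ENNReal.ofReal P +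
        ENNReal.ofReal (Real.exp (-(2 * L * max t 0))) * ENNReal.ofReal Q) := by
        refine lintegral_mono fun t => ?_
        rw [← ENNReal.ofReal_mul (Real.exp_pos _).le, ← ENNReal.ofReal_mul (Real.exp_pos _).le,
          ← ENNReal.ofReal_add (by positivity) (by positivity), ← ofReal_norm]
        exact ENNReal.ofReal_le_ofReal (norm_FE_le hc hL.le bs hbw sW sh k t)
    _ = ENNReal.ofReal (1 / L) * ENNReal.ofReal P + ENNReal.ofReal (1 / (2 * L)) * ENNReal.ofReal Q := by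
        rw [lintegral_add_left (by fun_prop), lintegral_mul_const _ (by fun_prop),
          lintegral_mul_const _ (by fun_prop), lint_exp' hL, lint_exp' (by positivity)]
    _ = _ := by
        rw [← ENNReal.ofReal_mul (by positivity), ← ENNReal.ofReal_mul (by positivity),
          ← ENNReal.ofReal_add (by positivity) (by positivity)]

lemma RR.nk {b : K → ℝ} (hb : ∀ k, 0 ≤ b k) (h : RR b) : RR fun k => nk k * b k :=
  (h.pw 1).mono (fun k => mul_nonneg (nk_nonneg k) (hb k)) fun k => by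
    rw [pow_one]; exact mul_le_mul_of_nonneg_right (nk_le_pw' k) (hb k)

lemma RR.sq {b : K → ℝ} (hb : ∀ k, 0 ≤ b k) (h : RR b) : RR fun k => sq k * b k :=
  (h.pw 2).mono (fun k => mul_nonneg (sq_nonneg' k) (hb k)) fun k => by
    apply mul_le_mul_of_nonneg_right _ (hb k)
    rw [← nk_sq]
    exact pow_le_pow_left₀ (nk_nonneg k) (nk_le_pw' k) 2

lemma eB_rr (hc : 0 < c) (hL : 0 < L) (bw0 : ∀ k, 0 ≤ bw k) (bwr : RR bw)
    (rW : RR fun k => ‖W k‖) (rh : RR fun k => ‖h k‖) : RR (eB c bw L W h) ∧ ∀ k, 0 ≤ eB c bw L W h k := by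
  have hC := C0_pos
  have W0 : ∀ k, 0 ≤ ‖W k‖ := fun k => norm_nonneg _
  have h0 : ∀ k, 0 ≤ ‖h k‖ := fun k => norm_nonneg _
  have q : ∀ {x y : K → ℝ}, (∀ k, 0 ≤ x k) → (∀ k, 0 ≤ y k) → RR x → RR y →
      RR (fun k => C0 * nk k * conv x y k) := by
    intro x y hx hy rx ry
    have := ((RR.conv hx hy rx ry).nk (conv_nonneg hx hy)).mul C0
    exact fun m => (this m).congr fun k => by ring
  have q1 := q bw0 W0 bwr rW
  have q2 := q bw0 h0 bwr rh
  have q3 := q W0 h0 rW rh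
  have q4 := q h0 h0 rh rh
  have q5 := q W0 W0 rW rW
  have q6 : RR fun k => |c * sq k - L| * ‖W k‖ := by
    refine (((rW.sq W0).mul c).add (rW.mul L)).mono (fun k => by positivity) fun k => ?_
    have h1 : |c * sq k - L| ≤ c * sq k + L := by
      refine (abs_sub _ _).trans ?_
      rw [abs_of_nonneg (mul_nonneg hc.le (sq_nonneg' k)), abs_of_pos hL]
    calc _ ≤ (c * sq k + L) * ‖W k‖ := mul_le_mul_of_nonneg_right h1 (W0 k)
      _ = _ := by ring
  have q7 : RR fun k => ‖Bf W W k + (2 * L) • h k‖ := by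
    refine (q5.add (rh.mul (2 * L))).mono (fun k => norm_nonneg _) fun k => ?_
    refine (norm_add_le _ _).trans (add_le_add (norm_Bf_conv rW.summ rW.summ (fun k => le_rfl)
      (fun k => le_rfl) k) ?_)
    rw [norm_smul, Real.norm_of_nonneg (by positivity)]
  have q8 := (rh.sq h0).mul c
  refine ⟨?_, fun k => ?_⟩
  · have r1 := ((q1.mul 2).add q6).mul (1 / L)
    have r2 := (((((q7.add q8).add (q2.mul 2)).add (q3.mul 2)).add q4)).mul (1 / (2 * L))
    have r3 := r1.add r2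
    exact fun m => (r3 m).congr fun k => by unfold eB; ring
  · have hn := nk_nonneg k
    have hsq := sq_nonneg' k
    have c1 := conv_nonneg bw0 W0 k
    have c2 := conv_nonneg bw0 h0 k
    have c3 := conv_nonneg W0 h0 k
    have c4 := conv_nonneg h0 h0 k
    unfold eB
    positivity

lemma div_nk_le {x : ℝ} (hx : 0 ≤ x) (k : K) : nk k * x / nk k ≤ x := by
  by_cases hk : k = 0
  · subst hk; simp [nk_zero, hx]
  · have := nk_pos hk
    rw [mul_div_assoc, mul_div_cancel₀ _ this.ne']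

/-- The residual in the Lei-Lin norm. -/
lemma eB_sum_le (hc : 0 < c) (hL : 0 < L) (bw0 : ∀ k, 0 ≤ bw k) (bwr : RR bw)
    (rW : RR fun k => ‖W k‖) (rh : RR fun k => ‖h k‖) :
    ∑' k, eB c bw L W h k / nk k ≤
      (1 / L) * (2 * C0 * (∑' k, bw k) * (∑' k, ‖W k‖) + ∑' k, |c * sq k - L| * ‖W k‖ / nk k) +
      (1 / (2 * L)) * (∑' k, ‖Bf W W k + (2 * L) • h k‖ / nk k + c * (∑' k, nk k * ‖h k‖) +
        2 * C0 * (∑' k, bw k) * (∑' k, ‖h k‖) + 2 * C0 * (∑' k, ‖W k‖) * (∑' k, ‖h k‖) +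
        C0 * (∑' k, ‖h k‖) * (∑' k, ‖h k‖)) := by
  have hC := C0_pos
  have W0 : ∀ k, 0 ≤ ‖W k‖ := fun k => norm_nonneg _
  have h0 : ∀ k, 0 ≤ ‖h k‖ := fun k => norm_nonneg _
  obtain ⟨s1, e1⟩ := summable_conv bw0 W0 bwr.summ rW.summ
  obtain ⟨s2, e2⟩ := summable_conv bw0 h0 bwr.summ rh.summ
  obtain ⟨s3, e3⟩ := summable_conv W0 h0 rW.summ rh.summ
  obtain ⟨s4, e4⟩ := summable_conv h0 h0 rh.summ rh.summ
  have sdiv : ∀ {x : K → ℝ}, (∀ k, 0 ≤ x k) → Summable x → Summable fun k => x k / nk k := by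
    intro x hx sx
    refine sx.of_nonneg_of_le (fun k => div_nonneg (hx k) (nk_nonneg k)) fun k => ?_
    by_cases hk : k = 0
    · subst hk; simp [nk_zero, hx]
    · exact div_le_self (hx k) (one_le_nk hk)
  have q6 : Summable fun k => |c * sq k - L| * ‖W k‖ := by
    have : RR fun k => |c * sq k - L| * ‖W k‖ := by
      refine (((rW.sq W0).mul c).add (rW.mul L)).mono (fun k => by positivity) fun k => ?_
      have h1 : |c * sq k - L| ≤ c * sq k + L := by
        refine (abs_sub _ _).trans ?_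
        rw [abs_of_nonneg (mul_nonneg hc.le (sq_nonneg' k)), abs_of_pos hL]
      calc _ ≤ (c * sq k + L) * ‖W k‖ := mul_le_mul_of_nonneg_right h1 (W0 k)
        _ = _ := by ring
    exact this.summ
  have s5 := sdiv (fun k => by positivity) q6
  have q7 : Summable fun k => ‖Bf W W k + (2 * L) • h k‖ := by
    have q5 : RR (fun k => C0 * nk k * conv (fun k => ‖W k‖) (fun k => ‖W k‖) k) := by
      have := ((RR.conv W0 W0 rW rW).nk (conv_nonneg W0 W0)).mul C0
      exact fun m => (this m).congr fun k => by ring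
    refine ((q5.add (rh.mul (2 * L))).mono (fun k => norm_nonneg _) fun k => ?_ :
      RR fun k => ‖Bf W W k + (2 * L) • h k‖).summ
    refine (norm_add_le _ _).trans (add_le_add (norm_Bf_conv rW.summ rW.summ (fun k => le_rfl)
      (fun k => le_rfl) k) ?_)
    rw [norm_smul, Real.norm_of_nonneg (by positivity)]
  have s6 := sdiv (fun k => norm_nonneg _) q7
  have s7 : Summable fun k => nk k * ‖h k‖ := (rh.nk h0).summ
  have hb : ∀ k, eB c bw L W h k / nk k ≤
      (1 / L) * (2 * C0 * conv bw (fun k => ‖W k‖) k + |c * sq k - L| * ‖W k‖ / nk k) +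
      (1 / (2 * L)) * (‖Bf W W k + (2 * L) • h k‖ / nk k + c * (nk k * ‖h k‖) +
        2 * C0 * conv bw (fun k => ‖h k‖) k + 2 * C0 * conv (fun k => ‖W k‖) (fun k => ‖h k‖) k +
        C0 * conv (fun k => ‖h k‖) (fun k => ‖h k‖) k) := by
    intro k
    have c1 := conv_nonneg bw0 W0 k
    have c2 := conv_nonneg bw0 h0 k
    have c3 := conv_nonneg W0 h0 k
    have c4 := conv_nonneg h0 h0 k
    have d1 := div_nk_le (mul_nonneg (by positivity : 0 ≤ 2 * C0) c1) k
    have d2 := div_nk_le (mul_nonneg (by positivity : 0 ≤ 2 * C0) c2) k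
    have d3 := div_nk_le (mul_nonneg (by positivity : 0 ≤ 2 * C0) c3) k
    have d4 := div_nk_le (mul_nonneg hC.le c4) k
    have d5 := div_nk_le (mul_nonneg hc.le (mul_nonneg (nk_nonneg k) (h0 k))) k
    have hL1 : 0 < 1 / L := by positivity
    have hL2 : 0 < 1 / (2 * L) := by positivity
    unfold eB
    rw [add_div, mul_div_assoc, mul_div_assoc, add_div, add_div, add_div, add_div, add_div, ← nk_mul_self]
    refine add_le_add (mul_le_mul_of_nonneg_left (add_le_add ?_ le_rfl) hL1.le)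
      (mul_le_mul_of_nonneg_left (add_le_add (add_le_add (add_le_add (add_le_add le_rfl ?_) ?_) ?_) ?_) hL2.le)
    · refine le_trans (le_of_eq ?_) d1; ring
    · refine le_trans (le_of_eq ?_) d5; ring
    · refine le_trans (le_of_eq ?_) d2; ring
    · refine le_trans (le_of_eq ?_) d3; ring
    · refine le_trans (le_of_eq ?_) d4; ring
  have S1 := ((s1.mul_left (2 * C0)).add s5)
  have S2 := (((((s6.add (s7.mul_left c)).add (s2.mul_left (2 * C0))).add (s3.mul_left (2 * C0))).add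
    (s4.mul_left C0)))
  have S3 := (S1.mul_left (1 / L)).add (S2.mul_left (1 / (2 * L)))
  obtain ⟨r, r0⟩ := eB_rr hc hL bw0 bwr rW rh
  refine (Summable.tsum_le_tsum hb (sdiv r0 r.summ) S3).trans (le_of_eq ?_)
  rw [(S1.mul_left (1 / L)).tsum_add (S2.mul_left (1 / (2 * L))), tsum_mul_left, tsum_mul_left,
    (s1.mul_left (2 * C0)).tsum_add s5, tsum_mul_left, e1,
    ((((s6.add (s7.mul_left c)).add (s2.mul_left (2 * C0))).add (s3.mul_left (2 * C0)))).tsum_add (s4.mul_left C0),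
    (((s6.add (s7.mul_left c)).add (s2.mul_left (2 * C0)))).tsum_add (s3.mul_left (2 * C0)),
    ((s6.add (s7.mul_left c))).tsum_add (s2.mul_left (2 * C0)),
    s6.tsum_add (s7.mul_left c), tsum_mul_left, tsum_mul_left, tsum_mul_left, tsum_mul_left, e2, e3, e4]
  ring

end

end Pool.Agent.K1H11.NS
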