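import Pool.Agent.K1H11.NS2.Many

/-!
# Shifts of sequences of Fourier coefficients
-/

open MeasureTheory Set Filter Topology
open scoped ENNReal NNReal

namespace Pool.Agent.K1H11.NS

lemma nk_add (k l : K) : nk (k + l) ≤ nk k + nk l := by
  unfold nk
  rw [Real.sqrt_le_left (by positivity)]
  have h1 : (∑ i, (k i : ℝ) * (l i : ℝ)) ^ 2 ≤ sq k * sq l := Finset.sum_mul_sq_le_sq_mul_sq _ _ _
  have h2 : ∑ i, (k i : ℝ) * (l i : ℝ) ≤ Real.sqrt (sq k) * Real.sqrt (sq l) := by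
    rw [← Real.sqrt_mul (sq_nonneg' k)]
    exact Real.le_sqrt_of_sq_le h1
  have h3 : sq (k + l) = sq k + 2 * (∑ i, (k i : ℝ) * (l i : ℝ)) + sq l := by
    unfold sq
    rw [Finset.mul_sum, ← Finset.sum_add_distrib, ← Finset.sum_add_distrib]
    refine Finset.sum_congr rfl fun i _ => ?_
    simp only [Pi.add_apply, Int.cast_add]; ring
  have h4 := Real.sq_sqrt (sq_nonneg' k)
  have h5 := Real.sq_sqrt (sq_nonneg' l)
  nlinarith

/-- the frequency `m` in the direction of coordinate `cc` -/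
def nn (cc : Fin 3) (m : ℤ) : K := Pi.single cc m

lemma nk_nn (cc : Fin 3) (m : ℤ) : nk (nn cc m) = |(m : ℝ)| := by
  unfold nk sq nn
  rw [Finset.sum_eq_single cc]
  · simp [Real.sqrt_sq_eq_abs]
  · intro b _ hb; simp [hb]
  · simp

lemma nn_neg (cc : Fin 3) (m : ℤ) : nn cc (-m) = -nn cc m := by
  unfold nn; rw [Pi.single_neg]

/-- frequencies `k = l + m n` -/
lemma abs_m_le (cc : Fin 3) (m : ℤ) (l : K) : |(m : ℝ)| ≤ nk (l + nn cc m) + nk l := by
  have h := nk_add (l + nn cc m) (-l)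
  rw [nk_neg, show l + nn cc m + -l = nn cc m by abel, nk_nn] at h
  exact h

lemma nk_le_m (cc : Fin 3) (m : ℤ) (l : K) : nk (l + nn cc m) ≤ |(m : ℝ)| + nk l := by
  have h := nk_add l (nn cc m)
  rw [nk_nn] at h
  linarith

lemma nk_le_sub (l : K) : nk l ≤ pw l - 1 := by
  have := nk_le_l1 l
  unfold pw; linarith

lemma om2 (cc : Fin 3) {m : ℤ} {N : ℝ} (hm : |(m : ℝ)| = N) (l : K) :
    |sq (l + nn cc m) - N ^ 2| / nk (l + nn cc m) ≤ 2 * pw l ^ 2 := by
  set k := l + nn cc m with hk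
  by_cases h0 : k = 0
  · rw [h0, nk_zero, div_zero]
    have := pw_pos l
    positivity
  have h1 := abs_m_le cc m l
  have h2 := nk_le_m cc m l
  rw [← hk, hm] at h1 h2
  have ha := one_le_nk h0
  have hb := nk_nonneg l
  have hbp := nk_le_sub l
  have hN : 0 ≤ N := hm ▸ abs_nonneg _
  rw [div_le_iff₀ (by linarith)]
  have e : sq k - N ^ 2 = (nk k - N) * (nk k + N) := by rw [← nk_sq]; ring
  rw [e, abs_mul, abs_of_nonneg (by linarith : 0 ≤ nk k + N)]
  have h3 : |nk k - N| ≤ nk l := abs_le.2 ⟨by linarith, by linarith⟩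
  calc |nk k - N| * (nk k + N) ≤ nk l * (2 * nk k + nk l) := by
        apply mul_le_mul h3 (by linarith) (by linarith) hb
    _ ≤ nk l * (2 * nk k + nk l * nk k) := by
        apply mul_le_mul_of_nonneg_left _ hb
        nlinarith
    _ = nk l * (2 + nk l) * nk k := by ring
    _ ≤ 2 * pw l ^ 2 * nk k := by
        apply mul_le_mul_of_nonneg_right _ (by linarith)
        nlinarith [pw_pos l]

lemma om4 (cc : Fin 3) {m : ℤ} {N : ℝ} (hm : |(m : ℝ)| = N) (hN : 1 ≤ N) (l : K) :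
    1 / nk (l + nn cc m) ≤ 1 / N + pw l ^ 2 / N ^ 2 := by
  set k := l + nn cc m with hk
  by_cases h0 : k = 0
  · rw [h0, nk_zero, div_zero]
    have := pw_pos l
    positivity
  have h1 := abs_m_le cc m l
  rw [← hk, hm] at h1
  have ha := one_le_nk h0
  have hb := nk_nonneg l
  have hbp := nk_le_sub l
  have e : 1 / N + pw l ^ 2 / N ^ 2 = (N + pw l ^ 2) / N ^ 2 := by field_simp
  rw [e, div_le_div_iff₀ (by linarith) (by positivity)]
  have hp : (nk l + 1) ^ 2 ≤ pw l ^ 2 := pow_le_pow_left₀ (by linarith) (by linarith) 2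
  set A := nk k
  set B := nk l
  have h2 : N ^ 2 ≤ A * N + B * N := by nlinarith
  have h3 : B * N ≤ A * pw l ^ 2 := by
    calc B * N ≤ B * (A + B) := by gcongr
      _ ≤ A * (B + 1) ^ 2 := by
        nlinarith [mul_nonneg (sub_nonneg.2 ha) (sq_nonneg B), mul_nonneg (by linarith : 0 ≤ A) hb]
      _ ≤ _ := by gcongr
  nlinarith

lemma om1 (cc : Fin 3) {m : ℤ} {N : ℝ} (hm : |(m : ℝ)| = N) (hN : 0 < N) (l : K) :
    1 / nk (l + nn cc m) ≤ pw l / N := by
  set k := l + nn cc m with hk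
  by_cases h0 : k = 0
  · rw [h0, nk_zero, div_zero]
    have := pw_pos l
    positivity
  have h1 := abs_m_le cc m l
  rw [← hk, hm] at h1
  have ha := one_le_nk h0
  have hb := nk_nonneg l
  have hbp := nk_le_sub l
  rw [div_le_div_iff₀ (by linarith) hN]
  nlinarith

lemma om5 (cc : Fin 3) {m : ℤ} {N : ℝ} (hm : |(m : ℝ)| = N) (hN : 1 ≤ N) (l : K) :
    (if nk (l + nn cc m) < N / 2 ∨ 2 * N ≤ nk (l + nn cc m) then 1 / nk (l + nn cc m) else 0)
      ≤ 2 * pw l ^ 2 / N ^ 2 := by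
  have hp := pw_pos l
  split_ifs with h
  · have h1 := om1 cc hm (by linarith) l
    have h2 := abs_m_le cc m l
    have h3 := nk_le_m cc m l
    have hbp := nk_le_sub l
    rw [hm] at h2 h3
    have h4 : N / 2 ≤ nk l := by
      rcases h with h | h
      · linarith
      · linarith
    refine h1.trans ?_
    rw [div_le_div_iff₀ (by linarith) (by positivity)]
    have : N ≤ 2 * pw l := by linarith
    calc pw l * N ^ 2 = pw l * N * N := by ring
      _ ≤ pw l * N * (2 * pw l) := by gcongr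
      _ = _ := by ring
  · positivity

/-- a weighted sum over two shifted copies -/
lemma sum_two {W : K → C3} {y : K → ℝ} {A : ℝ} {κ : K} (hA : 0 ≤ A) (hy : ∀ k, 0 ≤ y k)
    (hW : ∀ k, ‖W k‖ ≤ A * (y (k - κ) + y (k + κ))) {ww Ω : K → ℝ} (hww : ∀ k, 0 ≤ ww k)
    (h1 : ∀ l, ww (l + κ) ≤ Ω l) (h2 : ∀ l, ww (l - κ) ≤ Ω l) (hs : Summable fun l => Ω l * y l) :
    Summable (fun k => ww k * ‖W k‖) ∧ ∑' k, ww k * ‖W k‖ ≤ 2 * A * ∑' l, Ω l * y l := by
  have a1 : Summable fun k => Ω (k - κ) * y (k - κ) :=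
    (Equiv.subRight κ).summable_iff (f := fun l => Ω l * y l) |>.2 hs
  have a2 : Summable fun k => Ω (k + κ) * y (k + κ) :=
    (Equiv.addRight κ).summable_iff (f := fun l => Ω l * y l) |>.2 hs
  have hb : ∀ k, ww k * ‖W k‖ ≤ A * (Ω (k - κ) * y (k - κ) + Ω (k + κ) * y (k + κ)) := by
    intro k
    have e1 := h1 (k - κ)
    have e2 := h2 (k + κ)
    rw [sub_add_cancel] at e1
    rw [add_sub_cancel_right] at e2
    calc ww k * ‖W k‖ ≤ ww k * (A * (y (k - κ) + y (k + κ))) := mul_le_mul_of_nonneg_left (hW k) (hww k)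
      _ = A * (ww k * y (k - κ) + ww k * y (k + κ)) := by ring
      _ ≤ _ := by
        have := hy (k - κ)
        have := hy (k + κ)
        gcongr
  have S := (a1.add a2).mul_left A
  refine ⟨S.of_nonneg_of_le (fun k => mul_nonneg (hww k) (norm_nonneg _)) hb, ?_⟩
  refine (Summable.tsum_le_tsum hb (S.of_nonneg_of_le (fun k => mul_nonneg (hww k) (norm_nonneg _)) hb) S).trans
    (le_of_eq ?_)
  rw [tsum_mul_left, a1.tsum_add a2]
  have e1 : ∑' k, Ω (k - κ) * y (k - κ) = ∑' l, Ω l * y l := (Equiv.subRight κ).tsum_eq fun l => Ω l * y l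
  have e2 : ∑' k, Ω (k + κ) * y (k + κ) = ∑' l, Ω l * y l := (Equiv.addRight κ).tsum_eq fun l => Ω l * y l
  rw [e1, e2]; ring

/-- shift of a vector sequence -/
def Shv (κ : K) (x : K → C3) : K → C3 := fun k => x (k - κ)

/-- `f e` -/
noncomputable def Ev (f : K → ℂ) (e : Fin 3 → ℝ) : K → C3 := fun k i => f k * (e i : ℂ)

/-- the lower order part -/
noncomputable def Lv (f : K → ℂ) (e : Fin 3 → ℝ) (cc : Fin 3) : K → C3 := fun k i =>
  f k * ((k cc : ℂ) * (e i : ℂ) - (if i = cc then ∑ j, (k j : ℂ) * (e j : ℂ) else 0))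

lemma Ev_norm {f : K → ℂ} {e : Fin 3 → ℝ} (he : ∀ i, |e i| ≤ 1) (k : K) : ‖Ev f e k‖ ≤ ‖f k‖ := by
  rw [pi_norm_le_iff_of_nonneg (norm_nonneg _)]
  intro i
  unfold Ev
  rw [norm_mul, Complex.norm_real, Real.norm_eq_abs]
  exact mul_le_of_le_one_right (norm_nonneg _) (he i)

lemma dt_e_le {e : Fin 3 → ℝ} (he : ∀ i, |e i| ≤ 1) (k : K) :
    ‖∑ j, (k j : ℂ) * (e j : ℂ)‖ ≤ l1 k := by
  refine (norm_sum_le _ _).trans (Finset.sum_le_sum fun j _ => ?_)
  rw [norm_mul, Complex.norm_real, Real.norm_eq_abs, Complex.norm_intCast]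
  exact mul_le_of_le_one_right (abs_nonneg _) (he j)

lemma Lv_norm {f : K → ℂ} {e : Fin 3 → ℝ} (he : ∀ i, |e i| ≤ 1) (cc : Fin 3) (k : K) :
    ‖Lv f e cc k‖ ≤ 2 * (pw k * ‖f k‖) := by
  have hp := pw_pos k
  rw [pi_norm_le_iff_of_nonneg (by positivity)]
  intro i
  unfold Lv
  rw [norm_mul]
  have h1 : ‖(k cc : ℂ) * (e i : ℂ)‖ ≤ pw k := by
    rw [norm_mul, Complex.norm_real, Real.norm_eq_abs, Complex.norm_intCast]
    exact (mul_le_of_le_one_right (abs_nonneg _) (he i)).trans ((abs_le_nk k cc).trans (nk_le_pw' k))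
  have h2 : ‖(if i = cc then ∑ j, (k j : ℂ) * (e j : ℂ) else 0)‖ ≤ pw k := by
    split_ifs
    · exact (dt_e_le he k).trans (by unfold pw; linarith)
    · simpa using hp.le
  calc ‖f k‖ * ‖(k cc : ℂ) * (e i : ℂ) - (if i = cc then ∑ j, (k j : ℂ) * (e j : ℂ) else 0)‖
      ≤ ‖f k‖ * (pw k + pw k) := mul_le_mul_of_nonneg_left ((norm_sub_le _ _).trans (add_le_add h1 h2))
        (norm_nonneg _)
    _ = _ := by ring

/-- `f * f` -/
noncomputable def ff (f : K → ℂ) (k : K) : ℂ := ∑' l, f l * f (k - l)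

/-- the direction as an element of `ℂ³` -/
def ec (e : Fin 3 → ℝ) : C3 := fun i => (e i : ℂ)

lemma Bf_Shv (f : K → ℂ) (e : Fin 3 → ℝ) (κ κ' k : K) :
    Bf (Shv κ (Ev f e)) (Shv κ' (Ev f e)) k = ff f (k - κ - κ') • bt k (ec e) (ec e) := by
  have hcv : ∀ i j, cv (Shv κ (Ev f e)) (Shv κ' (Ev f e)) k i j = (e i : ℂ) * (e j : ℂ) * ff f (k - κ - κ') := by
    intro i j
    unfold cv Shv Ev ff
    rw [← (Equiv.addRight κ).tsum_eq, ← tsum_mul_left]
    refine tsum_congr fun l => ?_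
    simp only [Equiv.coe_addRight, add_sub_cancel_right]
    rw [show k - (l + κ) - κ' = k - κ - κ' - l by abel]
    ring
  funext i
  unfold Bf
  simp only [hcv, Pi.smul_apply, smul_eq_mul]
  unfold bt ec
  rw [Finset.mul_sum]
  refine Finset.sum_congr rfl fun j _ => ?_
  rw [Finset.mul_sum]
  refine Finset.sum_congr rfl fun m _ => ?_
  ring

lemma l1_le_nk (k : K) : l1 k ≤ 2 * nk k := by
  have h : l1 k ^ 2 ≤ (2 * nk k) ^ 2 := by
    rw [mul_pow, nk_sq]
    unfold l1 sq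
    simp only [Fin.sum_univ_three]
    rw [← sq_abs (k 0 : ℝ), ← sq_abs (k 1 : ℝ), ← sq_abs (k 2 : ℝ)]
    nlinarith [sq_nonneg (|(k 0 : ℝ)| - |(k 1 : ℝ)|), sq_nonneg (|(k 0 : ℝ)| - |(k 2 : ℝ)|),
      sq_nonneg (|(k 1 : ℝ)| - |(k 2 : ℝ)|), sq_nonneg |(k 0 : ℝ)|, sq_nonneg |(k 1 : ℝ)|,
      sq_nonneg |(k 2 : ℝ)|]
  exact le_of_sq_le_sq h (by have := nk_nonneg k; positivity)

/-- the multiplier on shifted frequencies -/
lemma bt_norm_le {e : Fin 3 → ℝ} (he : ∀ i, |e i| ≤ 1) {cc : Fin 3} (hcc : e cc = 0) (m : ℤ) (l : K) :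
    ‖bt (l + nn cc m) (ec e) (ec e)‖ ≤ 6 * Real.pi * pw l := by
  set k := l + nn cc m with hk
  have hp := pw_pos l
  have hpi := Real.pi_pos
  rw [pi_norm_le_iff_of_nonneg (by positivity)]
  intro i
  rw [bt_eq]
  have h1 : dt k (ec e) = ∑ j, (l j : ℂ) * (e j : ℂ) := by
    unfold dt ec
    refine Finset.sum_congr rfl fun j _ => ?_
    by_cases hj : j = cc
    · subst hj; simp [hcc]
    · simp [hk, nn, hj]
  have h2 : ‖dt k (ec e)‖ ≤ pw l := by
    rw [h1]
    exact (dt_e_le he l).trans (by unfold pw; linarith)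
  have h3 : ‖ec e i - (k i : ℂ) * dt k (ec e) / ((sq k : ℝ) : ℂ)‖ ≤ 3 := by
    have h4 : ‖ec e i‖ ≤ 1 := by
      unfold ec
      rw [Complex.norm_real]; exact he i
    have h5 : ‖(k i : ℂ) * dt k (ec e) / ((sq k : ℝ) : ℂ)‖ ≤ 2 := by
      rw [norm_div, norm_mul, Complex.norm_real, Complex.norm_intCast, Real.norm_of_nonneg (sq_nonneg' k)]
      by_cases h0 : k = 0
      · rw [h0, sq_zero, div_zero]; norm_num
      · have h6 : ‖dt k (ec e)‖ ≤ 2 * nk k := (dt_e_le he k).trans (l1_le_nk k)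
        rw [div_le_iff₀ (sq_pos h0), ← nk_mul_self]
        calc |(k i : ℝ)| * ‖dt k (ec e)‖ ≤ nk k * (2 * nk k) :=
              mul_le_mul (abs_le_nk k i) h6 (norm_nonneg _) (nk_nonneg k)
          _ = _ := by ring
    exact (norm_sub_le _ _).trans (by linarith)
  rw [norm_mul, norm_mul]
  have h7 : ‖-(2 * (Real.pi : ℂ) * Complex.I)‖ = 2 * Real.pi := by
    rw [norm_neg, norm_mul, norm_mul, Complex.norm_I, Complex.norm_real]
    simp [abs_of_pos hpi]
  rw [h7]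
  calc 2 * Real.pi * ‖dt k (ec e)‖ * _ ≤ 2 * Real.pi * pw l * 3 := by
        apply mul_le_mul _ h3 (norm_nonneg _) (by positivity)
        exact mul_le_mul_of_nonneg_left h2 (by positivity)
    _ = _ := by ring

/-- The nonlinear term of a shifted tensor is small. -/
lemma shift_small {e : Fin 3 → ℝ} (he : ∀ i, |e i| ≤ 1) {cc : Fin 3} (hcc : e cc = 0) {m : ℤ} {N : ℝ}
    (hm : |(m : ℝ)| = N) (hN : 0 < N) {y : K → ℂ} (hy : RR fun k => ‖y k‖) :
    Summable (fun k => ‖y (k - nn cc m) • bt k (ec e) (ec e)‖ / nk k) ∧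
    ∑' k, ‖y (k - nn cc m) • bt k (ec e) (ec e)‖ / nk k ≤ 6 * Real.pi / N * ∑' l, pw l ^ 2 * ‖y l‖ := by
  have hpi := Real.pi_pos
  have hb : ∀ k, ‖y (k - nn cc m) • bt k (ec e) (ec e)‖ / nk k ≤
      6 * Real.pi / N * (pw (k - nn cc m) ^ 2 * ‖y (k - nn cc m)‖) := by
    intro k
    have h1 := bt_norm_le he hcc m (k - nn cc m)
    have h2 := om1 cc hm hN (k - nn cc m)
    rw [sub_add_cancel] at h1 h2
    have hp := pw_pos (k - nn cc m)
    rw [norm_smul, div_eq_mul_one_div]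
    calc ‖y (k - nn cc m)‖ * ‖bt k (ec e) (ec e)‖ * (1 / nk k)
        ≤ ‖y (k - nn cc m)‖ * (6 * Real.pi * pw (k - nn cc m)) * (pw (k - nn cc m) / N) := by
          apply mul_le_mul (mul_le_mul_of_nonneg_left h1 (norm_nonneg _)) h2
            (div_nonneg zero_le_one (nk_nonneg k)) (by positivity)
      _ = _ := by ring
  have S : Summable fun k => 6 * Real.pi / N * (pw (k - nn cc m) ^ 2 * ‖y (k - nn cc m)‖) :=
    ((Equiv.subRight (nn cc m)).summable_iff (f := fun l => pw l ^ 2 * ‖y l‖) |>.2 (hy 2)).mul_left _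
  have S0 : Summable (fun k => ‖y (k - nn cc m) • bt k (ec e) (ec e)‖ / nk k) :=
    S.of_nonneg_of_le (fun k => div_nonneg (norm_nonneg _) (nk_nonneg k)) hb
  refine ⟨S0, (Summable.tsum_le_tsum hb S0 S).trans (le_of_eq ?_)⟩
  rw [tsum_mul_left]
  congr 1
  exact (Equiv.subRight (nn cc m)).tsum_eq fun l => pw l ^ 2 * ‖y l‖

end Pool.Agent.K1H11.NS
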