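import Pool.Agent.K1H11.NS2.Stage1

/-!
# Changing the initial velocity of a global solution into another one by fast waves
-/

open MeasureTheory Set Filter Topology
open scoped ENNReal NNReal ContDiff

namespace Pool.Agent.K1H11.NS

open H459R3.NS (ee fc fr cube S SP Per pd D Rap)
open Pool.Agent.H356R3.NS (shellSum critNorm leiLin)

/-- the profile of the wave with index `i` -/
def cI (i : ℕ) : Fin 3 := ⟨i / 5 % 3, Nat.mod_lt _ (by norm_num)⟩
/-- the profile of the wave with index `i` -/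
def aI (i : ℕ) : Fin 5 := ⟨i % 5, Nat.mod_lt _ (by norm_num)⟩

lemma sum_index {E : Type*} [AddCommMonoid E] (F : Fin 3 → Fin 5 → E) (J : ℕ) :
    ∑ i ∈ Finset.range (15 * J), F (cI i) (aI i) = J • ∑ c, ∑ a, F c a := by
  have h15 : ∑ i ∈ Finset.range 15, F (cI i) (aI i) = ∑ c, ∑ a, F c a := by
    simp only [Finset.sum_range_succ, Finset.sum_range_zero, Fin.sum_univ_three, Fin.sum_univ_five]
    change 0 + F 0 0 + F 0 1 + F 0 2 + F 0 3 + F 0 4 + F 1 0 + F 1 1 + F 1 2 + F 1 3 + F 1 4 +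
      F 2 0 + F 2 1 + F 2 2 + F 2 3 + F 2 4 = _
    rw [zero_add]
    abel
  induction J with
  | zero => simp
  | succ J ih =>
    have e1 : ∀ x, cI (15 * J + x) = cI x := by
      intro x
      unfold cI
      rw [Fin.mk.injEq]
      omega
    have e2 : ∀ x, aI (15 * J + x) = aI x := by
      intro x
      unfold aI
      rw [Fin.mk.injEq]
      omega
    rw [Nat.mul_succ, Finset.sum_range_add, ih, succ_nsmul]
    congr 1
    rw [← h15]
    refine Finset.sum_congr rfl fun x _ => ?_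
    rw [e1, e2]

lemma cF_sum (s : Finset ℕ) (B : ℕ → Fin 3 → E3 → ℝ) (hB : ∀ n ∈ s, ∀ i, SP (B n i)) :
    cF (fun i => fr (fun x => ∑ n ∈ s, B n i x)) = ∑ n ∈ s, cF (fun i => fr (B n i)) := by
  funext k i
  have e : ∀ i, fr (fun x => ∑ n ∈ s, B n i x) k = ∑ n ∈ s, fr (B n i) k := fun i =>
    fr_finsum s (fun n => B n i) (fun n hn => hB n hn i) k
  simp only [Finset.sum_apply]
  unfold cF D
  beta_reduce
  rw [e, e, Finset.mul_sum, Finset.mul_sum, Finset.sum_sub_distrib]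

lemma cu_sum_zero (s : Finset ℕ) (B : ℕ → Fin 3 → E3 → ℝ) (hB : ∀ n ∈ s, ∀ i, SP (B n i)) {x : E3}
    (h : ∀ n ∈ s, ∀ j i, pd j (B n i) x = 0) (i : Fin 3) : cu (fun i x => ∑ n ∈ s, B n i x) i x = 0 := by
  have e : ∀ j i, pd j (fun x => ∑ n ∈ s, B n i x) x = 0 := by
    intro j i
    have h1 : pd j (fun x => ∑ n ∈ s, B n i x) x = ∑ n ∈ s, pd j (B n i) x := by
      unfold pd
      rw [fderiv_fun_sum fun n hn => (hB n hn i).smooth.differentiable (by simp) x]
      simp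
    rw [h1]
    exact Finset.sum_eq_zero fun n hn => h n hn j i
  unfold cu
  rw [e, e, sub_zero]

lemma Prf.mono {c C1 C2 δ C1' C2' δ' : ℝ} {h : K → C3} {W : ℕ → K → C3} (hP : Prf c C1 C2 δ h W)
    (h1 : C1 ≤ C1') (h2 : C2 ≤ C2') (h3 : δ ≤ δ') : Prf c C1' C2' δ' h W where
  C1n := hP.C1n.trans h1
  C2n := hP.C2n.trans h2
  δn := hP.δn.trans h3
  hs := hP.hs
  h0 := hP.h0
  hr := hP.hr
  Ws := hP.Ws
  W0 := hP.W0
  Wr := hP.Wr
  b1 := fun N hN => (hP.b1 N hN).trans (by gcongr)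
  b2 := fun N hN => (hP.b2 N hN).trans (by gcongr)
  b3 := fun N hN => (hP.b3 N hN).trans (by gcongr)

lemma summ_div_nk {x : K → C3} (hx : SN x) : Summable fun k => ‖x k‖ / nk k := by
  refine hx.of_nonneg_of_le (fun k => div_nonneg (norm_nonneg _) (nk_nonneg k)) fun k => ?_
  by_cases hk : k = 0
  · subst hk; rw [nk_zero, div_zero]; exact norm_nonneg _
  · exact div_le_self (norm_nonneg _) (one_le_nk hk)

lemma leilin_sum (n : ℕ) (w : ℕ → K → C3) (hw : ∀ i < n, SN (w i)) {A : ℝ}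
    (h : ∀ i < n, ∑' k, ‖w i k‖ / nk k ≤ A) :
    ∑' k, ‖(∑ i ∈ Finset.range n, w i) k‖ / nk k ≤ n * A := by
  have hb : ∀ k, ‖(∑ i ∈ Finset.range n, w i) k‖ / nk k ≤ ∑ i ∈ Finset.range n, ‖w i k‖ / nk k := by
    intro k
    rw [Finset.sum_apply, ← Finset.sum_div]
    exact div_le_div_of_nonneg_right (norm_sum_le _ _) (nk_nonneg k)
  have S : Summable fun k => ∑ i ∈ Finset.range n, ‖w i k‖ / nk k :=
    summable_sum fun i hi => summ_div_nk (hw i (Finset.mem_range.1 hi))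
  have S0 := S.of_nonneg_of_le (fun k => div_nonneg (norm_nonneg
    ((∑ i ∈ Finset.range n, w i) k)) (nk_nonneg k)) hb
  refine (Summable.tsum_le_tsum hb S0 S).trans ?_
  rw [Summable.tsum_finsetSum fun i hi => summ_div_nk (hw i (Finset.mem_range.1 hi))]
  refine (Finset.sum_le_sum fun i hi => h i (Finset.mem_range.1 hi)).trans (le_of_eq ?_)
  simp

lemma low_sum (n : ℕ) (w : ℕ → K → C3) (hw : ∀ i < n, SN (w i)) {τ R : ℝ} (N : ℕ → ℕ)
    (hN : ∀ i < n, R < (N i : ℝ) / 2)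
    (h : ∀ i < n, ∑' k, (if nk k < (N i : ℝ) / 2 ∨ 2 * (N i : ℝ) ≤ nk k then ‖w i k‖ / nk k else 0) ≤ τ) :
    ∑' k, (if nk k ≤ R then ‖(∑ i ∈ Finset.range n, w i) k‖ / nk k else 0) ≤ n * τ := by
  classical
  have hd : ∀ (x : K → C3) (k : K), 0 ≤ ‖x k‖ / nk k := fun x k => div_nonneg (norm_nonneg _) (nk_nonneg k)
  have hb : ∀ k, (if nk k ≤ R then ‖(∑ i ∈ Finset.range n, w i) k‖ / nk k else 0) ≤
      ∑ i ∈ Finset.range n, (if nk k < (N i : ℝ) / 2 ∨ 2 * (N i : ℝ) ≤ nk k then ‖w i k‖ / nk k else 0) := by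
    intro k
    by_cases hk : nk k ≤ R
    · rw [if_pos hk, Finset.sum_apply]
      refine (div_le_div_of_nonneg_right (norm_sum_le _ _) (nk_nonneg k)).trans ?_
      rw [Finset.sum_div]
      refine Finset.sum_le_sum fun i hi => ?_
      rw [if_pos (Or.inl (hk.trans_lt (hN i (Finset.mem_range.1 hi))))]
    · rw [if_neg hk]
      refine Finset.sum_nonneg fun i _ => ?_
      split_ifs
      · exact hd _ k
      · exact le_rfl
  have hs : ∀ i < n, Summable fun k => (if nk k < (N i : ℝ) / 2 ∨ 2 * (N i : ℝ) ≤ nk k then ‖w i k‖ / nk k else 0) := by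
    intro i hi
    refine (summ_div_nk (hw i hi)).of_nonneg_of_le (fun k => ?_) fun k => ?_
    · split_ifs
      · exact hd _ k
      · exact le_rfl
    · split_ifs
      · exact le_rfl
      · exact hd _ k
  have S : Summable fun k => ∑ i ∈ Finset.range n,
      (if nk k < (N i : ℝ) / 2 ∨ 2 * (N i : ℝ) ≤ nk k then ‖w i k‖ / nk k else 0) :=
    summable_sum fun i hi => hs i (Finset.mem_range.1 hi)
  have S0 := S.of_nonneg_of_le (fun k => by
    split_ifs
    · exact hd _ k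
    · exact le_rfl) hb
  refine (Summable.tsum_le_tsum hb S0 S).trans ?_
  rw [Summable.tsum_finsetSum fun i hi => hs i (Finset.mem_range.1 hi)]
  refine (Finset.sum_le_sum fun i hi => h i (Finset.mem_range.1 hi)).trans (le_of_eq ?_)
  simp

theorem stage {c : ℝ} (hc : 0 < c) {η : ℝ} {g : ℝ → ℝ} (hg : Cut η g) {A Q : ℝ}
    (hA : ∀ cc M, wn (gM g cc M) ≤ A) (hQ : ∀ cc M, wn (gM (fun y => g y ^ 2 - 1) cc M) ≤ Q)
    {V0 : K → C3} {G : Fin 3 → E3 → ℝ} (hG : ∀ i, SP (G i)) (hdiv : ∀ k, ∑ j, (k j : ℂ) * fr (G j) k = 0)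
    (h0 : ∀ i, fr (G i) 0 = 0) {a : Wt} (ha : Sup a) {w : Fam} (hw : Sol c a (V0 + fun k i => fr (G i) k) w)
    {K1 : ℝ} (hK1 : 0 < K1) (hd : ∑' k, ‖(fun i => fr (G i) k : C3)‖ / nk k ≤ K1) {J : ℕ} (hJ : 1 ≤ J)
    {τ dl : ℝ} (hτ : 0 < τ) (hdl : 0 < dl) (R : ℝ) :
    ∃ (M : ℕ) (B : Fin 3 → E3 → ℝ), 1 ≤ M ∧ (∀ i, SP (B i)) ∧
      (∀ x, (∀ cc, g (M * x cc) = 0) → ∀ i, cu B i x = 0) ∧
      ∑' k, (if nk k ≤ R then ‖cF (fun i => fr (B i)) k‖ / nk k else 0) ≤ (15 * J : ℕ) * τ ∧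
      ∑' k, ‖cF (fun i => fr (B i)) k‖ / nk k ≤
        (15 * J : ℕ) * (4 * Real.sqrt (c / J) * Real.sqrt K1 * A + τ) ∧
      (∀ r : ℝ, 1 ≤ r → critNorm r (cF fun i => fr (B i)) ≤
        2 * (((15 * J : ℕ) : ℝ≥0∞) ^ (1 / r) *
          (2 * ENNReal.ofReal (4 * Real.sqrt (c / J) * Real.sqrt K1 * A + τ)) +
          (15 * J : ℕ) * (2 * ENNReal.ofReal τ))) ∧
      ∃ a' : Wt, Sup a' ∧ ∃ u : Fam, Sol c a' (V0 + cF fun i => fr (B i)) u ∧
        LNd dl (u - w) ≤ ENNReal.ofReal τ := by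
  classical
  have hpi := Real.pi_pos
  have hJ1 : (1 : ℝ) ≤ J := by exact_mod_cast hJ
  have hJ0 : (0 : ℝ) < J := by linarith
  have hA0 : 0 ≤ A := (wn_nonneg _).trans (hA 0 0)
  have hQ0 : 0 ≤ Q := (wn_nonneg _).trans (hQ 0 0)
  set β := Real.sqrt (c / J) with hβdef
  have hβ : 0 < β := Real.sqrt_pos.2 (by positivity)
  have hβ2 : β ^ 2 = c / J := Real.sq_sqrt (by positivity)
  set κ := Real.sqrt K1
  have hκ : 0 < κ := Real.sqrt_pos.2 hK1
  -- the amplitudes
  have hRap : ∀ i, Rap (fun k => -fr (G i) k) := fun i n => by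
    simpa using H459R3.NS.rap_fr (hG i) n
  obtain ⟨F, hF, hFw, hFs⟩ := amplitudes (b := fun i k => -fr (G i) k) hRap
    (fun i k => by simp only [fr_neg, star_neg])
    (fun k => by
      simp only [mul_neg, Finset.sum_neg_distrib, hdiv k, neg_zero])
    (fun i => by simp only [h0 i, neg_zero]) hK1 (by
      refine le_trans (le_of_eq (tsum_congr fun k => ?_)) hd
      have e : (fun i => -fr (G i) k : C3) = -(fun i => fr (G i) k : C3) := rfl
      rw [e, norm_neg])
  set C1 := 4 * β * κ * A with hC1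
  have hC10 : 0 ≤ C1 := by positivity
  set n := 15 * J with hn
  have hn0 : 0 < n := by omega
  have hn1 : (0 : ℝ) < n := by exact_mod_cast hn0
  set τ1 := τ / n
  have hτ1 : 0 < τ1 := by positivity
  have sc2 : 0 < Real.sqrt (2 * c) := Real.sqrt_pos.2 (by positivity)
  have hXfin : XN w ≠ ⊤ := by
    refine ne_top_of_le_ne_top hw.l2 (LN_mono fun t _ => ?_)
    have hone : ∀ k, om Wt.one k ≤ om a k := fun k => a.one_le k
    exact NW_mono (fun k => Wa_mono hone k) _
  set D1 := (XN w).toReal + n * (C1 / Real.sqrt (2 * c) + τ1) + C1 / Real.sqrt (2 * c) + 1 with hD1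
  have hXr : 0 ≤ (XN w).toReal := ENNReal.toReal_nonneg
  have hD0 : 0 < D1 := by positivity
  obtain ⟨δ0, hδ0, hmany⟩ := many hc hD0 hτ1 hdl
  -- the number of walls
  set T : Fin 3 → Fin 5 → ℝ := fun c a => ∑' l, pw l ^ 2 * ‖fr (fun x => F c a x * F c a x) l‖
  have hT0 : ∀ c a, 0 ≤ T c a := fun c a =>
    tsum_nonneg fun l => mul_nonneg (pow_pos (pw_pos l) 2).le (norm_nonneg _)
  set TT := ∑ c, ∑ a, T c a
  have hTT : ∀ c a, T c a ≤ TT := fun c a =>
    (Finset.single_le_sum (f := fun a => T c a) (fun a _ => hT0 c a) (Finset.mem_univ a)).trans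
      (Finset.single_le_sum (f := fun c => ∑ a, T c a)
        (fun c _ => Finset.sum_nonneg fun a _ => hT0 c a) (Finset.mem_univ c))
  have hTT0 : 0 ≤ TT := Finset.sum_nonneg fun c _ => Finset.sum_nonneg fun a _ => hT0 c a
  obtain ⟨M, hM⟩ := exists_nat_gt (max 1 (12 * Real.pi * Q * TT * β ^ 2 / δ0))
  have hM1 : (1 : ℝ) ≤ M := (le_max_left _ _).trans hM.le
  have hM1' : 1 ≤ M := by exact_mod_cast hM1
  have hM0 : (0 : ℝ) < M := by linarith
  have hM2 : 12 * Real.pi * Q * TT * β ^ 2 / M ≤ δ0 := by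
    have h1 : 12 * Real.pi * Q * TT * β ^ 2 / δ0 ≤ M := (le_max_right _ _).trans hM.le
    rw [div_le_iff₀ hδ0] at h1
    rw [div_le_iff₀ hM0]; linarith
  have hprof := fun c' a' => profile hc hβ.le hg hA hQ (hF c' a') (eP_le c' a') (eP_zero c' a') hM1'
  choose C2 hP2 hb4 hb5 using hprof
  have hC20 : ∀ c a, 0 ≤ C2 c a := fun c a => (hP2 c a).C2n
  set CC := ∑ c, ∑ a, C2 c a
  have hCC : ∀ c a, C2 c a ≤ CC := fun c a =>
    (Finset.single_le_sum (f := fun a => C2 c a) (fun a _ => hC20 c a) (Finset.mem_univ a)).trans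
      (Finset.single_le_sum (f := fun c => ∑ a, C2 c a)
        (fun c _ => Finset.sum_nonneg fun a _ => hC20 c a) (Finset.mem_univ c))
  have hCC0 : 0 ≤ CC := Finset.sum_nonneg fun c _ => Finset.sum_nonneg fun a _ => hC20 c a
  have hC1le : ∀ c' a', 2 * β * (wn (F c' a') * A) ≤ C1 := by
    intro c' a'
    calc 2 * β * (wn (F c' a') * A) ≤ 2 * β * (2 * κ * A) := by
          have := hFw c' a'
          gcongr
      _ = C1 := by rw [hC1]; ring
  obtain ⟨N0, hN0'⟩ := exists_nat_gt (max (CC / τ) (2 * R))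
  have hN0 : CC / τ < N0 := (le_max_left _ _).trans_lt hN0'
  have hN0R : 2 * R < N0 := (le_max_right _ _).trans_lt hN0'
  -- all the waves
  set W : ℕ → ℕ → K → C3 := fun i => Wv β (fr fun x => F (cI i) (aI i) x * gM g (cI i) M x)
    (eP (cI i) (aI i)) (cI i)
  set h : ℕ → K → C3 := fun i => hv c β (fr fun x => F (cI i) (aI i) x * F (cI i) (aI i) x) (eP (cI i) (aI i))
  have hPrf : ∀ i < n, Prf c C1 CC δ0 (h i) (W i) := by
    intro i _
    refine (hP2 (cI i) (aI i)).mono (hC1le _ _) (hCC _ _) ?_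
    refine le_trans ?_ hM2
    have : T (cI i) (aI i) ≤ TT := hTT _ _
    calc 12 * Real.pi / M * Q * T (cI i) (aI i) * β ^ 2 ≤ 12 * Real.pi / M * Q * TT * β ^ 2 := by gcongr
      _ = _ := by ring
  obtain ⟨N, n1, n2, a', ha', u, hu, huL⟩ := hmany a _ w ha hw C1 CC δ0 n (N0 + 1) h W hPrf hC10
    (by rw [hD1]; have : 0 ≤ n * (C1 / Real.sqrt (2 * c) + τ1) := by positivity
        linarith) le_rfl (by
      rw [← ENNReal.ofReal_toReal hXfin, ← ENNReal.ofReal_add hXr (by positivity)]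
      apply ENNReal.ofReal_le_ofReal
      rw [hD1]
      have : 0 ≤ C1 / Real.sqrt (2 * c) := by positivity
      linarith)
  have hNpos : ∀ i < n, 1 ≤ N i := fun i hi => by have := n1 i hi; omega
  have hNτ : ∀ i < n, CC / N i ≤ τ := by
    intro i hi
    have h1 : (N0 : ℝ) ≤ N i := by exact_mod_cast (by have := n1 i hi; omega : N0 ≤ N i)
    have h2 : (0 : ℝ) < N i := by exact_mod_cast hNpos i hi
    rw [div_le_iff₀ h2]
    rw [div_lt_iff₀ hτ] at hN0
    nlinarith
  set B1 : ℕ → Fin 3 → E3 → ℝ := fun i => wave β (fun x => F (cI i) (aI i) x * gM g (cI i) M x)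
    (eP (cI i) (aI i)) (cI i) (N i)
  have hamp : ∀ i, SP fun x => F (cI i) (aI i) x * gM g (cI i) M x := fun i =>
    (hF _ _).mul (gM_SP hg.smooth hg.per _ _)
  have hB1 : ∀ i j, SP (B1 i j) := fun i j => wave_SP (hamp i) _ _ _ j
  have hB1W : ∀ i, cF (fun j => fr (B1 i j)) = W i (N i) := fun i => cF_wave (hamp i) (eP_zero _ _) _
  set B : Fin 3 → E3 → ℝ := fun j x => ∑ i ∈ Finset.range n, B1 i j x
  have hcFB : cF (fun j => fr (B j)) = ∑ i ∈ Finset.range n, W i (N i) := by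
    rw [show (fun j => fr (B j)) = fun j => fr (fun x => ∑ i ∈ Finset.range n, B1 i j x) from rfl,
      cF_sum _ B1 fun i _ j => hB1 i j]
    exact Finset.sum_congr rfl fun i _ => hB1W i
  have hWsn : ∀ i < n, SN (W i (N i)) := fun i hi => ((hPrf i hi).Wr (N i)).summ
  have hW4 : ∀ i < n, ∑' k, ‖W i (N i) k‖ / nk k ≤ C1 + τ := by
    intro i hi
    refine (hb4 (cI i) (aI i) (N i) (hNpos i hi)).trans (add_le_add (hC1le _ _) ?_)
    refine le_trans ?_ (hNτ i hi)
    exact div_le_div_of_nonneg_right (hCC _ _) (Nat.cast_nonneg _)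
  have hW5 : ∀ i < n, ∑' k, (if nk k < (N i : ℝ) / 2 ∨ 2 * (N i : ℝ) ≤ nk k then
      ‖W i (N i) k‖ / nk k else 0) ≤ τ := by
    intro i hi
    refine (hb5 (cI i) (aI i) (N i) (hNpos i hi)).trans ?_
    refine le_trans ?_ (hNτ i hi)
    exact div_le_div_of_nonneg_right (hCC _ _) (Nat.cast_nonneg _)
  have hsumh : ∑ i ∈ Finset.range n, h i = -fun k i => fr (G i) k := by
    have e1 := sum_index (fun c' a' => hv c β (fr fun x => F c' a' x * F c' a' x) (eP c' a')) J
    rw [show (∑ i ∈ Finset.range n, h i) = _ from e1]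
    funext k
    have e2 : (J • ∑ c', ∑ a', hv c β (fr fun x => F c' a' x * F c' a' x) (eP c' a')) k =
        (J : ℝ) • (-(β ^ 2 / c)) • ∑ c', ∑ a', fr (fun x => F c' a' x * F c' a' x) k •
          bt k (ec (eP c' a')) (ec (eP c' a')) := by
      rw [Pi.smul_apply, Finset.sum_apply, ← Nat.cast_smul_eq_nsmul ℝ]
      congr 1
      rw [Finset.smul_sum]
      refine Finset.sum_congr rfl fun c' _ => ?_
      rw [Finset.sum_apply, Finset.smul_sum]
      rfl
    rw [e2, hFs k, smul_smul]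
    have e3 : (J : ℝ) * -(β ^ 2 / c) = -1 := by
      rw [hβ2]; field_simp
    rw [e3]
    funext i
    simp
  have hdata : (V0 + fun k i => fr (G i) k) + ∑ i ∈ Finset.range n, (h i + W i (N i)) =
      V0 + cF (fun i => fr (B i)) := by
    rw [Finset.sum_add_distrib, hsumh, hcFB]
    abel
  rw [hdata] at hu
  refine ⟨M, B, hM1', fun j => SP.sum fun i _ => hB1 i j, ?_, ?_, ?_, ?_, a', ha', u, hu, ?_⟩
  · intro x hx i
    refine cu_sum_zero _ B1 (fun n _ i => hB1 n i) (fun m _ j i => ?_) i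
    have hz := cut_zero hg (hF (cI m) (aI m)) (cI m) M (hx (cI m))
    exact pd_wave_zero (hamp m) _ _ _ hz.1 hz.2 j i
  · rw [hcFB]
    refine low_sum n (fun i => W i (N i)) hWsn N (fun i hi => ?_) hW5
    have h1 : (N0 : ℝ) ≤ N i := by exact_mod_cast (by have := n1 i hi; omega : N0 ≤ N i)
    linarith
  · rw [hcFB]
    exact leilin_sum n (fun i => W i (N i)) hWsn hW4
  · intro r hr
    rw [hcFB]
    refine crit_bound hr (fun i => W i (N i)) (fun i => {j | (N i : ℝ) / 4 < 2 ^ j ∧ (2 : ℝ) ^ j < 2 * N i})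
      ?_ ?_ ?_
    · intro i hi
      have h1 := shells_le (W i (N i)) (fun _ => True) ∅ (fun _ _ _ _ => trivial)
      simp only [Set.mem_empty_iff_false, if_false, if_true] at h1
      refine h1.trans (mul_le_mul' le_rfl ?_)
      rw [← ENNReal.ofReal_tsum_of_nonneg (fun k => div_nonneg (norm_nonneg _) (nk_nonneg k))
        (summ_div_nk (hWsn i hi))]
      exact ENNReal.ofReal_le_ofReal (hW4 i hi)
    · intro i hi
      have h1 := shells_le (W i (N i)) (fun k => nk k < (N i : ℝ) / 2 ∨ 2 * (N i : ℝ) ≤ nk k)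
        {j | (N i : ℝ) / 4 < 2 ^ j ∧ (2 : ℝ) ^ j < 2 * N i} (fun j hj k hk => by
          have a1 := shell_le hk
          have a2 := shell_lt hk
          rw [mem_ofPred_eq, not_and_or, not_lt, not_lt] at hj
          rcases hj with hj | hj
          · left
            rw [pow_succ] at a2
            linarith
          · right; linarith)
      refine h1.trans (mul_le_mul' le_rfl ?_)
      have h2 : ∀ k, (if nk k < (N i : ℝ) / 2 ∨ 2 * (N i : ℝ) ≤ nk k then
          ENNReal.ofReal (‖W i (N i) k‖ / nk k) else 0) =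
          ENNReal.ofReal (if nk k < (N i : ℝ) / 2 ∨ 2 * (N i : ℝ) ≤ nk k then ‖W i (N i) k‖ / nk k else 0) := by
        intro k
        split_ifs <;> simp
      simp_rw [h2]
      rw [← ENNReal.ofReal_tsum_of_nonneg]
      · exact ENNReal.ofReal_le_ofReal (hW5 i hi)
      · intro k
        split_ifs
        · exact div_nonneg (norm_nonneg _) (nk_nonneg k)
        · exact le_rfl
      · refine (summ_div_nk (hWsn i hi)).of_nonneg_of_le (fun k => ?_) fun k => ?_
        · split_ifs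
          · exact div_nonneg (norm_nonneg _) (nk_nonneg k)
          · exact le_rfl
        · split_ifs
          · exact le_rfl
          · exact div_nonneg (norm_nonneg _) (nk_nonneg k)
    · have key : ∀ i i' j, i < i' → i' < n → (2 : ℝ) ^ j < 2 * N i → (N i' : ℝ) / 4 < 2 ^ j → False := by
        intro i i' j hii hi' h1 h2
        have h3 : (16 : ℝ) * N i ≤ N i' := by exact_mod_cast n2 i i' hii hi'
        have h4 : (1 : ℝ) ≤ N i := by exact_mod_cast hNpos i (by omega)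
        linarith
      intro i i' j hi hi' hj hj'
      rw [mem_ofPred_eq] at hj hj'
      rcases lt_trichotomy i i' with hlt | heq | hgt
      · exact absurd (key i i' j hlt hi' hj.2 hj'.1) id
      · exact heq
      · exact absurd (key i' i j hgt hi hj'.2 hj.1) id
  · refine huL.trans (ENNReal.ofReal_le_ofReal (le_of_eq ?_))
    simp only [τ1]
    field_simp

end Pool.Agent.K1H11.NS
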