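import Pool.Agent.K1H11.NS2.Crit

/-!
# The amplitudes
-/

open MeasureTheory Set Filter Topology
open scoped ENNReal NNReal ContDiff

namespace Pool.Agent.K1H11.NS

open H459R3.NS (ee fc fr cube S SP Per pd D Rap)

lemma fr_finsum {ι : Type*} (s : Finset ι) (F : ι → E3 → ℝ) (hF : ∀ i ∈ s, SP (F i)) (k : K) :
    fr (fun x => ∑ i ∈ s, F i x) k = ∑ i ∈ s, fr (F i) k := by
  unfold fr fc
  rw [← integral_finset_sum]
  · congr 1
    funext x
    push_cast
    rw [Finset.mul_sum]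
  · intro i hi
    exact H459R3.NS.integrableOn_cube ((H459R3.NS.ee_continuous _).mul
      (Complex.continuous_ofReal.comp (hF i hi).smooth.continuous))

lemma GP_SP (κ : ℝ) {s : Fin 3 → Fin 3 → E3 → ℝ} {X : Fin 3 → E3 → ℝ} (hs : ∀ i j, SP (s i j))
    (hX : ∀ i, SP (X i)) (c : Fin 3) (a : Fin 5) : SP (GP κ s X c a) := by
  have h1 : ∀ f : E3 → ℝ, SP f → SP fun x => κ * (1 + f x) := fun f hf => SP.cmul ((SP.const 1).add hf) κ
  have h2 : ∀ f : E3 → ℝ, SP f → SP fun x => κ * (1 + (-1) * f x) := fun f hf => h1 _ (SP.cmul hf (-1))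
  unfold GP
  split_ifs
  · exact h1 _ (hs _ _)
  · exact h2 _ (hs _ _)
  · exact h1 _ (hX _)
  · exact h2 _ (hX _)
  · exact h2 _ (hX _)

lemma GP_wn {κ : ℝ} (hκ : 0 ≤ κ) {s : Fin 3 → Fin 3 → E3 → ℝ} {X : Fin 3 → E3 → ℝ} (hs : ∀ i j, SP (s i j))
    (hX : ∀ i, SP (X i)) (hs1 : ∀ i j, wn (s i j) ≤ 1) (hX1 : ∀ i, wn (X i) ≤ 1) (c : Fin 3) (a : Fin 5) :
    wn (GP κ s X c a) ≤ 2 * κ := by
  have h1 : ∀ f : E3 → ℝ, SP f → wn f ≤ 1 → wn (fun x => κ * (1 + f x)) ≤ 2 * κ := by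
    intro f hf hf1
    rw [wn_cmul, abs_of_nonneg hκ]
    have := wn_add (SP.const 1) hf
    rw [wn_const, abs_one] at this
    nlinarith
  have h2 : ∀ f : E3 → ℝ, SP f → wn f ≤ 1 → wn (fun x => κ * (1 + (-1) * f x)) ≤ 2 * κ := by
    intro f hf hf1
    refine h1 _ (SP.cmul hf (-1)) ?_
    rw [wn_cmul]; simpa using hf1
  have e : GP κ s X c a = fun x => GP κ s X c a x := rfl
  rw [e]
  unfold GP
  by_cases a0 : a = 0
  · simp only [if_pos a0]; exact h1 _ (hs _ _) (hs1 _ _)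
  by_cases a1 : a = 1
  · simp only [if_neg a0, if_pos a1]; exact h2 _ (hs _ _) (hs1 _ _)
  by_cases a2 : a = 2
  · simp only [if_neg a0, if_neg a1, if_pos a2]; exact h1 _ (hX _) (hX1 _)
  by_cases a3 : a = 3
  · simp only [if_neg a0, if_neg a1, if_neg a2, if_pos a3]; exact h2 _ (hX _) (hX1 _)
  · simp only [if_neg a0, if_neg a1, if_neg a2, if_neg a3]; exact h2 _ (hX _) (hX1 _)

/-- The amplitudes of the waves which change the velocity by `b`. -/
theorem amplitudes {b : Fin 3 → K → ℂ} (hb : ∀ i, Rap (b i)) (hr : ∀ i k, b i (-k) = star (b i k))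
    (hdiv : ∀ k, ∑ j, (k j : ℂ) * b j k = 0) (h0 : ∀ i, b i 0 = 0) {K1 : ℝ} (hK1 : 0 < K1)
    (hd : ∑' k, ‖(fun i => b i k : C3)‖ / nk k ≤ K1) :
    ∃ F : Fin 3 → Fin 5 → E3 → ℝ, (∀ c a, SP (F c a)) ∧ (∀ c a, wn (F c a) ≤ 2 * Real.sqrt K1) ∧
      ∀ k, ∑ c, ∑ a, fr (fun x => F c a x * F c a x) k • bt k (ec (eP c a)) (ec (eP c a)) =
        -(fun i => b i k : C3) := by
  have hex : ∀ i j, ∃ B : E3 → ℝ, SP B ∧ (∀ x, (B x : ℂ) = S (rc b i j) x) ∧ fr B = rc b i j := fun i j =>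
    exists_SP (rap_rc hb i j) (rc_sym hr i j)
  choose R hR hRS hRf using hex
  have hRc : ∀ i j, R i j = R j i := by
    intro i j
    funext x
    have : (R i j x : ℂ) = (R j i x : ℂ) := by rw [hRS, hRS, rc_comm]
    exact_mod_cast this
  set κ := Real.sqrt K1 with hκ
  have hκ0 : 0 < κ := Real.sqrt_pos.2 hK1
  have hκ2 : κ ^ 2 = K1 := Real.sq_sqrt hK1.le
  have hBs : Summable fun k => ‖(fun i => b i k : C3)‖ / nk k := by
    have hs : Summable fun k => ∑ i, ‖b i k‖ := summable_sum fun i _ => (hb i).summable.norm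
    refine hs.of_nonneg_of_le (fun k => div_nonneg (norm_nonneg _) (nk_nonneg k)) fun k => ?_
    have h1 : 0 ≤ ∑ i, ‖b i k‖ := Finset.sum_nonneg fun _ _ => norm_nonneg _
    have h2 : ‖(fun i => b i k : C3)‖ ≤ ∑ i, ‖b i k‖ := by
      rw [pi_norm_le_iff_of_nonneg h1]
      intro i
      exact Finset.single_le_sum (f := fun i => ‖b i k‖) (fun _ _ => norm_nonneg _) (Finset.mem_univ i)
    by_cases hk : k = 0
    · subst hk; rw [nk_zero, div_zero]; exact h1
    · exact (div_le_self (norm_nonneg _) (one_le_nk hk)).trans h2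
  have hRw : ∀ i j, wn (R i j) ≤ κ ^ 2 := by
    intro i j
    rw [hκ2]
    refine le_trans ?_ hd
    unfold wn
    rw [hRf]
    exact Summable.tsum_le_tsum (norm_rc_le b i j) (rap_rc hb i j).summable.norm hBs
  set s : Fin 3 → Fin 3 → E3 → ℝ := fun i j x => (1 / (4 * κ ^ 2)) * R i j x with hsdef
  have hs : ∀ i j, SP (s i j) := fun i j => SP.cmul (hR i j) _
  have hsw : ∀ i j, wn (s i j) ≤ 1 / 4 := by
    intro i j
    simp only [s]
    rw [wn_cmul, abs_of_pos (by positivity)]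
    calc 1 / (4 * κ ^ 2) * wn (R i j) ≤ 1 / (4 * κ ^ 2) * κ ^ 2 := by
          gcongr; exact hRw i j
      _ = _ := by field_simp
  set X : Fin 3 → E3 → ℝ := fun i x => s i i x +
    (-(1 / 2)) * (s i (i + 1) x * s i (i + 1) x + s i (i + 2) x * s i (i + 2) x) with hXdef
  have hsq : ∀ i, SP fun x => s i (i + 1) x * s i (i + 1) x + s i (i + 2) x * s i (i + 2) x := fun i =>
    ((hs _ _).mul (hs _ _)).add ((hs _ _).mul (hs _ _))
  have hX : ∀ i, SP (X i) := fun i => (hs i i).add (SP.cmul (hsq i) _)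
  have hXw : ∀ i, wn (X i) ≤ 1 := by
    intro i
    have h1 := wn_add (hs i i) (SP.cmul (hsq i) (-(1 / 2)))
    refine h1.trans ?_
    have h2 : wn (fun x => s i (i + 1) x * s i (i + 1) x + s i (i + 2) x * s i (i + 2) x) ≤ 1 / 8 := by
      refine (wn_add ((hs _ _).mul (hs _ _)) ((hs _ _).mul (hs _ _))).trans ?_
      have h3 : ∀ j, wn (fun x => s i j x * s i j x) ≤ 1 / 16 := by
        intro j
        refine (wn_mul (hs i j) (hs i j)).trans ?_
        have := hsw i j
        have := wn_nonneg (s i j)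
        nlinarith
      have := h3 (i + 1)
      have := h3 (i + 2)
      linarith
    have h4 : |(-(1 / 2) : ℝ)| = 1 / 2 := by rw [abs_neg, abs_of_pos (by norm_num)]
    have h5 : wn (fun x => -(1 / 2) * (s i (i + 1) x * s i (i + 1) x + s i (i + 2) x * s i (i + 2) x)) =
        1 / 2 * wn (fun x => s i (i + 1) x * s i (i + 1) x + s i (i + 2) x * s i (i + 2) x) := by
      rw [wn_cmul (f := fun x => s i (i + 1) x * s i (i + 1) x + s i (i + 2) x * s i (i + 2) x), h4]
    rw [h5]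
    have := hsw i i
    linarith
  refine ⟨GP κ s X, GP_SP κ hs hX, GP_wn hκ0.le hs hX (fun i j => (hsw i j).trans (by norm_num)) hXw, ?_⟩
  intro k
  set lam : E3 → ℝ := fun x => κ ^ 2 * (4 + ∑ i, (1 - X i x) ^ 2) with hlam
  have hlamSP : SP lam := by
    have h1 : ∀ i, SP fun x => (1 - X i x) ^ 2 := by
      intro i
      have : (fun x => (1 - X i x) ^ 2) = fun x => (1 - X i x) * (1 - X i x) := by
        funext x; ring
      rw [this]
      exact (SP.sub (SP.const 1) (hX i)).mul (SP.sub (SP.const 1) (hX i))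
    exact SP.cmul ((SP.const 4).add (SP.sum fun i _ => h1 i)) _
  have hid := dec_id κ s X R (fun i j => by simp only [s, hRc i j]) (fun i j x _ => by
      simp only [s]; field_simp) (fun i x => by
      simp only [X, s]
      field_simp
      ring)
  have hGP := GP_SP κ hs hX
  have hfr : ∀ j m, ∑ c, ∑ a, ((eP c a j * eP c a m : ℝ) : ℂ) *
      fr (fun x => GP κ s X c a x * GP κ s X c a x) k = rc b j m k + (if j = m then fr lam k else 0) := by
    intro j m
    have e1 : fr (fun x => ∑ c, ∑ a, (eP c a j * eP c a m) * (GP κ s X c a x * GP κ s X c a x)) k =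
        ∑ c, ∑ a, ((eP c a j * eP c a m : ℝ) : ℂ) * fr (fun x => GP κ s X c a x * GP κ s X c a x) k := by
      rw [fr_finsum Finset.univ (fun c x => ∑ a, (eP c a j * eP c a m) * (GP κ s X c a x * GP κ s X c a x))
        (fun c _ => SP.sum fun a _ => SP.cmul ((hGP c a).mul (hGP c a)) _)]
      refine Finset.sum_congr rfl fun c _ => ?_
      rw [fr_finsum Finset.univ (fun a x => (eP c a j * eP c a m) * (GP κ s X c a x * GP κ s X c a x))
        (fun a _ => SP.cmul ((hGP c a).mul (hGP c a)) _)]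
      refine Finset.sum_congr rfl fun a _ => ?_
      rw [fr_cmul]
    rw [← e1]
    have e2 : (fun x => ∑ c, ∑ a, (eP c a j * eP c a m) * (GP κ s X c a x * GP κ s X c a x)) =
        fun x => R j m x + (if j = m then lam x else 0) := funext fun x => hid j m x
    rw [e2]
    by_cases hjm : j = m
    · simp only [if_pos hjm]
      rw [fr_add (hR j m) hlamSP, hRf]
    · simp only [if_neg hjm, add_zero]
      rw [hRf]
  funext i
  by_cases hk : k = 0
  · subst hk
    simp [h0, bt_freq_zero]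
  have e3 : (∑ c, ∑ a, fr (fun x => GP κ s X c a x * GP κ s X c a x) k • bt k (ec (eP c a)) (ec (eP c a))) i =
      ∑ j, ∑ m, coef k i j m * ∑ c, ∑ a, ((eP c a j * eP c a m : ℝ) : ℂ) *
        fr (fun x => GP κ s X c a x * GP κ s X c a x) k := by
    simp only [Finset.sum_apply, Pi.smul_apply, smul_eq_mul, bt, ec, Finset.mul_sum]
    have hT : ∀ T : Fin 3 → Fin 5 → Fin 3 → Fin 3 → ℂ, ∑ c, ∑ a, ∑ j, ∑ m, T c a j m =
        ∑ j, ∑ m, ∑ c, ∑ a, T c a j m := by
      intro T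
      calc ∑ c, ∑ a, ∑ j, ∑ m, T c a j m = ∑ c, ∑ j, ∑ a, ∑ m, T c a j m :=
            Finset.sum_congr rfl fun c _ => Finset.sum_comm
        _ = ∑ j, ∑ c, ∑ a, ∑ m, T c a j m := Finset.sum_comm
        _ = ∑ j, ∑ c, ∑ m, ∑ a, T c a j m :=
            Finset.sum_congr rfl fun j _ => Finset.sum_congr rfl fun c _ => Finset.sum_comm
        _ = _ := Finset.sum_congr rfl fun j _ => Finset.sum_comm
    have : ∀ c : Fin 3, ∀ a : Fin 5, ∑ j, ∑ m, fr (fun x => GP κ s X c a x * GP κ s X c a x) k *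
        (coef k i j m * ((eP c a j : ℂ) * (eP c a m : ℂ))) =
        ∑ j, ∑ m, coef k i j m * (((eP c a j * eP c a m : ℝ) : ℂ) *
          fr (fun x => GP κ s X c a x * GP κ s X c a x) k) := fun c a =>
      Finset.sum_congr rfl fun j _ => Finset.sum_congr rfl fun m _ => by push_cast; ring
    simp_rw [this]
    exact hT _
  rw [e3]
  simp_rw [hfr, mul_add, Finset.sum_add_distrib]
  rw [coef_rc hk (hdiv k) i]
  have e4 : ∑ j, ∑ m, coef k i j m * (if j = m then fr lam k else 0) = (∑ j, coef k i j j) * fr lam k := by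
    rw [Finset.sum_mul]
    refine Finset.sum_congr rfl fun j _ => ?_
    simp
  rw [e4, coef_id hk, zero_mul, add_zero]
  rfl

end Pool.Agent.K1H11.NS
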