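import Pool.Agent.K1H11.NS2.Cut

/-!
# The fast wave as a smooth periodic field
-/

open MeasureTheory Set Filter Topology
open scoped ENNReal NNReal ContDiff

namespace Pool.Agent.K1H11.NS

open H459R3.NS (ee fc fr cube S SP Per pd D Rap)

/-- `e × n` -/
noncomputable def bvec (e : Fin 3 → ℝ) (cc i : Fin 3) : ℝ :=
  e (i + 1) * (if i + 2 = cc then 1 else 0) - e (i + 2) * (if i + 1 = cc then 1 else 0)

/-- the oscillation -/
noncomputable def sn (cc : Fin 3) (N : ℕ) (x : E3) : ℝ := Real.sin (2 * Real.pi * N * x cc)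

/-- the potential of the wave -/
noncomputable def wave (β : ℝ) (f : E3 → ℝ) (e : Fin 3 → ℝ) (cc : Fin 3) (N : ℕ) : Fin 3 → E3 → ℝ :=
  fun i x => (β / Real.pi * bvec e cc i) * (f x * sn cc N x)

lemma sn_SP (cc : Fin 3) (N : ℕ) : SP (sn cc N) where
  smooth := by
    unfold sn
    exact Real.contDiff_sin.comp (contDiff_const.mul (contDiff_apply ℝ ℝ cc))
  per := fun i x => by
    unfold sn
    by_cases hi : cc = i
    · subst hi
      simp only [Pi.add_apply, Pi.single_eq_same]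
      rw [show 2 * Real.pi * N * (x cc + 1) = 2 * Real.pi * N * x cc + N * (2 * Real.pi) by ring,
        Real.sin_add_nat_mul_two_pi]
    · simp [Pi.single_eq_of_ne hi]

lemma wave_SP {β : ℝ} {f : E3 → ℝ} (hf : SP f) (e : Fin 3 → ℝ) (cc : Fin 3) (N : ℕ) (i : Fin 3) :
    SP (wave β f e cc N i) := SP.cmul (hf.mul (sn_SP cc N)) _

lemma sn_eq (cc : Fin 3) (N : ℕ) (x : E3) :
    (sn cc N x : ℂ) = (ee (nn cc N) x - ee (nn cc (-N)) x) / (2 * Complex.I) := by
  unfold sn nn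
  rw [ee_single', ee_single', Complex.ofReal_sin, Complex.sin]
  have e1 : (2 * Real.pi * Complex.I * (((N : ℤ) * x cc : ℝ) : ℂ)) =
      ((2 * Real.pi * N * x cc : ℝ) : ℂ) * Complex.I := by push_cast; ring
  have e2 : (2 * Real.pi * Complex.I * (((-(N : ℤ) : ℤ) * x cc : ℝ) : ℂ)) =
      -((2 * Real.pi * N * x cc : ℝ) : ℂ) * Complex.I := by push_cast; ring
  rw [e1, e2]
  have hI : Complex.I ≠ 0 := Complex.I_ne_zero
  field_simp
  rw [Complex.I_sq]
  ring

lemma fr_sn {f : E3 → ℝ} (hf : SP f) (cc : Fin 3) (N : ℕ) (k : K) :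
    fr (fun x => f x * sn cc N x) k = (fr f (k - nn cc N) - fr f (k + nn cc N)) / (2 * Complex.I) := by
  have e1 : ∀ x, ee (-k) x * ((f x * sn cc N x : ℝ) : ℂ) =
      (ee (-(k - nn cc N)) x * (f x : ℂ) - ee (-(k + nn cc N)) x * (f x : ℂ)) / (2 * Complex.I) := by
    intro x
    push_cast
    rw [sn_eq]
    have a1 : ee (-(k - nn cc N)) x = ee (-k) x * ee (nn cc N) x := by
      rw [← H459R3.NS.ee_add_left]; congr 1; abel
    have a2 : ee (-(k + nn cc N)) x = ee (-k) x * ee (nn cc (-N)) x := by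
      rw [← H459R3.NS.ee_add_left, nn_neg]; congr 1; abel
    rw [a1, a2]; ring
  have hi : ∀ l : K, IntegrableOn (fun x : E3 => ee l x * (f x : ℂ)) cube := fun l =>
    H459R3.NS.integrableOn_cube ((H459R3.NS.ee_continuous l).mul
      (Complex.continuous_ofReal.comp hf.smooth.continuous))
  show ∫ x in cube, ee (-k) x * ((f x * sn cc N x : ℝ) : ℂ) = _
  simp_rw [e1]
  rw [integral_div, integral_sub (hi _) (hi _)]
  rfl

lemma fr_wave {β : ℝ} {f : E3 → ℝ} (hf : SP f) (e : Fin 3 → ℝ) (cc : Fin 3) (N : ℕ) (i : Fin 3) (k : K) :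
    fr (wave β f e cc N i) k =
      ((β / Real.pi * bvec e cc i : ℝ) : ℂ) * ((fr f (k - nn cc N) - fr f (k + nn cc N)) / (2 * Complex.I)) := by
  unfold wave
  rw [fr_cmul, fr_sn hf]

lemma cross_id {e : Fin 3 → ℝ} {cc : Fin 3} (hcc : e cc = 0) (k : K) (i : Fin 3) :
    (k (i + 1) : ℂ) * (bvec e cc (i + 2) : ℂ) - (k (i + 2) : ℂ) * (bvec e cc (i + 1) : ℂ) =
      (k cc : ℂ) * (e i : ℂ) - (if i = cc then ∑ j, (k j : ℂ) * (e j : ℂ) else 0) := by
  have t1 : (0 : Fin 3) + 1 = 1 := rfl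
  have t2 : (0 : Fin 3) + 2 = 2 := rfl
  have t3 : (1 : Fin 3) + 1 = 2 := rfl
  have t4 : (1 : Fin 3) + 2 = 0 := rfl
  have t5 : (2 : Fin 3) + 1 = 0 := rfl
  have t6 : (2 : Fin 3) + 2 = 1 := rfl
  unfold bvec
  rw [Fin.sum_univ_three]
  fin_cases cc <;> fin_cases i <;>
    simp only [Fin.zero_eta, Fin.mk_one, Fin.reduceFinMk, Fin.isValue] at hcc ⊢ <;>
    simp [t1, t2, t3, t4, t5, t6, hcc] <;> ring

lemma cF_wave {β : ℝ} {f : E3 → ℝ} (hf : SP f) {e : Fin 3 → ℝ} {cc : Fin 3} (hcc : e cc = 0) (N : ℕ) :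
    cF (fun i => fr (wave β f e cc N i)) = Wv β (fr f) e cc N := by
  funext k i
  have hpi : (Real.pi : ℂ) ≠ 0 := by exact_mod_cast Real.pi_ne_zero
  have hI : Complex.I ≠ 0 := Complex.I_ne_zero
  have hcr := cross_id hcc k i
  have e1 : cF (fun i => fr (wave β f e cc N i)) k i =
      (β : ℂ) * (fr f (k - nn cc N) - fr f (k + nn cc N)) *
        ((k (i + 1) : ℂ) * (bvec e cc (i + 2) : ℂ) - (k (i + 2) : ℂ) * (bvec e cc (i + 1) : ℂ)) := by
    show 2 * Real.pi * Complex.I * (k (i + 1) : ℂ) * fr (wave β f e cc N (i + 2)) k -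
      2 * Real.pi * Complex.I * (k (i + 2) : ℂ) * fr (wave β f e cc N (i + 1)) k = _
    rw [fr_wave hf, fr_wave hf]
    push_cast
    field_simp
  rw [e1, hcr]
  have e2 : ∀ j, (((k - nn cc N) j : ℤ) : ℂ) = (k j : ℂ) - (if j = cc then (N : ℂ) else 0) := by
    intro j
    by_cases hj : j = cc
    · subst hj; simp [nn]
    · simp [nn, hj]
  have e3 : ∀ j, (((k + nn cc N) j : ℤ) : ℂ) = (k j : ℂ) + (if j = cc then (N : ℂ) else 0) := by
    intro j
    by_cases hj : j = cc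
    · subst hj; simp [nn]
    · simp [nn, hj]
  have e4 : ∑ j, (((k - nn cc N) j : ℤ) : ℂ) * (e j : ℂ) = ∑ j, (k j : ℂ) * (e j : ℂ) := by
    refine Finset.sum_congr rfl fun j _ => ?_
    rw [e2]
    by_cases hj : j = cc
    · subst hj; simp [hcc]
    · simp [hj]
  have e5 : ∑ j, (((k + nn cc N) j : ℤ) : ℂ) * (e j : ℂ) = ∑ j, (k j : ℂ) * (e j : ℂ) := by
    refine Finset.sum_congr rfl fun j _ => ?_
    rw [e3]
    by_cases hj : j = cc
    · subst hj; simp [hcc]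
    · simp [hj]
  have e6 : Wv β (fr f) e cc N k i = (N : ℂ) * (β * (Ev (fr f) e (k - nn cc N) i + Ev (fr f) e (k + nn cc N) i))
      + β * (Lv (fr f) e cc (k - nn cc N) i - Lv (fr f) e cc (k + nn cc N) i) := by
    have e7 : k - nn cc (-(N : ℤ)) = k + nn cc N := by rw [nn_neg]; abel
    unfold Wv Shv
    simp only [Pi.add_apply, Pi.smul_apply, Pi.sub_apply, Complex.real_smul, Complex.ofReal_natCast, e7]
  rw [e6]
  unfold Ev Lv
  rw [e4, e5, e2, e3]
  simp only [if_true]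
  ring

lemma pd_wave_zero {β : ℝ} {f : E3 → ℝ} (hf : SP f) (e : Fin 3 → ℝ) (cc : Fin 3) (N : ℕ) {x : E3}
    (h0 : f x = 0) (h1 : fderiv ℝ f x = 0) (j i : Fin 3) : pd j (wave β f e cc N i) x = 0 := by
  unfold pd wave
  have d1 : DifferentiableAt ℝ f x := hf.smooth.differentiable (by simp) x
  have d2 : DifferentiableAt ℝ (sn cc N) x := (sn_SP cc N).smooth.differentiable (by simp) x
  rw [fderiv_const_mul (d1.fun_mul d2), fderiv_fun_mul d1 d2, h0, h1]
  simp

lemma cu_wave_zero {β : ℝ} {f : E3 → ℝ} (hf : SP f) (e : Fin 3 → ℝ) (cc : Fin 3) (N : ℕ) {x : E3}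
    (h0 : f x = 0) (h1 : fderiv ℝ f x = 0) (i : Fin 3) : cu (wave β f e cc N) i x = 0 := by
  unfold cu
  rw [pd_wave_zero hf e cc N h0 h1, pd_wave_zero hf e cc N h0 h1, sub_zero]

/-- The amplitude with cut-off vanishes to first order away from the walls. -/
lemma cut_zero {η : ℝ} {g : ℝ → ℝ} (hg : Cut η g) {G : E3 → ℝ} (hG : SP G) (cc : Fin 3) (M : ℕ) {x : E3}
    (hx : g (M * x cc) = 0) :
    (G x * gM g cc M x = 0) ∧ fderiv ℝ (fun x => G x * gM g cc M x) x = 0 := by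
  have d1 : DifferentiableAt ℝ G x := hG.smooth.differentiable (by simp) x
  have d2 : DifferentiableAt ℝ (gM g cc M) x := (gM_SP hg.smooth hg.per cc M).smooth.differentiable (by simp) x
  have h0 : gM g cc M x = 0 := hx
  have h1 : fderiv ℝ (gM g cc M) x = 0 := by
    apply IsLocalMin.fderiv_eq_zero
    exact Eventually.of_forall fun z => by rw [h0]; exact hg.nonneg _
  refine ⟨by rw [h0, mul_zero], ?_⟩
  rw [fderiv_fun_mul d1 d2, h0, h1]
  simp

end Pool.Agent.K1H11.NS
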